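import Pool.Agent.APK.VarB

/-!
# APK/AlvP : survival probabilities   (difficulty 3)
-/

set_option autoImplicit false
open Finset
open scoped Classical

namespace Pool.Agent.APK
noncomputable section

variable {I X : Type} [Fintype I] [DecidableEq I] [Fintype X] [DecidableEq X]

/-- the probability that no selected index has the property `R` -/
theorem alvp_none (p : I → ℝ) (A : Finset I) (R : I → Prop) :
    PP p A (fun T => ∀ j ∈ T, ¬ R j) = ∏ i ∈ A, (if R i then 1 - p i else 1) := by
  have h1 : PP p A (fun T => ∀ j ∈ T, ¬ R j) =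
      PP p A (fun T => (∅ : Finset I) ⊆ T ∧ Disjoint (A.filter fun i => R i) T) := by
    refine PP_congr fun T hT => ?_
    constructor
    · intro h
      refine ⟨Finset.empty_subset _, ?_⟩
      rw [Finset.disjoint_left]
      intro i hi hiT
      exact h i hiT (Finset.mem_filter.1 hi).2
    · rintro ⟨_, h⟩ j hj hR
      exact (Finset.disjoint_left.1 h) (Finset.mem_filter.2 ⟨hT hj, hR⟩) hj
  rw [h1, PP_cyl (Finset.empty_subset _) (Finset.filter_subset _ _) (Finset.disjoint_empty_left _),
    Finset.prod_empty, one_mul, Finset.prod_filter]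

theorem alvp_pow {k : ℕ} {ze de s : ℝ} {V : I → Finset X} {p w : I → ℝ} (h : Round k ze de s V p w)
    (Y : Finset X) : s ^ Y.card = ∏ i, (1 - p i) ^ (Y.filter fun y => y ∈ V i).card := by
  have h1 : s ^ Y.card = ∏ y ∈ Y, surv V p y := by
    rw [Finset.prod_congr rfl fun y _ => h.surv_eq y, Finset.prod_const]
  rw [h1]
  unfold surv
  rw [Finset.prod_comm]
  refine Finset.prod_congr rfl fun i _ => ?_
  rw [← Finset.prod_filter, Finset.prod_const]

theorem alv_eq {k : ℕ} {ze de s : ℝ} {V : I → Finset X} {p w : I → ℝ} (h : Round k ze de s V p w)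
    (Y : Finset X) (A : Finset I) :
    PP p A (fun T => ∀ j ∈ T, Disjoint (V j) Y) = ∏ i ∈ A, (if Disjoint (V i) Y then 1 else 1 - p i) := by
  have h1 := alvp_none p A (fun i => ¬ Disjoint (V i) Y)
  simp only [not_not] at h1
  rw [h1]
  refine Finset.prod_congr rfl fun i _ => ?_
  by_cases hd : Disjoint (V i) Y <;> simp [hd]

theorem alv_lower {k : ℕ} {ze de s : ℝ} {V : I → Finset X} {p w : I → ℝ} (h : Round k ze de s V p w)
    (Y : Finset X) :
    s ^ Y.card ≤ PP p univ (fun T => ∀ j ∈ T, Disjoint (V j) Y) := by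
  rw [alv_eq h, alvp_pow h]
  refine Finset.prod_le_prod (fun i _ => pow_nonneg (by linarith [h.p1 i]) _) fun i _ => ?_
  have h0 : 0 ≤ 1 - p i := by linarith [h.p1 i]
  have h1 : 1 - p i ≤ 1 := by linarith [h.p0 i]
  split_ifs with hd
  · exact pow_le_one₀ h0 h1
  · have hne : (Y.filter fun y => y ∈ V i).card ≠ 0 := by
      intro hc
      apply hd
      rw [Finset.card_eq_zero] at hc
      rw [Finset.disjoint_left]
      intro y hy hyY
      have : y ∈ Y.filter fun y => y ∈ V i := Finset.mem_filter.2 ⟨hyY, hy⟩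
      rw [hc] at this
      exact absurd this (Finset.notMem_empty _)
    exact pow_le_of_le_one h0 h1 hne

theorem alvp_exp {q : ℝ} (h0 : 0 ≤ q) (h1 : q ≤ 1 / 2) : 1 ≤ (1 - q) * Real.exp (2 * q) := by
  have h2 := Real.add_one_le_exp (2 * q)
  have h3 : (1 - q) * (2 * q + 1) ≤ (1 - q) * Real.exp (2 * q) :=
    mul_le_mul_of_nonneg_left h2 (by linarith)
  nlinarith

theorem alvp_cnt (Y W : Finset X) :
    ∑ q ∈ Y.offDiag, (if q.1 ∈ W ∧ q.2 ∈ W then (1 : ℝ) else 0) =
      ((Y.filter fun y => y ∈ W).card : ℝ) * ((Y.filter fun y => y ∈ W).card - 1) := by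
  have h1 : (Y.offDiag.filter fun q => q.1 ∈ W ∧ q.2 ∈ W) = (Y.filter fun y => y ∈ W).offDiag := by
    ext q
    simp only [Finset.mem_filter, Finset.mem_offDiag]
    tauto
  rw [Finset.sum_boole, h1, Finset.offDiag_card,
    Nat.cast_sub (Nat.le_mul_self _)]
  push_cast
  ring

theorem alv_upper {k : ℕ} {ze de s : ℝ} {V : I → Finset X} {p w : I → ℝ} (h : Round k ze de s V p w)
    (x : X) (Y : Finset X) (hx : x ∉ Y) :
    PP p univ (fun T => ∀ j ∈ T, x ∉ V j → Disjoint (V j) Y)
      ≤ s ^ Y.card * Real.exp (2 * (ze * de * (Y.card : ℝ) ^ 2)) := by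
  have hP : PP p univ (fun T => ∀ j ∈ T, x ∉ V j → Disjoint (V j) Y) =
      ∏ i, (if x ∉ V i ∧ ¬ Disjoint (V i) Y then 1 - p i else 1) := by
    have h1 := alvp_none p univ (fun i => x ∉ V i ∧ ¬ Disjoint (V i) Y)
    have h2 : PP p univ (fun T => ∀ j ∈ T, x ∉ V j → Disjoint (V j) Y) =
        PP p univ (fun T => ∀ j ∈ T, ¬ (x ∉ V j ∧ ¬ Disjoint (V j) Y)) := by
      refine PP_congr fun T _ => ?_
      refine forall_congr' fun j => forall_congr' fun _ => ?_
      tauto
    rw [h2, h1]
    refine Finset.prod_congr rfl fun i _ => ?_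
    by_cases hd : x ∉ V i ∧ ¬ Disjoint (V i) Y
    · rw [if_pos hd, if_pos hd]
    · rw [if_neg hd, if_neg hd]
  rw [hP, alvp_pow h]
  -- the exponents
  set N : I → ℕ := fun i => (Y.filter fun y => y ∈ V i).card with hN
  set m : I → ℕ := fun i => if x ∈ V i then N i else N i - 1 with hm
  have hterm : ∀ i, (if x ∉ V i ∧ ¬ Disjoint (V i) Y then 1 - p i else 1) ≤
      (1 - p i) ^ N i * Real.exp (2 * ((m i : ℝ) * p i)) := by
    intro i
    have h0 : 0 ≤ 1 - p i := by linarith [h.p1 i]
    have hE : 1 ≤ (1 - p i) * Real.exp (2 * p i) := alvp_exp (h.p0 i) (h.p1 i)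
    have hexp : ∀ n : ℕ, Real.exp (2 * ((n : ℝ) * p i)) = Real.exp (2 * p i) ^ n := by
      intro n
      rw [← Real.exp_nat_mul]
      congr 1
      ring
    rw [hexp]
    by_cases hxi : x ∈ V i
    · rw [if_neg (by tauto)]
      have : m i = N i := by simp [hm, hxi]
      rw [this, ← mul_pow]
      exact one_le_pow₀ hE
    · have hmi : m i = N i - 1 := by simp [hm, hxi]
      rw [hmi]
      rcases Nat.eq_zero_or_pos (N i) with h0N | h0N
      · have hd : Disjoint (V i) Y := by
          rw [Finset.disjoint_left]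
          intro y hy hyY
          have h2 : y ∈ Y.filter fun y => y ∈ V i := Finset.mem_filter.2 ⟨hyY, hy⟩
          have h3 : (Y.filter fun y => y ∈ V i) = ∅ := Finset.card_eq_zero.1 h0N
          rw [h3] at h2
          exact absurd h2 (Finset.notMem_empty _)
        rw [if_neg (by tauto), h0N]
        simp
      · have hle : (if x ∉ V i ∧ ¬ Disjoint (V i) Y then 1 - p i else 1) ≤ 1 - p i := by
          rw [if_pos]
          refine ⟨hxi, fun hd => ?_⟩
          obtain ⟨y, hy⟩ := Finset.card_pos.1 h0N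
          have := Finset.mem_filter.1 hy
          exact (Finset.disjoint_left.1 hd) this.2 this.1
        obtain ⟨n, hn⟩ : ∃ n, N i = n + 1 := ⟨N i - 1, by omega⟩
        rw [hn, Nat.add_sub_cancel]
        refine hle.trans ?_
        have e : (1 - p i) ^ (n + 1) * Real.exp (2 * p i) ^ n =
            (1 - p i) * ((1 - p i) * Real.exp (2 * p i)) ^ n := by
          rw [mul_pow, pow_succ]
          ring
        rw [e]
        exact le_mul_of_one_le_right h0 (one_le_pow₀ hE)
  have hprod : ∏ i, (if x ∉ V i ∧ ¬ Disjoint (V i) Y then 1 - p i else 1) ≤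
      ∏ i, ((1 - p i) ^ N i * Real.exp (2 * ((m i : ℝ) * p i))) := by
    refine Finset.prod_le_prod (fun i _ => ?_) fun i _ => hterm i
    split_ifs
    · linarith [h.p1 i]
    · exact zero_le_one
  refine hprod.trans ?_
  rw [Finset.prod_mul_distrib, ← Real.exp_sum, ← Finset.mul_sum]
  refine mul_le_mul_of_nonneg_left ?_ (Finset.prod_nonneg fun i _ => pow_nonneg (by linarith [h.p1 i]) _)
  apply Real.exp_le_exp.2
  refine mul_le_mul_of_nonneg_left ?_ (by norm_num)
  -- the sum of the exponents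
  have hmle : ∀ i, (m i : ℝ) ≤ ∑ y ∈ Y, (if x ∈ V i ∧ y ∈ V i then (1 : ℝ) else 0) +
      1 / 2 * ∑ q ∈ Y.offDiag, (if q.1 ∈ V i ∧ q.2 ∈ V i then (1 : ℝ) else 0) := by
    intro i
    rw [alvp_cnt]
    change (m i : ℝ) ≤ _ + 1 / 2 * ((N i : ℝ) * ((N i : ℝ) - 1))
    by_cases hxi : x ∈ V i
    · have h1 : m i = N i := by simp [hm, hxi]
      have h2 : ∑ y ∈ Y, (if x ∈ V i ∧ y ∈ V i then (1 : ℝ) else 0) = N i := by
        simp only [hxi, true_and]
        rw [Finset.sum_boole]
      rw [h1, h2]
      have h3 : 0 ≤ (N i : ℝ) * ((N i : ℝ) - 1) := by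
        rcases Nat.eq_zero_or_pos (N i) with h0 | h0
        · rw [h0]; simp
        · have : (1 : ℝ) ≤ N i := by exact_mod_cast h0
          exact mul_nonneg (by linarith) (by linarith)
      linarith
    · have h1 : m i = N i - 1 := by simp [hm, hxi]
      have h2 : ∑ y ∈ Y, (if x ∈ V i ∧ y ∈ V i then (1 : ℝ) else 0) = 0 := by
        simp [hxi]
      rw [h1, h2, zero_add]
      rcases Nat.eq_zero_or_pos (N i) with h0 | h0
      · rw [h0]; simp
      · rw [Nat.cast_sub h0]
        have h3 : (1 : ℝ) ≤ N i := by exact_mod_cast h0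
        rcases Nat.lt_or_ge 1 (N i) with h4 | h4
        · have h5 : (2 : ℝ) ≤ N i := by exact_mod_cast h4
          push_cast
          nlinarith
        · have h5 : N i = 1 := by omega
          rw [h5]; simp
  calc ∑ i, (m i : ℝ) * p i
      ≤ ∑ i, (∑ y ∈ Y, (if x ∈ V i ∧ y ∈ V i then (1 : ℝ) else 0) +
          1 / 2 * ∑ q ∈ Y.offDiag, (if q.1 ∈ V i ∧ q.2 ∈ V i then (1 : ℝ) else 0)) * p i :=
        Finset.sum_le_sum fun i _ => mul_le_mul_of_nonneg_right (hmle i) (h.p0 i)
    _ = ∑ y ∈ Y, Cod V p x y + 1 / 2 * ∑ q ∈ Y.offDiag, Cod V p q.1 q.2 := by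
        simp only [add_mul, Finset.sum_add_distrib]
        congr 1
        · simp only [Finset.sum_mul]
          rw [Finset.sum_comm]
          refine Finset.sum_congr rfl fun y _ => ?_
          unfold Cod
          refine Finset.sum_congr rfl fun i _ => ?_
          split_ifs <;> simp
        · rw [Finset.mul_sum]
          simp only [mul_assoc, Finset.sum_mul, Finset.mul_sum]
          rw [Finset.sum_comm]
          refine Finset.sum_congr rfl fun q _ => ?_
          unfold Cod
          rw [Finset.mul_sum]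
          refine Finset.sum_congr rfl fun i _ => ?_
          split_ifs <;> simp
    _ ≤ ∑ y ∈ Y, ze * de + 1 / 2 * ∑ q ∈ Y.offDiag, ze * de := by
        refine add_le_add (Finset.sum_le_sum fun y hy => h.codp x y ?_)
          (mul_le_mul_of_nonneg_left (Finset.sum_le_sum fun q hq => h.codp q.1 q.2 ?_) (by norm_num))
        · rintro rfl
          exact hx hy
        · exact (Finset.mem_offDiag.1 hq).2.2
    _ = ze * de * (((Y.card : ℝ) ^ 2 + Y.card) / 2) := by
        rw [Finset.sum_const, Finset.sum_const, nsmul_eq_mul, nsmul_eq_mul, Finset.offDiag_card,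
          Nat.cast_sub (Nat.le_mul_self _)]
        push_cast
        ring
    _ ≤ ze * de * (Y.card : ℝ) ^ 2 := by
        refine mul_le_mul_of_nonneg_left ?_ (mul_nonneg h.ze0.le h.de0.le)
        have : (Y.card : ℝ) ≤ (Y.card : ℝ) ^ 2 := by
          have h1 : Y.card ≤ Y.card ^ 2 := by
            rw [pow_two]
            exact Nat.le_mul_self _
          exact_mod_cast h1
        linarith

end
end Pool.Agent.APK
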