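import Pool.Agent.APK.Prb

/-!
# APK/Ber : Bernstein inequality for functions of independent Bernoulli variables   (difficulty 2)

Let `|f (insert i S) - f (S.erase i)| ≤ c i` for `i ∈ A`, `S ⊆ A`, with `0 ≤ c i ≤ b`, and `∑ p_i c_i² ≤ V`.

Step 1 (`ber_mgf`): for `0 ≤ θ`, `θ b ≤ 1`:
`EE p A (exp (θ f)) ≤ exp (θ EE p A f + θ² ∑_{i ∈ A} p_i c_i²)`.
Induction on `A`, for all `f`. Empty: equality. `A' = insert i A` (`i ∉ A`): put
`g S = p_i f (insert i S) + (1 - p_i) f S`. For `S ⊆ A`, with `Δ = f (insert i S) - f S`, `|Δ| ≤ c_i`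
(`S.erase i = S`):
`p_i exp(θ f(insert i S)) + (1-p_i) exp(θ f S) = exp(θ g S) (p_i exp(θ(1-p_i)Δ) + (1-p_i) exp(-θ p_i Δ))`
and, as `exp x ≤ 1 + x + x²` for `|x| ≤ 1` (`Real.abs_exp_sub_one_sub_id_le`), the bracket is at most
`1 + θ² (p_i (1-p_i)² + (1-p_i) p_i²) Δ² = 1 + θ² p_i (1-p_i) Δ² ≤ exp (θ² p_i c_i²)`.
Hence by `EE_insert`, `EE p A' (exp θf) = EE p A (p_i exp(θ f(insert i ·)) + (1-p_i) exp(θ f ·))
≤ exp(θ² p_i c_i²) EE p A (exp θ g)`, and the induction hypothesis applies to `g`: for `j ∈ A`, `S ⊆ A`,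
`g (insert j S) - g (S.erase j)` is the convex combination of two differences of `f`
(`insert i (insert j S) = insert j (insert i S)`, `insert i (S.erase j) = (insert i S).erase j` as `i ≠ j`).
And `EE p A g = EE p A' f`.

Step 2: Markov: `PP (E f + lam ≤ f) ≤ exp (-θ (E f + lam)) EE (exp θ f) ≤ exp (θ² V - θ lam)`.
If `lam / (2 V) ≤ 1 / b` take `θ = lam / (2V)`: exponent `- lam²/(4V)`. Otherwise `θ = 1/b < lam/(2V)`:
`θ² V - θ lam ≤ θ lam/2 - θ lam = - lam/(2b)`.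

`bernstein_low`: apply it to `-f`.
-/

set_option autoImplicit false
open Finset
open scoped Classical

namespace Pool.Agent.APK
noncomputable section

variable {ι : Type} [DecidableEq ι]

theorem ber_pt {p θ c x y : ℝ} (hp0 : 0 ≤ p) (hp1 : p ≤ 1) (hθ : 0 ≤ θ) (hc : 0 ≤ c)
    (hθc : θ * c ≤ 1) (hxy : |x - y| ≤ c) :
    p * Real.exp (θ * x) + (1 - p) * Real.exp (θ * y)
      ≤ Real.exp (θ ^ 2 * (p * c ^ 2)) * Real.exp (θ * (p * x + (1 - p) * y)) := by
  obtain ⟨Δ, hΔ⟩ : ∃ Δ, Δ = x - y := ⟨_, rfl⟩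
  rw [← hΔ] at hxy
  have hθΔ : |θ * Δ| ≤ 1 := by
    rw [abs_mul, abs_of_nonneg hθ]
    exact (mul_le_mul_of_nonneg_left hxy hθ).trans hθc
  have hex : ∀ u : ℝ, |u| ≤ 1 → Real.exp u ≤ 1 + u + u ^ 2 := by
    intro u hu
    have h1 := (abs_le.mp (Real.abs_exp_sub_one_sub_id_le hu)).2
    linarith
  have e1 : Real.exp (θ * x) = Real.exp (θ * (p * x + (1 - p) * y)) * Real.exp ((1 - p) * (θ * Δ)) := by
    rw [← Real.exp_add, hΔ]
    congr 1
    ring
  have e2 : Real.exp (θ * y) = Real.exp (θ * (p * x + (1 - p) * y)) * Real.exp (-p * (θ * Δ)) := by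
    rw [← Real.exp_add, hΔ]
    congr 1
    ring
  have h1 : Real.exp ((1 - p) * (θ * Δ)) ≤ 1 + (1 - p) * (θ * Δ) + ((1 - p) * (θ * Δ)) ^ 2 := by
    apply hex
    rw [abs_mul, abs_of_nonneg (by linarith : (0:ℝ) ≤ 1 - p)]
    nlinarith [abs_nonneg (θ * Δ)]
  have h2 : Real.exp (-p * (θ * Δ)) ≤ 1 + (-p) * (θ * Δ) + ((-p) * (θ * Δ)) ^ 2 := by
    apply hex
    rw [abs_mul, abs_neg, abs_of_nonneg hp0]
    nlinarith [abs_nonneg (θ * Δ)]
  have h3 : p * Real.exp ((1 - p) * (θ * Δ)) + (1 - p) * Real.exp (-p * (θ * Δ))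
      ≤ Real.exp (θ ^ 2 * (p * c ^ 2)) := by
    have h4 : p * Real.exp ((1 - p) * (θ * Δ)) + (1 - p) * Real.exp (-p * (θ * Δ))
        ≤ p * (1 + (1 - p) * (θ * Δ) + ((1 - p) * (θ * Δ)) ^ 2)
          + (1 - p) * (1 + (-p) * (θ * Δ) + ((-p) * (θ * Δ)) ^ 2) :=
      add_le_add (mul_le_mul_of_nonneg_left h1 hp0)
        (mul_le_mul_of_nonneg_left h2 (by linarith))
    have h5 : p * (1 + (1 - p) * (θ * Δ) + ((1 - p) * (θ * Δ)) ^ 2)
          + (1 - p) * (1 + (-p) * (θ * Δ) + ((-p) * (θ * Δ)) ^ 2)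
        = 1 + θ ^ 2 * (p * ((1 - p) * Δ ^ 2)) := by ring
    have h6 : (1 - p) * Δ ^ 2 ≤ c ^ 2 := by
      have h7 : Δ ^ 2 ≤ c ^ 2 := by
        rw [← sq_abs Δ]
        exact pow_le_pow_left₀ (abs_nonneg _) hxy 2
      have h8 : 0 ≤ Δ ^ 2 := sq_nonneg _
      nlinarith
    have h9 : θ ^ 2 * (p * ((1 - p) * Δ ^ 2)) ≤ θ ^ 2 * (p * c ^ 2) :=
      mul_le_mul_of_nonneg_left (mul_le_mul_of_nonneg_left h6 hp0) (sq_nonneg _)
    have h10 := Real.add_one_le_exp (θ ^ 2 * (p * c ^ 2))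
    linarith
  rw [e1, e2]
  have h11 : 0 < Real.exp (θ * (p * x + (1 - p) * y)) := Real.exp_pos _
  calc p * (Real.exp (θ * (p * x + (1 - p) * y)) * Real.exp ((1 - p) * (θ * Δ)))
        + (1 - p) * (Real.exp (θ * (p * x + (1 - p) * y)) * Real.exp (-p * (θ * Δ)))
      = (p * Real.exp ((1 - p) * (θ * Δ)) + (1 - p) * Real.exp (-p * (θ * Δ)))
          * Real.exp (θ * (p * x + (1 - p) * y)) := by ring
    _ ≤ _ := mul_le_mul_of_nonneg_right h3 h11.le

theorem ber_mgf {p : ι → ℝ} {c : ι → ℝ} {θ : ℝ} (hθ : 0 ≤ θ) (A : Finset ι) :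
    ∀ (_ : IsP p A) (f : Finset ι → ℝ) (_ : ∀ i ∈ A, 0 ≤ c i ∧ θ * c i ≤ 1)
    (_ : ∀ i ∈ A, ∀ S, S ⊆ A → |f (insert i S) - f (S.erase i)| ≤ c i),
    EE p A (fun S => Real.exp (θ * f S))
      ≤ Real.exp (θ * EE p A f + θ ^ 2 * ∑ i ∈ A, p i * c i ^ 2) := by
  induction A using Finset.induction_on with
  | empty =>
    intro _ f _ _
    rw [EE_empty, EE_empty, Finset.sum_empty, mul_zero, add_zero]
  | insert i A hi ih =>
    intro hp f hc hf
    obtain ⟨g, hg⟩ : ∃ g : Finset ι → ℝ, ∀ S, g S = p i * f (insert i S) + (1 - p i) * f S :=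
      ⟨_, fun _ => rfl⟩
    have hpi := hp i (Finset.mem_insert_self _ _)
    have hci := hc i (Finset.mem_insert_self _ _)
    have hpA : IsP p A := fun j hj => hp j (Finset.mem_insert_of_mem hj)
    have hgA : EE p A g = EE p (insert i A) f := by
      rw [EE_insert hi, ← EE_mul, ← EE_mul, ← EE_add]
      exact EE_congr fun S _ => hg S
    have h1 := ih hpA g (fun j hj => hc j (Finset.mem_insert_of_mem hj)) (by
      intro j hj S hS
      have hij : i ≠ j := fun h => hi (h ▸ hj)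
      have h2 := hf j (Finset.mem_insert_of_mem hj) S (hS.trans (Finset.subset_insert _ _))
      have h3 := hf j (Finset.mem_insert_of_mem hj) (insert i S) (Finset.insert_subset_insert _ hS)
      rw [Finset.insert_comm, Finset.erase_insert_of_ne hij] at h3
      rw [hg, hg]
      have h4 : p i * f (insert i (insert j S)) + (1 - p i) * f (insert j S)
          - (p i * f (insert i (S.erase j)) + (1 - p i) * f (S.erase j))
          = p i * (f (insert i (insert j S)) - f (insert i (S.erase j)))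
            + (1 - p i) * (f (insert j S) - f (S.erase j)) := by ring
      rw [h4]
      refine (abs_add_le _ _).trans ?_
      rw [abs_mul, abs_mul, abs_of_nonneg hpi.1, abs_of_nonneg (by linarith [hpi.2] : (0:ℝ) ≤ 1 - p i)]
      have h5 := mul_le_mul_of_nonneg_left h3 hpi.1
      have h6 := mul_le_mul_of_nonneg_left h2 (by linarith [hpi.2] : (0:ℝ) ≤ 1 - p i)
      have h7 : p i * c j + (1 - p i) * c j = c j := by ring
      linarith)
    have h2 : EE p (insert i A) (fun S => Real.exp (θ * f S))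
        ≤ Real.exp (θ ^ 2 * (p i * c i ^ 2)) * EE p A (fun S => Real.exp (θ * g S)) := by
      rw [EE_insert hi, ← EE_mul, ← EE_mul, ← EE_add, ← EE_mul]
      refine EE_mono hpA fun S hS => ?_
      rw [hg]
      refine ber_pt hpi.1 hpi.2 hθ hci.1 hci.2 ?_
      have h3 := hf i (Finset.mem_insert_self _ _) S (hS.trans (Finset.subset_insert _ _))
      rw [Finset.erase_eq_of_notMem (fun h => hi (hS h))] at h3
      exact h3
    refine h2.trans ((mul_le_mul_of_nonneg_left h1 (Real.exp_pos _).le).trans ?_)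
    rw [← Real.exp_add, hgA, Finset.sum_insert hi]
    apply le_of_eq
    congr 1
    ring

theorem bernstein {p : ι → ℝ} {A : Finset ι} (hp : IsP p A) {f : Finset ι → ℝ} {c : ι → ℝ} {b V lam : ℝ}
    (hb : 0 < b) (hV : 0 < V) (hlam : 0 ≤ lam) (hc : ∀ i ∈ A, 0 ≤ c i ∧ c i ≤ b)
    (hf : ∀ i ∈ A, ∀ S, S ⊆ A → |f (insert i S) - f (S.erase i)| ≤ c i)
    (hVs : ∑ i ∈ A, p i * c i ^ 2 ≤ V) :
    PP p A (fun S => EE p A f + lam ≤ f S) ≤ Real.exp (- min (lam ^ 2 / (4 * V)) (lam / (2 * b))) := by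
  have key : ∀ θ : ℝ, 0 ≤ θ → θ * b ≤ 1 →
      PP p A (fun S => EE p A f + lam ≤ f S) ≤ Real.exp (θ ^ 2 * V - θ * lam) := by
    intro θ hθ hθb
    have h1 := ber_mgf (p := p) (c := c) hθ A hp f (fun i hi => ⟨(hc i hi).1,
      (mul_le_mul_of_nonneg_left (hc i hi).2 hθ).trans hθb⟩) hf
    have h2 : PP p A (fun S => EE p A f + lam ≤ f S)
        ≤ EE p A (fun S => Real.exp (-(θ * (EE p A f + lam))) * Real.exp (θ * f S)) := by
      refine EE_mono hp fun S _ => ?_
      show (if EE p A f + lam ≤ f S then (1 : ℝ) else 0)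
        ≤ Real.exp (-(θ * (EE p A f + lam))) * Real.exp (θ * f S)
      by_cases h : EE p A f + lam ≤ f S
      · rw [if_pos h, ← Real.exp_add]
        apply Real.one_le_exp
        have := mul_le_mul_of_nonneg_left h hθ
        linarith
      · rw [if_neg h]
        positivity
    rw [EE_mul] at h2
    refine h2.trans ((mul_le_mul_of_nonneg_left h1 (Real.exp_pos _).le).trans ?_)
    rw [← Real.exp_add]
    apply Real.exp_le_exp.mpr
    have h3 := mul_le_mul_of_nonneg_left hVs (sq_nonneg θ)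
    linarith
  by_cases h : lam / (2 * V) ≤ 1 / b
  · have h1 := key (lam / (2 * V)) (by positivity) (by
      rw [le_div_iff₀ hb] at h
      exact h)
    refine h1.trans (Real.exp_le_exp.mpr ?_)
    have h2 : (lam / (2 * V)) ^ 2 * V - lam / (2 * V) * lam = - (lam ^ 2 / (4 * V)) := by
      field_simp
      ring
    rw [h2]
    exact neg_le_neg (min_le_left _ _)
  · push Not at h
    have h1 := key (1 / b) (by positivity) (by rw [one_div, inv_mul_cancel₀ hb.ne'])
    refine h1.trans (Real.exp_le_exp.mpr ?_)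
    rw [div_lt_div_iff₀ hb (by positivity)] at h
    have h2 : (1 / b) ^ 2 * V - 1 / b * lam ≤ - (lam / (2 * b)) := by
      have h3 : - (lam / (2 * b)) - ((1 / b) ^ 2 * V - 1 / b * lam)
          = (lam * b - 1 * (2 * V)) / (2 * b ^ 2) := by
        field_simp
        ring
      have h4 : 0 ≤ (lam * b - 1 * (2 * V)) / (2 * b ^ 2) := by
        apply div_nonneg _ (by positivity)
        linarith
      linarith
    exact h2.trans (neg_le_neg (min_le_right _ _))

theorem bernstein_low {p : ι → ℝ} {A : Finset ι} (hp : IsP p A) {f : Finset ι → ℝ} {c : ι → ℝ}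
    {b V lam : ℝ}
    (hb : 0 < b) (hV : 0 < V) (hlam : 0 ≤ lam) (hc : ∀ i ∈ A, 0 ≤ c i ∧ c i ≤ b)
    (hf : ∀ i ∈ A, ∀ S, S ⊆ A → |f (insert i S) - f (S.erase i)| ≤ c i)
    (hVs : ∑ i ∈ A, p i * c i ^ 2 ≤ V) :
    PP p A (fun S => f S ≤ EE p A f - lam) ≤ Real.exp (- min (lam ^ 2 / (4 * V)) (lam / (2 * b))) := by
  have h1 := bernstein (f := fun S => - f S) hp hb hV hlam hc (by
    intro i hi S hS
    have h2 := hf i hi S hS
    rw [abs_sub_comm] at h2
    have h3 : - f (insert i S) - - f (S.erase i) = f (S.erase i) - f (insert i S) := by ring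
    rw [h3]
    exact h2) hVs
  rw [EE_neg] at h1
  refine le_trans (PP_mono hp ?_) h1
  intro S _ hS
  linarith

end
end Pool.Agent.APK
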