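import Pool.Agent.APK.GDefs

/-!
# APK/Chk : cutting the cycles of a permutation into chunks   (difficulty 3)

`π` has no fixed points and no 2-cycles.  For each cycle (orbit) of `π` choose a representative `r`
(`Quotient.out` of the orbit relation, `Equiv.Perm.SameCycle`), `m` = its length (`Function.minimalPeriod π r`,
`m ≥ 3`); the orbit is `π^j r`, `0 ≤ j < m`, distinct.
* `m ≤ (L+1)²`: one chunk: `len r = m` (closed: `π^m r = r`).
* `m > (L+1)²`: with `M = m / (L+1)`: chunks of length `L` at `π^{k(L+1)} r`, `0 ≤ k < M`.  They occupy the indices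
  `k(L+1), …, k(L+1)+L-1`; the index `k(L+1)+L` just after and the index just before (`k(L+1) - 1` for `k ≥ 1`, `m - 1` for
  `k = 0`) are free: the free indices are those `< M(L+1)` that are `≡ L mod (L+1)` and those in `[M(L+1), m)`, and `m - 1` is
  of one of these two kinds.
`len = 0` elsewhere.
Counting, orbit by orbit.  Long orbit: covered `≥ m - M - L ≥ m - m/(L+1) - L ≥ m - 2m/(L+1) ≥ (1 - 2/L) m` since
`L ≤ m/(L+1)`; inner positions of a chunk: `1 ≤ a ≤ L-2`, so `≥ covered - 2M ≥ (1 - 4/L) m`; and inner positions with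
`a ≠ 0`: `M (L-2)`, also `≥ (1 - 4/L) m ≥ m/2` (`L ≥ 8`).  Short orbit: everything is covered, all positions are inner,
and `m - 1 ≥ m/2` of them have `a ≠ 0`.
(It is convenient to write `Fin n` as the disjoint union of the orbits, e.g. `Finset.sum_fiberwise` over the representative
of the orbit, and to describe `len` by: `len v ≠ 0` iff `v = π^{k(L+1)} r`.)
-/

set_option autoImplicit false
open Finset
open scoped Classical

namespace Pool.Agent.APK
noncomputable section

section chkorbit
variable {n : ℕ} (π : Equiv.Perm (Fin n))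

/-- representative of the orbit -/
def chkRep (x : Fin n) : Fin n := (Quotient.mk (Equiv.Perm.SameCycle.setoid π) x).out

theorem chk_same (x : Fin n) : π.SameCycle (chkRep π x) x :=
  Quotient.exact (Quotient.out_eq (Quotient.mk (Equiv.Perm.SameCycle.setoid π) x))

theorem chk_rep_eq {x y : Fin n} (h : π.SameCycle x y) : chkRep π x = chkRep π y := by
  unfold chkRep
  have : (Quotient.mk (Equiv.Perm.SameCycle.setoid π) x)
      = (Quotient.mk (Equiv.Perm.SameCycle.setoid π) y) := Quotient.sound h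
  rw [this]

theorem chk_rep_rep (x : Fin n) : chkRep π (chkRep π x) = chkRep π x := chk_rep_eq π (chk_same π x)

/-- the length of the orbit -/
def chkPer (x : Fin n) : ℕ := Function.minimalPeriod π (chkRep π x)

theorem chk_per_pos (x : Fin n) : 0 < chkPer π x := by
  unfold chkPer
  apply Function.minimalPeriod_pos_of_mem_periodicPts
  exact Function.Injective.mem_periodicPts π.injective _

theorem chk_pow_mod (r : Fin n) (i : ℕ) :
    (π ^ (i % Function.minimalPeriod π r)) r = (π ^ i) r := by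
  rw [← Equiv.Perm.iterate_eq_pow, ← Equiv.Perm.iterate_eq_pow]
  exact Function.iterate_mod_minimalPeriod_eq

theorem chk_pow_inj (r : Fin n) {i j : ℕ} (hi : i < Function.minimalPeriod π r)
    (hj : j < Function.minimalPeriod π r) (h : (π ^ i) r = (π ^ j) r) : i = j := by
  rw [← Equiv.Perm.iterate_eq_pow, ← Equiv.Perm.iterate_eq_pow] at h
  exact (Function.iterate_eq_iterate_iff_of_lt_minimalPeriod hi hj).1 h

theorem chk_exists (x : Fin n) : ∃ i, i < chkPer π x ∧ (π ^ i) (chkRep π x) = x := by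
  obtain ⟨i, -, hi⟩ := (chk_same π x).exists_pow_eq'
  refine ⟨i % chkPer π x, Nat.mod_lt _ (chk_per_pos π x), ?_⟩
  unfold chkPer
  rw [chk_pow_mod]
  exact hi

/-- the position in the orbit -/
def chkIdx (x : Fin n) : ℕ := Classical.choose (chk_exists π x)

theorem chk_idx_lt (x : Fin n) : chkIdx π x < chkPer π x := (Classical.choose_spec (chk_exists π x)).1

theorem chk_idx_eq (x : Fin n) : (π ^ chkIdx π x) (chkRep π x) = x :=
  (Classical.choose_spec (chk_exists π x)).2

theorem chk_idx_uniq (x : Fin n) (i : ℕ) (hi : i < chkPer π x) (h : (π ^ i) (chkRep π x) = x) :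
    chkIdx π x = i :=
  chk_pow_inj π _ (chk_idx_lt π x) hi (by rw [chk_idx_eq, h])

theorem chk_rep_pow (x : Fin n) (a : ℕ) : chkRep π ((π ^ a) x) = chkRep π x := by
  symm
  apply chk_rep_eq
  exact ⟨a, by simp⟩

theorem chk_per_pow (x : Fin n) (a : ℕ) : chkPer π ((π ^ a) x) = chkPer π x := by
  unfold chkPer
  rw [chk_rep_pow]

theorem chk_idx_pow (x : Fin n) (a : ℕ) :
    chkIdx π ((π ^ a) x) = (chkIdx π x + a) % chkPer π x := by
  apply chk_idx_uniq
  · rw [chk_per_pow]
    exact Nat.mod_lt _ (chk_per_pos π x)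
  · rw [chk_rep_pow]
    unfold chkPer
    rw [chk_pow_mod, add_comm, pow_add, Equiv.Perm.mul_apply, chk_idx_eq]

theorem chk_ext {x y : Fin n} (h1 : chkRep π x = chkRep π y) (h2 : chkIdx π x = chkIdx π y) : x = y := by
  rw [← chk_idx_eq π x, ← chk_idx_eq π y, h1, h2]

theorem chk_pow_self (x : Fin n) : (π ^ chkPer π x) x = x := by
  apply chk_ext π
  · rw [chk_rep_pow]
  · rw [chk_idx_pow, Nat.add_mod_right, Nat.mod_eq_of_lt (chk_idx_lt π x)]

theorem chk_three (h1 : ∀ u, π u ≠ u) (h2 : ∀ u, π (π u) ≠ u) (x : Fin n) : 3 ≤ chkPer π x := by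
  have h := chk_pow_self π x
  have hp := chk_per_pos π x
  by_contra hlt
  have : chkPer π x = 1 ∨ chkPer π x = 2 := by omega
  rcases this with h' | h'
  · rw [h', pow_one] at h
    exact h1 x h
  · rw [h', pow_two] at h
    exact h2 x h

theorem chk_fiber (z : Fin n) (f : ℕ → ℕ → ℝ) :
    ∑ x ∈ univ.filter (fun x => chkRep π x = chkRep π z), f (chkPer π x) (chkIdx π x)
      = ∑ j ∈ range (chkPer π z), f (chkPer π z) j := by
  refine Finset.sum_nbij' (fun x => chkIdx π x) (fun j => (π ^ j) (chkRep π z)) ?_ ?_ ?_ ?_ ?_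
  · intro x hx
    rw [mem_filter] at hx
    rw [mem_range]
    have := chk_idx_lt π x
    unfold chkPer at this ⊢
    rw [hx.2] at this
    exact this
  · intro j _
    rw [mem_filter]
    refine ⟨mem_univ _, ?_⟩
    rw [chk_rep_pow, chk_rep_rep]
  · intro x hx
    rw [mem_filter] at hx
    show (π ^ chkIdx π x) (chkRep π z) = x
    rw [← hx.2, chk_idx_eq]
  · intro j hj
    rw [mem_range] at hj
    apply chk_idx_uniq
    · rw [chk_per_pow]
      unfold chkPer at hj ⊢
      rw [chk_rep_rep]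
      exact hj
    · rw [chk_rep_pow, chk_rep_rep]
  · intro x hx
    rw [mem_filter] at hx
    have : chkPer π x = chkPer π z := by
      unfold chkPer
      rw [hx.2]
    rw [this]

theorem chk_sum_eq (f : ℕ → ℕ → ℝ) :
    ∑ x, f (chkPer π x) (chkIdx π x)
      = ∑ r ∈ univ.image (chkRep π), ∑ j ∈ range (chkPer π r), f (chkPer π r) j := by
  rw [← Finset.sum_fiberwise_of_maps_to (s := univ) (t := univ.image (chkRep π)) (g := chkRep π)
    (fun x _ => mem_image_of_mem _ (mem_univ x))]
  refine Finset.sum_congr rfl (fun r hr => ?_)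
  rw [mem_image] at hr
  obtain ⟨z, -, rfl⟩ := hr
  have := chk_fiber π (chkRep π z) f
  rw [chk_rep_rep] at this
  exact this

theorem chk_sum_le (h3 : ∀ x, 3 ≤ chkPer π x) (f : ℕ → ℕ → ℝ) (c : ℝ)
    (h : ∀ m, 3 ≤ m → c * m ≤ ∑ j ∈ range m, f m j) :
    c * n ≤ ∑ x, f (chkPer π x) (chkIdx π x) := by
  have e1 : (n : ℝ) = ∑ r ∈ univ.image (chkRep π), (chkPer π r : ℝ) := by
    have := chk_sum_eq π (fun _ _ => (1:ℝ))
    simpa using this
  rw [chk_sum_eq, e1, Finset.mul_sum]
  exact Finset.sum_le_sum (fun r _ => h _ (h3 r))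

end chkorbit

/-- chunk lengths -/
def chkLn (L m j : ℕ) : ℕ :=
  if m ≤ (L + 1) ^ 2 then (if j = 0 then m else 0)
  else (if (L + 1) ∣ j ∧ j / (L + 1) < m / (L + 1) then L else 0)

theorem chk_ln_le (L m j : ℕ) : chkLn L m j ≤ (L + 1) ^ 2 := by
  unfold chkLn
  split_ifs with h h1 h2
  · exact h
  · exact Nat.zero_le _
  · nlinarith
  · exact Nat.zero_le _

theorem chk_ln_ge (L m j : ℕ) (hL : 8 ≤ L) (hm : 3 ≤ m) (h : chkLn L m j ≠ 0) : 3 ≤ chkLn L m j := by
  unfold chkLn at h ⊢
  split_ifs at h ⊢ with h1 h2 h3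
  · exact hm
  · exact absurd rfl h
  · omega
  · exact absurd rfl h

/-- a position of a chunk: no wrap around -/
theorem chk_ln_lt (L m j a : ℕ) (hm : 3 ≤ m) (h : a < chkLn L m j) : j + a < m := by
  unfold chkLn at h
  split_ifs at h with h1 h2 h3
  · omega
  · omega
  · obtain ⟨⟨k, rfl⟩, h4⟩ := h3
    rw [Nat.mul_div_cancel_left _ (by omega : 0 < L + 1)] at h4
    have h5 : (L + 1) * (m / (L + 1)) ≤ m := Nat.mul_div_le _ _
    have h6 : (L + 1) * (k + 1) ≤ (L + 1) * (m / (L + 1)) := Nat.mul_le_mul_left _ h4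
    rw [Nat.mul_add] at h6
    omega
  · omega

theorem chk_ln_inj (L m j a j' a' : ℕ) (h : a < chkLn L m j) (h' : a' < chkLn L m j')
    (he : j + a = j' + a') : j = j' ∧ a = a' := by
  unfold chkLn at h h'
  split_ifs at h with h1 h2 h3
  · rw [if_pos h1] at h'
    split_ifs at h' with h4
    · omega
    · omega
  · omega
  · rw [if_neg h1] at h'
    split_ifs at h' with h4
    · obtain ⟨⟨k, rfl⟩, -⟩ := h3
      obtain ⟨⟨k', rfl⟩, -⟩ := h4
      have e1 : ((L + 1) * k + a) / (L + 1) = k := by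
        rw [Nat.mul_add_div (by omega), Nat.div_eq_of_lt (by omega), add_zero]
      have e2 : ((L + 1) * k' + a') / (L + 1) = k' := by
        rw [Nat.mul_add_div (by omega), Nat.div_eq_of_lt (by omega), add_zero]
      rw [he, e2] at e1
      subst e1
      exact ⟨rfl, by omega⟩
    · omega
  · omega

/-- free positions -/
theorem chk_ln_free (L m j a i : ℕ) (hL : 8 ≤ L) (hm : ¬ m ≤ (L + 1) ^ 2) (h : a < chkLn L m j)
    (hi : i % (L + 1) = L ∨ i = m - 1) : j + a ≠ i := by
  intro he
  unfold chkLn at h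
  rw [if_neg hm] at h
  split_ifs at h with h3
  · obtain ⟨⟨k, rfl⟩, h4⟩ := h3
    rw [Nat.mul_div_cancel_left _ (by omega : 0 < L + 1)] at h4
    rcases hi with hi | hi
    · rw [← he, Nat.mul_add_mod, Nat.mod_eq_of_lt (by omega)] at hi
      omega
    · have h5 : (L + 1) * (m / (L + 1)) ≤ m := Nat.mul_div_le _ _
      have h6 : (L + 1) * (k + 1) ≤ (L + 1) * (m / (L + 1)) := Nat.mul_le_mul_left _ h4
      rw [Nat.mul_add] at h6
      omega
  · omega

theorem chk_ln_long {L m j : ℕ} (hm : ¬ m ≤ (L + 1) ^ 2) (h : chkLn L m j ≠ 0) :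
    chkLn L m j = L ∧ ∃ k, j = (L + 1) * k := by
  unfold chkLn at h ⊢
  rw [if_neg hm] at h ⊢
  split_ifs at h ⊢ with h3
  · exact ⟨rfl, h3.1⟩
  · exact absurd rfl h

theorem chk_ln_short {L m j : ℕ} (hm : m ≤ (L + 1) ^ 2) (h : chkLn L m j ≠ 0) :
    chkLn L m j = m ∧ j = 0 := by
  unfold chkLn at h ⊢
  rw [if_pos hm] at h ⊢
  split_ifs at h ⊢ with h3
  · exact ⟨rfl, h3⟩
  · exact absurd rfl h

theorem chk_chunks {n : ℕ} (L : ℕ) (hL : 8 ≤ L) (π : Equiv.Perm (Fin n)) (h3 : ∀ x, 3 ≤ chkPer π x) :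
    Chunks ((L + 1) ^ 2) π (fun x => chkLn L (chkPer π x) (chkIdx π x)) where
  ge := fun s hs => chk_ln_ge L _ _ hL (h3 s) hs
  le := fun s => chk_ln_le L _ _
  inj := by
    intro s s' a a' ha ha' h
    have hr : chkRep π s = chkRep π s' := by
      have := congrArg (chkRep π) h
      rwa [chk_rep_pow, chk_rep_pow] at this
    have hp : chkPer π s = chkPer π s' := by
      unfold chkPer
      rw [hr]
    have hi := congrArg (chkIdx π) h
    rw [chk_idx_pow, chk_idx_pow, Nat.mod_eq_of_lt (chk_ln_lt L _ _ _ (h3 s) ha),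
      Nat.mod_eq_of_lt (chk_ln_lt L _ _ _ (h3 s') ha')] at hi
    rw [← hp] at ha'
    obtain ⟨h4, h5⟩ := chk_ln_inj L _ _ _ _ _ ha ha' hi
    exact ⟨chk_ext π hr h4, h5⟩
  sep := by
    intro s hs
    by_cases hm : chkPer π s ≤ (L + 1) ^ 2
    · left
      rw [(chk_ln_short hm hs).1]
      exact chk_pow_self π s
    · right
      obtain ⟨hl, k, hk⟩ := chk_ln_long hm hs
      have hLl : L - 1 < chkLn L (chkPer π s) (chkIdx π s) := by omega
      have hlt := chk_ln_lt L _ _ _ (h3 s) hLl
      constructor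
      · intro s' a ha h
        have hr : chkRep π s' = chkRep π s := by
          have := congrArg (chkRep π) h
          rwa [chk_rep_pow, chk_rep_pow] at this
        have hp : chkPer π s' = chkPer π s := by
          unfold chkPer
          rw [hr]
        have hi := congrArg (chkIdx π) h
        rw [chk_idx_pow, chk_idx_pow, Nat.mod_eq_of_lt (chk_ln_lt L _ _ _ (h3 s') ha)] at hi
        replace hi : chkIdx π s' + a = (chkIdx π s + L) % chkPer π s := by
          rw [hi, hl]
        rw [hp] at ha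
        refine chk_ln_free L _ _ _ _ hL hm ha ?_ hi
        left
        have hlt2 : chkIdx π s + L < chkPer π s := by
          rcases Nat.lt_or_ge (chkIdx π s + L) (chkPer π s) with h' | h'
          · exact h'
          · exfalso
            have h6 : chkPer π s = chkIdx π s + L := by omega
            have h7 := hs
            unfold chkLn at h7
            rw [if_neg hm] at h7
            split_ifs at h7 with h8
            · rw [hk, Nat.mul_div_cancel_left _ (by omega : 0 < L + 1)] at h8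
              rw [← hk] at h8
              rw [h6] at h8
              rw [hk, Nat.mul_add_div (by omega), Nat.div_eq_of_lt (by omega)] at h8
              omega
            · exact h7 rfl
        rw [Nat.mod_eq_of_lt hlt2, hk, Nat.mul_add_mod, Nat.mod_eq_of_lt (by omega)]
      · intro s' a ha h
        have h' : (π ^ (a + 1)) s' = s := by
          rw [pow_succ', Equiv.Perm.mul_apply, h]
          simp
        have hr : chkRep π s' = chkRep π s := by
          have := congrArg (chkRep π) h'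
          rwa [chk_rep_pow] at this
        have hp : chkPer π s' = chkPer π s := by
          unfold chkPer
          rw [hr]
        have hi := congrArg (chkIdx π) h'
        rw [chk_idx_pow] at hi
        have hla := chk_ln_lt L _ _ _ (h3 s') ha
        rw [hp] at ha hi hla
        refine chk_ln_free L _ _ _ (chkIdx π s' + a) hL hm ha ?_ rfl
        by_cases hq : chkIdx π s' + (a + 1) < chkPer π s
        · left
          rw [Nat.mod_eq_of_lt hq, hk] at hi
          have hk1 : 1 ≤ k := by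
            rcases Nat.eq_zero_or_pos k with h0 | h0
            · rw [h0, Nat.mul_zero] at hi
              omega
            · exact h0
          obtain ⟨k', rfl⟩ : ∃ k', k = k' + 1 := ⟨k - 1, by omega⟩
          have h8 : chkIdx π s' + a = (L + 1) * k' + L := by
            rw [Nat.mul_add] at hi
            omega
          rw [h8, Nat.mul_add_mod, Nat.mod_eq_of_lt (by omega)]
        · right
          omega

/-- lower bound for a sum over the long orbits -/
theorem chk_long_sum (L m : ℕ) (v : ℝ) (hv : 0 ≤ v) :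
    ((m / (L + 1) : ℕ) : ℝ) * v ≤
      ∑ j ∈ range m, (if (L + 1) ∣ j ∧ j / (L + 1) < m / (L + 1) then v else 0) := by
  have hinj : Set.InjOn (fun k => (L + 1) * k) (range (m / (L + 1)) : Set ℕ) := by
    intro k _ k' _ h
    exact Nat.eq_of_mul_eq_mul_left (by omega : 0 < L + 1) h
  have hsub : (range (m / (L + 1))).image (fun k => (L + 1) * k) ⊆
      (range m).filter (fun j => (L + 1) ∣ j ∧ j / (L + 1) < m / (L + 1)) := by
    intro j hj
    rw [mem_image] at hj
    obtain ⟨k, hk, rfl⟩ := hj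
    rw [mem_range] at hk
    rw [mem_filter, mem_range, Nat.mul_div_cancel_left _ (by omega : 0 < L + 1)]
    refine ⟨?_, dvd_mul_right _ _, hk⟩
    have h5 : (L + 1) * (m / (L + 1)) ≤ m := Nat.mul_div_le _ _
    have h6 : (L + 1) * (k + 1) ≤ (L + 1) * (m / (L + 1)) := Nat.mul_le_mul_left _ hk
    rw [Nat.mul_add] at h6
    omega
  have hc := Finset.card_le_card hsub
  rw [Finset.card_image_of_injOn hinj, card_range] at hc
  rw [← Finset.sum_filter, Finset.sum_const, nsmul_eq_mul]
  refine mul_le_mul_of_nonneg_right ?_ hv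
  exact_mod_cast hc

theorem chk_short_sum (m : ℕ) (hm : 3 ≤ m) (v : ℝ) :
    ∑ j ∈ range m, (if j = 0 then v else 0) = v := by
  rw [Finset.sum_ite_eq' (range m) 0 (fun _ => v)]
  rw [if_pos]
  rw [mem_range]
  omega

theorem chk_M {L m : ℕ} (hm : ¬ m ≤ (L + 1) ^ 2) :
    (L : ℝ) + 1 ≤ ((m / (L + 1) : ℕ) : ℝ) ∧ (m : ℝ) ≤ (((m / (L + 1) : ℕ) : ℝ) + 1) * (L + 1) := by
  constructor
  · have : L + 1 ≤ m / (L + 1) := by
      rw [Nat.le_div_iff_mul_le (by omega)]
      nlinarith
    exact_mod_cast this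
  · have h1 : m < (L + 1) * (m / (L + 1)) + (L + 1) := by
      have := Nat.div_add_mod m (L + 1)
      have h2 := Nat.mod_lt m (by omega : 0 < L + 1)
      omega
    have h2 : (m : ℝ) < ((L : ℝ) + 1) * ((m / (L + 1) : ℕ) : ℝ) + (L + 1) := by exact_mod_cast h1
    linarith

theorem chk_n1 (L m : ℕ) (hL : 8 ≤ L) (hm : 3 ≤ m) :
    (1 - 2 / (L : ℝ)) * m ≤ ∑ j ∈ range m, (chkLn L m j : ℝ) := by
  have hL0 : (8:ℝ) ≤ L := by exact_mod_cast hL
  have hm0 : (3:ℝ) ≤ m := by exact_mod_cast hm
  by_cases h : m ≤ (L + 1) ^ 2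
  · have e : ∀ j ∈ range m, (chkLn L m j : ℝ) = if j = 0 then (m : ℝ) else 0 := by
      intro j _
      unfold chkLn
      rw [if_pos h]
      split_ifs <;> simp
    rw [Finset.sum_congr rfl e, chk_short_sum m hm]
    have : 0 ≤ 2 / (L : ℝ) := by positivity
    nlinarith
  · have e : ∀ j ∈ range m, (chkLn L m j : ℝ)
        = if (L + 1) ∣ j ∧ j / (L + 1) < m / (L + 1) then (L : ℝ) else 0 := by
      intro j _
      unfold chkLn
      rw [if_neg h]
      split_ifs <;> simp
    rw [Finset.sum_congr rfl e]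
    refine le_trans ?_ (chk_long_sum L m L (by positivity))
    obtain ⟨h1, h2⟩ := chk_M h
    set M : ℝ := ((m / (L + 1) : ℕ) : ℝ) with hM
    clear_value M
    have h3 : (1 - 2 / (L : ℝ)) = (L - 2) / L := by field_simp
    rw [h3, div_mul_eq_mul_div, div_le_iff₀ (by linarith)]
    have h4 : ((L:ℝ) - 2) * m ≤ (L - 2) * ((M + 1) * (L + 1)) :=
      mul_le_mul_of_nonneg_left h2 (by linarith)
    have h5 : ((L:ℝ) + 1) * (L + 2) ≤ M * (L + 2) := mul_le_mul_of_nonneg_right h1 (by linarith)
    nlinarith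

theorem chk_n2 (L m : ℕ) (hL : 8 ≤ L) (hm : ¬ m ≤ (L + 1) ^ 2) :
    (1 - 4 / (L : ℝ)) * m ≤ ((m / (L + 1) : ℕ) : ℝ) * (L - 2) := by
  have hL0 : (8:ℝ) ≤ L := by exact_mod_cast hL
  obtain ⟨h1, h2⟩ := chk_M hm
  set M : ℝ := ((m / (L + 1) : ℕ) : ℝ) with hM
  clear_value M
  have h3 : (1 - 4 / (L : ℝ)) = (L - 4) / L := by field_simp
  rw [h3, div_mul_eq_mul_div, div_le_iff₀ (by linarith)]
  have h4 : ((L:ℝ) - 4) * m ≤ (L - 4) * ((M + 1) * (L + 1)) :=
    mul_le_mul_of_nonneg_left h2 (by linarith)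
  have h5 : ((L:ℝ) + 1) * (L + 4) ≤ M * (L + 4) := mul_le_mul_of_nonneg_right h1 (by linarith)
  nlinarith

/-- lower bound for the number of inner positions (`k = 0`: all; `k = 1`: those `≠ 0`) -/
def chkIn (k L m j : ℕ) : ℝ :=
  if m ≤ (L + 1) ^ 2 then (if j = 0 then (m : ℝ) - k else 0)
  else (if (L + 1) ∣ j ∧ j / (L + 1) < m / (L + 1) then (L : ℝ) - 2 else 0)

theorem chk_in_sum (k L m : ℕ) (hL : 8 ≤ L) (hm : 3 ≤ m) (c : ℝ) (hc : c ≤ 1 - 4 / (L:ℝ))
    (hs : c * m ≤ (m : ℝ) - k) :
    c * m ≤ ∑ j ∈ range m, chkIn k L m j := by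
  have hL0 : (8:ℝ) ≤ L := by exact_mod_cast hL
  unfold chkIn
  by_cases h : m ≤ (L + 1) ^ 2
  · simp only [h, if_true]
    rw [chk_short_sum m hm]
    exact hs
  · simp only [h, if_false]
    refine le_trans ?_ (chk_long_sum L m (L - 2) (by linarith))
    refine le_trans ?_ (chk_n2 L m hL h)
    exact mul_le_mul_of_nonneg_right hc (by positivity)

theorem chk_card_mid (l : ℕ) (hl : 2 ≤ l) :
    ((range l).filter (fun a => 1 ≤ a ∧ a + 1 < l)).card = l - 2 := by
  have : (range l).filter (fun a => 1 ≤ a ∧ a + 1 < l) = Finset.Ico 1 (l - 1) := by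
    ext a
    rw [mem_filter, mem_range, Finset.mem_Ico]
    omega
  rw [this, Nat.card_Ico]
  omega

theorem chk_card_nz (l : ℕ) (hl : 1 ≤ l) :
    ((range l).filter (fun a => a ≠ 0)).card = l - 1 := by
  have : (range l).filter (fun a => a ≠ 0) = Finset.Ico 1 l := by
    ext a
    rw [mem_filter, mem_range, Finset.mem_Ico]
    omega
  rw [this, Nat.card_Ico]

theorem chk_inn0 {n : ℕ} (L : ℕ) (hL : 8 ≤ L) (π : Equiv.Perm (Fin n)) (h3 : ∀ x, 3 ≤ chkPer π x)
    (s : Fin n) :
    chkIn 0 L (chkPer π s) (chkIdx π s) ≤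
      (((range (chkLn L (chkPer π s) (chkIdx π s))).filter
        (fun a => Inn π (fun x => chkLn L (chkPer π x) (chkIdx π x)) s a)).card : ℝ) := by
  unfold chkIn
  by_cases hm : chkPer π s ≤ (L + 1) ^ 2
  · rw [if_pos hm]
    by_cases hj : chkIdx π s = 0
    · rw [if_pos hj]
      have hl : chkLn L (chkPer π s) (chkIdx π s) = chkPer π s := by
        unfold chkLn
        rw [if_pos hm, if_pos hj]
      have hcl : Closed π (fun x => chkLn L (chkPer π x) (chkIdx π x)) s := by
        unfold Closed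
        dsimp only
        rw [hl]
        exact chk_pow_self π s
      have e : (range (chkLn L (chkPer π s) (chkIdx π s))).filter
          (fun a => Inn π (fun x => chkLn L (chkPer π x) (chkIdx π x)) s a)
          = range (chkLn L (chkPer π s) (chkIdx π s)) :=
        Finset.filter_true_of_mem (fun a _ => Or.inl hcl)
      rw [e, card_range, hl]
      simp
    · rw [if_neg hj]
      positivity
  · rw [if_neg hm]
    by_cases hj : (L + 1) ∣ chkIdx π s ∧ chkIdx π s / (L + 1) < chkPer π s / (L + 1)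
    · rw [if_pos hj]
      have hl : chkLn L (chkPer π s) (chkIdx π s) = L := by
        unfold chkLn
        rw [if_neg hm, if_pos hj]
      have hsub : (range L).filter (fun a => 1 ≤ a ∧ a + 1 < L) ⊆
          (range (chkLn L (chkPer π s) (chkIdx π s))).filter
            (fun a => Inn π (fun x => chkLn L (chkPer π x) (chkIdx π x)) s a) := by
        intro a ha
        rw [mem_filter] at ha ⊢
        rw [hl]
        refine ⟨ha.1, Or.inr ?_⟩
        dsimp only
        rw [hl]
        exact ha.2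
      have hc := Finset.card_le_card hsub
      rw [chk_card_mid L (by omega)] at hc
      have hc' : ((L - 2 : ℕ) : ℝ) ≤ _ := Nat.cast_le.2 hc
      rw [Nat.cast_sub (by omega)] at hc'
      push_cast at hc'
      exact hc'
    · rw [if_neg hj]
      positivity

theorem chk_inn1 {n : ℕ} (L : ℕ) (hL : 8 ≤ L) (π : Equiv.Perm (Fin n)) (h3 : ∀ x, 3 ≤ chkPer π x)
    (s : Fin n) :
    chkIn 1 L (chkPer π s) (chkIdx π s) ≤
      (((range (chkLn L (chkPer π s) (chkIdx π s))).filter
        (fun a => a ≠ 0 ∧ Inn π (fun x => chkLn L (chkPer π x) (chkIdx π x)) s a)).card : ℝ) := by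
  unfold chkIn
  by_cases hm : chkPer π s ≤ (L + 1) ^ 2
  · rw [if_pos hm]
    by_cases hj : chkIdx π s = 0
    · rw [if_pos hj]
      have hl : chkLn L (chkPer π s) (chkIdx π s) = chkPer π s := by
        unfold chkLn
        rw [if_pos hm, if_pos hj]
      have hcl : Closed π (fun x => chkLn L (chkPer π x) (chkIdx π x)) s := by
        unfold Closed
        dsimp only
        rw [hl]
        exact chk_pow_self π s
      have hsub : (range (chkPer π s)).filter (fun a => a ≠ 0) ⊆
          (range (chkLn L (chkPer π s) (chkIdx π s))).filter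
            (fun a => a ≠ 0 ∧ Inn π (fun x => chkLn L (chkPer π x) (chkIdx π x)) s a) := by
        intro a ha
        rw [mem_filter] at ha ⊢
        rw [hl]
        exact ⟨ha.1, ha.2, Or.inl hcl⟩
      have hc := Finset.card_le_card hsub
      have h3s := h3 s
      rw [chk_card_nz _ (by omega)] at hc
      have hc' : ((chkPer π s - 1 : ℕ) : ℝ) ≤ _ := Nat.cast_le.2 hc
      rw [Nat.cast_sub (by omega)] at hc'
      exact hc'
    · rw [if_neg hj]
      positivity
  · rw [if_neg hm]
    by_cases hj : (L + 1) ∣ chkIdx π s ∧ chkIdx π s / (L + 1) < chkPer π s / (L + 1)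
    · rw [if_pos hj]
      have hl : chkLn L (chkPer π s) (chkIdx π s) = L := by
        unfold chkLn
        rw [if_neg hm, if_pos hj]
      have hsub : (range L).filter (fun a => 1 ≤ a ∧ a + 1 < L) ⊆
          (range (chkLn L (chkPer π s) (chkIdx π s))).filter
            (fun a => a ≠ 0 ∧ Inn π (fun x => chkLn L (chkPer π x) (chkIdx π x)) s a) := by
        intro a ha
        rw [mem_filter] at ha ⊢
        rw [hl]
        refine ⟨ha.1, by omega, Or.inr ?_⟩
        dsimp only
        rw [hl]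
        exact ha.2
      have hc := Finset.card_le_card hsub
      rw [chk_card_mid L (by omega)] at hc
      have hc' : ((L - 2 : ℕ) : ℝ) ≤ _ := Nat.cast_le.2 hc
      rw [Nat.cast_sub (by omega)] at hc'
      push_cast at hc'
      exact hc'
    · rw [if_neg hj]
      positivity

theorem chunks {n : ℕ} (L : ℕ) (hL : 8 ≤ L) (π : Equiv.Perm (Fin n)) (h1 : ∀ u, π u ≠ u)
    (h2 : ∀ u, π (π u) ≠ u) :
    ∃ len : Fin n → ℕ, Chunks ((L + 1) ^ 2) π len ∧
      (1 - 2 / (L : ℝ)) * n ≤ ∑ s, (len s : ℝ) ∧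
      (1 - 4 / (L : ℝ)) * n ≤ ∑ s, (((range (len s)).filter (fun a => Inn π len s a)).card : ℝ) ∧
      (n : ℝ) / 2 ≤ ∑ s, (((range (len s)).filter (fun a => a ≠ 0 ∧ Inn π len s a)).card : ℝ) := by
  have h3 := chk_three π h1 h2
  have hL0 : (8:ℝ) ≤ L := by exact_mod_cast hL
  have hq : 4 / (L:ℝ) ≤ 1 / 2 := by
    rw [div_le_div_iff₀ (by linarith) (by norm_num)]
    linarith
  have hq0 : 0 ≤ 4 / (L:ℝ) := by positivity
  refine ⟨fun x => chkLn L (chkPer π x) (chkIdx π x), chk_chunks L hL π h3, ?_, ?_, ?_⟩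
  · exact chk_sum_le π h3 (fun m j => (chkLn L m j : ℝ)) _ (fun m hm => chk_n1 L m hL hm)
  · refine le_trans (chk_sum_le π h3 (chkIn 0 L) _ (fun m hm => chk_in_sum 0 L m hL hm _ le_rfl ?_))
      (Finset.sum_le_sum (fun s _ => chk_inn0 L hL π h3 s))
    have : (3:ℝ) ≤ m := by exact_mod_cast hm
    push_cast
    nlinarith
  · rw [show (n:ℝ) / 2 = (1/2) * n by ring]
    refine le_trans (chk_sum_le π h3 (chkIn 1 L) _
      (fun m hm => chk_in_sum 1 L m hL hm (1/2) (by linarith) ?_))
      (Finset.sum_le_sum (fun s _ => chk_inn1 L hL π h3 s))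
    have : (3:ℝ) ≤ m := by exact_mod_cast hm
    push_cast
    linarith

end
end Pool.Agent.APK
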