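import Pool.Agent.APK.GDefs

/-!
# APK/Chn : marginals of the path weight of a reversible chain   (difficulty 3)

`K ≥ 0` symmetric, `r = rs K` (row sums), `chW K t = r (t 0) ∏_{j<m} K (t j) (t (j+1)) / r (t j)`.
If `r x = 0` then `K x y = K y x = 0` for all `y`; so `r x * (K x y / r x) = K x y` always.

Two recursions:
* right: `chW K (Fin.snoc t y) = chW K t * (K (t (last)) y / r (t last))` (`Fin.prod_univ_castSucc`), hence
  `∑_y chW K (Fin.snoc t y) = chW K t` — true also if `r (t last) = 0`, because then `chW K t = 0`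
  (for `m = 0` `chW = r (t 0)`; for `m ≥ 1` the factor `K (t (m-1)) (t m) = 0`).
* left: `chW K (Fin.cons x t) = (K x (t 0) / r (t 0)) * chW K t` (`Fin.prod_univ_succ`; both sides vanish if `r (t 0) = 0`
  or `r x = 0`), hence `∑_x chW K (Fin.cons x t) = chW K t` by symmetry of `K`.
Sums over `Fin (m+2) → Fin n` are split with `Fin.snocEquiv` / `Fin.consEquiv` (or `Fin.snoc`, `Fin.cons` bijections,
`Fintype.sum_equiv`).
So a sum of `chW K t` times a function of a window of consecutive coordinates equals the same sum for the shorter path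
consisting of the window: remove the coordinates on the right of the window by induction, then those on the left.
Windows: `ch1`: one coordinate, `∑_x r x f x`; `ch2`: two, `chW K ![x,y] = r x * (K x y / r x) = K x y`;
`ch3`: three, `chW K ![x,y,z] = K x y * (K y z / r y)`.
A convenient way: define `W m j f` for the sums and prove `S (m+1) j = S m j` if the window does not contain the last
coordinate and `S (m+1) (j+1) = S m j` if it does not contain the first.
-/

set_option autoImplicit false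
open Finset
open scoped Classical

namespace Pool.Agent.APK
noncomputable section

variable {n : ℕ} {K : Fin n → Fin n → ℝ}

theorem chn_rs_nonneg (h0 : ∀ x y, 0 ≤ K x y) (x : Fin n) : 0 ≤ rs K x :=
  Finset.sum_nonneg fun y _ => h0 x y

theorem chn_zero (h0 : ∀ x y, 0 ≤ K x y) {x : Fin n} (hx : rs K x = 0) (y : Fin n) : K x y = 0 := by
  unfold rs at hx
  exact (Finset.sum_eq_zero_iff_of_nonneg (fun z _ => h0 x z)).1 hx y (Finset.mem_univ y)

theorem chn_mul (h0 : ∀ x y, 0 ≤ K x y) (x y : Fin n) : rs K x * (K x y / rs K x) = K x y := by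
  by_cases hx : rs K x = 0
  · rw [chn_zero h0 hx y, hx]; simp
  · field_simp

theorem chn_sum_snoc {d : ℕ} (f : (Fin (d + 1) → Fin n) → ℝ) :
    ∑ u, f u = ∑ u' : Fin d → Fin n, ∑ y : Fin n, f (Fin.snoc u' y) := by
  rw [Finset.sum_comm]
  rw [← (Fin.snocEquiv (fun _ : Fin (d + 1) => Fin n)).sum_comp f]
  rw [Fintype.sum_prod_type]
  rfl

theorem chn_sum_cons {d : ℕ} (f : (Fin (d + 1) → Fin n) → ℝ) :
    ∑ u, f u = ∑ x : Fin n, ∑ u' : Fin d → Fin n, f (Fin.cons x u') := by
  rw [← (Fin.consEquiv (fun _ : Fin (d + 1) => Fin n)).sum_comp f]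
  rw [Fintype.sum_prod_type]
  rfl

theorem chn_snoc {m : ℕ} (t : Fin (m + 1) → Fin n) (y : Fin n) :
    chW K (Fin.snoc t y : Fin (m + 1 + 1) → Fin n)
      = chW K t * (K (t (Fin.last m)) y / rs K (t (Fin.last m))) := by
  unfold chW
  rw [Fin.prod_univ_castSucc]
  have e0 : (Fin.snoc t y : Fin (m + 1 + 1) → Fin n) 0 = t 0 := by
    have : (0 : Fin (m + 1 + 1)) = Fin.castSucc (0 : Fin (m + 1)) := rfl
    rw [this]
    exact Fin.snoc_castSucc (α := fun _ => Fin n) y t 0
  have e1 : ∀ j : Fin (m + 1), (Fin.snoc t y : Fin (m + 1 + 1) → Fin n) j.castSucc = t j := fun j =>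
    Fin.snoc_castSucc (α := fun _ => Fin n) y t j
  have e2 : ∀ j : Fin m, (Fin.snoc t y : Fin (m + 1 + 1) → Fin n) (j.castSucc.succ) = t j.succ := by
    intro j
    have : (j.castSucc.succ : Fin (m + 1 + 1)) = Fin.castSucc (j.succ) := by
      ext; simp
    rw [this]
    exact e1 _
  have e3 : (Fin.snoc t y : Fin (m + 1 + 1) → Fin n) ((Fin.last m).succ) = y := by
    have : ((Fin.last m).succ : Fin (m + 1 + 1)) = Fin.last (m + 1) := by
      ext; simp
    rw [this]
    exact Fin.snoc_last (α := fun _ => Fin n) y t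
  rw [e0, e1, e3]
  simp only [e1, e2]
  ring

theorem chn_cons (h0 : ∀ x y, 0 ≤ K x y) {m : ℕ} (x : Fin n) (t : Fin (m + 1) → Fin n) :
    chW K (Fin.cons x t : Fin (m + 1 + 1) → Fin n)
      = K x (t 0) * ∏ j : Fin m, (K (t j.castSucc) (t j.succ) / rs K (t j.castSucc)) := by
  unfold chW
  rw [Fin.prod_univ_succ]
  have e0 : (Fin.cons x t : Fin (m + 1 + 1) → Fin n) 0 = x := rfl
  have e1 : ∀ j : Fin (m + 1), (Fin.cons x t : Fin (m + 1 + 1) → Fin n) j.succ = t j := fun j =>
    Fin.cons_succ (α := fun _ => Fin n) x t j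
  have e2 : ∀ j : Fin m, (Fin.cons x t : Fin (m + 1 + 1) → Fin n) (j.succ.castSucc) = t j.castSucc := by
    intro j
    have : (j.succ.castSucc : Fin (m + 1 + 1)) = Fin.succ (j.castSucc) := by
      ext; simp
    rw [this]
    exact e1 _
  have e3 : (Fin.cons x t : Fin (m + 1 + 1) → Fin n) (Fin.castSucc 0) = x := rfl
  rw [e0, e3]
  simp only [e1, e2]
  rw [← mul_assoc, chn_mul h0]

theorem chn_dead (h0 : ∀ x y, 0 ≤ K x y) (hs : ∀ x y, K x y = K y x) {m : ℕ} (t : Fin (m + 1) → Fin n)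
    (hx : rs K (t (Fin.last m)) = 0) : chW K t = 0 := by
  cases m with
  | zero =>
    unfold chW
    have : (Fin.last 0) = 0 := rfl
    rw [this] at hx
    rw [hx]; simp
  | succ m =>
    unfold chW
    rw [Fin.prod_univ_castSucc]
    have e : ((Fin.last m).succ : Fin (m + 1 + 1)) = Fin.last (m + 1) := by
      ext; simp
    rw [e, hs _ (t (Fin.last (m + 1))), chn_zero h0 hx]
    simp

theorem chn_right (h0 : ∀ x y, 0 ≤ K x y) (hs : ∀ x y, K x y = K y x) {m : ℕ}
    (F : (Fin (m + 1) → Fin n) → ℝ) :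
    ∑ t : Fin (m + 1 + 1) → Fin n, chW K t * F (fun i => t i.castSucc) = ∑ t, chW K t * F t := by
  rw [chn_sum_snoc]
  refine Finset.sum_congr rfl fun t _ => ?_
  have e1 : ∀ y, (fun i : Fin (m + 1) => (Fin.snoc t y : Fin (m + 1 + 1) → Fin n) i.castSucc) = t := by
    intro y
    funext j
    exact Fin.snoc_castSucc (α := fun _ => Fin n) y t j
  simp only [e1, chn_snoc]
  rw [← Finset.sum_mul, ← Finset.mul_sum, ← Finset.sum_div]
  by_cases hx : rs K (t (Fin.last m)) = 0
  · rw [chn_dead h0 hs t hx]; simp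
  · have : (∑ y, K (t (Fin.last m)) y) = rs K (t (Fin.last m)) := rfl
    rw [this, div_self hx, mul_one]

theorem chn_left (h0 : ∀ x y, 0 ≤ K x y) (hs : ∀ x y, K x y = K y x) {m : ℕ}
    (F : (Fin (m + 1) → Fin n) → ℝ) :
    ∑ t : Fin (m + 1 + 1) → Fin n, chW K t * F (fun i => t i.succ) = ∑ t, chW K t * F t := by
  rw [chn_sum_cons, Finset.sum_comm]
  refine Finset.sum_congr rfl fun t _ => ?_
  have e1 : ∀ x, (fun i : Fin (m + 1) => (Fin.cons x t : Fin (m + 1 + 1) → Fin n) i.succ) = t := by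
    intro x
    funext j
    exact Fin.cons_succ (α := fun _ => Fin n) x t j
  simp only [e1, chn_cons h0]
  rw [← Finset.sum_mul, ← Finset.sum_mul]
  have : (∑ x, K x (t 0)) = rs K (t 0) := by
    unfold rs
    exact Finset.sum_congr rfl fun x _ => hs x (t 0)
  rw [this]
  rfl

theorem chn_window (h0 : ∀ x y, 0 ≤ K x y) (hs : ∀ x y, K x y = K y x) (d : ℕ)
    (G : (Fin (d + 1) → Fin n) → ℝ) (m : ℕ) : ∀ (j : ℕ) (hj : j + d < m + 1),
    ∑ t : Fin (m + 1) → Fin n, chW K t * G (fun i => t ⟨j + i.val, by have := i.isLt; omega⟩)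
      = ∑ u, chW K u * G u := by
  induction m with
  | zero =>
    intro j hj
    have hj0 : j = 0 := by omega
    have hd0 : d = 0 := by omega
    subst hj0 hd0
    refine Finset.sum_congr rfl fun t _ => ?_
    congr 2
    funext i
    congr 1
    ext
    simp
  | succ m ih =>
    intro j hj
    by_cases h1 : j + d < m + 1
    · rw [← ih j h1]
      exact chn_right h0 hs (fun t : Fin (m + 1) → Fin n =>
        G (fun i => t ⟨j + i.val, by have := i.isLt; omega⟩))
    · cases j with
      | zero =>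
        have hd : d = m + 1 := by omega
        subst hd
        refine Finset.sum_congr rfl fun t _ => ?_
        congr 2
        funext i
        congr 1
        ext
        simp
      | succ j =>
        rw [← ih j (by omega)]
        have := chn_left h0 hs (fun t : Fin (m + 1) → Fin n =>
          G (fun i => t ⟨j + i.val, by have := i.isLt; omega⟩))
        rw [← this]
        refine Finset.sum_congr rfl fun t _ => ?_
        congr 2
        funext i
        congr 1
        ext
        simp only [Fin.val_succ]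
        omega

theorem chW_nonneg (h0 : ∀ x y, 0 ≤ K x y) {m : ℕ} (t : Fin (m + 1) → Fin n) : 0 ≤ chW K t := by
  unfold chW
  exact mul_nonneg (chn_rs_nonneg h0 _)
    (Finset.prod_nonneg fun j _ => div_nonneg (h0 _ _) (chn_rs_nonneg h0 _))

theorem ch1 (h0 : ∀ x y, 0 ≤ K x y) (hs : ∀ x y, K x y = K y x) (m : ℕ) (j : ℕ) (hj : j < m + 1)
    (f : Fin n → ℝ) :
    ∑ t : Fin (m + 1) → Fin n, chW K t * f (t ⟨j, hj⟩) = ∑ x, rs K x * f x := by
  have h := chn_window h0 hs 0 (fun u => f (u 0)) m j (by omega)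
  have h2 : ∑ t : Fin (m + 1) → Fin n, chW K t * f (t ⟨j, hj⟩) = ∑ u : Fin 1 → Fin n, chW K u * f (u 0) := by
    rw [← h]
    refine Finset.sum_congr rfl fun t _ => ?_
    congr 2
  rw [h2, chn_sum_snoc]
  simp only [Finset.univ_unique, Finset.sum_singleton]
  refine Finset.sum_congr rfl fun x _ => ?_
  have e : (Fin.snoc (default : Fin 0 → Fin n) x : Fin (0 + 1) → Fin n) 0 = x := by
    exact Fin.snoc_last (α := fun _ => Fin n) x default
  unfold chW
  rw [e]
  simp

theorem ch2 (h0 : ∀ x y, 0 ≤ K x y) (hs : ∀ x y, K x y = K y x) (m : ℕ) (j : ℕ) (hj : j + 1 < m + 1)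
    (f : Fin n → Fin n → ℝ) :
    ∑ t : Fin (m + 1) → Fin n, chW K t * f (t ⟨j, by omega⟩) (t ⟨j + 1, hj⟩) = ∑ x, ∑ y, K x y * f x y := by
  have h := chn_window h0 hs 1 (fun u => f (u 0) (u 1)) m j (by omega)
  have h2 : ∑ t : Fin (m + 1) → Fin n, chW K t * f (t ⟨j, by omega⟩) (t ⟨j + 1, hj⟩)
      = ∑ u : Fin (1 + 1) → Fin n, chW K u * f (u 0) (u 1) := by
    rw [← h]
    refine Finset.sum_congr rfl fun t _ => ?_
    congr 2
  rw [h2, chn_sum_cons]
  refine Finset.sum_congr rfl fun x _ => ?_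
  rw [chn_sum_cons]
  refine Finset.sum_congr rfl fun y _ => ?_
  simp only [Finset.univ_unique, Finset.sum_singleton]
  rw [chn_cons h0]
  simp

theorem ch3 (h0 : ∀ x y, 0 ≤ K x y) (hs : ∀ x y, K x y = K y x) (m : ℕ) (j : ℕ) (hj : j + 2 < m + 1)
    (f : Fin n → Fin n → Fin n → ℝ) :
    ∑ t : Fin (m + 1) → Fin n, chW K t * f (t ⟨j, by omega⟩) (t ⟨j + 1, by omega⟩) (t ⟨j + 2, hj⟩)
      = ∑ x, ∑ y, ∑ z, K x y * (K y z / rs K y) * f x y z := by
  have h := chn_window h0 hs 2 (fun u => f (u 0) (u 1) (u 2)) m j (by omega)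
  have h2 : ∑ t : Fin (m + 1) → Fin n, chW K t * f (t ⟨j, by omega⟩) (t ⟨j + 1, by omega⟩) (t ⟨j + 2, hj⟩)
      = ∑ u : Fin (2 + 1) → Fin n, chW K u * f (u 0) (u 1) (u 2) := by
    rw [← h]
    refine Finset.sum_congr rfl fun t _ => ?_
    congr 2
  rw [h2, chn_sum_cons]
  refine Finset.sum_congr rfl fun x _ => ?_
  rw [chn_sum_cons]
  refine Finset.sum_congr rfl fun y _ => ?_
  rw [chn_sum_cons]
  refine Finset.sum_congr rfl fun z _ => ?_
  simp only [Finset.univ_unique, Finset.sum_singleton]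
  rw [chn_cons h0]
  have e2 : (Fin.cons x (Fin.cons y (Fin.cons z default : Fin (0 + 1) → Fin n) : Fin (1 + 1) → Fin n) :
      Fin (2 + 1) → Fin n) 2 = z := rfl
  have e1 : (Fin.cons x (Fin.cons y (Fin.cons z default : Fin (0 + 1) → Fin n) : Fin (1 + 1) → Fin n) :
      Fin (2 + 1) → Fin n) 1 = y := rfl
  rw [e1, e2]
  simp

end
end Pool.Agent.APK
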