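import Pool.Agent.APK.Ber

/-!
# APK/Cyl : sums of weighted cylinder indicators   (difficulty 2)

`cylF w P N S = ∑_t w t * [P t ⊆ S and N t ∩ S = ∅]` for a finite family of pairs of disjoint finsets
`P t, N t ⊆ U`; `load e` is the total weight of the `t` with `e ∈ P t ∪ N t`.

* `EE_cylF`: linearity (`EE_sum`, `EE_mul`) and `PP_cyl`.
* `cyl_up`, `cyl_low`: `bernstein`, `bernstein_low` with `c e = load e`: replacing `S.erase e` by `insert e S` changes
  the indicator of `t` only if `e ∈ P t ∪ N t`, so `|cylF (insert e S) - cylF (S.erase e)| ≤ load e`.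
-/

set_option autoImplicit false
open Finset
open scoped Classical

namespace Pool.Agent.APK
noncomputable section

variable {ι τ : Type} [DecidableEq ι]

/-- weighted sum of the cylinder indicators -/
def cylF (J : Finset τ) (w : τ → ℝ) (P N : τ → Finset ι) (S : Finset ι) : ℝ :=
  ∑ t ∈ J, w t * (if P t ⊆ S ∧ Disjoint (N t) S then 1 else 0)

/-- the total weight of the cylinders that involve `e` -/
def load (J : Finset τ) (w : τ → ℝ) (P N : τ → Finset ι) (e : ι) : ℝ :=
  ∑ t ∈ J, if e ∈ P t ∨ e ∈ N t then w t else 0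

theorem cyl_diff {U : Finset ι} (J : Finset τ) (w : τ → ℝ)
    (P N : τ → Finset ι) (hw : ∀ t ∈ J, 0 ≤ w t) :
    ∀ i ∈ U, ∀ S, S ⊆ U → |cylF J w P N (insert i S) - cylF J w P N (S.erase i)| ≤ load J w P N i := by
  intro i _ S _
  unfold cylF load
  rw [← Finset.sum_sub_distrib]
  refine (Finset.abs_sum_le_sum_abs _ _).trans (Finset.sum_le_sum (fun t ht => ?_))
  have hwt := hw t ht
  by_cases hi : i ∈ P t ∨ i ∈ N t
  · rw [if_pos hi, ← mul_sub, abs_mul, abs_of_nonneg hwt]
    have h1 : |(if P t ⊆ insert i S ∧ Disjoint (N t) (insert i S) then (1 : ℝ) else 0) -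
        (if P t ⊆ S.erase i ∧ Disjoint (N t) (S.erase i) then 1 else 0)| ≤ 1 := by
      split_ifs <;> norm_num
    nlinarith
  · rw [if_neg hi]
    push Not at hi
    have h1 : (P t ⊆ insert i S ∧ Disjoint (N t) (insert i S)) ↔
        (P t ⊆ S.erase i ∧ Disjoint (N t) (S.erase i)) := by
      constructor
      · rintro ⟨h1, h2⟩
        constructor
        · intro a ha
          have h3 := h1 ha
          have h4 : a ≠ i := fun h => hi.1 (h ▸ ha)
          rw [Finset.mem_insert] at h3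
          rcases h3 with h3 | h3
          · exact absurd h3 h4
          · exact Finset.mem_erase.mpr ⟨h4, h3⟩
        · exact Finset.disjoint_of_subset_right
            ((Finset.erase_subset _ _).trans (Finset.subset_insert _ _)) h2
      · rintro ⟨h1, h2⟩
        constructor
        · exact h1.trans ((Finset.erase_subset _ _).trans (Finset.subset_insert _ _))
        · rw [Finset.disjoint_left] at h2 ⊢
          intro a ha h3
          have h4 : a ≠ i := fun h => hi.2 (h ▸ ha)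
          rw [Finset.mem_insert] at h3
          rcases h3 with h3 | h3
          · exact h4 h3
          · exact h2 ha (Finset.mem_erase.mpr ⟨h4, h3⟩)
    have h2 : w t * (if P t ⊆ insert i S ∧ Disjoint (N t) (insert i S) then (1 : ℝ) else 0) -
        w t * (if P t ⊆ S.erase i ∧ Disjoint (N t) (S.erase i) then 1 else 0) = 0 := by
      by_cases h3 : (P t ⊆ S.erase i ∧ Disjoint (N t) (S.erase i))
      · rw [if_pos h3, if_pos (h1.mpr h3)]; ring
      · rw [if_neg h3, if_neg (fun h => h3 (h1.mp h))]; ring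
    rw [h2, abs_zero]

theorem cyl_load_nonneg (J : Finset τ) (w : τ → ℝ)
    (P N : τ → Finset ι) (hw : ∀ t ∈ J, 0 ≤ w t) (e : ι) : 0 ≤ load J w P N e := by
  unfold load
  refine Finset.sum_nonneg (fun t ht => ?_)
  split_ifs
  · exact hw t ht
  · exact le_rfl

theorem EE_cylF {p : ι → ℝ} {U : Finset ι} (J : Finset τ) (w : τ → ℝ) (P N : τ → Finset ι)
    (hP : ∀ t ∈ J, P t ⊆ U) (hN : ∀ t ∈ J, N t ⊆ U) (hPN : ∀ t ∈ J, Disjoint (P t) (N t)) :
    EE p U (cylF J w P N) = ∑ t ∈ J, w t * ((∏ i ∈ P t, p i) * ∏ i ∈ N t, (1 - p i)) := by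
  have h1 : EE p U (cylF J w P N) =
      EE p U (fun S => ∑ t ∈ J, w t * (if P t ⊆ S ∧ Disjoint (N t) S then 1 else 0)) := rfl
  rw [h1, EE_sum]
  refine Finset.sum_congr rfl (fun t ht => ?_)
  rw [EE_mul]
  have h2 := PP_cyl (p := p) (hP t ht) (hN t ht) (hPN t ht)
  unfold PP at h2
  refine congrArg (fun z => w t * z) ((EE_congr (fun S _ => ?_)).trans h2)
  by_cases hq : P t ⊆ S ∧ Disjoint (N t) S
  · rw [if_pos hq, if_pos hq]
  · rw [if_neg hq, if_neg hq]

theorem cyl_up {p : ι → ℝ} {U : Finset ι} (hp : IsP p U) (J : Finset τ) (w : τ → ℝ)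
    (P N : τ → Finset ι) (hw : ∀ t ∈ J, 0 ≤ w t) {b V lam : ℝ} (hb : 0 < b) (hV : 0 < V) (hlam : 0 ≤ lam)
    (hlb : ∀ e ∈ U, load J w P N e ≤ b) (hlV : ∑ e ∈ U, p e * load J w P N e ^ 2 ≤ V) :
    PP p U (fun S => EE p U (cylF J w P N) + lam ≤ cylF J w P N S)
      ≤ Real.exp (- min (lam ^ 2 / (4 * V)) (lam / (2 * b))) :=
  bernstein hp hb hV hlam (fun i hi => ⟨cyl_load_nonneg J w P N hw i, hlb i hi⟩)
    (cyl_diff J w P N hw) hlV

theorem cyl_low {p : ι → ℝ} {U : Finset ι} (hp : IsP p U) (J : Finset τ) (w : τ → ℝ)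
    (P N : τ → Finset ι) (hw : ∀ t ∈ J, 0 ≤ w t) {b V lam : ℝ} (hb : 0 < b) (hV : 0 < V) (hlam : 0 ≤ lam)
    (hlb : ∀ e ∈ U, load J w P N e ≤ b) (hlV : ∑ e ∈ U, p e * load J w P N e ^ 2 ≤ V) :
    PP p U (fun S => cylF J w P N S ≤ EE p U (cylF J w P N) - lam)
      ≤ Real.exp (- min (lam ^ 2 / (4 * V)) (lam / (2 * b))) :=
  bernstein_low hp hb hV hlam (fun i hi => ⟨cyl_load_nonneg J w P N hw i, hlb i hi⟩)
    (cyl_diff J w P N hw) hlV

end
end Pool.Agent.APK
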