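import Pool.Agent.APK.HypDefs

/-!
# APK/Ext : from the matching to the partial embeddings   (difficulty 4)

`M` is a matching of the tile hypergraph with nonzero weights.  For an agent `(i,s)` there is at most one `T` with
`⟨(i,s),T⟩ ∈ M` (two hyperedges of the same agent share the hypergraph vertex `inl (i,s)`).  Say `(i,s)` is matched by `T`;
then `len i s ≠ 0` and `om T ≠ 0`, so `3 ≤ len i s`, `T` is injective and `B.Adj (T j) (T (rot j))`.
`Dm i = {p : p = (π i)^a s, a < len i s, (i,s) matched}`; by `Chunks.inj` the pair `(s,a)` is determined by `p`;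
`φ i p = T a`.
* `inj`: `φ i p = φ i p' = v`, with `(s,a)`, `(s',a')`: both hyperedges contain `(i,v)`; matching: same hyperedge, so `s = s'`
  and the same `T`, `T` injective: `a = a'`.
* neighbours: let `p = (π i)^a s ∈ Dm i` and `π i p ∈ Dm i`.  If `a + 1 < len i s` then `π i p = (π i)^(a+1) s` is the next
  position of the same chunk.  If `a + 1 = len i s`: `π i p = (π i)^(len) s`; by `sep` either this is `s` (closed; position
  `0`, cyclic successor) or it is in no chunk, contradicting `π i p ∈ Dm i`.  So in all cases `φ i (π i p) = T (rot a)`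
  with the same `T`.  Hence `adj`, and `s(φ i p, φ i (π i p)) ∈` the edge part of the hyperedge: `dis` follows from
  disjointness (same hyperedge, so `i = j`).
* if `a` is inner (`Inn`) then both neighbours of `p` are in the same chunk, so `InD (π i) (Dm i) p`, and
  `φ i ((π i)⁻¹ p) = T (rot⁻¹ a)` (closed and `a = 0`: the last position, `(π i)^(len-1) s = (π i)⁻¹ s`).
* `small`: `|Dm i| = ∑_{matched (i,s)} len i s = K ∑_{e ∈ M} gB i e ≥ (1 - lam) n`.
* `touch`: `#{i : ∃ p inner, φ i p = v} ≥ ∑_{e ∈ M} gA v e ≥ (1-lam) t`: for each `i` at most one `e ∈ M` with first index `i`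
  has `gA v e = 1` (it contains `(i,v)`), and then `v = φ i p` for an inner `p`.  So the complement is `≤ lam t ≤ lam n`.
* `pat`: the inner positions of the matched chunks of copy `i` with the pattern: their number is `K ∑_{e∈M} gC i x y z e`
  (distinct `(s,a)` give distinct positions).  In `gC` the reserve conditions are on `T a`, `T (rot⁻¹ a)`, `T (rot a)`, i.e. on
  `φ i q`, `φ i ((π i)⁻¹ q)`, `φ i (π i q)`.
-/

set_option autoImplicit false
open Finset
open scoped Classical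

namespace Pool.Agent.APK
noncomputable section

variable {t n K : ℕ} {π : Fin t → Equiv.Perm (Fin n)} {len : Fin t → Fin n → ℕ}
  {B R : SimpleGraph (Fin n)} {om : (ℓ : ℕ) → (Fin ℓ → Fin n) → ℝ} {ga C e D c : ℝ}

/-- placed positions: a hyperedge with a position of its chunk -/
abbrev ExtPT (t n : ℕ) (len : Fin t → Fin n → ℕ) := (e : HE t n len) × Fin (len e.1.1 e.1.2)

/-- the position -/
def extPos (π : Fin t → Equiv.Perm (Fin n)) (x : ExtPT t n len) : Fin n :=
  ((π x.1.1.1) ^ x.2.val) x.1.1.2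

/-- the vertex -/
def extVer (x : ExtPT t n len) : Fin n := x.1.2 x.2

/-- the next position of the tile -/
def extNext (x : ExtPT t n len) : ExtPT t n len := ⟨x.1, finRotate _ x.2⟩

/-- the previous position of the tile -/
def extPrev (x : ExtPT t n len) : ExtPT t n len := ⟨x.1, (finRotate _).symm x.2⟩

theorem ext_rot_lt {l : ℕ} (j : Fin l) (h : j.val + 1 < l) : (finRotate l j).val = j.val + 1 := by
  cases l with
  | zero => exact j.elim0
  | succ m =>
    apply coe_finRotate_of_ne_last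
    intro h1
    rw [h1, Fin.val_last] at h
    omega

theorem ext_rot_last {l : ℕ} (j : Fin l) (h : j.val + 1 = l) : (finRotate l j).val = 0 := by
  cases l with
  | zero => exact j.elim0
  | succ m =>
    have h1 : j = Fin.last m := by
      apply Fin.ext
      rw [Fin.val_last]
      omega
    rw [h1, finRotate_last]
    rfl

theorem ext_eq {x y : ExtPT t n len} (h1 : x.1 = y.1) (h2 : x.2.val = y.2.val) : x = y := by
  obtain ⟨a, j⟩ := x
  obtain ⟨b, k⟩ := y
  obtain rfl : a = b := h1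
  have h3 : j = k := Fin.ext h2
  rw [h3]

theorem ext_L0 {M : Finset (HE t n len)}
    (hM : ∀ x ∈ M, ∀ y ∈ M, x ≠ y → Disjoint (hV len x) (hV len y)) {a b : HE t n len}
    (ha : a ∈ M) (hb : b ∈ M) {u : HV t n} (hua : u ∈ hV len a) (hub : u ∈ hV len b) : a = b := by
  by_contra hab
  exact Finset.disjoint_left.mp (hM a ha b hb hab) hua hub

theorem ext_mem1 (a : HE t n len) : (Sum.inl a.1 : HV t n) ∈ hV len a := by
  unfold hV
  rw [Finset.mem_union, Finset.mem_union]
  exact Or.inl (Or.inl (Finset.mem_singleton_self _))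

theorem ext_mem2 (x : ExtPT t n len) :
    (Sum.inr (Sum.inl (x.1.1.1, extVer x)) : HV t n) ∈ hV len x.1 := by
  unfold hV
  rw [Finset.mem_union, Finset.mem_union]
  exact Or.inl (Or.inr (Finset.mem_image.mpr ⟨x.2, Finset.mem_univ _, rfl⟩))

theorem ext_mem3 (x : ExtPT t n len) :
    (Sum.inr (Sum.inr s(extVer x, extVer (extNext x))) : HV t n) ∈ hV len x.1 := by
  unfold hV
  rw [Finset.mem_union]
  exact Or.inr (Finset.mem_image.mpr ⟨x.2, Finset.mem_univ _, rfl⟩)

theorem ext_L1 (hch : ∀ i, Chunks K (π i) (len i)) {M : Finset (HE t n len)}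
    (hM : ∀ x ∈ M, ∀ y ∈ M, x ≠ y → Disjoint (hV len x) (hV len y)) {x y : ExtPT t n len}
    (hx : x.1 ∈ M) (hy : y.1 ∈ M) (hi : x.1.1.1 = y.1.1.1) (hp : extPos π x = extPos π y) :
    x = y := by
  obtain ⟨⟨⟨i, s⟩, T⟩, j⟩ := x
  obtain ⟨⟨⟨i', s'⟩, T'⟩, j'⟩ := y
  obtain rfl : i = i' := hi
  obtain ⟨h1, h2⟩ := (hch i).inj s s' j.val j'.val j.isLt j'.isLt hp
  obtain rfl : s = s' := h1
  refine ext_eq (ext_L0 hM hx hy (ext_mem1 _) ?_) h2
  exact ext_mem1 (⟨(i, s), T'⟩ : HE t n len)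

theorem ext_L2 {M : Finset (HE t n len)}
    (hM : ∀ x ∈ M, ∀ y ∈ M, x ≠ y → Disjoint (hV len x) (hV len y))
    (hinj : ∀ x : HE t n len, x ∈ M → 0 < len x.1.1 x.1.2 → Function.Injective x.2)
    {x y : ExtPT t n len}
    (hx : x.1 ∈ M) (hy : y.1 ∈ M) (hi : x.1.1.1 = y.1.1.1) (hp : extVer x = extVer y) :
    x = y := by
  have h1 : x.1 = y.1 := by
    refine ext_L0 hM hx hy (ext_mem2 x) ?_
    rw [hi, hp]
    exact ext_mem2 y
  obtain ⟨a, j⟩ := x
  obtain ⟨b, k⟩ := y
  obtain rfl : a = b := h1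
  have h2 : j = k := hinj a hx (lt_of_le_of_lt (Nat.zero_le _) j.isLt) hp
  rw [h2]

theorem ext_next (x : ExtPT t n len)
    (h : x.2.val + 1 < len x.1.1.1 x.1.1.2 ∨ Closed (π x.1.1.1) (len x.1.1.1) x.1.1.2) :
    extPos π (extNext x) = π x.1.1.1 (extPos π x) := by
  obtain ⟨⟨⟨i, s⟩, T⟩, j⟩ := x
  have h0 : π i (((π i) ^ j.val) s) = ((π i) ^ (j.val + 1)) s := by
    rw [pow_succ', Equiv.Perm.mul_apply]
  by_cases h1 : j.val + 1 < len i s
  · have h2 : (finRotate _ j).val = j.val + 1 := ext_rot_lt j h1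
    show ((π i) ^ (finRotate _ j).val) s = π i (((π i) ^ j.val) s)
    rw [h2, h0]
  · have h3 : Closed (π i) (len i) s := h.resolve_left h1
    have h4 : j.val + 1 = len i s := by
      have := j.isLt
      have h5 : j.val < len i s := this
      omega
    have h2 : (finRotate _ j).val = 0 := ext_rot_last j h4
    show ((π i) ^ (finRotate _ j).val) s = π i (((π i) ^ j.val) s)
    rw [h2, h0, h4, pow_zero]
    exact h3.symm

theorem ext_next' (hch : ∀ i, Chunks K (π i) (len i)) (x : ExtPT t n len)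
    (h : ∃ y : ExtPT t n len, y.1.1.1 = x.1.1.1 ∧ extPos π y = π x.1.1.1 (extPos π x)) :
    extPos π (extNext x) = π x.1.1.1 (extPos π x) := by
  apply ext_next
  obtain ⟨⟨⟨i, s⟩, T⟩, j⟩ := x
  by_cases h1 : j.val + 1 < len i s
  · exact Or.inl h1
  right
  have h5 : j.val < len i s := j.isLt
  have h4 : j.val + 1 = len i s := by omega
  obtain ⟨⟨⟨⟨i', s'⟩, T'⟩, j'⟩, hi, hy⟩ := h
  obtain rfl : i' = i := hi
  rcases (hch i').sep s (by omega) with h6 | ⟨h6, _⟩
  · exact h6
  · exfalso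
    refine h6 s' j'.val j'.isLt ?_
    have h7 : ((π i') ^ j'.val) s' = π i' (((π i') ^ j.val) s) := hy
    have h8 : π i' (((π i') ^ j.val) s) = ((π i') ^ (j.val + 1)) s := by
      rw [pow_succ', Equiv.Perm.mul_apply]
    rw [h7, h8, h4]

theorem ext_nextprev (x : ExtPT t n len) : extNext (extPrev x) = x := by
  obtain ⟨a, j⟩ := x
  show (⟨a, finRotate _ ((finRotate _).symm j)⟩ : ExtPT t n len) = ⟨a, j⟩
  rw [Equiv.apply_symm_apply]

theorem ext_prev (x : ExtPT t n len) (h : Inn (π x.1.1.1) (len x.1.1.1) x.1.1.2 x.2.val) :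
    extPos π (extPrev x) = (π x.1.1.1)⁻¹ (extPos π x) := by
  have h1 : extPos π (extNext (extPrev x)) = π x.1.1.1 (extPos π (extPrev x)) := by
    apply ext_next (π := π) (extPrev x)
    rcases h with h | h
    · exact Or.inr h
    · left
      have h2 : (extNext (extPrev x)).2.val = x.2.val := by rw [ext_nextprev]
      by_contra h3
      have h4 : (extPrev x).2.val + 1 = len (extPrev x).1.1.1 (extPrev x).1.1.2 := by
        have := (extPrev x).2.isLt
        omega
      have h5 : (extNext (extPrev x)).2.val = 0 := ext_rot_last (extPrev x).2 h4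
      omega
  rw [ext_nextprev] at h1
  rw [h1]
  exact (Equiv.symm_apply_apply _ _).symm

theorem ext_inn (x : ExtPT t n len) (h : Inn (π x.1.1.1) (len x.1.1.1) x.1.1.2 x.2.val) :
    extPos π (extNext x) = π x.1.1.1 (extPos π x) := by
  apply ext_next
  rcases h with h | h
  · exact Or.inr h
  · exact Or.inl h.2

theorem ext_phi (hch : ∀ i, Chunks K (π i) (len i)) (M : Finset (HE t n len))
    (hM : ∀ x ∈ M, ∀ y ∈ M, x ≠ y → Disjoint (hV len x) (hV len y)) :
    ∃ (φ : Fin t → Fin n → Fin n) (Dm : Fin t → Finset (Fin n)),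
      (∀ x : ExtPT t n len, x.1 ∈ M → φ x.1.1.1 (extPos π x) = extVer x) ∧
      ∀ i p, p ∈ Dm i ↔ ∃ x : ExtPT t n len, x.1 ∈ M ∧ x.1.1.1 = i ∧ extPos π x = p := by
  refine ⟨fun i p => if h : ∃ x : ExtPT t n len, x.1 ∈ M ∧ x.1.1.1 = i ∧ extPos π x = p
    then extVer h.choose else p, fun i => univ.filter fun p => ∃ x : ExtPT t n len, x.1 ∈ M ∧
      x.1.1.1 = i ∧ extPos π x = p, ?_, ?_⟩
  · intro x hx
    have h : ∃ y : ExtPT t n len, y.1 ∈ M ∧ y.1.1.1 = x.1.1.1 ∧ extPos π y = extPos π x :=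
      ⟨x, hx, rfl, rfl⟩
    show (if h : ∃ y : ExtPT t n len, y.1 ∈ M ∧ y.1.1.1 = x.1.1.1 ∧ extPos π y = extPos π x
      then extVer h.choose else extPos π x) = extVer x
    rw [dif_pos h]
    have h1 := h.choose_spec
    rw [ext_L1 hch hM h1.1 hx h1.2.1 h1.2.2]
  · intro i p
    rw [Finset.mem_filter]
    exact ⟨fun h => h.2, fun h => ⟨Finset.mem_univ _, h⟩⟩

theorem ext_card (hch : ∀ i, Chunks K (π i) (len i)) (M : Finset (HE t n len))
    (hM : ∀ x ∈ M, ∀ y ∈ M, x ≠ y → Disjoint (hV len x) (hV len y)) (hK : 0 < K) (i : Fin t)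
    (P : ∀ x : HE t n len, Finset (Fin (len x.1.1 x.1.2))) (X : Finset (Fin n))
    (hX : ∀ x : ExtPT t n len, x.1 ∈ M → x.1.1.1 = i → x.2 ∈ P x.1 → extPos π x ∈ X) :
    ∑ x ∈ M, (if x.1.1 = i then ((P x).card : ℝ) / K else 0) ≤ (X.card : ℝ) / K := by
  have h1 : ∑ x ∈ M, (if x.1.1 = i then ((P x).card : ℝ) / K else 0)
      = (((M.filter fun x => x.1.1 = i).sigma P).card : ℝ) / K := by
    rw [Finset.card_sigma, Nat.cast_sum, Finset.sum_div, Finset.sum_filter]
  rw [h1]
  have hK' : (0 : ℝ) < K := by exact_mod_cast hK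
  apply div_le_div_of_nonneg_right _ hK'.le
  have h2 := Finset.card_le_card_of_injOn (s := (M.filter fun x => x.1.1 = i).sigma P)
    (t := X) (extPos π) (by
    intro x hx
    rw [Finset.mem_coe, Finset.mem_sigma, Finset.mem_filter] at hx
    exact hX x hx.1.1 hx.1.2 hx.2) (by
    intro x hx y hy hxy
    rw [Finset.mem_coe, Finset.mem_sigma, Finset.mem_filter] at hx hy
    exact ext_L1 hch hM hx.1.1 hy.1.1 (hx.1.2.trans hy.1.2.symm) hxy)
  exact_mod_cast h2

theorem extract (h : App t n K π len B R om ga C e D c) {lam c1 : ℝ} (hlam : 0 ≤ lam)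
    (M : Finset (HE t n len)) (hM0 : ∀ x ∈ M, hW len om ga x ≠ 0)
    (hM : ∀ x ∈ M, ∀ y ∈ M, x ≠ y → Disjoint (hV len x) (hV len y))
    (hA : ∀ v, (1 - lam) * t ≤ ∑ x ∈ M, gA π len v x)
    (hB : ∀ i, (1 - lam) * n / K ≤ ∑ x ∈ M, gB len K i x)
    (hC : ∀ i x y z, c1 * n / K ≤ ∑ a ∈ M, gC π len K R i x y z a) :
    ∃ (φ : Fin t → Fin n → Fin n) (Dm : Fin t → Finset (Fin n)), FLin t n π B R φ Dm lam c1 := by
  have hch := h.chunk
  obtain ⟨φ, Dm, hφ, hDm⟩ := ext_phi hch M hM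
  have hK0 : 0 < K := by have := h.K3; omega
  have hK' : (0 : ℝ) < K := by exact_mod_cast hK0
  have hom : ∀ x : HE t n len, x ∈ M → 0 < len x.1.1 x.1.2 →
      3 ≤ len x.1.1 x.1.2 ∧ len x.1.1 x.1.2 ≤ K ∧ om (len x.1.1 x.1.2) x.2 ≠ 0 := by
    intro x hx hl
    have h1 := hM0 x hx
    unfold hW at h1
    rw [if_neg (by omega)] at h1
    exact ⟨(hch x.1.1).ge x.1.2 (by omega), (hch x.1.1).le x.1.2, right_ne_zero_of_mul h1⟩
  have hinj : ∀ x : HE t n len, x ∈ M → 0 < len x.1.1 x.1.2 → Function.Injective x.2 := by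
    intro x hx hl
    obtain ⟨h1, h2, h3⟩ := hom x hx hl
    exact (h.tile _ h1 h2).inj _ h3
  have hpos : ∀ x : ExtPT t n len, 0 < len x.1.1.1 x.1.1.2 := fun x =>
    lt_of_le_of_lt (Nat.zero_le _) x.2.isLt
  have hmem : ∀ x : ExtPT t n len, x.1 ∈ M → extPos π x ∈ Dm x.1.1.1 := fun x hx =>
    (hDm _ _).mpr ⟨x, hx, rfl, rfl⟩
  -- neighbours
  have hnb : ∀ i p, p ∈ Dm i → π i p ∈ Dm i → ∃ x : ExtPT t n len, x.1 ∈ M ∧ x.1.1.1 = i ∧
      extPos π x = p ∧ φ i p = extVer x ∧ φ i (π i p) = extVer (extNext x) := by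
    intro i p hp hq
    obtain ⟨x, hx, hi, hxp⟩ := (hDm i p).mp hp
    obtain ⟨y, hy, hyi, hyp⟩ := (hDm i (π i p)).mp hq
    subst hi
    subst hxp
    have h1 := ext_next' (π := π) hch x ⟨y, hyi, hyp⟩
    refine ⟨x, hx, rfl, rfl, hφ x hx, ?_⟩
    rw [← h1]
    exact hφ (extNext x) hx
  have hin : ∀ x : ExtPT t n len, x.1 ∈ M →
      Inn (π x.1.1.1) (len x.1.1.1) x.1.1.2 x.2.val →
      InD (π x.1.1.1) (Dm x.1.1.1) (extPos π x) ∧
      φ x.1.1.1 (π x.1.1.1 (extPos π x)) = extVer (extNext x) ∧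
      φ x.1.1.1 ((π x.1.1.1)⁻¹ (extPos π x)) = extVer (extPrev x) := by
    intro x hx hI
    have h1 := ext_inn x hI
    have h2 := ext_prev x hI
    refine ⟨⟨hmem x hx, ?_, ?_⟩, ?_, ?_⟩
    · rw [← h1]
      exact hmem (extNext x) hx
    · rw [← h2]
      exact hmem (extPrev x) hx
    · rw [← h1]
      exact hφ (extNext x) hx
    · rw [← h2]
      exact hφ (extPrev x) hx
  refine ⟨φ, Dm, ?_, ?_, ?_, ?_, ?_, ?_⟩
  · intro i p hp q hq hpq
    obtain ⟨x, hx, hi, hxp⟩ := (hDm i p).mp hp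
    obtain ⟨y, hy, hyi, hyp⟩ := (hDm i q).mp hq
    subst hi
    subst hxp
    subst hyp
    have h1 := hφ x hx
    have h2 := hφ y hy
    rw [hyi] at h2
    have h3 : extVer x = extVer y := by rw [← h1, ← h2, hpq]
    rw [ext_L2 hM hinj hx hy hyi.symm h3]
  · intro i p hp hq
    obtain ⟨x, hx, hi, hxp, h1, h2⟩ := hnb i p hp hq
    rw [h1, h2]
    obtain ⟨g1, g2, g3⟩ := hom x.1 hx (hpos x)
    exact (h.tile _ g1 g2).adj x.1.2 g3 x.2
  · intro i j p r hp hp' hr hr' he
    obtain ⟨x, hx, hi, hxp, h1, h2⟩ := hnb i p hp hp'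
    obtain ⟨y, hy, hj, hyp, h3, h4⟩ := hnb j r hr hr'
    rw [h1, h2, h3, h4] at he
    have h5 : x.1 = y.1 := by
      refine ext_L0 hM hx hy (ext_mem3 x) ?_
      rw [he]
      exact ext_mem3 y
    rw [← hi, ← hj, h5]
  · intro i
    have h1 := ext_card (π := π) hch M hM hK0 i (fun _ => univ) (Dm i) (by
      intro x hx hi _
      rw [← hi]
      exact hmem x hx)
    have h2 : ∑ x ∈ M, gB len K i x = ∑ x ∈ M, (if x.1.1 = i then
        ((univ : Finset (Fin (len x.1.1 x.1.2))).card : ℝ) / K else 0) := by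
      refine Finset.sum_congr rfl fun x _ => ?_
      unfold gB
      rw [Finset.card_univ, Fintype.card_fin]
    have h3 := hB i
    rw [h2] at h3
    have h4 := h3.trans h1
    rw [div_le_div_iff_of_pos_right hK'] at h4
    rw [Finset.card_compl, Fintype.card_fin, Nat.cast_sub (by
      have := Finset.card_le_univ (Dm i)
      rwa [Fintype.card_fin] at this)]
    linarith
  · intro v
    have h1 : ∑ x ∈ M, gA π len v x = ((M.filter fun x => ∃ j : Fin (len x.1.1 x.1.2),
        Inn (π x.1.1) (len x.1.1) x.1.2 j.val ∧ x.2 j = v).card : ℝ) := by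
      rw [Finset.card_filter, Nat.cast_sum]
      refine Finset.sum_congr rfl fun x _ => ?_
      unfold gA
      split_ifs
      · exact Nat.cast_one.symm
      · exact Nat.cast_zero.symm
    have h2 := Finset.card_le_card_of_injOn (s := M.filter fun x => ∃ j : Fin (len x.1.1 x.1.2),
        Inn (π x.1.1) (len x.1.1) x.1.2 j.val ∧ x.2 j = v)
      (t := univ.filter (fun i => ∃ p, InD (π i) (Dm i) p ∧ φ i p = v)) (fun x => x.1.1) (by
        intro x hx
        rw [Finset.mem_coe, Finset.mem_filter] at hx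
        obtain ⟨hx1, j, hj, hjv⟩ := hx
        rw [Finset.mem_coe, Finset.mem_filter]
        refine ⟨Finset.mem_univ _, extPos π (⟨x, j⟩ : ExtPT t n len), ?_, ?_⟩
        · exact (hin ⟨x, j⟩ hx1 hj).1
        · rw [← hjv]
          exact hφ (⟨x, j⟩ : ExtPT t n len) hx1) (by
        intro x hx y hy hxy
        rw [Finset.mem_coe, Finset.mem_filter] at hx hy
        obtain ⟨hx1, j, hj, hjv⟩ := hx
        obtain ⟨hy1, k, hk, hkv⟩ := hy
        have hxy' : x.1.1 = y.1.1 := hxy
        have h3 := ext_mem2 (⟨x, j⟩ : ExtPT t n len)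
        have h4 := ext_mem2 (⟨y, k⟩ : ExtPT t n len)
        refine ext_L0 hM hx1 hy1 h3 ?_
        have h5 : extVer (⟨x, j⟩ : ExtPT t n len) = extVer (⟨y, k⟩ : ExtPT t n len) :=
          hjv.trans hkv.symm
        rw [h5]
        show (Sum.inr (Sum.inl (x.1.1, extVer (⟨y, k⟩ : ExtPT t n len))) : HV t n) ∈ hV len y
        rw [hxy']
        exact h4)
    have h3 := hA v
    rw [h1] at h3
    have h4 : (1 - lam) * t ≤ ((univ.filter (fun i => ∃ p, InD (π i) (Dm i) p ∧ φ i p = v)).card : ℝ) :=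
      h3.trans (by exact_mod_cast h2)
    have h5 := Finset.card_filter_add_card_filter_not (s := (univ : Finset (Fin t)))
      (fun i => ∃ p, InD (π i) (Dm i) p ∧ φ i p = v)
    rw [Finset.card_univ, Fintype.card_fin] at h5
    have h6 : ((univ.filter (fun i => ∃ p, InD (π i) (Dm i) p ∧ φ i p = v)).card : ℝ)
        + ((univ.filter (fun i => ¬ ∃ p, InD (π i) (Dm i) p ∧ φ i p = v)).card : ℝ) = t := by
      exact_mod_cast h5
    have h7 : (t : ℝ) ≤ n := by exact_mod_cast h.tn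
    have h8 := mul_le_mul_of_nonneg_left h7 hlam
    linarith
  · intro i x y z
    have h1 := ext_card (π := π) hch M hM hK0 i (fun e => univ.filter (fun j : Fin (len e.1.1 e.1.2) =>
      j.val ≠ 0 ∧ Inn (π e.1.1) (len e.1.1) e.1.2 j.val ∧ R.Adj y (e.2 j) ∧ R.Adj z (e.2 j) ∧
      R.Adj x (e.2 ((finRotate _).symm j)) ∧ R.Adj x (e.2 (finRotate _ j))))
      (univ.filter (fun q => InD (π i) (Dm i) q ∧ R.Adj y (φ i q) ∧
    R.Adj z (φ i q) ∧ R.Adj x (φ i (π i q)) ∧ R.Adj x (φ i ((π i)⁻¹ q)))) (by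
      intro q hq hi hP
      subst hi
      obtain ⟨_, hI, hy, hz, hx1, hx2⟩ := (Finset.mem_filter.mp hP).2
      obtain ⟨g1, g2, g3⟩ := hin q hq hI
      rw [Finset.mem_filter]
      refine ⟨Finset.mem_univ _, g1, ?_, ?_, ?_, ?_⟩
      · rw [hφ q hq]
        exact hy
      · rw [hφ q hq]
        exact hz
      · rw [g2]
        exact hx2
      · rw [g3]
        exact hx1)
    have h3 := hC i x y z
    have h4 := h3.trans h1
    rw [div_le_div_iff_of_pos_right hK'] at h4
    exact h4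

end
end Pool.Agent.APK
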