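import Pool.Agent.APK.HypDefs

/-!
# APK/FLd : states of the finishing process   (difficulty 3)

`φ0`, `D0` are the partial embeddings of the nibble (`FLin`), `φ`, `D` the current ones, `Q i ⊆ D0 i` the touched
positions.  `kap` is the saturation constant.

* `usedE φ D R`: the set of the pairs `(i,p)` with `p, π i p ∈ D i` whose edge `s(φ i p, φ i (π i p))` lies in `R`.
* `used_deg`: for every vertex `v` at most `2 (lam + kap) n` pairs `(i,p) ∈ usedE` have `v ∈ s(φ i p, φ i (π i p))`: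
  for fixed `i`, `φ i` is injective on `D i`, so `v = φ i u` for at most one `u ∈ D i`, and `(i,p)` counts only for
  `p = u` or `π i p = u`: at most two.  If one counts, `clean` says that `v` is not `φ0 i q` for any inner
  (`InD (π i) (D0 i) q`) `q ∉ Q i`.  So either `v` is not of the form `φ0 i q`, `q` inner (at most `lam n` such `i`,
  `FLin.touch`), or `v = φ0 i q` with `q ∈ Q i` (at most `kap n` such `i`, `sat`).
* `satur`: the number of `v` with `#{i : ∃ p ∈ Q i, φ0 i p = v} + 1 > kap n` is at most `6 lam n / kap` if `2 ≤ kap n`, `t ≤ n`: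
  `∑_v #{i : ∃ p ∈ Q i, φ0 i p = v} ≤ ∑_i |Q i| ≤ ∑_i 3 (|D i| - |D0 i|) ≤ 3 ∑_i |(D0 i)ᶜ| ≤ 3 t lam n`
  and each of these `v` contributes more than `kap n - 1 ≥ kap n/2`.
-/

set_option autoImplicit false
open Finset
open scoped Classical

namespace Pool.Agent.APK
noncomputable section

/-- invariants of the finishing process -/
structure St (t n : ℕ) (π : Fin t → Equiv.Perm (Fin n)) (B R : SimpleGraph (Fin n))
    (φ0 : Fin t → Fin n → Fin n) (D0 : Fin t → Finset (Fin n)) (kap : ℝ)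
    (φ : Fin t → Fin n → Fin n) (D Q : Fin t → Finset (Fin n)) : Prop where
  sub : ∀ i, D0 i ⊆ D i
  Qsub : ∀ i, Q i ⊆ D0 i
  inj : ∀ i, Set.InjOn (φ i) (D i)
  img : ∀ i p, p ∈ D0 i → ∃ r ∈ D i, φ i r = φ0 i p
  same : ∀ i p, p ∈ D0 i → p ∉ Q i → φ i p = φ0 i p
  orig : ∀ i p, p ∈ D i → (p ∈ D0 i ∧ φ i p = φ0 i p) ∨ (∀ r ∈ D0 i, φ0 i r ≠ φ i p) ∨
    ∃ q ∈ Q i, φ i p = φ0 i q
  card : ∀ i, (Q i).card + 3 * (D0 i).card ≤ 3 * (D i).card
  edge : ∀ i p, p ∈ D i → π i p ∈ D i → R.Adj (φ i p) (φ i (π i p)) ∨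
    (p ∈ D0 i ∧ π i p ∈ D0 i ∧ φ i p = φ0 i p ∧ φ i (π i p) = φ0 i (π i p))
  dist : ∀ i p j r, p ∈ D i → π i p ∈ D i → r ∈ D j → π j r ∈ D j → R.Adj (φ i p) (φ i (π i p)) →
    s(φ i p, φ i (π i p)) = s(φ j r, φ j (π j r)) → i = j ∧ p = r
  clean : ∀ i p, p ∈ D i → π i p ∈ D i → R.Adj (φ i p) (φ i (π i p)) →
    (∀ q, InD (π i) (D0 i) q → q ∉ Q i → φ0 i q ≠ φ i p ∧ φ0 i q ≠ φ i (π i p))
  sat : ∀ v, ((univ.filter (fun i => ∃ p ∈ Q i, φ0 i p = v)).card : ℝ) ≤ kap * n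

/-- the pairs whose edge is a used edge of the reserve -/
def usedE {t n : ℕ} (π : Fin t → Equiv.Perm (Fin n)) (R : SimpleGraph (Fin n))
    (φ : Fin t → Fin n → Fin n) (D : Fin t → Finset (Fin n)) : Finset (Fin t × Fin n) :=
  univ.filter (fun x => x.2 ∈ D x.1 ∧ π x.1 x.2 ∈ D x.1 ∧ R.Adj (φ x.1 x.2) (φ x.1 (π x.1 x.2)))

variable {t n : ℕ} {π : Fin t → Equiv.Perm (Fin n)} {B R : SimpleGraph (Fin n)}
  {φ0 : Fin t → Fin n → Fin n} {D0 : Fin t → Finset (Fin n)} {lam c1 kap : ℝ}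
  {φ : Fin t → Fin n → Fin n} {D Q : Fin t → Finset (Fin n)}

theorem fld_fiber (h : St t n π B R φ0 D0 kap φ D Q) (v : Fin n) (i : Fin t) :
    (((usedE π R φ D).filter (fun x => v ∈ s(φ x.1 x.2, φ x.1 (π x.1 x.2)))).filter
      (fun x => x.1 = i)).card ≤ 2 := by
  have hP1 : ((D i).filter (fun p => φ i p = v)).card ≤ 1 := by
    rw [Finset.card_le_one]
    intro a ha b hb
    rw [Finset.mem_filter] at ha hb
    exact h.inj i ha.1 hb.1 (ha.2.trans hb.2.symm)
  have hP2 : (univ.filter (fun p => π i p ∈ D i ∧ φ i (π i p) = v)).card ≤ 1 := by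
    rw [Finset.card_le_one]
    intro a ha b hb
    rw [Finset.mem_filter] at ha hb
    exact (π i).injective (h.inj i ha.2.1 hb.2.1 (ha.2.2.trans hb.2.2.symm))
  have hsub : ((usedE π R φ D).filter (fun x => v ∈ s(φ x.1 x.2, φ x.1 (π x.1 x.2)))).filter
      (fun x => x.1 = i) ⊆ (((D i).filter (fun p => φ i p = v)) ∪
        (univ.filter (fun p => π i p ∈ D i ∧ φ i (π i p) = v))).image (fun p => (i, p)) := by
    rintro ⟨j, p⟩ hx
    rw [Finset.mem_filter, Finset.mem_filter] at hx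
    obtain ⟨⟨h1, h2⟩, h3⟩ := hx
    simp only at h3
    subst h3
    rw [usedE, Finset.mem_filter] at h1
    simp only at h1 h2
    rw [Finset.mem_image]
    refine ⟨p, ?_, rfl⟩
    rw [Finset.mem_union, Finset.mem_filter, Finset.mem_filter]
    rw [Sym2.mem_iff] at h2
    rcases h2 with h2 | h2
    · exact Or.inl ⟨h1.2.1, h2.symm⟩
    · exact Or.inr ⟨Finset.mem_univ _, h1.2.2.1, h2.symm⟩
  calc _ ≤ _ := Finset.card_le_card hsub
    _ ≤ _ := Finset.card_image_le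
    _ ≤ _ := Finset.card_union_le _ _
    _ ≤ 2 := by omega

theorem used_deg (h0 : FLin t n π B R φ0 D0 lam c1) (h : St t n π B R φ0 D0 kap φ D Q) (v : Fin n) :
    (((usedE π R φ D).filter (fun x => v ∈ s(φ x.1 x.2, φ x.1 (π x.1 x.2)))).card : ℝ)
      ≤ 2 * (lam + kap) * n := by
  have hmaps : ∀ x ∈ (usedE π R φ D).filter (fun x => v ∈ s(φ x.1 x.2, φ x.1 (π x.1 x.2))),
      x.1 ∈ (univ.filter (fun i => ¬ ∃ p, InD (π i) (D0 i) p ∧ φ0 i p = v)) ∪
        (univ.filter (fun i => ∃ p ∈ Q i, φ0 i p = v)) := by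
    rintro ⟨i, p⟩ hx
    rw [Finset.mem_filter, usedE, Finset.mem_filter] at hx
    obtain ⟨⟨_, h1, h2, h3⟩, h4⟩ := hx
    simp only at h1 h2 h3 h4
    rw [Finset.mem_union, Finset.mem_filter, Finset.mem_filter]
    by_cases hq : ∃ q, InD (π i) (D0 i) q ∧ φ0 i q = v
    · right
      refine ⟨Finset.mem_univ _, ?_⟩
      obtain ⟨q, hq1, hq2⟩ := hq
      refine ⟨q, ?_, hq2⟩
      by_contra hqQ
      have hc := h.clean i p h1 h2 h3 q hq1 hqQ
      rw [Sym2.mem_iff] at h4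
      rcases h4 with h4 | h4
      · exact hc.1 (hq2.trans h4)
      · exact hc.2 (hq2.trans h4)
    · left
      exact ⟨Finset.mem_univ _, hq⟩
  have hcard := Finset.card_le_mul_card_image_of_maps_to hmaps 2 (fun i _ => fld_fiber h v i)
  have hu := Finset.card_union_le (univ.filter (fun i => ¬ ∃ p, InD (π i) (D0 i) p ∧ φ0 i p = v))
    (univ.filter (fun i => ∃ p ∈ Q i, φ0 i p = v))
  have ht := h0.touch v
  have hs := h.sat v
  have hcard' : (((usedE π R φ D).filter (fun x => v ∈ s(φ x.1 x.2, φ x.1 (π x.1 x.2)))).card : ℝ) ≤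
      2 * (((univ.filter (fun i => ¬ ∃ p, InD (π i) (D0 i) p ∧ φ0 i p = v)).card : ℝ) +
        ((univ.filter (fun i => ∃ p ∈ Q i, φ0 i p = v)).card : ℝ)) := by
    exact_mod_cast hcard.trans (Nat.mul_le_mul_left 2 hu)
  calc _ ≤ _ := hcard'
    _ ≤ 2 * (lam * n + kap * n) := by linarith
    _ = _ := by ring

theorem fld_Q (h0 : FLin t n π B R φ0 D0 lam c1) (h : St t n π B R φ0 D0 kap φ D Q) (i : Fin t) :
    ((Q i).card : ℝ) ≤ 3 * (lam * n) := by
  have h1 := h.card i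
  have h2 := h0.small i
  have h3 : (D i).card ≤ n := by
    have := Finset.card_le_univ (D i)
    simpa using this
  have h4 : (D0 i).card + ((D0 i)ᶜ).card = n := by
    have := Finset.card_add_card_compl (D0 i)
    simpa using this
  have h5 : (Q i).card ≤ 3 * ((D0 i)ᶜ).card := by omega
  have h6 : ((Q i).card : ℝ) ≤ 3 * (((D0 i)ᶜ).card : ℝ) := by exact_mod_cast h5
  linarith

theorem fld_sum (h0 : FLin t n π B R φ0 D0 lam c1) (h : St t n π B R φ0 D0 kap φ D Q) (htn : t ≤ n)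
    (hlam : 0 ≤ lam) :
    ∑ v : Fin n, ((univ.filter (fun i => ∃ p ∈ Q i, φ0 i p = v)).card : ℝ) ≤ 3 * lam * n * n := by
  have e1 : ∑ v : Fin n, ((univ.filter (fun i => ∃ p ∈ Q i, φ0 i p = v)).card : ℝ) =
      ∑ i : Fin t, ((univ.filter (fun v => ∃ p ∈ Q i, φ0 i p = v)).card : ℝ) := by
    have : ∑ v : Fin n, (univ.filter (fun i => ∃ p ∈ Q i, φ0 i p = v)).card =
        ∑ i : Fin t, (univ.filter (fun v => ∃ p ∈ Q i, φ0 i p = v)).card := by
      simp only [Finset.card_filter]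
      exact Finset.sum_comm
    exact_mod_cast this
  rw [e1]
  have e2 : ∀ i : Fin t, ((univ.filter (fun v => ∃ p ∈ Q i, φ0 i p = v)).card : ℝ) ≤ 3 * (lam * n) := by
    intro i
    refine le_trans ?_ (fld_Q h0 h i)
    have hsub : univ.filter (fun v => ∃ p ∈ Q i, φ0 i p = v) ⊆ (Q i).image (φ0 i) := by
      intro v hv
      rw [Finset.mem_filter] at hv
      rw [Finset.mem_image]
      exact hv.2
    exact_mod_cast (Finset.card_le_card hsub).trans Finset.card_image_le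
  calc _ ≤ ∑ _i : Fin t, 3 * (lam * (n : ℝ)) := Finset.sum_le_sum fun i _ => e2 i
    _ = t * (3 * (lam * n)) := by simp
    _ ≤ n * (3 * (lam * n)) := by
        have : (t : ℝ) ≤ n := by exact_mod_cast htn
        exact mul_le_mul_of_nonneg_right this (by positivity)
    _ = _ := by ring

theorem satur (h0 : FLin t n π B R φ0 D0 lam c1) (h : St t n π B R φ0 D0 kap φ D Q) (htn : t ≤ n)
    (hlam : 0 ≤ lam) (hkap : 0 < kap) (hn : 2 ≤ kap * n) :
    ((univ.filter (fun v : Fin n =>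
      kap * n < ((univ.filter (fun i => ∃ p ∈ Q i, φ0 i p = v)).card : ℝ) + 1)).card : ℝ)
      ≤ 6 * lam * n / kap := by
  have hnpos : (0 : ℝ) < n := by
    rcases (Nat.cast_nonneg n : (0 : ℝ) ≤ n).lt_or_eq with h1 | h1
    · exact h1
    · rw [← h1] at hn
      linarith
  have hs := fld_sum h0 h htn hlam
  set V := univ.filter (fun v : Fin n =>
      kap * n < ((univ.filter (fun i => ∃ p ∈ Q i, φ0 i p = v)).card : ℝ) + 1) with hV
  have h1 : (V.card : ℝ) * (kap * n / 2) ≤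
      ∑ v ∈ V, ((univ.filter (fun i => ∃ p ∈ Q i, φ0 i p = v)).card : ℝ) := by
    rw [← nsmul_eq_mul, ← Finset.sum_const]
    refine Finset.sum_le_sum fun v hv => ?_
    rw [hV, Finset.mem_filter] at hv
    have := hv.2
    linarith
  have h2 : ∑ v ∈ V, ((univ.filter (fun i => ∃ p ∈ Q i, φ0 i p = v)).card : ℝ) ≤
      ∑ v : Fin n, ((univ.filter (fun i => ∃ p ∈ Q i, φ0 i p = v)).card : ℝ) :=
    Finset.sum_le_sum_of_subset_of_nonneg (Finset.subset_univ _) (fun _ _ _ => by positivity)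
  have h3 : (V.card : ℝ) * (kap * n / 2) ≤ 3 * lam * n * n := h1.trans (h2.trans hs)
  rw [le_div_iff₀ hkap]
  have h4 : (V.card : ℝ) * kap * n ≤ 6 * lam * n * n := by linarith
  exact le_of_mul_le_mul_right h4 hnpos

end
end Pool.Agent.APK
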