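import Pool.Agent.APK.FLs

/-!
# APK/FLf : the finished embeddings   (difficulty 2)

* The initial state `φ = φ0`, `D = D0`, `Q = ∅` satisfies `St`.
* Apply `step` until all `D i = univ` (induction on `∑_i |(D i)ᶜ|`).
* Then `φ i` is injective on `univ`, a permutation `ψ i`.
-/

set_option autoImplicit false
open Finset
open scoped Classical

namespace Pool.Agent.APK
noncomputable section

variable {t n : ℕ} {π : Fin t → Equiv.Perm (Fin n)} {B R : SimpleGraph (Fin n)}
  {φ0 : Fin t → Fin n → Fin n} {D0 : Fin t → Finset (Fin n)} {lam c1 kap : ℝ}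

theorem flf_init (h0 : FLin t n π B R φ0 D0 lam c1) (hBR : Disjoint B R) (hkap : 0 < kap) :
    St t n π B R φ0 D0 kap φ0 D0 (fun _ => ∅) := by
  have hno : ∀ i p, p ∈ D0 i → π i p ∈ D0 i → ¬ R.Adj (φ0 i p) (φ0 i (π i p)) := by
    intro i p hp hp' hR
    have hB := h0.adj i p hp hp'
    have : (B ⊓ R).Adj (φ0 i p) (φ0 i (π i p)) := ⟨hB, hR⟩
    rw [disjoint_iff.1 hBR] at this
    exact this
  refine ⟨fun i => Finset.Subset.refl _, fun i => Finset.empty_subset _, h0.inj,
    fun i p hp => ⟨p, hp, rfl⟩, fun i p _ _ => rfl, fun i p hp => Or.inl ⟨hp, rfl⟩, ?_,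
    fun i p hp hp' => Or.inr ⟨hp, hp', rfl, rfl⟩, ?_, ?_, ?_⟩
  · intro i
    simp
  · intro i p j r hp hp' _ _ hR
    exact absurd hR (hno i p hp hp')
  · intro i p hp hp' hR
    exact absurd hR (hno i p hp hp')
  · intro v
    have : (univ.filter (fun i : Fin t => ∃ p ∈ (∅ : Finset (Fin n)), φ0 i p = v)) = ∅ := by
      apply Finset.filter_eq_empty_iff.2
      intro i _
      rintro ⟨p, hp, _⟩
      exact absurd hp (Finset.notMem_empty p)
    rw [this]
    simp only [Finset.card_empty, Nat.cast_zero]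
    positivity

theorem flf_iter (h0 : FLin t n π B R φ0 D0 lam c1)
    (hp1 : ∀ i u, π i u ≠ u) (hp2 : ∀ i u, π i (π i u) ≠ u) (htn : t ≤ n)
    (hlam : 0 ≤ lam) (hkap : 0 < kap) (hn : 2 ≤ kap * n)
    (hnum : 9 * lam + 18 * lam / kap + 8 * lam + 8 * kap < c1) :
    ∀ (m : ℕ) (φ : Fin t → Fin n → Fin n) (D Q : Fin t → Finset (Fin n)),
      St t n π B R φ0 D0 kap φ D Q → ∑ i, ((D i)ᶜ).card ≤ m →
      ∃ φ' D' Q', St t n π B R φ0 D0 kap φ' D' Q' ∧ ∀ i, D' i = univ := by
  intro m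
  induction m with
  | zero =>
    intro φ D Q h hm
    refine ⟨φ, D, Q, h, fun i => ?_⟩
    have h1 : ∑ i, ((D i)ᶜ).card = 0 := Nat.le_zero.1 hm
    have h2 := (Finset.sum_eq_zero_iff.1 h1) i (Finset.mem_univ i)
    rw [Finset.card_eq_zero, Finset.compl_eq_empty_iff] at h2
    exact h2
  | succ m ih =>
    intro φ D Q h hm
    by_cases hall : ∀ i, D i = univ
    · exact ⟨φ, D, Q, h, hall⟩
    · push Not at hall
      obtain ⟨i, hi⟩ := hall
      obtain ⟨p, hp⟩ : ∃ p, p ∉ D i := by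
        by_contra hcon
        push Not at hcon
        exact hi (Finset.eq_univ_iff_forall.2 hcon)
      obtain ⟨φ', Q', h'⟩ := step h0 h hp1 hp2 htn hlam hkap hn hnum i p hp
      refine ih φ' _ Q' h' ?_
      have hlt : ∑ j, ((Function.update D i (insert p (D i)) j)ᶜ).card < ∑ j, ((D j)ᶜ).card := by
        refine Finset.sum_lt_sum ?_ ⟨i, Finset.mem_univ i, ?_⟩
        · intro j _
          by_cases hj : j = i
          · subst hj
            rw [Function.update_self]
            exact Finset.card_le_card (Finset.compl_subset_compl.2 (Finset.subset_insert _ _))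
          · rw [Function.update_of_ne hj]
        · rw [Function.update_self]
          apply Finset.card_lt_card
          rw [Finset.ssubset_iff_of_subset (Finset.compl_subset_compl.2 (Finset.subset_insert _ _))]
          exact ⟨p, Finset.mem_compl.2 hp, fun hc => (Finset.mem_compl.1 hc) (Finset.mem_insert_self _ _)⟩
      omega

theorem finish (h0 : FLin t n π B R φ0 D0 lam c1) (hBR : Disjoint B R)
    (hp1 : ∀ i u, π i u ≠ u) (hp2 : ∀ i u, π i (π i u) ≠ u) (htn : t ≤ n)
    (hlam : 0 ≤ lam) (hkap : 0 < kap) (hn : 2 ≤ kap * n)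
    (hnum : 9 * lam + 18 * lam / kap + 8 * lam + 8 * kap < c1) :
    ∃ ψ : Fin t → Equiv.Perm (Fin n), (∀ i p, (B ⊔ R).Adj (ψ i p) (ψ i (π i p))) ∧
      ∀ i j p r, i ≠ j → s(ψ i p, ψ i (π i p)) ≠ s(ψ j r, ψ j (π j r)) := by
  obtain ⟨φ, D, Q, h, hD⟩ := flf_iter h0 hp1 hp2 htn hlam hkap hn hnum _ φ0 D0 (fun _ => ∅)
    (flf_init h0 hBR hkap) le_rfl
  have hmem : ∀ i p, p ∈ D i := fun i p => by rw [hD i]; exact Finset.mem_univ p
  have hinj : ∀ i, Function.Injective (φ i) := fun i a b hab => h.inj i (hmem i a) (hmem i b) hab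
  refine ⟨fun i => Equiv.ofBijective (φ i) (Finite.injective_iff_bijective.1 (hinj i)), ?_, ?_⟩
  · intro i p
    show (B ⊔ R).Adj (φ i p) (φ i (π i p))
    rcases h.edge i p (hmem i p) (hmem i _) with hR | ⟨a1, a2, a3, a4⟩
    · exact Or.inr hR
    · left
      rw [a3, a4]
      exact h0.adj i p a1 a2
  · intro i j p r hij heq
    have heq' : s(φ i p, φ i (π i p)) = s(φ j r, φ j (π j r)) := heq
    rcases h.edge i p (hmem i p) (hmem i _) with hR | ⟨a1, a2, a3, a4⟩
    · exact hij (h.dist i p j r (hmem i p) (hmem i _) (hmem j r) (hmem j _) hR heq').1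
    · rcases h.edge j r (hmem j r) (hmem j _) with hR | ⟨b1, b2, b3, b4⟩
      · exact hij (h.dist j r i p (hmem j r) (hmem j _) (hmem i p) (hmem i _) hR heq'.symm).1.symm
      · rw [a3, a4, b3, b4] at heq'
        exact hij (h0.dis i j p r a1 a2 b1 b2 heq')

end
end Pool.Agent.APK
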