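import Pool.Agent.APK.FLd

/-!
# APK/FLq : choice of the position `q`   (difficulty 3)

Given the state and `i`, vertices `x, y, z`.  Claim: there is `q` with `InD (π i) (D0 i) q`, none of `q`, `π i q`, `(π i)⁻¹ q`
in `Q i`, and with `w = φ0 i q`, `a = φ0 i ((π i)⁻¹ q)`, `b = φ0 i (π i q)`:
`R.Adj y w`, `R.Adj z w`, `R.Adj x a`, `R.Adj x b`, the vertices `w, a, b` are not saturated
(`#{i' : ∃ p ∈ Q i', φ0 i' p = ·} + 1 ≤ kap n`), and the pairs `s(y,w), s(z,w), s(x,a), s(x,b)` are not used, i.e. are not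
`s(φ j r, φ j (π j r))` for a `(j,r) ∈ usedE`.
Proof. `FLin.pat` gives at least `c1 n` inner `q` with the four reserve adjacencies.  Excluded:
* `q`, `π i q` or `(π i)⁻¹ q` in `Q i`: at most `3 |Q i| ≤ 9 (|D i| - |D0 i|) ≤ 9 lam n` (`card`, `FLin.small`, `|D i| ≤ n`);
* `w`, `a` or `b` saturated: `φ0 i` is injective on `D0 i`, so at most `3` times the bound of `satur`:
  `18 lam n/kap`;
* `s(y,w)` used: the used pairs at `y` number at most `2(lam+kap) n` (`used_deg`), each determines `w`, hence `q`;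
  the same for the other three: at most `8 (lam + kap) n` in total.
Total at most `(9 lam + 18 lam/kap + 8 lam + 8 kap) n < c1 n` by the numerical hypothesis.
-/

set_option autoImplicit false
open Finset
open scoped Classical

namespace Pool.Agent.APK
noncomputable section

variable {t n : ℕ} {π : Fin t → Equiv.Perm (Fin n)} {B R : SimpleGraph (Fin n)}
  {φ0 : Fin t → Fin n → Fin n} {D0 : Fin t → Finset (Fin n)} {lam c1 kap : ℝ}
  {φ : Fin t → Fin n → Fin n} {D Q : Fin t → Finset (Fin n)}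

/-- the pair `e` is not the image of a used reserve edge -/
def Unused (π : Fin t → Equiv.Perm (Fin n)) (R : SimpleGraph (Fin n)) (φ : Fin t → Fin n → Fin n)
    (D : Fin t → Finset (Fin n)) (e : Sym2 (Fin n)) : Prop :=
  ∀ j r, r ∈ D j → π j r ∈ D j → R.Adj (φ j r) (φ j (π j r)) → s(φ j r, φ j (π j r)) ≠ e

theorem flq_pre_card (τ : Fin n → Fin n) (hτ : Function.Injective τ) (S : Finset (Fin n)) :
    (univ.filter (fun q => τ q ∈ S)).card ≤ S.card := by
  apply card_le_card_of_injOn τ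
  · intro q hq
    exact (mem_filter.1 (mem_coe.1 hq)).2
  · intro a _ b _ hab
    exact hτ hab

theorem flq_inj_card (f : Fin n → Fin n) (Dm : Finset (Fin n)) (hf : Set.InjOn f Dm)
    (τ : Fin n → Fin n) (hτ : Function.Injective τ) (S : Finset (Fin n)) :
    (univ.filter (fun q => τ q ∈ Dm ∧ f (τ q) ∈ S)).card ≤ S.card := by
  apply card_le_card_of_injOn (fun q => f (τ q))
  · intro q hq
    exact (mem_filter.1 (mem_coe.1 hq)).2.2
  · intro a ha b hb hab
    have ha' := (mem_filter.1 (mem_coe.1 ha)).2.1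
    have hb' := (mem_filter.1 (mem_coe.1 hb)).2.1
    exact hτ (hf (mem_coe.2 ha') (mem_coe.2 hb') hab)

theorem flq_used_card (π : Fin t → Equiv.Perm (Fin n)) (R : SimpleGraph (Fin n))
    (φ : Fin t → Fin n → Fin n) (D : Fin t → Finset (Fin n)) (y : Fin n) :
    (univ.filter (fun v => ¬ Unused π R φ D s(y, v))).card ≤
      ((usedE π R φ D).filter (fun x => y ∈ s(φ x.1 x.2, φ x.1 (π x.1 x.2)))).card := by
  have hsub : (univ.filter (fun v => ¬ Unused π R φ D s(y, v))) ⊆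
      ((usedE π R φ D).filter (fun x => y ∈ s(φ x.1 x.2, φ x.1 (π x.1 x.2)))).image
        (fun x => if φ x.1 x.2 = y then φ x.1 (π x.1 x.2) else φ x.1 x.2) := by
    intro v hv
    have hv' := (mem_filter.1 hv).2
    unfold Unused at hv'
    push Not at hv'
    obtain ⟨j, r, h1, h2, h3, h4⟩ := hv'
    rw [mem_image]
    refine ⟨(j, r), ?_, ?_⟩
    · rw [mem_filter]
      refine ⟨?_, ?_⟩
      · unfold usedE
        rw [mem_filter]
        exact ⟨mem_univ _, h1, h2, h3⟩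
      · show y ∈ s(φ j r, φ j (π j r))
        rw [h4]
        exact Sym2.mem_mk_left _ _
    · show (if φ j r = y then φ j (π j r) else φ j r) = v
      rw [Sym2.eq_iff] at h4
      rcases h4 with ⟨h5, h6⟩ | ⟨h5, h6⟩
      · rw [if_pos h5, h6]
      · by_cases h7 : φ j r = y
        · rw [if_pos h7, h6, ← h7, h5]
        · rw [if_neg h7, h5]
  exact (card_le_card hsub).trans card_image_le

theorem choose_q (h0 : FLin t n π B R φ0 D0 lam c1) (h : St t n π B R φ0 D0 kap φ D Q) (htn : t ≤ n)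
    (hlam : 0 ≤ lam) (hkap : 0 < kap) (hn : 2 ≤ kap * n)
    (hnum : 9 * lam + 18 * lam / kap + 8 * lam + 8 * kap < c1) (i : Fin t) (x y z : Fin n) :
    ∃ q, InD (π i) (D0 i) q ∧ q ∉ Q i ∧ π i q ∉ Q i ∧ (π i)⁻¹ q ∉ Q i ∧
      R.Adj y (φ0 i q) ∧ R.Adj z (φ0 i q) ∧ R.Adj x (φ0 i ((π i)⁻¹ q)) ∧ R.Adj x (φ0 i (π i q)) ∧
      (∀ u, (u = q ∨ u = π i q ∨ u = (π i)⁻¹ q) →
        ((univ.filter (fun j => ∃ p ∈ Q j, φ0 j p = φ0 i u)).card : ℝ) + 1 ≤ kap * n) ∧
      Unused π R φ D s(y, φ0 i q) ∧ Unused π R φ D s(z, φ0 i q) ∧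
      Unused π R φ D s(x, φ0 i ((π i)⁻¹ q)) ∧ Unused π R φ D s(x, φ0 i (π i q)) := by
  by_contra hcon
  push Not at hcon
  have hn0 : 0 < n := lt_of_le_of_lt (Nat.zero_le _) x.isLt
  have hnr : (0 : ℝ) < n := by exact_mod_cast hn0
  set Sat : Finset (Fin n) := univ.filter (fun v : Fin n =>
      kap * n < ((univ.filter (fun i => ∃ p ∈ Q i, φ0 i p = v)).card : ℝ) + 1) with hSat
  have hSatc : (Sat.card : ℝ) ≤ 6 * lam * n / kap := satur h0 h htn hlam hkap hn
  set Un : Fin n → Finset (Fin n) := fun y => univ.filter (fun v => ¬ Unused π R φ D s(y, v)) with hUn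
  have hUnc : ∀ y, ((Un y).card : ℝ) ≤ 2 * (lam + kap) * n := by
    intro y
    refine le_trans ?_ (used_deg h0 h y)
    exact_mod_cast flq_used_card π R φ D y
  have hQc : ((Q i).card : ℝ) ≤ 3 * lam * n := by
    have h1 := h.card i
    have h2 : (D i).card ≤ n := by
      have := card_le_univ (D i)
      simpa using this
    have h3 : (D0 i).card + ((D0 i)ᶜ).card = n := by
      have := card_add_card_compl (D0 i)
      simpa using this
    have h4 := h0.small i
    have h5 : (Q i).card ≤ 3 * ((D0 i)ᶜ).card := by omega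
    have h6 : ((Q i).card : ℝ) ≤ 3 * (((D0 i)ᶜ).card : ℝ) := by exact_mod_cast h5
    linarith
  have hid : Function.Injective (fun q : Fin n => q) := fun a b hab => hab
  have hpi : Function.Injective (fun q : Fin n => π i q) := (π i).injective
  have hpi' : Function.Injective (fun q : Fin n => (π i)⁻¹ q) := ((π i)⁻¹).injective
  have hinj := h0.inj i
  have hcov : (univ.filter (fun q => InD (π i) (D0 i) q ∧ R.Adj y (φ0 i q) ∧
    R.Adj z (φ0 i q) ∧ R.Adj x (φ0 i (π i q)) ∧ R.Adj x (φ0 i ((π i)⁻¹ q)))) ⊆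
    (univ.filter (fun q => (fun q => q) q ∈ Q i)) ∪
    ((univ.filter (fun q => (fun q => π i q) q ∈ Q i)) ∪
    ((univ.filter (fun q => (fun q => (π i)⁻¹ q) q ∈ Q i)) ∪
    ((univ.filter (fun q => (fun q => q) q ∈ D0 i ∧ φ0 i ((fun q => q) q) ∈ Sat)) ∪
    ((univ.filter (fun q => (fun q => π i q) q ∈ D0 i ∧ φ0 i ((fun q => π i q) q) ∈ Sat)) ∪
    ((univ.filter (fun q => (fun q => (π i)⁻¹ q) q ∈ D0 i ∧ φ0 i ((fun q => (π i)⁻¹ q) q) ∈ Sat)) ∪
    ((univ.filter (fun q => (fun q => q) q ∈ D0 i ∧ φ0 i ((fun q => q) q) ∈ Un y)) ∪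
    ((univ.filter (fun q => (fun q => q) q ∈ D0 i ∧ φ0 i ((fun q => q) q) ∈ Un z)) ∪
    ((univ.filter (fun q => (fun q => (π i)⁻¹ q) q ∈ D0 i ∧ φ0 i ((fun q => (π i)⁻¹ q) q) ∈ Un x)) ∪
    ((univ.filter (fun q => (fun q => π i q) q ∈ D0 i ∧ φ0 i ((fun q => π i q) q) ∈ Un x))
    ))))))))) := by
    intro q hq
    obtain ⟨hq1, hq2, hq3, hq4, hq5⟩ := (mem_filter.1 hq).2
    obtain ⟨hD1, hD2, hD3⟩ := id hq1
    by_contra hn'
    simp only [mem_union, mem_filter, mem_univ, true_and, not_or] at hn'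
    obtain ⟨g1, g2, g3, g4, g5, g6, g7, g8, g9, g10⟩ := hn'
    have hs : ∀ u, (u = q ∨ u = π i q ∨ u = (π i)⁻¹ q) →
        ((univ.filter (fun j => ∃ p ∈ Q j, φ0 j p = φ0 i u)).card : ℝ) + 1 ≤ kap * n := by
      have hns : ∀ v, v ∉ Sat →
          ((univ.filter (fun j => ∃ p ∈ Q j, φ0 j p = v)).card : ℝ) + 1 ≤ kap * n := by
        intro v hv
        rw [hSat, mem_filter] at hv
        push Not at hv
        exact hv (mem_univ _)
      rintro u (rfl | rfl | rfl)
      · exact hns _ (fun h' => g4 ⟨hD1, h'⟩)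
      · exact hns _ (fun h' => g5 ⟨hD2, h'⟩)
      · exact hns _ (fun h' => g6 ⟨hD3, h'⟩)
    have hu : ∀ v u, v ∉ Un u → Unused π R φ D s(u, v) := by
      intro v u hv
      simp only [hUn, mem_filter, mem_univ, true_and, not_not] at hv
      exact hv
    exact hcon q hq1 g1 g2 g3 hq2 hq3 hq5 hq4 hs (hu _ _ (fun h' => g7 ⟨hD1, h'⟩))
      (hu _ _ (fun h' => g8 ⟨hD1, h'⟩)) (hu _ _ (fun h' => g9 ⟨hD3, h'⟩))
      (hu _ _ (fun h' => g10 ⟨hD2, h'⟩))
  have hc := card_le_card hcov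
  have e1 := flq_pre_card _ hid (Q i)
  have e2 := flq_pre_card _ hpi (Q i)
  have e3 := flq_pre_card _ hpi' (Q i)
  have e4 := flq_inj_card (φ0 i) (D0 i) hinj _ hid Sat
  have e5 := flq_inj_card (φ0 i) (D0 i) hinj _ hpi Sat
  have e6 := flq_inj_card (φ0 i) (D0 i) hinj _ hpi' Sat
  have e7 := flq_inj_card (φ0 i) (D0 i) hinj _ hid (Un y)
  have e8 := flq_inj_card (φ0 i) (D0 i) hinj _ hid (Un z)
  have e9 := flq_inj_card (φ0 i) (D0 i) hinj _ hpi' (Un x)
  have e10 := flq_inj_card (φ0 i) (D0 i) hinj _ hpi (Un x)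
  have htot : (univ.filter (fun q => InD (π i) (D0 i) q ∧ R.Adj y (φ0 i q) ∧
    R.Adj z (φ0 i q) ∧ R.Adj x (φ0 i (π i q)) ∧ R.Adj x (φ0 i ((π i)⁻¹ q)))).card ≤
      (Q i).card + ((Q i).card + ((Q i).card + (Sat.card + (Sat.card + (Sat.card +
        ((Un y).card + ((Un z).card + ((Un x).card + (Un x).card)))))))) := by
    refine hc.trans ?_
    refine (card_union_le _ _).trans (Nat.add_le_add e1 ?_)
    refine (card_union_le _ _).trans (Nat.add_le_add e2 ?_)
    refine (card_union_le _ _).trans (Nat.add_le_add e3 ?_)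
    refine (card_union_le _ _).trans (Nat.add_le_add e4 ?_)
    refine (card_union_le _ _).trans (Nat.add_le_add e5 ?_)
    refine (card_union_le _ _).trans (Nat.add_le_add e6 ?_)
    refine (card_union_le _ _).trans (Nat.add_le_add e7 ?_)
    refine (card_union_le _ _).trans (Nat.add_le_add e8 ?_)
    exact (card_union_le _ _).trans (Nat.add_le_add e9 e10)
  have htot' : ((univ.filter (fun q => InD (π i) (D0 i) q ∧ R.Adj y (φ0 i q) ∧
    R.Adj z (φ0 i q) ∧ R.Adj x (φ0 i (π i q)) ∧ R.Adj x (φ0 i ((π i)⁻¹ q)))).card : ℝ) ≤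
      ((Q i).card : ℝ) + ((Q i).card + ((Q i).card + (Sat.card + (Sat.card + (Sat.card +
        ((Un y).card + ((Un z).card + ((Un x).card + (Un x).card)))))))) := by
    exact_mod_cast htot
  have hpat := h0.pat i x y z
  have hy := hUnc y
  have hz := hUnc z
  have hx := hUnc x
  have hmul := mul_lt_mul_of_pos_right hnum hnr
  have hdiv : 6 * lam * n / kap = 6 * (lam / kap) * n := by ring
  have hdiv2 : 18 * lam / kap = 18 * (lam / kap) := by ring
  rw [hdiv] at hSatc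
  rw [hdiv2] at hmul
  nlinarith [hpat, htot', hy, hz, hx, hmul, hSatc, hQc]


end
end Pool.Agent.APK
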