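import Pool.Agent.APK.FLq

/-!
# APK/FLs : one step of the finishing process   (difficulty 4)

Let `p ∉ D i`.  Choose `x` outside the image of `φ i` on `D i` (exists: `|D i| < n`, injectivity).  By `img`, `x` is not in the
image of `φ0 i` on `D0 i`.  Let `u1 = (π i)⁻¹ p`, `u2 = π i p` (different: `π (π u) ≠ u`); `y = φ i u1` if `u1 ∈ D i`, `z = φ i u2`
if `u2 ∈ D i` (arbitrary otherwise, e.g. `y := x`).  Take `q` from `choose_q` for `(x, y, z)`; `q1 = (π i)⁻¹ q`,
`q2 = π i q`, `w = φ0 i q`, `a = φ0 i q1`, `b = φ0 i q2`.  `q, q1, q2 ∈ D0 i` are untouched so `φ i` takes the values `w, a, b` there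
(`same`).  `p ∉ {q, q1, q2}` (`p ∉ D0 i`), so `q ∉ {u1, u2}`.
New state: `φ' i p = w`, `φ' i q = x`, otherwise `φ' = φ`; `D' i = insert p (D i)`, `Q' i = Q i ∪ {q, q1, q2}`; nothing
else changes (`Function.update`).
Check.
* `inj`: on `D' i`: the values are those of `φ i` on `D i \ {q}` (not `w`, as `φ i q = w`; not `x`), and `x`, `w`, with `x ≠ w`.
* `img`: `w` is now the value at `p`; the other values are kept.  `same`, `Qsub`, `sub`, `card` (`|Q'| ≤ |Q| + 3`).
* `orig`: at `p`: `w = φ0 i q`, `q ∈ Q' i`; at `q`: `x` is not a `φ0`-value on `D0 i`; others as before.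
* `edge`: the edges of copy `i` at `q`: `(q1, q)`: `R.Adj a x`; `(q, q2)`: `R.Adj x b`; the edges at `p`: `(u1, p)` if `u1 ∈ D i`:
  `R.Adj y w`; `(p, u2)` if `u2 ∈ D i`: `R.Adj w z`; here `u1, u2 ≠ q` so their values are unchanged.  Other edges unchanged.
* `dist`: no old reserve edge of copy `i` has `q` as an end position (`clean` with the inner position `q ∉ Q i`, and
  `φ i q = φ0 i q`), and none has `p`; so the old reserve edges of all copies are unchanged and are different from the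
  new ones (`Unused`; also an old non-reserve pair cannot equal a new pair: in `dist` one of the two is
  reserve-adjacent, and equality of the pairs makes both reserve-adjacent).  The four new pairs
  `s(a,x), s(x,b), s(y,w), s(w,z)` are distinct: `a ≠ b` (`q1 ≠ q2`), `y ≠ z` if both are defined (`u1 ≠ u2`, injectivity),
  and `x ∉ {y, z, w}` as `x` is not in the image of `φ i` on `D i` (so a pair containing `x` is not one of the last two; for the
  undefined `y` or `z` there is no edge).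
* `clean`: old reserve edges: `Q` grew, fine.  New ones: end values `a, b, w` are `φ0`-values of `q1, q2, q ∈ Q' i`, so they are
  not `φ0 i r` for `r ∈ D0 i`, `r ∉ Q' i` (injectivity of `φ0 i` on `D0 i`; `InD` gives `r ∈ D0 i`); `x` is no `φ0`-value; `y = φ i u1`, `u1 ∈ D i`: by
  `orig`: either `u1 ∈ D0 i` and `y = φ0 i u1`: then `u1` is not inner since its neighbour `p ∉ D0 i`, so an inner `r` has
  `φ0 i r ≠ y` (injectivity); or `y` is no `φ0`-value on `D0 i`; or `y = φ0 i q'` with `q' ∈ Q i`.  The same for `z`.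
* `sat`: the counts of the vertices `w, a, b` grow by at most `1`, they were `≤ kap n - 1`; for other vertices no change
  (`φ0 i` injective on `D0 i`).
-/

set_option autoImplicit false
open Finset
open scoped Classical

namespace Pool.Agent.APK
noncomputable section

variable {t n : ℕ} {π : Fin t → Equiv.Perm (Fin n)} {B R : SimpleGraph (Fin n)}
  {φ0 : Fin t → Fin n → Fin n} {D0 : Fin t → Finset (Fin n)} {lam c1 kap : ℝ}
  {φ : Fin t → Fin n → Fin n} {D Q : Fin t → Finset (Fin n)}

theorem fls_core (h0 : FLin t n π B R φ0 D0 lam c1) (h : St t n π B R φ0 D0 kap φ D Q)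
    (hp1 : ∀ i u, π i u ≠ u) (hp2 : ∀ i u, π i (π i u) ≠ u) (i : Fin t) (p : Fin n) (hp : p ∉ D i)
    (x : Fin n) (hx : ∀ r ∈ D i, φ i r ≠ x) (q : Fin n) (hqD : InD (π i) (D0 i) q)
    (hqQ : q ∉ Q i) (hq2Q : π i q ∉ Q i) (hq1Q : (π i)⁻¹ q ∉ Q i)
    (hyw : R.Adj (φ i ((π i)⁻¹ p)) (φ0 i q)) (hzw : R.Adj (φ i (π i p)) (φ0 i q))
    (hxa : R.Adj x (φ0 i ((π i)⁻¹ q))) (hxb : R.Adj x (φ0 i (π i q)))
    (hsat : ∀ u, (u = q ∨ u = π i q ∨ u = (π i)⁻¹ q) →
        ((univ.filter (fun j => ∃ p ∈ Q j, φ0 j p = φ0 i u)).card : ℝ) + 1 ≤ kap * n)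
    (hU1 : Unused π R φ D s(φ i ((π i)⁻¹ p), φ0 i q)) (hU2 : Unused π R φ D s(φ i (π i p), φ0 i q))
    (hU3 : Unused π R φ D s(x, φ0 i ((π i)⁻¹ q))) (hU4 : Unused π R φ D s(x, φ0 i (π i q)))
    (φ' : Fin t → Fin n → Fin n) (D' Q' : Fin t → Finset (Fin n))
    (hDi : D' i = insert p (D i)) (hDj : ∀ j, j ≠ i → D' j = D j)
    (hQi : Q' i = Q i ∪ {q, π i q, (π i)⁻¹ q}) (hQj : ∀ j, j ≠ i → Q' j = Q j)
    (hφp : φ' i p = φ0 i q) (hφq : φ' i q = x) (hφr : ∀ r, r ≠ p → r ≠ q → φ' i r = φ i r)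
    (hφj : ∀ j, j ≠ i → φ' j = φ j) :
    St t n π B R φ0 D0 kap φ' D' Q' := by
  obtain ⟨hq0, hq2, hq1⟩ := hqD
  have hpD0 : p ∉ D0 i := fun hh => hp (h.sub i hh)
  have hpq : q ≠ p := fun hh => hpD0 (hh ▸ hq0)
  have hpq2 : π i q ≠ p := fun hh => hpD0 (hh ▸ hq2)
  have hpq1 : (π i)⁻¹ q ≠ p := fun hh => hpD0 (hh ▸ hq1)
  have hinv : ∀ r, π i ((π i)⁻¹ r) = r := fun r => (π i).apply_symm_apply r
  have hinv' : ∀ r, (π i)⁻¹ (π i r) = r := fun r => (π i).symm_apply_apply r
  have hu1q : (π i)⁻¹ p ≠ q := fun hh => hpq2 (by rw [← hh, hinv])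
  have hu2q : π i p ≠ q := fun hh => hpq1 (by rw [← hh, hinv'])
  have hu1p : (π i)⁻¹ p ≠ p := fun hh => hp1 i p (by
    have h1 := hinv p
    rwa [hh] at h1)
  have hu2p : π i p ≠ p := hp1 i p
  have hq1q : (π i)⁻¹ q ≠ q := fun hh => hp1 i q (by
    have h1 := hinv q
    rwa [hh] at h1)
  have hq2q : π i q ≠ q := hp1 i q
  have hx0 : ∀ r ∈ D0 i, φ0 i r ≠ x := by
    intro r hr hh
    obtain ⟨r', hr', he⟩ := h.img i r hr
    exact hx r' hr' (he.trans hh)
  have vq : φ i q = φ0 i q := h.same i q hq0 hqQ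
  have vq1 : φ i ((π i)⁻¹ q) = φ0 i ((π i)⁻¹ q) := h.same i _ hq1 hq1Q
  have vq2 : φ i (π i q) = φ0 i (π i q) := h.same i _ hq2 hq2Q
  have hxw : x ≠ φ0 i q := fun hh => hx q (h.sub i hq0) (vq.trans hh.symm)
  -- injectivity of the new map
  have hinj : Set.InjOn (φ' i) (D' i) := by
    have key : ∀ r ∈ D' i, ∀ r' ∈ D' i, r ≠ r' → r ≠ p → φ' i r ≠ φ' i r' ∨ r' = q := by
      intro r hr r' hr' hne hrp
      have hrD : r ∈ D i := by
        rw [hDi] at hr
        exact (Finset.mem_insert.1 hr).resolve_left hrp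
      by_cases hr'q : r' = q
      · exact Or.inr hr'q
      left
      by_cases hrq : r = q
      · subst hrq
        rw [hφq]
        by_cases h1 : r' = p
        · rw [h1, hφp]; exact hxw
        · rw [hφr r' h1 hr'q]
          rw [hDi] at hr'
          exact fun hh => hx r' ((Finset.mem_insert.1 hr').resolve_left h1) hh.symm
      · rw [hφr r hrp hrq]
        by_cases h1 : r' = p
        · rw [h1, hφp, ← vq]
          exact fun hh => hrq (h.inj i hrD (h.sub i hq0) hh)
        · rw [hφr r' h1 hr'q]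
          rw [hDi] at hr'
          exact fun hh => hne (h.inj i hrD ((Finset.mem_insert.1 hr').resolve_left h1) hh)
    intro r hr r' hr' he
    by_contra hne
    have hr2 : r ∈ D' i := hr
    have hr2' : r' ∈ D' i := hr'
    by_cases h1 : r = p
    · have h2 : r' ≠ p := fun hh => hne (h1.trans hh.symm)
      rcases key r' hr2' r hr2 (Ne.symm hne) h2 with h3 | h3
      · exact h3 he.symm
      · exact hpq (h3.symm.trans h1)
    · rcases key r hr2 r' hr2' hne h1 with h3 | h3
      · exact h3 he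
      · have h4 : r' ≠ p := fun hh => hpq (h3.symm.trans hh)
        rcases key r' hr2' r hr2 (Ne.symm hne) h4 with h5 | h5
        · exact h5 he.symm
        · exact hne (h5.trans h3.symm)
  have hQsub : ∀ j, Q j ⊆ Q' j := by
    intro j
    by_cases hj : j = i
    · subst hj
      rw [hQi]
      exact Finset.subset_union_left
    · rw [hQj j hj]
  have hmq : q ∈ Q' i := by rw [hQi]; simp
  have hmq2 : π i q ∈ Q' i := by rw [hQi]; simp
  have hmq1 : (π i)⁻¹ q ∈ Q' i := by rw [hQi]; simp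
  -- classification of the edges of the copy `i`
  have hcls : ∀ r, r ∈ D' i → π i r ∈ D' i →
      ((R.Adj (φ' i r) (φ' i (π i r)) ∧ Unused π R φ D s(φ' i r, φ' i (π i r)) ∧
        (∀ q', InD (π i) (D0 i) q' → q' ∉ Q' i → φ0 i q' ≠ φ' i r ∧ φ0 i q' ≠ φ' i (π i r))) ∨
      (r ∈ D i ∧ π i r ∈ D i ∧ φ' i r = φ i r ∧ φ' i (π i r) = φ i (π i r))) := by
    intro r hr hr2
    -- the clean property of the special vertices
    have c1' : ∀ q', InD (π i) (D0 i) q' → q' ∉ Q' i → φ0 i q' ≠ x :=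
      fun q' hq' _ => hx0 q' hq'.1
    have c2' : ∀ u, u ∈ D0 i → u ∈ Q' i → ∀ q', InD (π i) (D0 i) q' → q' ∉ Q' i →
        φ0 i q' ≠ φ0 i u := by
      intro u hu huQ q' hq' hq'Q hh
      have h3 : q' = u := h0.inj i hq'.1 hu hh
      exact hq'Q (h3 ▸ huQ)
    have c3' : ∀ u, u ∈ D i → (π i u = p ∨ (π i)⁻¹ u = p) → ∀ q', InD (π i) (D0 i) q' → q' ∉ Q' i →
        φ0 i q' ≠ φ i u := by
      intro u hu hup q' hq' hq'Q hh
      rcases h.orig i u hu with ⟨h3, h4⟩ | h3 | ⟨q'', h3, h4⟩
      · rw [h4] at hh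
        have h5 : q' = u := h0.inj i hq'.1 h3 hh
        subst h5
        rcases hup with h6 | h6
        · exact hpD0 (h6 ▸ hq'.2.1)
        · exact hpD0 (h6 ▸ hq'.2.2)
      · exact h3 q' hq'.1 hh
      · rw [h4] at hh
        have h5 : q' = q'' := h0.inj i hq'.1 (h.Qsub i h3) hh
        exact hq'Q (hQsub i (h5 ▸ h3))
    by_cases e1 : r = q
    · left
      subst e1
      rw [hφq, hφr _ hpq2 hq2q, vq2]
      exact ⟨hxb, hU4, fun q' hq' hq'Q => ⟨c1' q' hq' hq'Q, c2' _ hq2 hmq2 q' hq' hq'Q⟩⟩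
    by_cases e2 : π i r = q
    · left
      have e2' : r = (π i)⁻¹ q := by rw [← e2, hinv']
      rw [e2, hφq, e2', hφr _ hpq1 hq1q, vq1]
      refine ⟨hxa.symm, ?_, fun q' hq' hq'Q => ⟨c2' _ hq1 hmq1 q' hq' hq'Q, c1' q' hq' hq'Q⟩⟩
      rw [Sym2.eq_swap]
      exact hU3
    by_cases e3 : r = p
    · left
      subst e3
      have hr3 : π i r ∈ D i := by
        rw [hDi] at hr2
        exact (Finset.mem_insert.1 hr2).resolve_left hu2p
      rw [hφp, hφr _ hu2p hu2q]
      refine ⟨hzw.symm, ?_, fun q' hq' hq'Q => ⟨c2' _ hq0 hmq q' hq' hq'Q,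
        c3' _ hr3 (Or.inr (hinv' r)) q' hq' hq'Q⟩⟩
      rw [Sym2.eq_swap]
      exact hU2
    by_cases e4 : π i r = p
    · left
      have e4' : r = (π i)⁻¹ p := by rw [← e4, hinv']
      have hr3 : r ∈ D i := by
        rw [hDi] at hr
        exact (Finset.mem_insert.1 hr).resolve_left e3
      rw [e4, hφp, hφr r e3 e1]
      refine ⟨?_, ?_, fun q' hq' hq'Q => ⟨c3' _ hr3 (Or.inl e4) q' hq' hq'Q,
        c2' _ hq0 hmq q' hq' hq'Q⟩⟩
      · rw [e4']; exact hyw
      · rw [e4']; exact hU1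
    · right
      rw [hDi] at hr hr2
      exact ⟨(Finset.mem_insert.1 hr).resolve_left e3, (Finset.mem_insert.1 hr2).resolve_left e4,
        hφr r e3 e1, hφr _ e4 e2⟩
  refine ⟨?_, ?_, ?_, ?_, ?_, ?_, ?_, ?_, ?_, ?_, ?_⟩
  · -- sub
    intro j
    by_cases hj : j = i
    · subst hj
      rw [hDi]
      exact (h.sub j).trans (Finset.subset_insert _ _)
    · rw [hDj j hj]; exact h.sub j
  · -- Qsub
    intro j
    by_cases hj : j = i
    · subst hj
      rw [hQi]
      refine Finset.union_subset (h.Qsub j) ?_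
      intro r hr
      simp only [Finset.mem_insert, Finset.mem_singleton] at hr
      rcases hr with rfl | rfl | rfl
      · exact hq0
      · exact hq2
      · exact hq1
    · rw [hQj j hj]; exact h.Qsub j
  · -- inj
    intro j
    by_cases hj : j = i
    · subst hj; exact hinj
    · rw [hφj j hj, hDj j hj]; exact h.inj j
  · -- img
    intro j r hr
    by_cases hj : j = i
    · subst hj
      obtain ⟨r', hr', he⟩ := h.img j r hr
      by_cases h1 : r' = q
      · refine ⟨p, by rw [hDi]; exact Finset.mem_insert_self _ _, ?_⟩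
        rw [hφp, ← he, h1, vq]
      · refine ⟨r', by rw [hDi]; exact Finset.mem_insert_of_mem hr', ?_⟩
        rw [hφr r' (fun hh => hp (hh ▸ hr')) h1, he]
    · rw [hφj j hj, hDj j hj]; exact h.img j r hr
  · -- same
    intro j r hr hrQ
    by_cases hj : j = i
    · subst hj
      rw [hφr r (fun hh => hpD0 (hh ▸ hr)) (fun hh => hrQ (hh ▸ hmq))]
      exact h.same j r hr fun hh => hrQ (hQsub j hh)
    · rw [hφj j hj]
      exact h.same j r hr fun hh => hrQ (hQsub j hh)
  · -- orig
    intro j r hr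
    by_cases hj : j = i
    · subst hj
      by_cases e1 : r = p
      · right; right
        exact ⟨q, hmq, by rw [e1, hφp]⟩
      by_cases e2 : r = q
      · right; left
        rw [e2, hφq]; exact hx0
      rw [hφr r e1 e2]
      rw [hDi] at hr
      rcases h.orig j r ((Finset.mem_insert.1 hr).resolve_left e1) with h3 | h3 | ⟨q'', h3, h4⟩
      · exact Or.inl h3
      · exact Or.inr (Or.inl h3)
      · exact Or.inr (Or.inr ⟨q'', hQsub j h3, h4⟩)
    · rw [hφj j hj]
      rw [hDj j hj] at hr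
      rcases h.orig j r hr with h3 | h3 | ⟨q'', h3, h4⟩
      · exact Or.inl h3
      · exact Or.inr (Or.inl h3)
      · exact Or.inr (Or.inr ⟨q'', hQsub j h3, h4⟩)
  · -- card
    intro j
    by_cases hj : j = i
    · subst hj
      rw [hDi, hQi, Finset.card_insert_of_notMem hp]
      have h3 := h.card j
      have h4 := Finset.card_union_le (Q j) {q, π j q, (π j)⁻¹ q}
      have h5 : ({q, π j q, (π j)⁻¹ q} : Finset (Fin n)).card ≤ 3 := Finset.card_le_three
      omega
    · rw [hDj j hj, hQj j hj]; exact h.card j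
  · -- edge
    intro j r hr hr2
    by_cases hj : j = i
    · subst hj
      rcases hcls r hr hr2 with h3 | ⟨h3, h4, h5, h6⟩
      · exact Or.inl h3.1
      · rw [h5, h6]
        exact h.edge j r h3 h4
    · rw [hφj j hj]
      rw [hDj j hj] at hr hr2
      exact h.edge j r hr hr2
  · -- dist
    intro j r j' r' hr hr2 hr' hr2' hA he
    by_cases hj : j = i
    · by_cases hj' : j' = i
      · subst hj
        subst hj'
        refine ⟨rfl, ?_⟩
        rw [Sym2.eq_iff] at he
        rcases he with ⟨h3, _⟩ | ⟨h3, h4⟩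
        · exact hinj hr hr' h3
        · exfalso
          have h5 : r = π j' r' := hinj hr hr2' h3
          have h6 : π j' r = r' := hinj hr2 hr' h4
          exact hp2 j' r' (by rw [← h5, h6])
      · subst hj
        rw [hφj j' hj'] at he
        rw [hDj j' hj'] at hr' hr2'
        rcases hcls r hr hr2 with ⟨_, h4, _⟩ | ⟨h3, h4, h5, h6⟩
        · exfalso
          refine h4 j' r' hr' hr2' ?_ he.symm
          have h5 : s(φ j' r', φ j' (π j' r')) ∈ R.edgeSet := by rw [← he]; exact hA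
          exact h5
        · rw [h5, h6] at he hA
          exact h.dist j r j' r' h3 h4 hr' hr2' hA he
    · rw [hφj j hj] at hA he
      rw [hDj j hj] at hr hr2
      by_cases hj' : j' = i
      · subst hj'
        rcases hcls r' hr' hr2' with ⟨_, h4, _⟩ | ⟨h3, h4, h5, h6⟩
        · exact absurd he (h4 j r hr hr2 hA)
        · rw [h5, h6] at he
          exact h.dist j r j' r' hr hr2 h3 h4 hA he
      · rw [hφj j' hj'] at he
        rw [hDj j' hj'] at hr' hr2'
        exact h.dist j r j' r' hr hr2 hr' hr2' hA he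
  · -- clean
    intro j r hr hr2 hA q' hq' hq'Q
    by_cases hj : j = i
    · subst hj
      rcases hcls r hr hr2 with ⟨_, _, h4⟩ | ⟨h3, h4, h5, h6⟩
      · exact h4 q' hq' hq'Q
      · rw [h5, h6] at hA ⊢
        exact h.clean j r h3 h4 hA q' hq' fun hh => hq'Q (hQsub j hh)
    · rw [hφj j hj] at hA ⊢
      rw [hDj j hj] at hr hr2
      exact h.clean j r hr hr2 hA q' hq' fun hh => hq'Q (hQsub j hh)
  · -- sat
    intro v
    by_cases hv : ∃ u, (u = q ∨ u = π i q ∨ u = (π i)⁻¹ q) ∧ φ0 i u = v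
    · obtain ⟨u, hu, rfl⟩ := hv
      have h3 : (univ.filter (fun j => ∃ p ∈ Q' j, φ0 j p = φ0 i u)) ⊆
          insert i (univ.filter (fun j => ∃ p ∈ Q j, φ0 j p = φ0 i u)) := by
        intro j hj
        simp only [Finset.mem_filter, Finset.mem_univ, true_and, Finset.mem_insert] at hj ⊢
        by_cases hji : j = i
        · exact Or.inl hji
        · rw [hQj j hji] at hj
          exact Or.inr hj
      have h4 := (Finset.card_le_card h3).trans (Finset.card_insert_le _ _)
      have h5 := hsat u hu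
      have h6 : ((univ.filter (fun j => ∃ p ∈ Q' j, φ0 j p = φ0 i u)).card : ℝ)
          ≤ ((univ.filter (fun j => ∃ p ∈ Q j, φ0 j p = φ0 i u)).card : ℝ) + 1 := by
        exact_mod_cast h4
      linarith
    · have h3 : (univ.filter (fun j => ∃ p ∈ Q' j, φ0 j p = v)) ⊆
          (univ.filter (fun j => ∃ p ∈ Q j, φ0 j p = v)) := by
        intro j hj
        simp only [Finset.mem_filter, Finset.mem_univ, true_and] at hj ⊢
        obtain ⟨r, hr, he⟩ := hj
        by_cases hji : j = i
        · subst hji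
          rw [hQi] at hr
          rcases Finset.mem_union.1 hr with h4 | h4
          · exact ⟨r, h4, he⟩
          · exfalso
            simp only [Finset.mem_insert, Finset.mem_singleton] at h4
            exact hv ⟨r, h4, he⟩
        · rw [hQj j hji] at hr
          exact ⟨r, hr, he⟩
      have h4 : ((univ.filter (fun j => ∃ p ∈ Q' j, φ0 j p = v)).card : ℝ)
          ≤ ((univ.filter (fun j => ∃ p ∈ Q j, φ0 j p = v)).card : ℝ) := by
        exact_mod_cast Finset.card_le_card h3
      exact h4.trans (h.sat v)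

theorem step (h0 : FLin t n π B R φ0 D0 lam c1) (h : St t n π B R φ0 D0 kap φ D Q)
    (hp1 : ∀ i u, π i u ≠ u) (hp2 : ∀ i u, π i (π i u) ≠ u) (htn : t ≤ n)
    (hlam : 0 ≤ lam) (hkap : 0 < kap) (hn : 2 ≤ kap * n)
    (hnum : 9 * lam + 18 * lam / kap + 8 * lam + 8 * kap < c1) (i : Fin t) (p : Fin n) (hp : p ∉ D i) :
    ∃ φ' Q', St t n π B R φ0 D0 kap φ' (Function.update D i (insert p (D i))) Q' := by
  obtain ⟨x, hx⟩ : ∃ x, x ∉ (D i).image (φ i) := by
    by_contra hall
    push Not at hall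
    have h1 : (univ : Finset (Fin n)) ⊆ (D i).image (φ i) := fun x _ => hall x
    have h2 := (Finset.card_le_card h1).trans Finset.card_image_le
    have h3 : (D i) ⊂ univ := (Finset.ssubset_univ_iff).2 fun hh => hp (hh ▸ Finset.mem_univ p)
    have h4 := Finset.card_lt_card h3
    omega
  have hx' : ∀ r ∈ D i, φ i r ≠ x := fun r hr hh => hx (Finset.mem_image.2 ⟨r, hr, hh⟩)
  obtain ⟨q, hqD, hqQ, hq2Q, hq1Q, hyw, hzw, hxa, hxb, hsat, hU1, hU2, hU3, hU4⟩ :=
    choose_q h0 h htn hlam hkap hn hnum i x (φ i ((π i)⁻¹ p)) (φ i (π i p))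
  have hqp : q ≠ p := fun hh => hp (h.sub i (hh ▸ hqD.1))
  refine ⟨Function.update φ i (fun r => if r = p then φ0 i q else if r = q then x else φ i r),
    Function.update Q i (Q i ∪ {q, π i q, (π i)⁻¹ q}), ?_⟩
  refine fls_core h0 h hp1 hp2 i p hp x hx' q hqD hqQ hq2Q hq1Q hyw hzw hxa hxb hsat hU1 hU2 hU3 hU4
    _ _ _ (Function.update_self _ _ _) (fun j hj => Function.update_of_ne hj _ _)
    (Function.update_self _ _ _) (fun j hj => Function.update_of_ne hj _ _) ?_ ?_ ?_
    (fun j hj => Function.update_of_ne hj _ _)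
  · rw [Function.update_self]; simp
  · rw [Function.update_self]; simp [hqp]
  · intro r h1 h2
    rw [Function.update_self]; simp [h1, h2]

end
end Pool.Agent.APK
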