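import Pool.Agent.APK.GDefs
import Pool.Agent.FNW.Farkas

/-!
# APK/FN3 : the fractional triangle decomposition as a function of three vertices
-/

set_option autoImplicit false
open Finset
open scoped Classical

namespace Pool.Agent.APK
noncomputable section

theorem fn3 {V : Type} [Fintype V] (H : SimpleGraph V)
    (hH : ∀ v, (3 / 4 : ℝ) * Fintype.card V ≤ dg H v) :
    ∃ w : V → V → V → ℝ, (∀ x y z, 0 ≤ w x y z ∧ w x y z ≤ 1) ∧ (∀ x y z, w x y z = w y x z) ∧
      (∀ x y z, w x y z = w x z y) ∧ (∀ x y z, w x y z ≠ 0 → H.Adj x y ∧ H.Adj y z ∧ H.Adj x z) ∧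
      ∀ x y, H.Adj x y → ∑ z, w x y z = 1 := by
  have hdeg : ∀ v, (3 / 4 : ℝ) * Fintype.card V ≤ H.degree v := by
    intro v
    have h1 : H.degree v = dg H v := by
      unfold dg
      rw [← SimpleGraph.card_neighborFinset_eq_degree]
      congr 1
      ext u
      simp
    rw [h1]
    exact hH v
  obtain ⟨W, W0, Wt, Wc⟩ := Pool.FNW.exists_weights hdeg
  have key : ∀ x y z, H.Adj x y → H.Adj y z → H.Adj x z → W {x, y, z} ≤ 1 := by
    intro x y z hxy _ _
    have h1 := Wc x y hxy
    unfold Pool.H34.Dec.cov at h1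
    rw [← h1]
    have h2 := Finset.single_le_sum (f := fun K : Finset V => if x ∈ K ∧ y ∈ K then W K else 0)
      (s := univ) (fun K _ => by
        split_ifs
        · exact W0 K
        · exact le_rfl) (mem_univ {x, y, z})
    have h3 : x ∈ ({x, y, z} : Finset V) ∧ y ∈ ({x, y, z} : Finset V) := by simp
    simp only [if_pos h3] at h2
    exact h2
  refine ⟨fun x y z => if H.Adj x y ∧ H.Adj y z ∧ H.Adj x z then W {x, y, z} else 0, ?_, ?_, ?_, ?_, ?_⟩
  · intro x y z
    dsimp only
    split_ifs with h
    · exact ⟨W0 _, key x y z h.1 h.2.1 h.2.2⟩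
    · exact ⟨le_rfl, zero_le_one⟩
  · intro x y z
    dsimp only
    have h1 : (H.Adj x y ∧ H.Adj y z ∧ H.Adj x z) ↔ (H.Adj y x ∧ H.Adj x z ∧ H.Adj y z) :=
      ⟨fun h => ⟨h.1.symm, h.2.2, h.2.1⟩, fun h => ⟨h.1.symm, h.2.2, h.2.1⟩⟩
    have h2 : ({x, y, z} : Finset V) = {y, x, z} := by
      ext u; simp only [mem_insert, mem_singleton]; tauto
    rw [h2]
    simp only [h1]
  · intro x y z
    dsimp only
    have h1 : (H.Adj x y ∧ H.Adj y z ∧ H.Adj x z) ↔ (H.Adj x z ∧ H.Adj z y ∧ H.Adj x y) :=
      ⟨fun h => ⟨h.2.2, h.2.1.symm, h.1⟩, fun h => ⟨h.2.2, h.2.1.symm, h.1⟩⟩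
    have h2 : ({x, y, z} : Finset V) = {x, z, y} := by
      ext u; simp only [mem_insert, mem_singleton]; tauto
    rw [h2]
    simp only [h1]
  · intro x y z h
    dsimp only at h
    by_contra h1
    exact h (if_neg h1)
  · intro x y hxy
    rw [← Wc x y hxy]
    unfold Pool.H34.Dec.cov
    symm
    -- sum over the K of weight nonzero
    rw [← Finset.sum_filter_ne_zero]
    rw [← Finset.sum_filter_ne_zero (s := (univ : Finset V))]
    refine Finset.sum_bij' (i := fun K _ => if h : ∃ z, z ∈ K ∧ z ≠ x ∧ z ≠ y then h.choose else x)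
      (j := fun z _ => ({x, y, z} : Finset V)) ?_ ?_ ?_ ?_ ?_
    · intro K hK
      rw [mem_filter] at hK
      obtain ⟨_, hK⟩ := hK
      have hxyK : x ∈ K ∧ y ∈ K := by
        by_contra h; exact hK (if_neg h)
      rw [if_pos hxyK] at hK
      obtain ⟨hc, hcard⟩ := Wt K hK
      have hex : ∃ z, z ∈ K ∧ z ≠ x ∧ z ≠ y := by
        by_contra h
        push Not at h
        have h1 : K ⊆ {x, y} := by
          intro u hu
          by_cases hux : u = x
          · simp [hux]
          · simp [h u hu hux]
        have h2 := card_le_card h1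
        have h3 : ({x, y} : Finset V).card ≤ 2 := Finset.card_le_two
        omega
      rw [dif_pos hex]
      have hz := hex.choose_spec
      set z := hex.choose
      have hKeq : K = {x, y, z} := by
        symm
        apply Finset.eq_of_subset_of_card_le
        · intro u hu
          simp only [mem_insert, mem_singleton] at hu
          rcases hu with rfl | rfl | rfl
          · exact hxyK.1
          · exact hxyK.2
          · exact hz.1
        · rw [hcard]
          rw [Finset.card_eq_three.2 ⟨x, y, z, hxy.ne, hz.2.1.symm, hz.2.2.symm, rfl⟩]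
      rw [mem_filter]
      refine ⟨mem_univ _, ?_⟩
      have hyz : H.Adj y z := hc hxyK.2 hz.1 hz.2.2.symm
      have hxz : H.Adj x z := hc hxyK.1 hz.1 hz.2.1.symm
      show (if H.Adj x y ∧ H.Adj y z ∧ H.Adj x z then W {x, y, z} else 0) ≠ 0
      rw [if_pos ⟨hxy, hyz, hxz⟩, ← hKeq]
      exact hK
    · intro z hz
      rw [mem_filter] at hz ⊢
      obtain ⟨_, hz⟩ := hz
      change (if H.Adj x y ∧ H.Adj y z ∧ H.Adj x z then W {x, y, z} else 0) ≠ 0 at hz
      have h : H.Adj x y ∧ H.Adj y z ∧ H.Adj x z := by
        by_contra h1; exact hz (if_neg h1)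
      rw [if_pos h] at hz
      refine ⟨mem_univ _, ?_⟩
      rw [if_pos (by simp)]
      exact hz
    · intro K hK
      rw [mem_filter] at hK
      obtain ⟨_, hK⟩ := hK
      have hxyK : x ∈ K ∧ y ∈ K := by
        by_contra h; exact hK (if_neg h)
      rw [if_pos hxyK] at hK
      obtain ⟨hc, hcard⟩ := Wt K hK
      have hex : ∃ z, z ∈ K ∧ z ≠ x ∧ z ≠ y := by
        by_contra h
        push Not at h
        have h1 : K ⊆ {x, y} := by
          intro u hu
          by_cases hux : u = x
          · simp [hux]
          · simp [h u hu hux]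
        have h2 := card_le_card h1
        have h3 : ({x, y} : Finset V).card ≤ 2 := Finset.card_le_two
        omega
      simp only [dif_pos hex]
      have hz := hex.choose_spec
      apply Finset.eq_of_subset_of_card_le
      · intro u hu
        simp only [mem_insert, mem_singleton] at hu
        rcases hu with rfl | rfl | rfl
        · exact hxyK.1
        · exact hxyK.2
        · exact hz.1
      · rw [hcard]
        rw [Finset.card_eq_three.2 ⟨x, y, _, hxy.ne, hz.2.1.symm, hz.2.2.symm, rfl⟩]
    · intro z hz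
      rw [mem_filter] at hz
      obtain ⟨_, hz⟩ := hz
      change (if H.Adj x y ∧ H.Adj y z ∧ H.Adj x z then W {x, y, z} else 0) ≠ 0 at hz
      have h : H.Adj x y ∧ H.Adj y z ∧ H.Adj x z := by
        by_contra h1; exact hz (if_neg h1)
      have hex : ∃ u, u ∈ ({x, y, z} : Finset V) ∧ u ≠ x ∧ u ≠ y :=
        ⟨z, by simp, h.2.2.ne.symm, h.2.1.ne.symm⟩
      simp only [dif_pos hex]
      obtain ⟨hu1, hu2, hu3⟩ := hex.choose_spec
      generalize hex.choose = u at hu1 hu2 hu3 ⊢
      simp only [mem_insert, mem_singleton] at hu1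
      rcases hu1 with h1 | h1 | h1
      · exact absurd h1 hu2
      · exact absurd h1 hu3
      · exact h1
    · intro K hK
      rw [mem_filter] at hK
      obtain ⟨_, hK⟩ := hK
      have hxyK : x ∈ K ∧ y ∈ K := by
        by_contra h; exact hK (if_neg h)
      rw [if_pos hxyK] at hK
      obtain ⟨hc, hcard⟩ := Wt K hK
      have hex : ∃ z, z ∈ K ∧ z ≠ x ∧ z ≠ y := by
        by_contra h
        push Not at h
        have h1 : K ⊆ {x, y} := by
          intro u hu
          by_cases hux : u = x
          · simp [hux]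
          · simp [h u hu hux]
        have h2 := card_le_card h1
        have h3 : ({x, y} : Finset V).card ≤ 2 := Finset.card_le_two
        omega
      have hz := hex.choose_spec
      have hKeq : K = {x, y, hex.choose} := by
        symm
        apply Finset.eq_of_subset_of_card_le
        · intro u hu
          simp only [mem_insert, mem_singleton] at hu
          rcases hu with rfl | rfl | rfl
          · exact hxyK.1
          · exact hxyK.2
          · exact hz.1
        · rw [hcard]
          rw [Finset.card_eq_three.2 ⟨x, y, _, hxy.ne, hz.2.1.symm, hz.2.2.symm, rfl⟩]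
      have hyz : H.Adj y hex.choose := hc hxyK.2 hz.1 hz.2.2.symm
      have hxz : H.Adj x hex.choose := hc hxyK.1 hz.1 hz.2.1.symm
      simp only [dif_pos hex]
      rw [if_pos hxyK, if_pos ⟨hxy, hyz, hxz⟩, ← hKeq]

end
end Pool.Agent.APK
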