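import Mathlib

/-!
# APK/GDefs : graphs, triangle weights, tiles, chunks (definitions only)
-/

set_option autoImplicit false
open Finset
open scoped Classical

namespace Pool.Agent.APK
noncomputable section

/-- degree -/
def dg {V : Type} [Fintype V] (G : SimpleGraph V) (v : V) : ℕ := (univ.filter (fun u => G.Adj v u)).card

/-- symmetric weights on the triangles of `G`, bounded by `C / n`, with edge sums in `[1 - e, 1]` -/
structure TriW {n : ℕ} (G : SimpleGraph (Fin n)) (w : Fin n → Fin n → Fin n → ℝ) (C e : ℝ) : Prop where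
  nonneg : ∀ x y z, 0 ≤ w x y z
  symm1 : ∀ x y z, w x y z = w y x z
  symm2 : ∀ x y z, w x y z = w x z y
  supp : ∀ x y z, w x y z ≠ 0 → G.Adj x y ∧ G.Adj y z ∧ G.Adj x z
  le : ∀ x y z, w x y z ≤ C / n
  sum_le : ∀ x y, ∑ z, w x y z ≤ 1
  le_sum : ∀ x y, G.Adj x y → 1 - e ≤ ∑ z, w x y z

/-- The base graph `B`, the reserve `R` (edge-disjoint), near-regularity of `B` (degrees close to `D`),
triangle weights on `B` and the pattern condition with constant `c`. -/
structure Base {n : ℕ} (B R : SimpleGraph (Fin n)) (w : Fin n → Fin n → Fin n → ℝ) (C e D c : ℝ) : Prop where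
  disj : Disjoint B R
  deg : ∀ v, |(dg B v : ℝ) - D| ≤ e * n
  tri : TriW B w C e
  pat : ∀ x y z, c * (n : ℝ) ^ 2 ≤
    ∑ v, ∑ a, ∑ b, (if R.Adj y v ∧ R.Adj z v ∧ R.Adj x a ∧ R.Adj x b then w a v b else 0)

/-- A probability-like weight `ω` on the injective `ℓ`-tuples that form a closed walk of `B`
(cyclic successor: `finRotate ℓ`), with density at most `C / n^ℓ`, nearly uniform marginals, pair marginals at most
`(1 + e)/(n D)`, and the pattern condition with constant `c` at all positions `j ≠ 0`. -/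
structure Tile {n : ℕ} (B R : SimpleGraph (Fin n)) (ℓ : ℕ) (ω : (Fin ℓ → Fin n) → ℝ) (C e D c : ℝ) :
    Prop where
  nonneg : ∀ T, 0 ≤ ω T
  inj : ∀ T, ω T ≠ 0 → Function.Injective T
  adj : ∀ T, ω T ≠ 0 → ∀ j, B.Adj (T j) (T (finRotate ℓ j))
  dens : ∀ T, ω T ≤ C / (n : ℝ) ^ ℓ
  total_le : ∑ T, ω T ≤ 1
  marg_le : ∀ j v, ∑ T, (if T j = v then ω T else 0) ≤ (1 + e) / n
  le_marg : ∀ j v, (1 - e) / n ≤ ∑ T, (if T j = v then ω T else 0)
  pair_le : ∀ j u v, ∑ T, (if T j = u ∧ T (finRotate ℓ j) = v then ω T else 0) ≤ (1 + e) / (n * D)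
  pat : ∀ j : Fin ℓ, j.val ≠ 0 → ∀ x y z, c ≤ ∑ T, (if R.Adj y (T j) ∧ R.Adj z (T j) ∧
    R.Adj x (T ((finRotate ℓ).symm j)) ∧ R.Adj x (T (finRotate ℓ j)) then ω T else 0)

/-- Chunks of a permutation: `len s ≠ 0` means that a chunk `s, π s, …, π^(len s - 1) s` starts at `s`; the chunks are
disjoint, have between `3` and `K` vertices, and each chunk is either a full cycle of `π` or the vertices just
before and just after it lie in no chunk. -/
structure Chunks {n : ℕ} (K : ℕ) (π : Equiv.Perm (Fin n)) (len : Fin n → ℕ) : Prop where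
  ge : ∀ s, len s ≠ 0 → 3 ≤ len s
  le : ∀ s, len s ≤ K
  inj : ∀ s s' a a', a < len s → a' < len s' → (π ^ a) s = (π ^ a') s' → s = s' ∧ a = a'
  sep : ∀ s, len s ≠ 0 → (π ^ len s) s = s ∨
    ((∀ s' a, a < len s' → (π ^ a) s' ≠ (π ^ len s) s) ∧ ∀ s' a, a < len s' → (π ^ a) s' ≠ π⁻¹ s)

/-- the chunk at `s` is a full cycle -/
def Closed {n : ℕ} (π : Equiv.Perm (Fin n)) (len : Fin n → ℕ) (s : Fin n) : Prop := (π ^ len s) s = s

/-- position `a` of the chunk `s` is inner: both its neighbours are in the chunk -/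
def Inn {n : ℕ} (π : Equiv.Perm (Fin n)) (len : Fin n → ℕ) (s : Fin n) (a : ℕ) : Prop :=
  Closed π len s ∨ (1 ≤ a ∧ a + 1 < len s)

/-- row sums -/
def rs {n : ℕ} (K : Fin n → Fin n → ℝ) (x : Fin n) : ℝ := ∑ y, K x y

/-- weight of the path `t 0, …, t m` of the reversible chain with conductances `K` -/
def chW {n : ℕ} (K : Fin n → Fin n → ℝ) {m : ℕ} (t : Fin (m + 1) → Fin n) : ℝ :=
  rs K (t 0) * ∏ j : Fin m, (K (t j.castSucc) (t j.succ) / rs K (t j.castSucc))

/-- total triangle weight (over ordered triples) -/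
def Sg {n : ℕ} (w : Fin n → Fin n → Fin n → ℝ) : ℝ := ∑ x, ∑ y, ∑ z, w x y z

/-- fan weight of the tuple `T`, hub `T 0`: chain with conductances `w (T 0)` along `T 1, …, T (m+1)` -/
def fanW {n : ℕ} (w : Fin n → Fin n → Fin n → ℝ) {m : ℕ} (T : Fin (m + 2) → Fin n) : ℝ :=
  chW (w (T 0)) (Fin.tail T) / Sg w

/-- the reserve given by the set of pairs `S` -/
def RG {n : ℕ} (G : SimpleGraph (Fin n)) (S : Finset (Sym2 (Fin n))) : SimpleGraph (Fin n) where
  Adj u v := G.Adj u v ∧ s(u, v) ∈ S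
  symm := ⟨fun u v h => ⟨h.1.symm, by rw [Sym2.eq_swap]; exact h.2⟩⟩
  loopless := ⟨fun u h => G.loopless.irrefl u h.1⟩

/-- the rest of `G` -/
def BG {n : ℕ} (G : SimpleGraph (Fin n)) (S : Finset (Sym2 (Fin n))) : SimpleGraph (Fin n) where
  Adj u v := G.Adj u v ∧ s(u, v) ∉ S
  symm := ⟨fun u v h => ⟨h.1.symm, by rw [Sym2.eq_swap]; exact h.2⟩⟩
  loopless := ⟨fun u h => G.loopless.irrefl u h.1⟩

end
end Pool.Agent.APK
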