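import Mathlib

/-!
# APK/HDefs : weighted hypergraphs (definitions only)

A hypergraph is a map `V : I → Finset X`; `w : I → ℝ` are weights.
-/

set_option autoImplicit false
open Finset
open scoped Classical

namespace Pool.Agent.APK
noncomputable section

variable {I X : Type} [Fintype I] [DecidableEq I] [DecidableEq X]

/-- weighted degree -/
def Deg (V : I → Finset X) (w : I → ℝ) (x : X) : ℝ := ∑ i, if x ∈ V i then w i else 0

/-- weighted codegree -/
def Cod (V : I → Finset X) (w : I → ℝ) (x y : X) : ℝ := ∑ i, if x ∈ V i ∧ y ∈ V i then w i else 0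

/-- the product of `1 - p i` over the `i` through `x` -/
def surv (V : I → Finset X) (p : I → ℝ) (x : X) : ℝ := ∏ i, if x ∈ V i then 1 - p i else 1

/-- total weight of a test function -/
def Gam (w g : I → ℝ) : ℝ := ∑ i, w i * g i

/-- `i` is selected in `T` and isolated among the selected indices -/
def Iso (V : I → Finset X) (T : Finset I) (i : I) : Prop :=
  i ∈ T ∧ ∀ j ∈ T, j ≠ i → Disjoint (V i) (V j)

/-- hypotheses of one round: `p` are the selection probabilities, `s` the exact survival probability of every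
vertex, `w` the weights of the real edges (`w = 0` on dummy edges), `ze` the bite, `de` the codegree bound. -/
structure Round (k : ℕ) (ze de s : ℝ) (V : I → Finset X) (p w : I → ℝ) : Prop where
  kpos : 1 ≤ k
  ze0 : 0 < ze
  ze1 : 8 * k * ze ≤ 1
  de0 : 0 < de
  sdef : s = Real.exp (-ze - ze ^ 2)
  ne : ∀ i, (V i).Nonempty
  card : ∀ i, (V i).card ≤ k
  p0 : ∀ i, 0 ≤ p i
  p1 : ∀ i, p i ≤ 1 / 2
  w0 : ∀ i, 0 ≤ w i
  pw : ∀ i, w i ≠ 0 → p i = ze * w i
  surv_eq : ∀ x, surv V p x = s
  deg : ∀ x, Deg V w x ≤ 1
  codw : ∀ x y, x ≠ y → Cod V w x y ≤ de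
  codp : ∀ x y, x ≠ y → Cod V p x y ≤ ze * de

/-- the new weight of the real edges when the edges that meet the set of the selected edges are dropped:
`w i (1 - eta) / s^(|V i| - 1)` if `V i` is disjoint from all selected edges, `0` otherwise -/
def newW (V : I → Finset X) (w : I → ℝ) (s eta : ℝ) (T : Finset I) (i : I) : ℝ :=
  if (∀ j ∈ T, Disjoint (V j) (V i)) then w i * (1 - eta) / s ^ ((V i).card - 1) else 0

end
end Pool.Agent.APK
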