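import Pool.Agent.APK.GDefs

/-!
# APK/Hof : a random sample of `s` vertices has large minimum degree   (difficulty 3)

`Good G ξ` : every `u : Fin s` has `#{b : G.Adj (ξ u) (ξ b)} ≥ (3/4) s`.

Claim: there is `s ≥ 2` (depending on `ep`, `e0`) such that for all `n ≥ 1`, all `G` with minimum degree
`≥ (3/4 + ep) n`, all `a ≠ b`, `x, y`: at most `e0 n^(s-2)` maps `ξ : Fin s → Fin n` have `ξ a = x`, `ξ b = y` and
are not good.

Proof. If `ξ` is not good, some `u` has `#{b' : G.Adj (ξ u) (ξ b')} < (3/4) s`.  Fix `u` and `v = ξ u` and the coordinates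
`a, b, u`; let `Rest` be the set of the other coordinates, `r = |Rest| ∈ {s-2, s-3}`.
With `N = {c : G.Adj v c}`, `P = |N|/n ≥ 3/4 + ep`: `#{b' ∈ Rest : ξ b' ∈ N} < (3/4) s ≤ P r - (ep/2) r` as soon as
`(3/4) s ≤ (3/4 + ep/2)(s - 3)`, i.e. `s` large.
Chernoff for iid uniform coordinates (put `f c = P - [c ∈ N]`, `∑_c f c = 0`, `|f| ≤ 1`): for `0 ≤ η ≤ 2` the number of
`b : Rest → Fin n` with `η r ≤ ∑ f (b z)` is at most `n^r exp (- r η²/4)`:
`1 ≤ exp ((η/2)(∑ f (b z) - η r))`, and `∑_b ∏_z exp ((η/2) f (b z)) = (∑_c exp ((η/2) f c))^r`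
(`Finset.prod_univ_sum` / `Fintype.sum_pow`, `Finset.prod_sum`), `exp x ≤ 1 + x + x²` for `|x| ≤ 1`
(`Real.abs_exp_sub_one_sub_id_le`), so the inner sum is `≤ n (1 + η²/4) ≤ n exp (η²/4)`; total
`≤ n^r exp (r η²/4 - r η²/2)`.  (A complete Lean proof of this counting form is in the graded repository,
`/workdir/pool/outputs/live/Pool/Agent/ClusterPoset/Chernoff.lean`, lemma `chernoff`, copy it.)
With `η = ep/2`: for `u ∉ {a, b}` there are `n` values of `ξ u` and `n^(s-3)` rests, for `u ∈ {a, b}` the value is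
fixed and there are `n^(s-2)` rests (one may also treat the third coordinate as free in this case).  So for each `u` at
most `n^(s-2) exp (-(s-3) ep²/16)` maps; total `≤ s exp (-(s-3) ep²/16) n^(s-2) ≤ e0 n^(s-2)` for large `s`.
-/

set_option autoImplicit false
open Finset
open scoped Classical

namespace Pool.Agent.APK
noncomputable section

/-- the sampled graph has minimum degree at least `(3/4) s` -/
def Good {n s : ℕ} (G : SimpleGraph (Fin n)) (ξ : Fin s → Fin n) : Prop :=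
  ∀ u : Fin s, (3 / 4 : ℝ) * s ≤ dg (G.comap ξ) u

theorem hof_sum_prod {ι : Type} [Fintype ι] [DecidableEq ι] {K : ℕ} (w : Fin K → ℝ) :
    ∑ b : ι → Fin K, ∏ z, w (b z) = (∑ c, w c) ^ Fintype.card ι := by
  have h := Finset.prod_univ_sum (fun _ : ι => (Finset.univ : Finset (Fin K)))
    (fun _ c => w c)
  rw [Finset.prod_const, card_univ, Fintype.piFinset_univ] at h
  exact h.symm

theorem hof_chernoff {ι : Type} [Fintype ι] [DecidableEq ι] {K : ℕ} (w ξ : Fin K → ℝ) (hw : ∀ c, 0 ≤ w c) (hξ : ∀ c, |ξ c| ≤ 1)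
    (h0 : ∑ c, w c * ξ c = 0) (η : ℝ) (hη0 : 0 ≤ η) (hη : η ≤ 2) (B : Finset (ι → Fin K))
    (hB : ∀ b ∈ B, η * Fintype.card ι ≤ ∑ z, ξ (b z)) :
    ∑ b ∈ B, ∏ z, w (b z)
      ≤ (∑ c, w c) ^ Fintype.card ι * Real.exp (-(Fintype.card ι * η ^ 2 / 4)) := by
  set S := ∑ c, w c with hS
  have hS0 : 0 ≤ S := Finset.sum_nonneg fun c _ => hw c
  set N := Fintype.card ι with hN
  have h1 : ∀ b ∈ B, ∏ z, w (b z)
      ≤ (∏ z, w (b z) * Real.exp (η / 2 * ξ (b z))) * Real.exp (-(η / 2 * (η * N))) := by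
    intro b hb
    rw [Finset.prod_mul_distrib, ← Real.exp_sum, mul_assoc, ← Real.exp_add]
    have h2 : 1 ≤ Real.exp (∑ z, η / 2 * ξ (b z) + -(η / 2 * (η * N))) := by
      apply Real.one_le_exp
      rw [← Finset.mul_sum]
      have := mul_le_mul_of_nonneg_left (hB b hb) (show 0 ≤ η / 2 by positivity)
      linarith
    exact le_mul_of_one_le_right (Finset.prod_nonneg fun z _ => hw _) h2
  have h3 : ∑ c, w c * Real.exp (η / 2 * ξ c) ≤ S * Real.exp ((η / 2) ^ 2) := by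
    have h4 : ∀ c, Real.exp (η / 2 * ξ c) ≤ 1 + η / 2 * ξ c + (η / 2) ^ 2 := by
      intro c
      have h5 : |η / 2 * ξ c| ≤ 1 := by
        rw [abs_mul, abs_of_nonneg (by positivity : 0 ≤ η / 2)]
        have := mul_le_mul (show η / 2 ≤ 1 by linarith) (hξ c) (abs_nonneg _) zero_le_one
        linarith
      have h6 := Real.abs_exp_sub_one_sub_id_le h5
      have h7 : (η / 2 * ξ c) ^ 2 ≤ (η / 2) ^ 2 := by
        rw [mul_pow]
        have h8 : ξ c ^ 2 ≤ 1 := by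
          rw [← sq_abs]
          exact pow_le_one₀ (abs_nonneg _) (hξ c)
        nlinarith [sq_nonneg (η / 2)]
      have h9 := (abs_le.1 h6).2
      linarith
    calc ∑ c, w c * Real.exp (η / 2 * ξ c)
        ≤ ∑ c, w c * (1 + η / 2 * ξ c + (η / 2) ^ 2) :=
          Finset.sum_le_sum fun c _ => mul_le_mul_of_nonneg_left (h4 c) (hw c)
      _ = S + η / 2 * (∑ c, w c * ξ c) + (η / 2) ^ 2 * S := by
          rw [hS, Finset.mul_sum, Finset.mul_sum, ← Finset.sum_add_distrib,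
            ← Finset.sum_add_distrib]
          apply Finset.sum_congr rfl
          intro c _
          ring
      _ = S * (1 + (η / 2) ^ 2) := by rw [h0]; ring
      _ ≤ S * Real.exp ((η / 2) ^ 2) := by
          apply mul_le_mul_of_nonneg_left _ hS0
          linarith [Real.add_one_le_exp ((η / 2) ^ 2)]
  have h10 : ∀ c, 0 ≤ w c * Real.exp (η / 2 * ξ c) := fun c =>
    mul_nonneg (hw c) (Real.exp_nonneg _)
  calc ∑ b ∈ B, ∏ z, w (b z)
      ≤ ∑ b ∈ B, (∏ z, w (b z) * Real.exp (η / 2 * ξ (b z)))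
          * Real.exp (-(η / 2 * (η * N))) := Finset.sum_le_sum h1
    _ = (∑ b ∈ B, ∏ z, w (b z) * Real.exp (η / 2 * ξ (b z)))
          * Real.exp (-(η / 2 * (η * N))) := by rw [Finset.sum_mul]
    _ ≤ (∑ b : ι → Fin K, ∏ z, w (b z) * Real.exp (η / 2 * ξ (b z)))
          * Real.exp (-(η / 2 * (η * N))) := by
        apply mul_le_mul_of_nonneg_right _ (Real.exp_nonneg _)
        exact Finset.sum_le_sum_of_subset_of_nonneg (Finset.subset_univ _)
          fun b _ _ => Finset.prod_nonneg fun z _ => h10 _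
    _ = (∑ c, w c * Real.exp (η / 2 * ξ c)) ^ N * Real.exp (-(η / 2 * (η * N))) := by
        rw [hof_sum_prod (ι := ι) (fun c => w c * Real.exp (η / 2 * ξ c))]
    _ ≤ (S * Real.exp ((η / 2) ^ 2)) ^ N * Real.exp (-(η / 2 * (η * N))) := by
        apply mul_le_mul_of_nonneg_right _ (Real.exp_nonneg _)
        exact pow_le_pow_left₀ (Finset.sum_nonneg fun c _ => h10 c) h3 N
    _ = S ^ N * Real.exp (-(N * η ^ 2 / 4)) := by
        rw [mul_pow, mul_assoc, ← Real.exp_nat_mul, ← Real.exp_add]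
        congr 2
        ring

theorem hof_fib {n s : ℕ} (G : SimpleGraph (Fin n)) (a b u : Fin s) (x y v : Fin n) {ep : ℝ} (h0 : 0 < ep)
    (h1 : ep ≤ 1 / 4) (hn : 1 ≤ n) (hdeg : (3 / 4 + ep) * n ≤ dg G v) (hs : 6 / ep ≤ s)
    (hr : s ≤ Fintype.card {i : Fin s // i ≠ a ∧ i ≠ b ∧ i ≠ u} + 3) :
    ((univ.filter (fun ξ : Fin s → Fin n => ξ a = x ∧ ξ b = y ∧ ξ u = v ∧ (dg (G.comap ξ) u : ℝ) < 3 / 4 * s)).card : ℝ)
      ≤ (n : ℝ) ^ (Fintype.card {i : Fin s // i ≠ a ∧ i ≠ b ∧ i ≠ u}) *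
        Real.exp (-((Fintype.card {i : Fin s // i ≠ a ∧ i ≠ b ∧ i ≠ u}) * (ep / 2) ^ 2 / 4)) := by
  have hn0 : (0 : ℝ) < n := by exact_mod_cast hn
  obtain ⟨P, hP⟩ : ∃ P : ℝ, P = (dg G v : ℝ) / n := ⟨_, rfl⟩
  have hdn : (dg G v : ℝ) ≤ n := by
    have : dg G v ≤ n := by
      unfold dg
      exact (Finset.card_le_univ _).trans (by rw [Fintype.card_fin])
    exact_mod_cast this
  have hP0 : 3 / 4 + ep ≤ P := by
    rw [hP, le_div_iff₀ hn0]
    exact hdeg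
  have hP1 : P ≤ 1 := by
    rw [hP, div_le_one hn0]
    exact hdn
  obtain ⟨f, hf⟩ : ∃ f : Fin n → ℝ, f = fun c => P - (if G.Adj v c then 1 else 0) := ⟨_, rfl⟩
  have hfsum : ∑ c, (1 : ℝ) * f c = 0 := by
    simp only [one_mul, hf]
    rw [Finset.sum_sub_distrib, Finset.sum_const, ← Finset.sum_filter, Finset.sum_const, nsmul_eq_mul, nsmul_eq_mul, mul_one,
      Finset.card_univ, Fintype.card_fin, hP]
    unfold dg
    field_simp
    simp
  have hf1 : ∀ c, |f c| ≤ 1 := by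
    intro c
    rw [hf]
    show |P - (if G.Adj v c then (1 : ℝ) else 0)| ≤ 1
    split_ifs <;> rw [abs_le] <;> constructor <;> linarith
  obtain ⟨B, hB⟩ : ∃ B : Finset ({i : Fin s // i ≠ a ∧ i ≠ b ∧ i ≠ u} → Fin n), B = univ.filter (fun β =>
    ep / 2 * Fintype.card {i : Fin s // i ≠ a ∧ i ≠ b ∧ i ≠ u} ≤ ∑ z, f (β z)) := ⟨_, rfl⟩
  have hch := hof_chernoff (ι := {i : Fin s // i ≠ a ∧ i ≠ b ∧ i ≠ u}) (fun _ : Fin n => (1 : ℝ)) f (fun _ => zero_le_one) hf1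
    hfsum (ep / 2) (by positivity) (by linarith) B (by
      intro β hβ
      rw [hB] at hβ
      exact (Finset.mem_filter.1 hβ).2)
  simp only [Finset.prod_const_one, Finset.sum_const, nsmul_eq_mul, mul_one, Finset.card_univ, Fintype.card_fin] at hch
  refine le_trans ?_ hch
  have hcard : (univ.filter (fun ξ : Fin s → Fin n => ξ a = x ∧ ξ b = y ∧ ξ u = v ∧ (dg (G.comap ξ) u : ℝ) < 3 / 4 * s)).card
      ≤ B.card := by
    apply Finset.card_le_card_of_injOn (fun ξ (i : {i : Fin s // i ≠ a ∧ i ≠ b ∧ i ≠ u}) => ξ i.1)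
    · intro ξ hξ
      obtain ⟨-, hxa, hxb, hxu, hlt⟩ := Finset.mem_filter.1 hξ
      rw [hB]
      refine Finset.mem_coe.2 (Finset.mem_filter.2 ⟨Finset.mem_univ _, ?_⟩)
      have h2 : (∑ z : {i : Fin s // i ≠ a ∧ i ≠ b ∧ i ≠ u}, (if G.Adj v (ξ z.1) then (1 : ℝ) else 0)) ≤
          dg (G.comap ξ) u := by
        have h3 : (∑ z : {i : Fin s // i ≠ a ∧ i ≠ b ∧ i ≠ u}, (if G.Adj v (ξ z.1) then (1 : ℝ) else 0)) ≤
            ∑ z : Fin s, (if G.Adj v (ξ z) then (1 : ℝ) else 0) := by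
          have h4 : (∑ z : {i : Fin s // i ≠ a ∧ i ≠ b ∧ i ≠ u}, (if G.Adj v (ξ z.1) then (1 : ℝ) else 0)) =
              ∑ z ∈ (univ : Finset {i : Fin s // i ≠ a ∧ i ≠ b ∧ i ≠ u}).map (Function.Embedding.subtype _),
                (if G.Adj v (ξ z) then (1 : ℝ) else 0) := by
            rw [Finset.sum_map]
            rfl
          rw [h4]
          apply Finset.sum_le_sum_of_subset_of_nonneg (Finset.subset_univ _)
          intro i _ _
          split_ifs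
          · norm_num
          · exact le_rfl
        refine h3.trans (le_of_eq ?_)
        rw [← Finset.sum_filter, Finset.sum_const, nsmul_eq_mul, mul_one]
        unfold dg
        congr 2
        ext z
        simp only [Finset.mem_filter, Finset.mem_univ, true_and, SimpleGraph.comap_adj, hxu]
      show ep / 2 * (Fintype.card {i : Fin s // i ≠ a ∧ i ≠ b ∧ i ≠ u} : ℝ) ≤ ∑ z : {i : Fin s // i ≠ a ∧ i ≠ b ∧ i ≠ u}, f (ξ z.1)
      have h5 : ∑ z : {i : Fin s // i ≠ a ∧ i ≠ b ∧ i ≠ u}, f (ξ z.1) = (Fintype.card {i : Fin s // i ≠ a ∧ i ≠ b ∧ i ≠ u} : ℝ) * P -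
          ∑ z : {i : Fin s // i ≠ a ∧ i ≠ b ∧ i ≠ u}, (if G.Adj v (ξ z.1) then (1 : ℝ) else 0) := by
        simp only [hf]
        rw [Finset.sum_sub_distrib, Finset.sum_const, nsmul_eq_mul, Finset.card_univ]
      rw [h5]
      generalize Fintype.card {i : Fin s // i ≠ a ∧ i ≠ b ∧ i ≠ u} = r at hr ⊢
      have hr' : (s : ℝ) ≤ r + 3 := by exact_mod_cast hr
      have h6 : (r : ℝ) * (3 / 4 + ep) ≤ r * P := mul_le_mul_of_nonneg_left hP0 (Nat.cast_nonneg _)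
      have h7 : 6 ≤ s * ep := by
        rw [div_le_iff₀ h0] at hs
        exact hs
      have h8 : ((s : ℝ) - 3) * (3 / 4 + ep / 2) ≤ r * (3 / 4 + ep / 2) :=
        mul_le_mul_of_nonneg_right (by linarith) (by linarith)
      nlinarith
    · intro ξ hξ ξ' hξ' heq
      obtain ⟨-, hxa, hxb, hxu, -⟩ := Finset.mem_filter.1 hξ
      obtain ⟨-, hxa', hxb', hxu', -⟩ := Finset.mem_filter.1 hξ'
      funext i
      by_cases hia : i = a
      · rw [hia, hxa, hxa']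
      by_cases hib : i = b
      · rw [hib, hxb, hxb']
      by_cases hiu : i = u
      · rw [hiu, hxu, hxu']
      exact congrFun heq ⟨i, hia, hib, hiu⟩
  exact_mod_cast hcard

theorem hof_card {s : ℕ} (a b u : Fin s) :
    Fintype.card {i : Fin s // i ≠ a ∧ i ≠ b ∧ i ≠ u} = s - ({a, b, u} : Finset (Fin s)).card := by
  rw [Fintype.card_subtype]
  have : (univ.filter (fun i : Fin s => i ≠ a ∧ i ≠ b ∧ i ≠ u)) = ({a, b, u} : Finset (Fin s))ᶜ := by
    ext i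
    simp
  rw [this, Finset.card_compl, Fintype.card_fin]

theorem hof_u {n s : ℕ} (G : SimpleGraph (Fin n)) (a b u : Fin s) (hab : a ≠ b) (x y : Fin n) {ep : ℝ} (h0 : 0 < ep)
    (h1 : ep ≤ 1 / 4) (hn : 1 ≤ n) (hdeg : ∀ v, (3 / 4 + ep) * n ≤ dg G v) (hs : 6 / ep ≤ s) :
    ((univ.filter (fun ξ : Fin s → Fin n => ξ a = x ∧ ξ b = y ∧ (dg (G.comap ξ) u : ℝ) < 3 / 4 * s)).card : ℝ)
      ≤ (n : ℝ) ^ (s - 2) * Real.exp (-(ep ^ 2 / 16 * (s - 3))) := by
  have hn0 : (0 : ℝ) < n := by exact_mod_cast hn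
  have hs6 : 6 ≤ s := by
    have h2 : (6 : ℝ) ≤ s := by
      refine le_trans ?_ hs
      rw [le_div_iff₀ h0]
      linarith
    exact_mod_cast h2
  have h3s : ((s - 3 : ℕ) : ℝ) = (s : ℝ) - 3 := by
    rw [Nat.cast_sub (by omega)]
    norm_num
  have h2s : ((s - 2 : ℕ) : ℝ) = (s : ℝ) - 2 := by
    rw [Nat.cast_sub (by omega)]
    norm_num
  have hbig : ∀ w z : Fin s, w = a ∨ w = b → ((univ.filter (fun ξ : Fin s → Fin n => ξ a = x ∧ ξ b = y ∧
      (dg (G.comap ξ) w : ℝ) < 3 / 4 * s)).card : ℝ) ≤ (n : ℝ) ^ (s - 2) * Real.exp (-(ep ^ 2 / 16 * (s - 3))) := by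
    intro w _ hw
    obtain ⟨v, hv⟩ : ∃ v : Fin n, ∀ ξ : Fin s → Fin n, ξ a = x → ξ b = y → ξ w = v := by
      rcases hw with rfl | rfl
      · exact ⟨x, fun ξ h _ => h⟩
      · exact ⟨y, fun ξ _ h => h⟩
    have hc : ({a, b, w} : Finset (Fin s)).card = 2 := by
      have : ({a, b, w} : Finset (Fin s)) = {a, b} := by
        rcases hw with rfl | rfl
        · ext i; simp; tauto
        · ext i; simp
      rw [this, Finset.card_pair hab]
    have hcr := hof_card a b w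
    rw [hc] at hcr
    have h4 := hof_fib G a b w x y v h0 h1 hn (hdeg v) hs (by rw [hcr]; omega)
    rw [hcr, h2s] at h4
    have h5 : (univ.filter (fun ξ : Fin s → Fin n => ξ a = x ∧ ξ b = y ∧ (dg (G.comap ξ) w : ℝ) < 3 / 4 * s)) ⊆
        (univ.filter (fun ξ : Fin s → Fin n => ξ a = x ∧ ξ b = y ∧ ξ w = v ∧ (dg (G.comap ξ) w : ℝ) < 3 / 4 * s)) := by
      intro ξ hξ
      obtain ⟨-, hxa, hxb, hlt⟩ := Finset.mem_filter.1 hξ
      exact Finset.mem_filter.2 ⟨Finset.mem_univ _, hxa, hxb, hv ξ hxa hxb, hlt⟩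
    have h6 : ((univ.filter (fun ξ : Fin s → Fin n => ξ a = x ∧ ξ b = y ∧ (dg (G.comap ξ) w : ℝ) < 3 / 4 * s)).card : ℝ) ≤
        (univ.filter (fun ξ : Fin s → Fin n => ξ a = x ∧ ξ b = y ∧ ξ w = v ∧ (dg (G.comap ξ) w : ℝ) < 3 / 4 * s)).card := by
      exact_mod_cast Finset.card_le_card h5
    refine h6.trans (h4.trans ?_)
    apply mul_le_mul_of_nonneg_left _ (by positivity)
    apply Real.exp_le_exp.2
    nlinarith [sq_nonneg ep]
  by_cases hua : u = a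
  · exact hbig u u (Or.inl hua)
  by_cases hub : u = b
  · exact hbig u u (Or.inr hub)
  have hc : ({a, b, u} : Finset (Fin s)).card = 3 := by
    rw [Finset.card_eq_three]
    exact ⟨a, b, u, hab, Ne.symm hua, Ne.symm hub, rfl⟩
  have hcr := hof_card a b u
  rw [hc] at hcr
  have h4 : ∀ v, ((univ.filter (fun ξ : Fin s → Fin n => ξ a = x ∧ ξ b = y ∧ ξ u = v ∧ (dg (G.comap ξ) u : ℝ) < 3 / 4 * s)).card : ℝ) ≤
      (n : ℝ) ^ (s - 3) * Real.exp (-(ep ^ 2 / 16 * (s - 3))) := by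
    intro v
    have h5 := hof_fib G a b u x y v h0 h1 hn (hdeg v) hs (by rw [hcr]; omega)
    rw [hcr, h3s] at h5
    refine h5.trans (le_of_eq ?_)
    congr 2
    ring
  have h5 : (univ.filter (fun ξ : Fin s → Fin n => ξ a = x ∧ ξ b = y ∧ (dg (G.comap ξ) u : ℝ) < 3 / 4 * s)) ⊆
      (univ : Finset (Fin n)).biUnion (fun v => univ.filter (fun ξ : Fin s → Fin n => ξ a = x ∧ ξ b = y ∧ ξ u = v ∧
        (dg (G.comap ξ) u : ℝ) < 3 / 4 * s)) := by
    intro ξ hξ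
    obtain ⟨-, hxa, hxb, hlt⟩ := Finset.mem_filter.1 hξ
    exact Finset.mem_biUnion.2 ⟨ξ u, Finset.mem_univ _, Finset.mem_filter.2 ⟨Finset.mem_univ _, hxa, hxb, rfl, hlt⟩⟩
  have h6 := (Finset.card_le_card h5).trans Finset.card_biUnion_le
  have h7 : ((univ.filter (fun ξ : Fin s → Fin n => ξ a = x ∧ ξ b = y ∧ (dg (G.comap ξ) u : ℝ) < 3 / 4 * s)).card : ℝ) ≤
      ∑ v : Fin n, ((univ.filter (fun ξ : Fin s → Fin n => ξ a = x ∧ ξ b = y ∧ ξ u = v ∧ (dg (G.comap ξ) u : ℝ) < 3 / 4 * s)).card : ℝ) := by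
    exact_mod_cast h6
  refine h7.trans ((Finset.sum_le_sum fun v _ => h4 v).trans ?_)
  rw [Finset.sum_const, nsmul_eq_mul, Finset.card_univ, Fintype.card_fin, ← mul_assoc]
  have h8 : (n : ℝ) * (n : ℝ) ^ (s - 3) = (n : ℝ) ^ (s - 2) := by
    rw [← pow_succ']
    congr 1
    omega
  rw [h8]

theorem hof_s {ep e0 : ℝ} (h0 : 0 < ep) (h1 : ep ≤ 1 / 4) (he : 0 < e0) :
    ∃ s : ℕ, 2 ≤ s ∧ 6 / ep ≤ s ∧ (s : ℝ) * Real.exp (-(ep ^ 2 / 16 * (s - 3))) ≤ e0 := by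
  obtain ⟨c, hc⟩ : ∃ c : ℝ, c = ep ^ 2 / 16 := ⟨_, rfl⟩
  have hc0 : 0 < c := by rw [hc]; positivity
  obtain ⟨s, hs⟩ := exists_nat_ge (max (6 / ep) (8 / (c ^ 2 * e0)))
  have hs1 : 6 / ep ≤ s := (le_max_left _ _).trans hs
  have hs2 : 8 / (c ^ 2 * e0) ≤ s := (le_max_right _ _).trans hs
  have hs6 : (6 : ℝ) ≤ s := by
    refine le_trans ?_ hs1
    rw [le_div_iff₀ h0]
    linarith
  refine ⟨s, ?_, hs1, ?_⟩
  · have : (2 : ℝ) ≤ s := by linarith
    exact_mod_cast this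
  rw [← hc, Real.exp_neg, ← div_eq_mul_inv, div_le_iff₀ (Real.exp_pos _)]
  have h2 : 0 ≤ c * ((s : ℝ) - 3) := mul_nonneg hc0.le (by linarith)
  have h3 := Real.quadratic_le_exp_of_nonneg h2
  have h4 : (c * ((s : ℝ) - 3)) ^ 2 / 2 ≤ Real.exp (c * ((s : ℝ) - 3)) := by linarith
  have h5 : (s : ℝ) ≤ e0 * ((c * ((s : ℝ) - 3)) ^ 2 / 2) := by
    rw [div_le_iff₀ (by positivity)] at hs2
    have h6 : ((s : ℝ) / 2) ^ 2 ≤ ((s : ℝ) - 3) ^ 2 := by
      apply pow_le_pow_left₀ (by linarith)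
      linarith
    have h7 : e0 * (c ^ 2 * ((s : ℝ) / 2) ^ 2 / 2) ≤ e0 * ((c * ((s : ℝ) - 3)) ^ 2 / 2) := by
      apply mul_le_mul_of_nonneg_left _ he.le
      rw [mul_pow]
      have := mul_le_mul_of_nonneg_left h6 (sq_nonneg c)
      linarith
    refine le_trans ?_ h7
    have h8 : e0 * (c ^ 2 * ((s : ℝ) / 2) ^ 2 / 2) = s * (s * (c ^ 2 * e0)) / 8 := by ring
    rw [h8]
    nlinarith
  exact h5.trans (mul_le_mul_of_nonneg_left h4 he.le)

theorem hof (ep e0 : ℝ) (h0 : 0 < ep) (h1 : ep ≤ 1 / 4) (he : 0 < e0) :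
    ∃ s : ℕ, 2 ≤ s ∧ ∀ n : ℕ, 1 ≤ n → ∀ G : SimpleGraph (Fin n), (∀ v, (3 / 4 + ep) * n ≤ dg G v) →
      ∀ a b : Fin s, a ≠ b → ∀ x y : Fin n,
        ((univ.filter (fun ξ : Fin s → Fin n => ξ a = x ∧ ξ b = y ∧ ¬ Good G ξ)).card : ℝ)
          ≤ e0 * (n : ℝ) ^ (s - 2) := by
  obtain ⟨s, hs2, hs6, hse⟩ := hof_s h0 h1 he
  refine ⟨s, hs2, ?_⟩
  intro n hn G hdeg a b hab x y
  have h5 : (univ.filter (fun ξ : Fin s → Fin n => ξ a = x ∧ ξ b = y ∧ ¬ Good G ξ)) ⊆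
      (univ : Finset (Fin s)).biUnion (fun u => univ.filter (fun ξ : Fin s → Fin n => ξ a = x ∧ ξ b = y ∧
        (dg (G.comap ξ) u : ℝ) < 3 / 4 * s)) := by
    intro ξ hξ
    obtain ⟨-, hxa, hxb, hbad⟩ := Finset.mem_filter.1 hξ
    unfold Good at hbad
    push Not at hbad
    obtain ⟨u, hu⟩ := hbad
    exact Finset.mem_biUnion.2 ⟨u, Finset.mem_univ _, Finset.mem_filter.2 ⟨Finset.mem_univ _, hxa, hxb, hu⟩⟩
  have h6 := (Finset.card_le_card h5).trans Finset.card_biUnion_le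
  have h7 : ((univ.filter (fun ξ : Fin s → Fin n => ξ a = x ∧ ξ b = y ∧ ¬ Good G ξ)).card : ℝ) ≤
      ∑ u : Fin s, ((univ.filter (fun ξ : Fin s → Fin n => ξ a = x ∧ ξ b = y ∧ (dg (G.comap ξ) u : ℝ) < 3 / 4 * s)).card : ℝ) := by
    exact_mod_cast h6
  refine h7.trans ((Finset.sum_le_sum fun u _ => hof_u G a b u hab x y h0 h1 hn hdeg hs6).trans ?_)
  rw [Finset.sum_const, nsmul_eq_mul, Finset.card_univ, Fintype.card_fin]
  have h8 : (0 : ℝ) ≤ (n : ℝ) ^ (s - 2) := by positivity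
  calc (s : ℝ) * ((n : ℝ) ^ (s - 2) * Real.exp (-(ep ^ 2 / 16 * (s - 3)))) =
      ((s : ℝ) * Real.exp (-(ep ^ 2 / 16 * (s - 3)))) * (n : ℝ) ^ (s - 2) := by ring
    _ ≤ e0 * (n : ℝ) ^ (s - 2) := mul_le_mul_of_nonneg_right hse h8

end
end Pool.Agent.APK
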