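import Pool.Agent.APK.HypDefs

/-!
# APK/HypC : codegrees of the tile hypergraph   (difficulty 3)

Only the density `om T ≤ C/n^ℓ` is used (and `om T ≠ 0 → T injective`), `1 - ga ≤ 1`, `ℓ = len i s ≤ K`, `t ≤ n`.
The number of `T : Fin ℓ → Fin n` with prescribed values at `r` distinct positions is `n^(ℓ-r)` (`r ≤ ℓ`), so the total
weight of these is `≤ C/n^r`; call this `(r)`.  Let `x ≠ y` be hypergraph vertices.
* both agents: no hyperedge contains both: `0`.
* agent `(i,s)` and `(i',v)`: hyperedges of the agent `(i,s)` only: `∑_j ∑_{T j = v} om T ≤ K C/n`.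
* agent `(i,s)` and the pair `s(u,v)`: `∑_j ∑_{T j ∈ {u,v}} ≤ 2 K C/n`.
* `(i,u)`, `(i',v)`: `0` if `i ≠ i'`; otherwise `u ≠ v`: `∑_s ∑_{j ≠ j'} ∑_{T j = u, T j' = v} ≤ n K² C/n²`.
* `(i,v)` and a pair `s(u,u')`: copy `i` is fixed: `∑_s ∑_j [T j, T (rot j) = u, u' or u', u] ≤ n · K · 2 · C/n²` (`j ≠ rot j`
  since `ℓ ≥ 3`).
* two different pairs `p ≠ p'`: for a tile `T` with `om T ≠ 0` and `s(T j, T (rot j)) = p`, `s(T j', T (rot j')) = p'`:
  `j ≠ j'`, and `{j, rot j} ≠ {j', rot j'}` (for `ℓ ≥ 3`; otherwise `p = p'`), so `{j, rot j, j', rot j'}` has at least three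
  elements, and the values of `T` at these positions are prescribed (4 choices of the orientations):
  `∑_{i,s} ∑_{j,j'} 4 C/n³ ≤ n² · K² · 4 C/n³ = 4 K² C/n`.
-/

set_option autoImplicit false
open Finset
open scoped Classical

namespace Pool.Agent.APK
noncomputable section

theorem hypc_cyl {ℓ n : ℕ} (hn : 1 ≤ n) (o : (Fin ℓ → Fin n) → ℝ) {C : ℝ} (hC : 0 ≤ C)
    (hd : ∀ T, o T ≤ C / (n:ℝ)^ℓ) (S : (Fin ℓ → Fin n) → Prop) [DecidablePred S]
    (P : Finset (Fin ℓ)) {r : ℕ}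
    (hr : r ≤ P.card)
    (h : ∀ T T', S T → S T' → ∀ j ∈ P, T j = T' j) :
    ∑ T, (if S T then o T else 0) ≤ C / (n:ℝ)^r := by
  have hn0 : (0:ℝ) < n := by exact_mod_cast hn
  have hn1 : (1:ℝ) ≤ n := by exact_mod_cast hn
  have hPl : P.card ≤ ℓ := by
    have := Finset.card_le_univ P
    simpa using this
  have hcard : ((univ.filter S).card : ℝ) ≤ (n:ℝ)^(ℓ - P.card) := by
    by_cases hne : (univ.filter S).Nonempty
    · obtain ⟨f, hf⟩ := hne
      have hsub : univ.filter S ⊆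
          Fintype.piFinset (fun j => if j ∈ P then {f j} else (univ : Finset (Fin n))) := by
        intro T hT
        rw [Fintype.mem_piFinset]
        intro j
        by_cases hj : j ∈ P
        · simp only [hj, if_true, mem_singleton]
          exact h T f (by simpa using hT) (by simpa using hf) j hj
        · simp [hj]
      have hc := Finset.card_le_card hsub
      rw [Fintype.card_piFinset] at hc
      have e1 : ∏ j : Fin ℓ, (if j ∈ P then {f j} else (univ : Finset (Fin n))).card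
          = n^(ℓ - P.card) := by
        have e2 : ∀ j : Fin ℓ, (if j ∈ P then {f j} else (univ : Finset (Fin n))).card
            = if j ∈ P then 1 else n := by
          intro j; split_ifs <;> simp
        rw [Finset.prod_congr rfl (fun j _ => e2 j), Finset.prod_ite, Finset.prod_const_one, one_mul,
          Finset.prod_const]
        congr 1
        have e3 : (univ.filter (fun j : Fin ℓ => j ∉ P)) = Pᶜ := by
          ext j; simp
        rw [e3, Finset.card_compl, Fintype.card_fin]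
      rw [e1] at hc
      exact_mod_cast hc
    · rw [Finset.not_nonempty_iff_eq_empty] at hne
      rw [hne]
      simp only [card_empty, Nat.cast_zero]
      positivity
  calc ∑ T, (if S T then o T else 0) = ∑ T ∈ univ.filter S, o T := by rw [Finset.sum_filter]
    _ ≤ ∑ T ∈ univ.filter S, C / (n:ℝ)^ℓ := Finset.sum_le_sum (fun T _ => hd T)
    _ = ((univ.filter S).card : ℝ) * (C / (n:ℝ)^ℓ) := by rw [Finset.sum_const, nsmul_eq_mul]
    _ ≤ (n:ℝ)^(ℓ - P.card) * (C / (n:ℝ)^ℓ) :=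
        mul_le_mul_of_nonneg_right hcard (by positivity)
    _ = C / (n:ℝ)^P.card := by
        have : (n:ℝ)^ℓ = (n:ℝ)^(ℓ - P.card) * (n:ℝ)^P.card := by
          rw [← pow_add, Nat.sub_add_cancel hPl]
        rw [this]
        field_simp
    _ ≤ C / (n:ℝ)^r :=
        div_le_div_of_nonneg_left hC (by positivity) (pow_le_pow_right₀ hn1 hr)

theorem hypc_union {ℓ n : ℕ} (o : (Fin ℓ → Fin n) → ℝ) (ho : ∀ T, 0 ≤ o T) {κ : Type} [Fintype κ]
    (Q : (Fin ℓ → Fin n) → Prop) (S : κ → (Fin ℓ → Fin n) → Prop)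
    [DecidablePred Q] [∀ k, DecidablePred (S k)]
    (hQ : ∀ T, Q T → ∃ k, S k T) {b : ℝ} (hS : ∀ k, ∑ T, (if S k T then o T else 0) ≤ b) :
    ∑ T, (if Q T then o T else 0) ≤ (Fintype.card κ : ℝ) * b := by
  calc ∑ T, (if Q T then o T else 0) ≤ ∑ T, ∑ k, (if S k T then o T else 0) := by
        refine Finset.sum_le_sum (fun T _ => ?_)
        by_cases hT : Q T
        · rw [if_pos hT]
          obtain ⟨k, hk⟩ := hQ T hT
          have h1 : (if S k T then o T else 0) ≤ ∑ k, (if S k T then o T else 0) :=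
            Finset.single_le_sum (f := fun k => if S k T then o T else 0)
              (fun k _ => by
                show 0 ≤ (if S k T then o T else 0)
                split_ifs
                · exact ho T
                · exact le_rfl) (mem_univ k)
          rw [if_pos hk] at h1
          exact h1
        · rw [if_neg hT]
          exact Finset.sum_nonneg (fun k _ => by
            split_ifs
            · exact ho T
            · exact le_rfl)
    _ = ∑ k, ∑ T, (if S k T then o T else 0) := Finset.sum_comm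
    _ ≤ ∑ _k : κ, b := Finset.sum_le_sum (fun k _ => hS k)
    _ = (Fintype.card κ : ℝ) * b := by rw [Finset.sum_const, nsmul_eq_mul, card_univ]

variable {t n K : ℕ} {π : Fin t → Equiv.Perm (Fin n)} {len : Fin t → Fin n → ℕ}
  {B R : SimpleGraph (Fin n)} {om : (ℓ : ℕ) → (Fin ℓ → Fin n) → ℝ} {ga C e D c : ℝ}

theorem hypc_comm (x y : HV t n) :
    Cod (hV len) (hW len om ga) x y = Cod (hV len) (hW len om ga) y x := by
  unfold Cod
  refine Finset.sum_congr rfl (fun i _ => ?_)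
  by_cases h : x ∈ hV len i ∧ y ∈ hV len i
  · rw [if_pos h, if_pos h.symm]
  · rw [if_neg h, if_neg (fun h' => h h'.symm)]

/-- the local bound: either the chunk is empty or the tile weights are used -/
theorem hypc_loc (h : App t n K π len B R om ga C e D c) (a : Fin t × Fin n)
    (Q : (Fin (len a.1 a.2) → Fin n) → Prop) [DecidablePred Q] {b : ℝ} (hb : 0 ≤ b)
    (hQ : 3 ≤ len a.1 a.2 → len a.1 a.2 ≤ K → ∑ T, (if Q T then om (len a.1 a.2) T else 0) ≤ b) :
    ∑ T, (if Q T then hW len om ga ⟨a, T⟩ else 0) ≤ b := by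
  by_cases h0 : len a.1 a.2 = 0
  · refine le_trans (le_of_eq ?_) hb
    refine Finset.sum_eq_zero (fun T _ => ?_)
    unfold hW
    rw [if_pos h0]
    simp
  · have h3 := (h.chunk a.1).ge a.2 h0
    have hK := (h.chunk a.1).le a.2
    refine le_trans (Finset.sum_le_sum (fun T _ => ?_)) (hQ h3 hK)
    by_cases hT : Q T
    · rw [if_pos hT, if_pos hT]
      unfold hW
      rw [if_neg h0]
      have h1 := (h.tile _ h3 hK).nonneg T
      have h2 := h.ga0
      show (1 - ga) * om (len a.1 a.2) T ≤ om (len a.1 a.2) T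
      nlinarith [mul_nonneg h2 h1]
    · rw [if_neg hT, if_neg hT]

theorem hypc_sigma (x y : HV t n) :
    Cod (hV len) (hW len om ga) x y
      = ∑ a : Fin t × Fin n, ∑ T : Fin (len a.1 a.2) → Fin n,
        (if x ∈ hV len ⟨a, T⟩ ∧ y ∈ hV len ⟨a, T⟩ then hW len om ga ⟨a, T⟩ else 0) := by
  unfold Cod
  rw [Fintype.sum_sigma]

theorem hypc_memA (a a' : Fin t × Fin n) (T : Fin (len a.1 a.2) → Fin n) :
    (Sum.inl a' : HV t n) ∈ hV len ⟨a, T⟩ ↔ a' = a := by
  unfold hV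
  simp

theorem hypc_memV (a : Fin t × Fin n) (T : Fin (len a.1 a.2) → Fin n) (i : Fin t) (v : Fin n) :
    (Sum.inr (Sum.inl (i, v)) : HV t n) ∈ hV len ⟨a, T⟩ ↔ a.1 = i ∧ ∃ j, T j = v := by
  unfold hV
  simp

theorem hypc_memP (a : Fin t × Fin n) (T : Fin (len a.1 a.2) → Fin n) (p : Sym2 (Fin n)) :
    (Sum.inr (Sum.inr p) : HV t n) ∈ hV len ⟨a, T⟩ ↔ ∃ j, s(T j, T (finRotate _ j)) = p := by
  unfold hV
  simp

/-- sum over the agents: at most one agent -/
theorem hypc_one (f : Fin t × Fin n → ℝ) (a0 : Fin t × Fin n) {b : ℝ} (h0 : ∀ a, a ≠ a0 → f a = 0)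
    (hb : f a0 ≤ b) : ∑ a, f a ≤ b := by
  rw [Finset.sum_eq_single a0 (fun a _ ha => h0 a ha) (fun h => absurd (mem_univ a0) h)]
  exact hb

/-- sum over the agents: one copy -/
theorem hypc_copy (f : Fin t × Fin n → ℝ) (i : Fin t) {b : ℝ}
    (h0 : ∀ a : Fin t × Fin n, a.1 ≠ i → f a = 0)
    (hb : ∀ a : Fin t × Fin n, a.1 = i → f a ≤ b) : ∑ a, f a ≤ n * b := by
  rw [Fintype.sum_prod_type]
  rw [Finset.sum_eq_single i (fun i' _ hi => Finset.sum_eq_zero (fun s _ => h0 (i', s) hi))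
    (fun h => absurd (mem_univ i) h)]
  calc ∑ s, f (i, s) ≤ ∑ _s : Fin n, b := Finset.sum_le_sum (fun s _ => hb (i, s) rfl)
    _ = n * b := by rw [Finset.sum_const, nsmul_eq_mul, card_univ, Fintype.card_fin]

/-- sum over the agents: all -/
theorem hypc_all (htn : t ≤ n) (f : Fin t × Fin n → ℝ) {b : ℝ} (hb0 : 0 ≤ b)
    (hb : ∀ a : Fin t × Fin n, f a ≤ b) : ∑ a, f a ≤ (n : ℝ) ^ 2 * b := by
  have htn' : (t : ℝ) ≤ n := by exact_mod_cast htn
  calc ∑ a, f a ≤ ∑ _a : Fin t × Fin n, b := Finset.sum_le_sum (fun a _ => hb a)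
    _ = (t * n : ℝ) * b := by
        rw [Finset.sum_const, nsmul_eq_mul, card_univ, Fintype.card_prod, Fintype.card_fin,
          Fintype.card_fin]
        push_cast
        ring
    _ ≤ (n : ℝ) ^ 2 * b := by
        refine mul_le_mul_of_nonneg_right ?_ hb0
        nlinarith [Nat.cast_nonneg (α := ℝ) n]

theorem hypc_rot_ne {ℓ : ℕ} (h : 3 ≤ ℓ) (j : Fin ℓ) : finRotate ℓ j ≠ j := by
  obtain ⟨m, rfl⟩ : ∃ m, ℓ = m + 1 := ⟨ℓ - 1, by omega⟩
  intro hj
  rw [finRotate_apply] at hj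
  have h1 : (1 : Fin (m + 1)) = 0 := by
    have := congrArg (fun z => z - j) hj
    simpa using this
  have h2 := congrArg Fin.val h1
  rw [Fin.val_one'] at h2
  rw [Nat.mod_eq_of_lt (by omega)] at h2
  simp at h2

theorem hypc_rot2_ne {ℓ : ℕ} (h : 3 ≤ ℓ) (j : Fin ℓ) : finRotate ℓ (finRotate ℓ j) ≠ j := by
  obtain ⟨m, rfl⟩ : ∃ m, ℓ = m + 1 := ⟨ℓ - 1, by omega⟩
  intro hj
  rw [finRotate_apply, finRotate_apply] at hj
  have h1 : (1 : Fin (m + 1)) + 1 = 0 := by
    have := congrArg (fun z => z - j) hj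
    simp only [sub_self] at this
    rw [← this]
    abel
  have h2 := congrArg Fin.val h1
  rw [Fin.val_add, Fin.val_one'] at h2
  rw [Nat.mod_eq_of_lt (show 1 < m + 1 by omega), Nat.mod_eq_of_lt (by omega)] at h2
  simp at h2

/-- one vertex -/
theorem hypc_b1 (hn : 1 ≤ n) {ℓ : ℕ} (hT : Tile B R ℓ (om ℓ) C e D c) (hC : 0 ≤ C) (hK : ℓ ≤ K)
    (v : Fin n) : ∑ T, (if ∃ j, T j = v then om ℓ T else 0) ≤ K * (C / n) := by
  have hn0 : (0:ℝ) < n := by exact_mod_cast hn
  refine le_trans (hypc_union (om ℓ) hT.nonneg (κ := Fin ℓ) (fun T => ∃ j, T j = v)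
    (fun j T => T j = v) (fun T h => h) (b := C / n) (fun j => ?_)) ?_
  · have := hypc_cyl hn (om ℓ) hC hT.dens (fun T => T j = v) {j} (r := 1) (by simp)
      (fun T T' h h' k hk => by
        rw [mem_singleton] at hk; subst hk; rw [h, h'])
    simpa using this
  · rw [Fintype.card_fin]
    refine mul_le_mul_of_nonneg_right ?_ (by positivity)
    exact_mod_cast hK

/-- one pair, one position -/
theorem hypc_b1p (hn : 1 ≤ n) {ℓ : ℕ} (hT : Tile B R ℓ (om ℓ) C e D c) (hC : 0 ≤ C) (hK : ℓ ≤ K)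
    (u v : Fin n) :
    ∑ T, (if ∃ j, s(T j, T (finRotate _ j)) = s(u, v) then om ℓ T else 0) ≤ 2 * K * (C / n) := by
  have hn0 : (0:ℝ) < n := by exact_mod_cast hn
  refine le_trans (hypc_union (om ℓ) hT.nonneg (κ := Fin ℓ × Bool)
    (fun T => ∃ j, s(T j, T (finRotate _ j)) = s(u, v))
    (fun jb T => T jb.1 = if jb.2 then u else v) ?_ (b := C / n) (fun jb => ?_)) ?_
  · rintro T ⟨j, hj⟩
    rw [Sym2.eq_iff] at hj
    rcases hj with hj | hj
    · exact ⟨(j, true), by simpa using hj.1⟩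
    · exact ⟨(j, false), by simpa using hj.1⟩
  · have := hypc_cyl hn (om ℓ) hC hT.dens (fun T => T jb.1 = if jb.2 then u else v) {jb.1} (r := 1)
      (by simp)
      (fun T T' h h' k hk => by
        rw [mem_singleton] at hk; subst hk; rw [h, h'])
    simpa using this
  · rw [Fintype.card_prod, Fintype.card_fin, Fintype.card_bool]
    refine mul_le_mul_of_nonneg_right ?_ (by positivity)
    push_cast
    have : (ℓ : ℝ) ≤ K := by exact_mod_cast hK
    linarith

/-- two vertices -/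
theorem hypc_b2 (hn : 1 ≤ n) {ℓ : ℕ} (hT : Tile B R ℓ (om ℓ) C e D c) (hC : 0 ≤ C) (hK : ℓ ≤ K)
    (u v : Fin n) (huv : u ≠ v) :
    ∑ T, (if (∃ j, T j = u) ∧ (∃ j, T j = v) then om ℓ T else 0) ≤ (K:ℝ) ^ 2 * (C / (n:ℝ) ^ 2) := by
  have hn0 : (0:ℝ) < n := by exact_mod_cast hn
  refine le_trans (hypc_union (om ℓ) hT.nonneg (κ := Fin ℓ × Fin ℓ)
    (fun T => (∃ j, T j = u) ∧ (∃ j, T j = v))
    (fun k T => T k.1 = u ∧ T k.2 = v) ?_ (b := C / (n:ℝ) ^ 2) (fun k => ?_)) ?_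
  · rintro T ⟨⟨j, hj⟩, ⟨j', hj'⟩⟩
    exact ⟨(j, j'), hj, hj'⟩
  · by_cases hk : k.1 = k.2
    · refine le_trans (le_of_eq (Finset.sum_eq_zero (fun T _ => ?_)))
        (show (0:ℝ) ≤ C / (n:ℝ) ^ 2 by positivity)
      rw [if_neg]
      rintro ⟨h1, h2⟩
      rw [hk] at h1
      exact huv (h1.symm.trans h2)
    · refine hypc_cyl hn (om ℓ) hC hT.dens (fun T => T k.1 = u ∧ T k.2 = v) {k.1, k.2} (r := 2)
        (by rw [Finset.card_pair hk]) ?_
      intro T T' h h' j hj
      rw [mem_insert, mem_singleton] at hj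
      rcases hj with hj | hj
      · rw [hj, h.1, h'.1]
      · rw [hj, h.2, h'.2]
  · rw [Fintype.card_prod, Fintype.card_fin]
    refine mul_le_mul_of_nonneg_right ?_ (by positivity)
    push_cast
    have : (ℓ : ℝ) ≤ K := by exact_mod_cast hK
    nlinarith [Nat.cast_nonneg (α := ℝ) ℓ]

/-- one pair, two positions -/
theorem hypc_b2p (hn : 1 ≤ n) {ℓ : ℕ} (h3 : 3 ≤ ℓ) (hT : Tile B R ℓ (om ℓ) C e D c) (hC : 0 ≤ C)
    (hK : ℓ ≤ K) (u v : Fin n) :
    ∑ T, (if ∃ j, s(T j, T (finRotate _ j)) = s(u, v) then om ℓ T else 0)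
      ≤ 2 * K * (C / (n:ℝ) ^ 2) := by
  have hn0 : (0:ℝ) < n := by exact_mod_cast hn
  refine le_trans (hypc_union (om ℓ) hT.nonneg (κ := Fin ℓ × Bool)
    (fun T => ∃ j, s(T j, T (finRotate _ j)) = s(u, v))
    (fun jb T => (T jb.1 = if jb.2 then u else v) ∧
      (T (finRotate _ jb.1) = if jb.2 then v else u)) ?_ (b := C / (n:ℝ) ^ 2) (fun jb => ?_)) ?_
  · rintro T ⟨j, hj⟩
    rw [Sym2.eq_iff] at hj
    rcases hj with hj | hj
    · exact ⟨(j, true), by simpa using hj⟩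
    · exact ⟨(j, false), by simpa using hj⟩
  · refine hypc_cyl hn (om ℓ) hC hT.dens _ {jb.1, finRotate _ jb.1} (r := 2)
      (by rw [Finset.card_pair (Ne.symm (hypc_rot_ne h3 jb.1))]) ?_
    intro T T' h h' j hj
    rw [mem_insert, mem_singleton] at hj
    rcases hj with hj | hj
    · rw [hj, h.1, h'.1]
    · rw [hj, h.2, h'.2]
  · rw [Fintype.card_prod, Fintype.card_fin, Fintype.card_bool]
    refine mul_le_mul_of_nonneg_right ?_ (by positivity)
    push_cast
    have : (ℓ : ℝ) ≤ K := by exact_mod_cast hK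
    linarith

/-- two pairs -/
theorem hypc_b3 (hn : 1 ≤ n) {ℓ : ℕ} (h3 : 3 ≤ ℓ) (hT : Tile B R ℓ (om ℓ) C e D c) (hC : 0 ≤ C)
    (hK : ℓ ≤ K) (u v u' v' : Fin n) (hp : s(u, v) ≠ s(u', v')) :
    ∑ T, (if (∃ j, s(T j, T (finRotate _ j)) = s(u, v)) ∧
      (∃ j, s(T j, T (finRotate _ j)) = s(u', v')) then om ℓ T else 0)
      ≤ 4 * (K:ℝ) ^ 2 * (C / (n:ℝ) ^ 3) := by
  have hn0 : (0:ℝ) < n := by exact_mod_cast hn
  refine le_trans (hypc_union (om ℓ) hT.nonneg (κ := (Fin ℓ × Bool) × (Fin ℓ × Bool))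
    (fun T => (∃ j, s(T j, T (finRotate _ j)) = s(u, v)) ∧
      (∃ j, s(T j, T (finRotate _ j)) = s(u', v')))
    (fun k T => ((T k.1.1 = if k.1.2 then u else v) ∧
      (T (finRotate _ k.1.1) = if k.1.2 then v else u)) ∧
      ((T k.2.1 = if k.2.2 then u' else v') ∧
      (T (finRotate _ k.2.1) = if k.2.2 then v' else u'))) ?_ (b := C / (n:ℝ) ^ 3) (fun k => ?_)) ?_
  · rintro T ⟨⟨j, hj⟩, ⟨j', hj'⟩⟩
    rw [Sym2.eq_iff] at hj hj'
    rcases hj with hj | hj
    · rcases hj' with hj' | hj'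
      · exact ⟨((j, true), (j', true)), by simpa using And.intro hj hj'⟩
      · exact ⟨((j, true), (j', false)), by simpa using And.intro hj hj'⟩
    · rcases hj' with hj' | hj'
      · exact ⟨((j, false), (j', true)), by simpa using And.intro hj hj'⟩
      · exact ⟨((j, false), (j', false)), by simpa using And.intro hj hj'⟩
  · obtain ⟨⟨j, b⟩, ⟨j', b'⟩⟩ := k
    dsimp only
    by_cases hk : j = j'
    · refine le_trans (le_of_eq (Finset.sum_eq_zero (fun T _ => ?_)))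
        (show (0:ℝ) ≤ C / (n:ℝ) ^ 3 by positivity)
      rw [if_neg]
      rintro ⟨⟨h1, h2⟩, h1', h2'⟩
      subst hk
      apply hp
      have e1 : s(T j, T (finRotate _ j)) = s(u, v) := by
        rw [h1, h2]
        cases b
        · simp [Sym2.eq_swap]
        · simp
      have e2 : s(T j, T (finRotate _ j)) = s(u', v') := by
        rw [h1', h2']
        cases b'
        · simp [Sym2.eq_swap]
        · simp
      rw [← e1, e2]
    · by_cases hr : j' = finRotate _ j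
      · refine hypc_cyl hn (om ℓ) hC hT.dens _ {j, j', finRotate _ j'} (r := 3) ?_ ?_
        · rw [Finset.card_eq_three.2 ⟨j, j', finRotate _ j', hk, ?_, ?_, rfl⟩]
          · rw [hr]; exact Ne.symm (hypc_rot2_ne h3 j)
          · exact Ne.symm (hypc_rot_ne h3 j')
        · intro T T' h h' i hi
          rw [mem_insert, mem_insert, mem_singleton] at hi
          rcases hi with hi | hi | hi
          · rw [hi, h.1.1, h'.1.1]
          · rw [hi, h.2.1, h'.2.1]
          · rw [hi, h.2.2, h'.2.2]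
      · refine hypc_cyl hn (om ℓ) hC hT.dens _ {j, finRotate _ j, j'} (r := 3) ?_ ?_
        · rw [Finset.card_eq_three.2 ⟨j, finRotate _ j, j', ?_, hk, ?_, rfl⟩]
          · exact Ne.symm (hypc_rot_ne h3 j)
          · exact Ne.symm hr
        · intro T T' h h' i hi
          rw [mem_insert, mem_insert, mem_singleton] at hi
          rcases hi with hi | hi | hi
          · rw [hi, h.1.1, h'.1.1]
          · rw [hi, h.1.2, h'.1.2]
          · rw [hi, h.2.1, h'.2.1]
  · rw [Fintype.card_prod, Fintype.card_prod, Fintype.card_fin, Fintype.card_bool]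
    refine mul_le_mul_of_nonneg_right ?_ (by positivity)
    push_cast
    have : (ℓ : ℝ) ≤ K := by exact_mod_cast hK
    nlinarith [Nat.cast_nonneg (α := ℝ) ℓ]

/-- agent and anything -/
theorem hypc_c1 (h : App t n K π len B R om ga C e D c) (a0 : Fin t × Fin n) (y : HV t n)
    (hxy : Sum.inl a0 ≠ y) :
    Cod (hV len) (hW len om ga) (Sum.inl a0) y ≤ 2 * K * (C / n) := by
  have hn0 : (0:ℝ) < n := by exact_mod_cast h.npos
  have hC : 0 ≤ C := le_trans zero_le_one h.C1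
  have hpos : (0:ℝ) ≤ 2 * K * (C / n) := by positivity
  have hpos' : (0:ℝ) ≤ K * (C / n) := by positivity
  rw [hypc_sigma]
  refine hypc_one _ a0 (fun a ha => ?_) ?_
  · refine Finset.sum_eq_zero (fun T _ => ?_)
    rw [if_neg]
    rintro ⟨h1, _⟩
    rw [hypc_memA] at h1
    exact ha h1.symm
  · refine hypc_loc h a0 _ hpos (fun h3 hK => ?_)
    rcases y with a1 | ⟨⟨i, v⟩ | p⟩
    · refine le_trans (le_of_eq (Finset.sum_eq_zero (fun T _ => ?_))) hpos
      rw [if_neg]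
      rintro ⟨_, h1⟩
      rw [hypc_memA] at h1
      exact hxy (by rw [h1])
    · refine le_trans (Finset.sum_le_sum (fun T _ => ?_)) (le_trans
        (hypc_b1 h.npos (h.tile _ h3 hK) hC hK v) (by linarith))
      have h0 := (h.tile _ h3 hK).nonneg T
      by_cases hT : (Sum.inl a0 : HV t n) ∈ hV len ⟨a0, T⟩ ∧
          (Sum.inr (Sum.inl (i, v)) : HV t n) ∈ hV len ⟨a0, T⟩
      · rw [if_pos hT, if_pos]
        exact ((hypc_memV _ _ _ _).1 hT.2).2
      · rw [if_neg hT]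
        split_ifs
        · exact h0
        · exact le_rfl
    · induction p using Sym2.ind with
      | _ u v =>
      refine le_trans (Finset.sum_le_sum (fun T _ => ?_))
        (hypc_b1p h.npos (h.tile _ h3 hK) hC hK u v)
      have h0 := (h.tile _ h3 hK).nonneg T
      by_cases hT : (Sum.inl a0 : HV t n) ∈ hV len ⟨a0, T⟩ ∧
          (Sum.inr (Sum.inr s(u, v)) : HV t n) ∈ hV len ⟨a0, T⟩
      · rw [if_pos hT, if_pos]
        exact (hypc_memP _ _ _).1 hT.2
      · rw [if_neg hT]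
        split_ifs
        · exact h0
        · exact le_rfl

theorem hypc_c2 (h : App t n K π len B R om ga C e D c) (i i' : Fin t) (u v : Fin n)
    (hxy : (i, u) ≠ (i', v)) :
    Cod (hV len) (hW len om ga) (Sum.inr (Sum.inl (i, u))) (Sum.inr (Sum.inl (i', v)))
      ≤ n * ((K:ℝ) ^ 2 * (C / (n:ℝ) ^ 2)) := by
  have hn0 : (0:ℝ) < n := by exact_mod_cast h.npos
  have hC : 0 ≤ C := le_trans zero_le_one h.C1
  have hpos : (0:ℝ) ≤ (K:ℝ) ^ 2 * (C / (n:ℝ) ^ 2) := by positivity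
  rw [hypc_sigma]
  refine hypc_copy _ i (fun a ha => ?_) (fun a ha => ?_)
  · refine Finset.sum_eq_zero (fun T _ => ?_)
    rw [if_neg]
    rintro ⟨h1, _⟩
    rw [hypc_memV] at h1
    exact ha h1.1
  · refine hypc_loc h a _ hpos (fun h3 hK => ?_)
    by_cases hi : i = i'
    · have huv : u ≠ v := fun huv => hxy (by rw [hi, huv])
      refine le_trans (Finset.sum_le_sum (fun T _ => ?_))
        (hypc_b2 h.npos (h.tile _ h3 hK) hC hK u v huv)
      have h0 := (h.tile _ h3 hK).nonneg T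
      by_cases hT : (Sum.inr (Sum.inl (i, u)) : HV t n) ∈ hV len ⟨a, T⟩ ∧
          (Sum.inr (Sum.inl (i', v)) : HV t n) ∈ hV len ⟨a, T⟩
      · rw [if_pos hT, if_pos]
        exact ⟨((hypc_memV _ _ _ _).1 hT.1).2, ((hypc_memV _ _ _ _).1 hT.2).2⟩
      · rw [if_neg hT]
        split_ifs
        · exact h0
        · exact le_rfl
    · refine le_trans (le_of_eq (Finset.sum_eq_zero (fun T _ => ?_))) hpos
      rw [if_neg]
      rintro ⟨h1, h2⟩
      rw [hypc_memV] at h1 h2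
      exact hi (h1.1.symm.trans h2.1)

theorem hypc_c3 (h : App t n K π len B R om ga C e D c) (i : Fin t) (v : Fin n) (p : Sym2 (Fin n)) :
    Cod (hV len) (hW len om ga) (Sum.inr (Sum.inl (i, v))) (Sum.inr (Sum.inr p))
      ≤ n * (2 * K * (C / (n:ℝ) ^ 2)) := by
  have hn0 : (0:ℝ) < n := by exact_mod_cast h.npos
  have hC : 0 ≤ C := le_trans zero_le_one h.C1
  have hpos : (0:ℝ) ≤ 2 * K * (C / (n:ℝ) ^ 2) := by positivity
  induction p using Sym2.ind with
  | _ u u' =>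
  rw [hypc_sigma]
  refine hypc_copy _ i (fun a ha => ?_) (fun a ha => ?_)
  · refine Finset.sum_eq_zero (fun T _ => ?_)
    rw [if_neg]
    rintro ⟨h1, _⟩
    rw [hypc_memV] at h1
    exact ha h1.1
  · refine hypc_loc h a _ hpos (fun h3 hK => ?_)
    refine le_trans (Finset.sum_le_sum (fun T _ => ?_))
      (hypc_b2p h.npos h3 (h.tile _ h3 hK) hC hK u u')
    have h0 := (h.tile _ h3 hK).nonneg T
    by_cases hT : (Sum.inr (Sum.inl (i, v)) : HV t n) ∈ hV len ⟨a, T⟩ ∧
        (Sum.inr (Sum.inr s(u, u')) : HV t n) ∈ hV len ⟨a, T⟩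
    · rw [if_pos hT, if_pos]
      exact (hypc_memP _ _ _).1 hT.2
    · rw [if_neg hT]
      split_ifs
      · exact h0
      · exact le_rfl

theorem hypc_c4 (h : App t n K π len B R om ga C e D c) (p p' : Sym2 (Fin n)) (hp : p ≠ p') :
    Cod (hV len) (hW len om ga) (Sum.inr (Sum.inr p)) (Sum.inr (Sum.inr p'))
      ≤ (n:ℝ) ^ 2 * (4 * (K:ℝ) ^ 2 * (C / (n:ℝ) ^ 3)) := by
  have hn0 : (0:ℝ) < n := by exact_mod_cast h.npos
  have hC : 0 ≤ C := le_trans zero_le_one h.C1
  have hpos : (0:ℝ) ≤ 4 * (K:ℝ) ^ 2 * (C / (n:ℝ) ^ 3) := by positivity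
  induction p using Sym2.ind with
  | _ u v =>
  induction p' using Sym2.ind with
  | _ u' v' =>
  rw [hypc_sigma]
  refine hypc_all h.tn _ hpos (fun a => ?_)
  refine hypc_loc h a _ hpos (fun h3 hK => ?_)
  refine le_trans (Finset.sum_le_sum (fun T _ => ?_))
    (hypc_b3 h.npos h3 (h.tile _ h3 hK) hC hK u v u' v' hp)
  have h0 := (h.tile _ h3 hK).nonneg T
  by_cases hT : (Sum.inr (Sum.inr s(u, v)) : HV t n) ∈ hV len ⟨a, T⟩ ∧
      (Sum.inr (Sum.inr s(u', v')) : HV t n) ∈ hV len ⟨a, T⟩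
  · rw [if_pos hT, if_pos]
    exact ⟨(hypc_memP _ _ _).1 hT.1, (hypc_memP _ _ _).1 hT.2⟩
  · rw [if_neg hT]
    split_ifs
    · exact h0
    · exact le_rfl

theorem hCod (h : App t n K π len B R om ga C e D c) (x y : HV t n) (hxy : x ≠ y) :
    Cod (hV len) (hW len om ga) x y ≤ 4 * K ^ 2 * C / n := by
  have hn0 : (0:ℝ) < n := by exact_mod_cast h.npos
  have hC : 0 ≤ C := le_trans zero_le_one h.C1
  have hK1 : (1:ℝ) ≤ K := by
    have := h.K3
    have : (1:ℕ) ≤ K := by omega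
    exact_mod_cast this
  have hCn : 0 ≤ C / n := by positivity
  have hbig1 : 2 * (K:ℝ) * (C / n) ≤ 4 * K ^ 2 * C / n := by
    have : 4 * (K:ℝ) ^ 2 * C / n = 4 * (K:ℝ) ^ 2 * (C / n) := by ring
    rw [this]
    refine mul_le_mul_of_nonneg_right ?_ hCn
    nlinarith
  have hbig2 : (n:ℝ) * ((K:ℝ) ^ 2 * (C / (n:ℝ) ^ 2)) ≤ 4 * K ^ 2 * C / n := by
    have e1 : 4 * (K:ℝ) ^ 2 * C / n = 4 * (K:ℝ) ^ 2 * (C / n) := by ring
    have e2 : (n:ℝ) * ((K:ℝ) ^ 2 * (C / (n:ℝ) ^ 2)) = (K:ℝ) ^ 2 * (C / n) := by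
      field_simp
    rw [e1, e2]
    refine mul_le_mul_of_nonneg_right ?_ hCn
    nlinarith
  have hbig3 : (n:ℝ) * (2 * K * (C / (n:ℝ) ^ 2)) ≤ 4 * K ^ 2 * C / n := by
    have e2 : (n:ℝ) * (2 * K * (C / (n:ℝ) ^ 2)) = 2 * K * (C / n) := by
      field_simp
    rw [e2]
    exact hbig1
  have hbig4 : (n:ℝ) ^ 2 * (4 * (K:ℝ) ^ 2 * (C / (n:ℝ) ^ 3)) ≤ 4 * K ^ 2 * C / n := by
    refine le_of_eq ?_
    field_simp
  rcases x with a | ⟨⟨i, u⟩ | p⟩
  · exact le_trans (hypc_c1 h a y hxy) hbig1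
  · rcases y with a' | ⟨⟨i', u'⟩ | p'⟩
    · rw [hypc_comm]
      exact le_trans (hypc_c1 h a' _ (Ne.symm hxy)) hbig1
    · exact le_trans (hypc_c2 h i i' u u' (fun hh => hxy (by rw [hh]))) hbig2
    · exact le_trans (hypc_c3 h i u p') hbig3
  · rcases y with a' | ⟨⟨i', u'⟩ | p'⟩
    · rw [hypc_comm]
      exact le_trans (hypc_c1 h a' _ (Ne.symm hxy)) hbig1
    · rw [hypc_comm]
      exact le_trans (hypc_c3 h i' u' p) hbig3
    · exact le_trans (hypc_c4 h p p' (fun hh => hxy (by rw [hh]))) hbig4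

end
end Pool.Agent.APK
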