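import Pool.Agent.APK.HypDefs

/-!
# APK/HypD : degrees of the tile hypergraph   (difficulty 3)

All sums over `HE` are split as `∑_{(i,s)} ∑_T` (`Fintype.sum_sigma`).  For `len i s ≠ 0` we have `3 ≤ len i s ≤ K`, so
`om (len i s)` is a `Tile`; for `len i s = 0` the weight is `0`.  `∑_s len i s ≤ n` because the positions
`(π i)^a s` (`a < len i s`) are distinct (`Chunks.inj`).
* `hV_ne`: contains the agent.  `hV_card`: `1 + ℓ + ℓ ≤ 2K + 1`.
* `hW_nonneg`.
* `hDeg` at the agent `(i,s)`: `∑_T (1-ga) om T ≤ 1` (`total_le`).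
  At `(i,v)`: `∑_s ∑_T [∃ j, T j = v] (1-ga) om T ≤ (1-ga) ∑_s ∑_j ∑_{T j = v} om T ≤ (1-ga)(∑_s len i s)(1+e)/n ≤ 1`.
  At `s(u,v)`: `T j, T (rot j)` is `(u,v)` or `(v,u)`: `≤ (1-ga) ∑_i ∑_s ∑_j 2 (1+e)/(n D) ≤ (1-ga) t n 2 (1+e)/(n D) ≤ 1`.
  (`Sym2.ind`/`Sym2.eq_iff`.)
-/

set_option autoImplicit false
open Finset
open scoped Classical

namespace Pool.Agent.APK
noncomputable section

variable {t n K : ℕ} {π : Fin t → Equiv.Perm (Fin n)} {len : Fin t → Fin n → ℕ}
  {B R : SimpleGraph (Fin n)} {om : (ℓ : ℕ) → (Fin ℓ → Fin n) → ℝ} {ga C e D c : ℝ}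

theorem hV_ne (x : HE t n len) : (hV len x).Nonempty :=
  ⟨Sum.inl x.1, by simp [hV]⟩

theorem hV_card (h : App t n K π len B R om ga C e D c) (x : HE t n len) :
    (hV len x).card ≤ 2 * K + 1 := by
  have h1 : len x.1.1 x.1.2 ≤ K := (h.chunk x.1.1).le x.1.2
  have h2 : (univ.image (fun j : Fin (len x.1.1 x.1.2) =>
      (Sum.inr (Sum.inl (x.1.1, x.2 j)) : HV t n))).card ≤ len x.1.1 x.1.2 := by
    refine Finset.card_image_le.trans ?_
    simp
  have h3 : (univ.image (fun j : Fin (len x.1.1 x.1.2) =>
      (Sum.inr (Sum.inr s(x.2 j, x.2 (finRotate _ j))) : HV t n))).card ≤ len x.1.1 x.1.2 := by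
    refine Finset.card_image_le.trans ?_
    simp
  unfold hV
  refine (Finset.card_union_le _ _).trans ?_
  have h4 := Finset.card_union_le ({Sum.inl x.1} : Finset (HV t n))
    (univ.image (fun j : Fin (len x.1.1 x.1.2) => (Sum.inr (Sum.inl (x.1.1, x.2 j)) : HV t n)))
  have h5 : ({Sum.inl x.1} : Finset (HV t n)).card = 1 := Finset.card_singleton _
  omega

private theorem hypd_tile (h : App t n K π len B R om ga C e D c) {i : Fin t} {s : Fin n}
    (h0 : len i s ≠ 0) : Tile B R (len i s) (om (len i s)) C e D c :=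
  h.tile _ ((h.chunk i).ge s h0) ((h.chunk i).le s)

theorem hW_nonneg (h : App t n K π len B R om ga C e D c) (x : HE t n len) : 0 ≤ hW len om ga x := by
  unfold hW
  split_ifs with h0
  · exact le_rfl
  · exact mul_nonneg (sub_nonneg.2 h.ga1) ((hypd_tile h h0).nonneg _)

private theorem hypd_len_sum (h : App t n K π len B R om ga C e D c) (i : Fin t) :
    ∑ s, (len i s : ℝ) ≤ n := by
  have h1 : Fintype.card (Σ s : Fin n, Fin (len i s)) ≤ Fintype.card (Fin n) := by
    refine Fintype.card_le_of_injective (fun x => ((π i) ^ (x.2 : ℕ)) x.1) ?_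
    rintro ⟨s, a⟩ ⟨s', a'⟩ hx
    obtain ⟨h2, h3⟩ := (h.chunk i).inj s s' a a' a.2 a'.2 hx
    subst h2
    have : a = a' := Fin.ext h3
    rw [this]
  rw [Fintype.card_sigma, Fintype.card_fin] at h1
  simp only [Fintype.card_fin] at h1
  exact_mod_cast h1

private theorem hypd_split (f : HE t n len → ℝ) :
    ∑ x, f x = ∑ i, ∑ s, ∑ T : Fin (len i s) → Fin n, f ⟨(i, s), T⟩ := by
  rw [Fintype.sum_sigma, Fintype.sum_prod_type]

private theorem hypd_agent (h : App t n K π len B R om ga C e D c) (i : Fin t) (s : Fin n)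
    (P : (Fin (len i s) → Fin n) → Prop) [∀ T, Decidable (P T)]
    (Q : Fin (len i s) → (Fin (len i s) → Fin n) → Prop) [∀ j T, Decidable (Q j T)]
    (hPQ : ∀ T, P T → ∃ j, Q j T) {b : ℝ} (hb : len i s ≠ 0 → ∀ j, ∑ T, (if Q j T then om (len i s) T else 0) ≤ b) :
    ∑ T : Fin (len i s) → Fin n, (if P T then hW len om ga ⟨(i, s), T⟩ else 0) ≤
      (len i s : ℝ) * ((1 - ga) * b) := by
  by_cases h0 : len i s = 0
  · have h1 : ∀ T : Fin (len i s) → Fin n,
        (if P T then hW len om ga (⟨(i, s), T⟩ : HE t n len) else 0) = 0 := by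
      intro T
      have : hW len om ga (⟨(i, s), T⟩ : HE t n len) = 0 := by
        unfold hW
        rw [if_pos h0]
      rw [this, ite_self]
    rw [Finset.sum_congr rfl (fun T _ => h1 T), Finset.sum_const_zero]
    have h2 : (len i s : ℝ) = 0 := by exact_mod_cast h0
    rw [h2, zero_mul]
  · have ht := hypd_tile h h0
    have hg : 0 ≤ 1 - ga := sub_nonneg.2 h.ga1
    have hw : ∀ T : Fin (len i s) → Fin n,
        hW len om ga (⟨(i, s), T⟩ : HE t n len) = (1 - ga) * om (len i s) T := by
      intro T
      unfold hW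
      rw [if_neg h0]
    calc ∑ T : Fin (len i s) → Fin n, (if P T then hW len om ga ⟨(i, s), T⟩ else 0)
        ≤ ∑ T : Fin (len i s) → Fin n, ∑ j, (if Q j T then (1 - ga) * om (len i s) T else 0) := by
          refine Finset.sum_le_sum (fun T _ => ?_)
          have hnn : ∀ j ∈ (univ : Finset (Fin (len i s))),
              0 ≤ (if Q j T then (1 - ga) * om (len i s) T else 0) := by
            intro j _
            split_ifs
            · exact mul_nonneg hg (ht.nonneg T)
            · exact le_rfl
          by_cases hP : P T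
          · obtain ⟨j, hj⟩ := hPQ T hP
            rw [if_pos hP, hw]
            have := Finset.single_le_sum hnn (Finset.mem_univ j)
            rw [if_pos hj] at this
            exact this
          · rw [if_neg hP]
            exact Finset.sum_nonneg hnn
      _ = ∑ j, ∑ T : Fin (len i s) → Fin n, (if Q j T then (1 - ga) * om (len i s) T else 0) :=
          Finset.sum_comm
      _ ≤ ∑ _j : Fin (len i s), (1 - ga) * b := by
          refine Finset.sum_le_sum (fun j _ => ?_)
          have h3 : ∑ T : Fin (len i s) → Fin n, (if Q j T then (1 - ga) * om (len i s) T else 0) =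
              (1 - ga) * ∑ T : Fin (len i s) → Fin n, (if Q j T then om (len i s) T else 0) := by
            rw [Finset.mul_sum]
            refine Finset.sum_congr rfl (fun T _ => ?_)
            rw [mul_ite, mul_zero]
          rw [h3]
          exact mul_le_mul_of_nonneg_left (hb h0 j) hg
      _ = (len i s : ℝ) * ((1 - ga) * b) := by
          rw [Finset.sum_const, Finset.card_univ, Fintype.card_fin, nsmul_eq_mul]

theorem hDeg (h : App t n K π len B R om ga C e D c) (x : HV t n) :
    Deg (hV len) (hW len om ga) x ≤ 1 := by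
  have hg : 0 ≤ 1 - ga := sub_nonneg.2 h.ga1
  have hn : (0 : ℝ) < n := by exact_mod_cast h.npos
  have he : 0 ≤ 1 + e := by linarith [h.e0]
  unfold Deg
  rw [hypd_split]
  rcases x with ⟨i, s⟩ | ⟨i, v⟩ | z
  · -- the agent
    have hmem : ∀ (i' : Fin t) (s' : Fin n) (T : Fin (len i' s') → Fin n),
        ((Sum.inl (i, s) : HV t n) ∈ hV len ⟨(i', s'), T⟩) ↔ (i', s') = (i, s) := by
      intro i' s' T
      simp only [hV, Finset.mem_union, Finset.mem_singleton, Finset.mem_image, Finset.mem_univ, true_and,
        Sum.inl.injEq, reduceCtorEq, exists_false, or_false]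
      exact eq_comm
    have h1 : ∀ (i' : Fin t) (s' : Fin n), (∑ T : Fin (len i' s') → Fin n,
        (if (Sum.inl (i, s) : HV t n) ∈ hV len ⟨(i', s'), T⟩ then hW len om ga ⟨(i', s'), T⟩ else 0)) =
        if (i', s') = (i, s) then ∑ T : Fin (len i' s') → Fin n, hW len om ga ⟨(i', s'), T⟩ else 0 := by
      intro i' s'
      split_ifs with hc
      · exact Finset.sum_congr rfl (fun T _ => if_pos ((hmem i' s' T).2 hc))
      · exact Finset.sum_eq_zero (fun T _ => if_neg (fun h' => hc ((hmem i' s' T).1 h')))
    have h2 : ∑ T : Fin (len i s) → Fin n, hW len om ga ⟨(i, s), T⟩ ≤ 1 := by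
      by_cases h0 : len i s = 0
      · have : ∀ T : Fin (len i s) → Fin n, hW len om ga (⟨(i, s), T⟩ : HE t n len) = 0 := by
          intro T
          unfold hW
          rw [if_pos h0]
        rw [Finset.sum_congr rfl (fun T _ => this T), Finset.sum_const_zero]
        exact zero_le_one
      · have : ∀ T : Fin (len i s) → Fin n,
            hW len om ga (⟨(i, s), T⟩ : HE t n len) = (1 - ga) * om (len i s) T := by
          intro T
          unfold hW
          rw [if_neg h0]
        rw [Finset.sum_congr rfl (fun T _ => this T), ← Finset.mul_sum]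
        have h3 := (hypd_tile h h0).total_le
        have h4 := mul_le_mul_of_nonneg_left h3 hg
        have h5 := h.ga0
        linarith
    calc _ = ∑ i', ∑ s', (if (i', s') = (i, s) then
          ∑ T : Fin (len i' s') → Fin n, hW len om ga ⟨(i', s'), T⟩ else 0) :=
          Finset.sum_congr rfl (fun i' _ => Finset.sum_congr rfl (fun s' _ => h1 i' s'))
      _ = ∑ T : Fin (len i s) → Fin n, hW len om ga ⟨(i, s), T⟩ := by
          rw [Finset.sum_eq_single i, Finset.sum_eq_single s]
          · rw [if_pos rfl]
          · intro s' _ hs'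
            rw [if_neg]
            intro hc
            exact hs' (Prod.mk.inj hc).2
          · intro hc
            exact absurd (Finset.mem_univ _) hc
          · intro i' _ hi'
            refine Finset.sum_eq_zero (fun s' _ => ?_)
            rw [if_neg]
            intro hc
            exact hi' (Prod.mk.inj hc).1
          · intro hc
            exact absurd (Finset.mem_univ _) hc
      _ ≤ 1 := h2
  · -- a vertex of a copy
    have hmem : ∀ (i' : Fin t) (s' : Fin n) (T : Fin (len i' s') → Fin n),
        ((Sum.inr (Sum.inl (i, v)) : HV t n) ∈ hV len ⟨(i', s'), T⟩) ↔ i' = i ∧ ∃ j, T j = v := by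
      intro i' s' T
      simp only [hV, Finset.mem_union, Finset.mem_singleton, Finset.mem_image, Finset.mem_univ, true_and,
        Sum.inr.injEq, Sum.inl.injEq, reduceCtorEq, exists_false, or_false, false_or, Prod.mk.injEq,
        exists_and_left]
    have h1 : ∀ (i' : Fin t) (s' : Fin n), (∑ T : Fin (len i' s') → Fin n,
        (if (Sum.inr (Sum.inl (i, v)) : HV t n) ∈ hV len ⟨(i', s'), T⟩ then
          hW len om ga ⟨(i', s'), T⟩ else 0)) ≤
        if i' = i then (len i' s' : ℝ) * ((1 - ga) * ((1 + e) / n)) else 0 := by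
      intro i' s'
      split_ifs with hc
      · refine hypd_agent h i' s' (fun T => (Sum.inr (Sum.inl (i, v)) : HV t n) ∈ hV len ⟨(i', s'), T⟩)
          (fun j T => T j = v) ?_ ?_
        · intro T hT
          exact ((hmem i' s' T).1 hT).2
        · intro h0 j
          exact (hypd_tile h h0).marg_le j v
      · exact (Finset.sum_eq_zero (fun T _ => if_neg (fun h' => hc ((hmem i' s' T).1 h').1))).le
    calc _ ≤ ∑ i', ∑ s', (if i' = i then (len i' s' : ℝ) * ((1 - ga) * ((1 + e) / n)) else 0) :=
          Finset.sum_le_sum (fun i' _ => Finset.sum_le_sum (fun s' _ => h1 i' s'))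
      _ = ∑ s', (len i s' : ℝ) * ((1 - ga) * ((1 + e) / n)) := by
          rw [Finset.sum_eq_single i]
          · refine Finset.sum_congr rfl (fun s' _ => ?_)
            rw [if_pos rfl]
          · intro i' _ hi'
            exact Finset.sum_eq_zero (fun s' _ => if_neg hi')
          · intro hc
            exact absurd (Finset.mem_univ _) hc
      _ = (∑ s', (len i s' : ℝ)) * ((1 - ga) * ((1 + e) / n)) := (Finset.sum_mul _ _ _).symm
      _ ≤ (n : ℝ) * ((1 - ga) * ((1 + e) / n)) :=
          mul_le_mul_of_nonneg_right (hypd_len_sum h i) (mul_nonneg hg (div_nonneg he hn.le))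
      _ = (1 - ga) * (1 + e) := by field_simp
      _ ≤ 1 := h.vert
  · -- a pair
    induction z using Sym2.ind with
    | _ u v =>
    have h1 : ∀ (i' : Fin t) (s' : Fin n), (∑ T : Fin (len i' s') → Fin n,
        (if (Sum.inr (Sum.inr s(u, v)) : HV t n) ∈ hV len ⟨(i', s'), T⟩ then
          hW len om ga ⟨(i', s'), T⟩ else 0)) ≤
        (len i' s' : ℝ) * ((1 - ga) * (2 * ((1 + e) / (n * D)))) := by
      intro i' s'
      refine hypd_agent h i' s' (fun T => (Sum.inr (Sum.inr s(u, v)) : HV t n) ∈ hV len ⟨(i', s'), T⟩)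
        (fun j T => (T j = u ∧ T (finRotate _ j) = v) ∨
        (T j = v ∧ T (finRotate _ j) = u)) ?_ ?_
      · intro T hT
        simp only [hV, Finset.mem_union, Finset.mem_singleton, Finset.mem_image, Finset.mem_univ,
          true_and, Sum.inr.injEq, reduceCtorEq, exists_false, or_false, false_or] at hT
        obtain ⟨j, hj⟩ := hT
        exact ⟨j, by simpa [Sym2.eq_iff] using hj⟩
      · intro h0 j
        have h2 := (hypd_tile h h0).pair_le j u v
        have h3 := (hypd_tile h h0).pair_le j v u
        calc ∑ T : Fin (len i' s') → Fin n, (if (T j = u ∧ T (finRotate _ j) = v) ∨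
              (T j = v ∧ T (finRotate _ j) = u) then om (len i' s') T else 0)
            ≤ ∑ T : Fin (len i' s') → Fin n,
                ((if T j = u ∧ T (finRotate _ j) = v then om (len i' s') T else 0) +
                (if T j = v ∧ T (finRotate _ j) = u then om (len i' s') T else 0)) := by
              refine Finset.sum_le_sum (fun T _ => ?_)
              have hnn := (hypd_tile h h0).nonneg T
              by_cases ha : T j = u ∧ T (finRotate _ j) = v
              · rw [if_pos (Or.inl ha), if_pos ha]
                have : 0 ≤ (if T j = v ∧ T (finRotate _ j) = u then om (len i' s') T else 0) := by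
                  split_ifs
                  · exact hnn
                  · exact le_rfl
                linarith
              · by_cases hb : T j = v ∧ T (finRotate _ j) = u
                · rw [if_pos (Or.inr hb), if_neg ha, if_pos hb, zero_add]
                · rw [if_neg (fun h' => h'.elim ha hb), if_neg ha, if_neg hb, add_zero]
          _ ≤ 2 * ((1 + e) / (n * D)) := by
              rw [Finset.sum_add_distrib]
              linarith
    have hb0 : 0 ≤ (1 - ga) * (2 * ((1 + e) / (n * D))) :=
      mul_nonneg hg (mul_nonneg zero_le_two (div_nonneg he (mul_pos hn h.Dpos).le))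
    calc _ ≤ ∑ i', ∑ s', (len i' s' : ℝ) * ((1 - ga) * (2 * ((1 + e) / (n * D)))) :=
          Finset.sum_le_sum (fun i' _ => Finset.sum_le_sum (fun s' _ => h1 i' s'))
      _ ≤ ∑ _i' : Fin t, (n : ℝ) * ((1 - ga) * (2 * ((1 + e) / (n * D)))) := by
          refine Finset.sum_le_sum (fun i' _ => ?_)
          rw [← Finset.sum_mul]
          exact mul_le_mul_of_nonneg_right (hypd_len_sum h i') hb0
      _ = ((1 - ga) * (1 + e) * (2 * t)) / D := by
          rw [Finset.sum_const, Finset.card_univ, Fintype.card_fin, nsmul_eq_mul]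
          have := h.Dpos.ne'
          field_simp
      _ ≤ 1 := (div_le_one h.Dpos).2 h.edge

end
end Pool.Agent.APK
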