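import Pool.Agent.APK.GDefs
import Pool.Agent.APK.HDefs

/-!
# APK/HypDefs : the hypergraph of the tiles (definitions only)

Agents are the pairs `(i, s) : Fin t × Fin n` (`s` the start of a chunk of the `i`-th permutation).
Hypergraph vertices: agents, pairs `(i, v)` (vertex `v` of the host in the `i`-th copy), pairs of vertices.
A hyperedge is an agent `(i, s)` with a tuple `T : Fin (len i s) → Fin n`.
-/

set_option autoImplicit false
open Finset
open scoped Classical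

namespace Pool.Agent.APK
noncomputable section

/-- vertices of the hypergraph -/
abbrev HV (t n : ℕ) := (Fin t × Fin n) ⊕ (Fin t × Fin n) ⊕ Sym2 (Fin n)

/-- edges of the hypergraph -/
abbrev HE (t n : ℕ) (len : Fin t → Fin n → ℕ) := (a : Fin t × Fin n) × (Fin (len a.1 a.2) → Fin n)

/-- the set of vertices of a hyperedge -/
def hV {t n : ℕ} (len : Fin t → Fin n → ℕ) (e : HE t n len) : Finset (HV t n) :=
  {Sum.inl e.1} ∪ univ.image (fun j => Sum.inr (Sum.inl (e.1.1, e.2 j)))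
    ∪ univ.image (fun j => Sum.inr (Sum.inr s(e.2 j, e.2 (finRotate _ j))))

/-- the weight of a hyperedge -/
def hW {t n : ℕ} (len : Fin t → Fin n → ℕ) (om : (ℓ : ℕ) → (Fin ℓ → Fin n) → ℝ) (ga : ℝ) (e : HE t n len) :
    ℝ :=
  if len e.1.1 e.1.2 = 0 then 0 else (1 - ga) * om (len e.1.1 e.1.2) e.2

/-- the standing hypotheses -/
structure App (t n K : ℕ) (π : Fin t → Equiv.Perm (Fin n)) (len : Fin t → Fin n → ℕ)
    (B R : SimpleGraph (Fin n)) (om : (ℓ : ℕ) → (Fin ℓ → Fin n) → ℝ) (ga C e D c : ℝ) : Prop where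
  npos : 1 ≤ n
  tn : t ≤ n
  K3 : 3 ≤ K
  chunk : ∀ i, Chunks K (π i) (len i)
  tile : ∀ ℓ, 3 ≤ ℓ → ℓ ≤ K → Tile B R ℓ (om ℓ) C e D c
  ga0 : 0 ≤ ga
  ga1 : ga ≤ 1
  C1 : 1 ≤ C
  e0 : 0 ≤ e
  e1 : e ≤ 1
  Dpos : 0 < D
  vert : (1 - ga) * (1 + e) ≤ 1
  edge : (1 - ga) * (1 + e) * (2 * t) ≤ D

/-- first tests: the hyperedge places `v` at an inner position -/
def gA {t n : ℕ} (π : Fin t → Equiv.Perm (Fin n)) (len : Fin t → Fin n → ℕ) (v : Fin n) (e : HE t n len) :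
    ℝ :=
  if ∃ j : Fin (len e.1.1 e.1.2), Inn (π e.1.1) (len e.1.1) e.1.2 j.val ∧ e.2 j = v then 1 else 0

/-- second tests: number of positions placed in copy `i`, divided by `K` -/
def gB {t n : ℕ} (len : Fin t → Fin n → ℕ) (K : ℕ) (i : Fin t) (e : HE t n len) : ℝ :=
  if e.1.1 = i then (len e.1.1 e.1.2 : ℝ) / K else 0

/-- third tests: number of inner positions `≠ 0` of copy `i` with the pattern `(x, y, z)`, divided by `K` -/
def gC {t n : ℕ} (π : Fin t → Equiv.Perm (Fin n)) (len : Fin t → Fin n → ℕ) (K : ℕ)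
    (R : SimpleGraph (Fin n)) (i : Fin t) (x y z : Fin n) (e : HE t n len) : ℝ :=
  if e.1.1 = i then ((univ.filter (fun j : Fin (len e.1.1 e.1.2) => j.val ≠ 0 ∧
    Inn (π e.1.1) (len e.1.1) e.1.2 j.val ∧ R.Adj y (e.2 j) ∧ R.Adj z (e.2 j) ∧
    R.Adj x (e.2 ((finRotate _).symm j)) ∧ R.Adj x (e.2 (finRotate _ j)))).card : ℝ) / K else 0

/-- position `p` is inner with respect to the placed positions `Dm` -/
def InD {n : ℕ} (π : Equiv.Perm (Fin n)) (Dm : Finset (Fin n)) (p : Fin n) : Prop :=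
  p ∈ Dm ∧ π p ∈ Dm ∧ π⁻¹ p ∈ Dm

/-- the partial embeddings given by the nibble -/
structure FLin (t n : ℕ) (π : Fin t → Equiv.Perm (Fin n)) (B R : SimpleGraph (Fin n))
    (φ : Fin t → Fin n → Fin n) (Dm : Fin t → Finset (Fin n)) (lam c1 : ℝ) : Prop where
  inj : ∀ i, Set.InjOn (φ i) (Dm i)
  adj : ∀ i p, p ∈ Dm i → π i p ∈ Dm i → B.Adj (φ i p) (φ i (π i p))
  dis : ∀ i j p r, p ∈ Dm i → π i p ∈ Dm i → r ∈ Dm j → π j r ∈ Dm j →
    s(φ i p, φ i (π i p)) = s(φ j r, φ j (π j r)) → i = j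
  small : ∀ i, (((Dm i)ᶜ).card : ℝ) ≤ lam * n
  touch : ∀ v, ((univ.filter (fun i => ¬ ∃ p, InD (π i) (Dm i) p ∧ φ i p = v)).card : ℝ) ≤ lam * n
  pat : ∀ i x y z, c1 * n ≤ ((univ.filter (fun q => InD (π i) (Dm i) q ∧ R.Adj y (φ i q) ∧
    R.Adj z (φ i q) ∧ R.Adj x (φ i (π i q)) ∧ R.Adj x (φ i ((π i)⁻¹ q)))).card : ℝ)

end
end Pool.Agent.APK
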