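import Pool.Agent.APK.HypDefs

/-!
# APK/HypT : total weights of the tests   (difficulty 3)

`Gam (hW ..) g = ∑_{(i,s)} (1-ga) ∑_T om T g` (only `len i s ≠ 0` counts).
* `gA_le`, …: the values are in `[0,1]` and, if not `0`, at least `1/K ≥ 1/(2K+1)` (`3 ≤ len ≤ K` if `len ≠ 0`; for
  `len = 0` the values of `gB`, `gC` are `0`; the counts are integers `≤ len ≤ K`).
* `gamA`: for injective `T`, `[∃ j inner, T j = v] = ∑_{j inner} [T j = v]`, so with `le_marg`
  `Gam = (1-ga) ∑_{i,s} ∑_{j < len, inner} ∑_{T j = v} om T ≥ (1-ga) ((1-e)/n) ∑_{i,s} #inner`.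
* `gamB`: `∑_T om T ≥ 1 - e` for `len i s ≠ 0`: sum `le_marg` over all `v` at `j = 0` (exactly one `v = T 0`).
* `gamC`: exchange the sums and use `Tile.pat`: `≥ (1-ga) (1/K) ∑_s ∑_{j inner, j ≠ 0} c`.
-/

set_option autoImplicit false
open Finset
open scoped Classical

namespace Pool.Agent.APK
noncomputable section

variable {t n K : ℕ} {π : Fin t → Equiv.Perm (Fin n)} {len : Fin t → Fin n → ℕ}
  {B R : SimpleGraph (Fin n)} {om : (ℓ : ℕ) → (Fin ℓ → Fin n) → ℝ} {ga C e D c : ℝ}

private theorem hypt_frac (hK : 3 ≤ K) {m : ℕ} (hm : m ≤ K) :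
    (0 ≤ (m : ℝ) / K ∧ (m : ℝ) / K ≤ 1) ∧
      ((m : ℝ) / K ≠ 0 → 1 / ((2 * K + 1 : ℕ) : ℝ) ≤ (m : ℝ) / K) := by
  have hK0 : (0 : ℝ) < K := by
    have : 0 < K := by omega
    exact_mod_cast this
  refine ⟨⟨div_nonneg (Nat.cast_nonneg _) hK0.le, (div_le_one hK0).2 (by exact_mod_cast hm)⟩, ?_⟩
  intro h
  have h1 : 1 ≤ m := by
    by_contra hc
    have : m = 0 := by omega
    rw [this] at h
    exact h (by simp)
  have h2 : (1 : ℝ) ≤ m := by exact_mod_cast h1
  have h3 : (K : ℝ) ≤ ((2 * K + 1 : ℕ) : ℝ) := by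
    have : K ≤ 2 * K + 1 := by omega
    exact_mod_cast this
  calc 1 / ((2 * K + 1 : ℕ) : ℝ) ≤ 1 / (K : ℝ) := one_div_le_one_div_of_le hK0 h3
    _ ≤ (m : ℝ) / K := div_le_div_of_nonneg_right h2 hK0.le

theorem gA_bd (h : App t n K π len B R om ga C e D c) (v : Fin n) (x : HE t n len) :
    (0 ≤ gA π len v x ∧ gA π len v x ≤ 1) ∧
      (gA π len v x ≠ 0 → 1 / ((2 * K + 1 : ℕ) : ℝ) ≤ gA π len v x) := by
  have h1 : 1 / ((2 * K + 1 : ℕ) : ℝ) ≤ 1 := by
    have h2 : (1 : ℝ) ≤ ((2 * K + 1 : ℕ) : ℝ) := by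
      have : 1 ≤ 2 * K + 1 := by omega
      exact_mod_cast this
    exact (div_le_one (lt_of_lt_of_le one_pos h2)).2 h2
  unfold gA
  split_ifs with hc
  · exact ⟨⟨zero_le_one, le_rfl⟩, fun _ => h1⟩
  · exact ⟨⟨le_rfl, zero_le_one⟩, fun h' => absurd rfl h'⟩

theorem gB_bd (h : App t n K π len B R om ga C e D c) (i : Fin t) (x : HE t n len) :
    (0 ≤ gB len K i x ∧ gB len K i x ≤ 1) ∧
      (gB len K i x ≠ 0 → 1 / ((2 * K + 1 : ℕ) : ℝ) ≤ gB len K i x) := by
  unfold gB
  split_ifs with hc
  · exact hypt_frac h.K3 ((h.chunk x.1.1).le x.1.2)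
  · exact ⟨⟨le_rfl, zero_le_one⟩, fun h' => absurd rfl h'⟩

theorem gC_bd (h : App t n K π len B R om ga C e D c) (i : Fin t) (a b d : Fin n) (x : HE t n len) :
    (0 ≤ gC π len K R i a b d x ∧ gC π len K R i a b d x ≤ 1) ∧
      (gC π len K R i a b d x ≠ 0 → 1 / ((2 * K + 1 : ℕ) : ℝ) ≤ gC π len K R i a b d x) := by
  unfold gC
  split_ifs with hc
  · refine hypt_frac h.K3 (le_trans ?_ ((h.chunk x.1.1).le x.1.2))
    refine (Finset.card_le_univ _).trans ?_
    rw [Fintype.card_fin]
  · exact ⟨⟨le_rfl, zero_le_one⟩, fun h' => absurd rfl h'⟩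

private theorem hypt_tile (h : App t n K π len B R om ga C e D c) {i : Fin t} {s : Fin n}
    (h0 : len i s ≠ 0) : Tile B R (len i s) (om (len i s)) C e D c :=
  h.tile _ ((h.chunk i).ge s h0) ((h.chunk i).le s)

private theorem hypt_split (f : HE t n len → ℝ) :
    ∑ x, f x = ∑ i, ∑ s, ∑ T : Fin (len i s) → Fin n, f ⟨(i, s), T⟩ := by
  rw [Fintype.sum_sigma, Fintype.sum_prod_type]

private theorem hypt_w0 {i : Fin t} {s : Fin n} (h0 : len i s = 0) (T : Fin (len i s) → Fin n) :
    hW len om ga (⟨(i, s), T⟩ : HE t n len) = 0 := by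
  unfold hW
  rw [if_pos h0]

private theorem hypt_w1 {i : Fin t} {s : Fin n} (h0 : len i s ≠ 0) (T : Fin (len i s) → Fin n) :
    hW len om ga (⟨(i, s), T⟩ : HE t n len) = (1 - ga) * om (len i s) T := by
  unfold hW
  rw [if_neg h0]

private theorem hypt_low {m : ℕ} {X : Type} [Fintype X] (P : ℕ → Prop) [DecidablePred P]
    (Q : Fin m → X → Prop) [∀ j T, Decidable (Q j T)] (o : X → ℝ) (b : ℝ)
    (hb : ∀ j : Fin m, P j.val → b ≤ ∑ T, (if Q j T then o T else 0)) :
    (((range m).filter P).card : ℝ) * b ≤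
      ∑ T, o T * ((univ.filter (fun j : Fin m => P j.val ∧ Q j T)).card : ℝ) := by
  have h1 : ∀ T, o T * ((univ.filter (fun j : Fin m => P j.val ∧ Q j T)).card : ℝ) =
      ∑ j : Fin m, (if P j.val ∧ Q j T then o T else 0) := by
    intro T
    rw [← Finset.sum_filter, Finset.sum_const, nsmul_eq_mul, mul_comm]
  rw [Finset.sum_congr rfl (fun T _ => h1 T), Finset.sum_comm]
  have h2 : (((range m).filter P).card : ℝ) * b = ∑ j : Fin m, (if P j.val then b else 0) := by
    rw [Fin.sum_univ_eq_sum_range (fun a => if P a then b else 0) m, ← Finset.sum_filter,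
      Finset.sum_const, nsmul_eq_mul]
  rw [h2]
  refine Finset.sum_le_sum (fun j _ => ?_)
  by_cases hP : P j.val
  · rw [if_pos hP]
    refine (hb j hP).trans (Finset.sum_le_sum (fun T _ => ?_))
    by_cases hQ : Q j T
    · rw [if_pos hQ, if_pos ⟨hP, hQ⟩]
    · rw [if_neg hQ, if_neg (fun h' => hQ h'.2)]
  · rw [if_neg hP]
    refine le_of_eq (Finset.sum_eq_zero (fun T _ => ?_)).symm
    rw [if_neg (fun h' => hP h'.1)]

theorem gamA (h : App t n K π len B R om ga C e D c) (v : Fin n) :
    (1 - ga) * ((1 - e) / n) *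
      (∑ i, ∑ s, (((range (len i s)).filter (fun a => Inn (π i) (len i) s a)).card : ℝ))
      ≤ Gam (hW len om ga) (gA π len v) := by
  have hg : 0 ≤ 1 - ga := sub_nonneg.2 h.ga1
  unfold Gam
  rw [hypt_split, Finset.mul_sum]
  refine Finset.sum_le_sum (fun i _ => ?_)
  rw [Finset.mul_sum]
  refine Finset.sum_le_sum (fun s _ => ?_)
  by_cases h0 : len i s = 0
  · have h1 : (((range (len i s)).filter (fun a => Inn (π i) (len i) s a)).card : ℝ) = 0 := by
      rw [h0]; simp
    rw [h1, mul_zero]
    refine le_of_eq (Finset.sum_eq_zero (fun T _ => ?_)).symm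
    rw [hypt_w0 h0, zero_mul]
  · have ht := hypt_tile h h0
    have h1 := hypt_low (m := len i s) (fun a => Inn (π i) (len i) s a)
      (fun j (T : Fin (len i s) → Fin n) => T j = v) (om (len i s)) ((1 - e) / n)
      (fun j _ => ht.le_marg j v)
    calc (1 - ga) * ((1 - e) / n) *
          (((range (len i s)).filter (fun a => Inn (π i) (len i) s a)).card : ℝ)
        = (1 - ga) * ((((range (len i s)).filter (fun a => Inn (π i) (len i) s a)).card : ℝ) *
            ((1 - e) / n)) := by ring
      _ ≤ (1 - ga) * ∑ T, om (len i s) T * ((univ.filter (fun j : Fin (len i s) =>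
            Inn (π i) (len i) s j.val ∧ T j = v)).card : ℝ) := mul_le_mul_of_nonneg_left h1 hg
      _ = ∑ T, (1 - ga) * (om (len i s) T * ((univ.filter (fun j : Fin (len i s) =>
            Inn (π i) (len i) s j.val ∧ T j = v)).card : ℝ)) := Finset.mul_sum _ _ _
      _ ≤ ∑ T, hW len om ga ⟨(i, s), T⟩ * gA π len v ⟨(i, s), T⟩ := by
          refine Finset.sum_le_sum (fun T _ => ?_)
          rw [hypt_w1 h0, mul_assoc]
          refine mul_le_mul_of_nonneg_left ?_ hg
          by_cases hT : om (len i s) T = 0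
          · rw [hT, zero_mul, zero_mul]
          · refine mul_le_mul_of_nonneg_left ?_ (ht.nonneg T)
            have hinj := ht.inj T hT
            have hc1 : (univ.filter (fun j : Fin (len i s) =>
                Inn (π i) (len i) s j.val ∧ T j = v)).card ≤ 1 := by
              rw [Finset.card_le_one]
              intro a ha b hb
              have h3 := (Finset.mem_filter.1 ha).2.2
              have h4 := (Finset.mem_filter.1 hb).2.2
              exact hinj (h3.trans h4.symm)
            unfold gA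
            split_ifs with hex
            · exact_mod_cast hc1
            · have h5 : (univ.filter (fun j : Fin (len i s) =>
                  Inn (π i) (len i) s j.val ∧ T j = v)) = ∅ := by
                rw [Finset.filter_eq_empty_iff]
                intro j _ hj
                exact hex ⟨j, hj⟩
              rw [h5, Finset.card_empty, Nat.cast_zero]

theorem gamB (h : App t n K π len B R om ga C e D c) (i : Fin t) :
    (1 - ga) * (1 - e) * (∑ s, (len i s : ℝ)) / K ≤ Gam (hW len om ga) (gB len K i) := by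
  have hg : 0 ≤ 1 - ga := sub_nonneg.2 h.ga1
  have hn : (0 : ℝ) < n := by exact_mod_cast h.npos
  have hK0 : (0 : ℝ) < K := by
    have : 0 < K := by have := h.K3; omega
    exact_mod_cast this
  unfold Gam
  rw [hypt_split, Finset.sum_eq_single i]
  · rw [mul_div_assoc, Finset.sum_div, Finset.mul_sum]
    refine Finset.sum_le_sum (fun s _ => ?_)
    have h1 : ∀ T : Fin (len i s) → Fin n, gB len K i ⟨(i, s), T⟩ = (len i s : ℝ) / K := by
      intro T
      unfold gB
      rw [if_pos rfl]
    by_cases h0 : len i s = 0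
    · have h2 : (len i s : ℝ) = 0 := by exact_mod_cast h0
      rw [h2, zero_div, mul_zero]
      refine le_of_eq (Finset.sum_eq_zero (fun T _ => ?_)).symm
      rw [hypt_w0 h0, zero_mul]
    · have ht := hypt_tile h h0
      have hpos : 0 < len i s := Nat.pos_of_ne_zero h0
      have h3 : 1 - e ≤ ∑ T : Fin (len i s) → Fin n, om (len i s) T := by
        calc 1 - e = ∑ _v : Fin n, (1 - e) / n := by
              rw [Finset.sum_const, Finset.card_univ, Fintype.card_fin, nsmul_eq_mul]
              field_simp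
          _ ≤ ∑ v : Fin n, ∑ T : Fin (len i s) → Fin n,
                (if T ⟨0, hpos⟩ = v then om (len i s) T else 0) :=
              Finset.sum_le_sum (fun v _ => ht.le_marg ⟨0, hpos⟩ v)
          _ = ∑ T : Fin (len i s) → Fin n, om (len i s) T := by
              rw [Finset.sum_comm]
              refine Finset.sum_congr rfl (fun T _ => ?_)
              rw [Finset.sum_ite_eq Finset.univ (T ⟨0, hpos⟩) (fun _ => om (len i s) T)]
              rw [if_pos (Finset.mem_univ _)]
      calc (1 - ga) * (1 - e) * ((len i s : ℝ) / K)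
          ≤ (1 - ga) * (∑ T : Fin (len i s) → Fin n, om (len i s) T) * ((len i s : ℝ) / K) := by
            refine mul_le_mul_of_nonneg_right (mul_le_mul_of_nonneg_left h3 hg) ?_
            exact div_nonneg (Nat.cast_nonneg _) hK0.le
        _ = ∑ T : Fin (len i s) → Fin n, hW len om ga ⟨(i, s), T⟩ * gB len K i ⟨(i, s), T⟩ := by
            rw [Finset.mul_sum, Finset.sum_mul]
            refine Finset.sum_congr rfl (fun T _ => ?_)
            rw [hypt_w1 h0, h1]
  · intro i' _ hi'
    refine Finset.sum_eq_zero (fun s _ => Finset.sum_eq_zero (fun T _ => ?_))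
    have : gB len K i (⟨(i', s), T⟩ : HE t n len) = 0 := by
      unfold gB
      exact if_neg hi'
    rw [this, mul_zero]
  · intro hc
    exact absurd (Finset.mem_univ _) hc

theorem gamC (h : App t n K π len B R om ga C e D c) (hc : 0 ≤ c) (i : Fin t) (x y z : Fin n) :
    (1 - ga) * c *
      (∑ s, (((range (len i s)).filter (fun a => a ≠ 0 ∧ Inn (π i) (len i) s a)).card : ℝ)) / K
      ≤ Gam (hW len om ga) (gC π len K R i x y z) := by
  have hg : 0 ≤ 1 - ga := sub_nonneg.2 h.ga1
  have hK0 : (0 : ℝ) < K := by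
    have : 0 < K := by have := h.K3; omega
    exact_mod_cast this
  unfold Gam
  rw [hypt_split, Finset.sum_eq_single i]
  · rw [mul_div_assoc, Finset.sum_div, Finset.mul_sum]
    refine Finset.sum_le_sum (fun s _ => ?_)
    by_cases h0 : len i s = 0
    · have h1 : (((range (len i s)).filter (fun a => a ≠ 0 ∧ Inn (π i) (len i) s a)).card : ℝ) = 0 := by
        rw [h0]; simp
      rw [h1, zero_div, mul_zero]
      refine le_of_eq (Finset.sum_eq_zero (fun T _ => ?_)).symm
      rw [hypt_w0 h0, zero_mul]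
    · have ht := hypt_tile h h0
      have h1 := hypt_low (m := len i s) (fun a => a ≠ 0 ∧ Inn (π i) (len i) s a)
        (fun j (T : Fin (len i s) → Fin n) => R.Adj y (T j) ∧ R.Adj z (T j) ∧
          R.Adj x (T ((finRotate _).symm j)) ∧ R.Adj x (T (finRotate _ j))) (om (len i s)) c
        (fun j hj => ht.pat j hj.1 x y z)
      have h2 : ∀ T : Fin (len i s) → Fin n, gC π len K R i x y z ⟨(i, s), T⟩ =
          ((univ.filter (fun j : Fin (len i s) => (j.val ≠ 0 ∧ Inn (π i) (len i) s j.val) ∧
            (R.Adj y (T j) ∧ R.Adj z (T j) ∧ R.Adj x (T ((finRotate _).symm j)) ∧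
              R.Adj x (T (finRotate _ j))))).card : ℝ) / K := by
        intro T
        unfold gC
        rw [if_pos rfl]
        exact congrArg (fun m : ℕ => (m : ℝ) / K)
          (congrArg Finset.card (Finset.filter_congr (fun j _ => and_assoc.symm)))
      calc (1 - ga) * c * ((((range (len i s)).filter
            (fun a => a ≠ 0 ∧ Inn (π i) (len i) s a)).card : ℝ) / K)
          = (1 - ga) * ((((range (len i s)).filter
            (fun a => a ≠ 0 ∧ Inn (π i) (len i) s a)).card : ℝ) * c) / K := by ring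
        _ ≤ (1 - ga) * (∑ T : Fin (len i s) → Fin n, om (len i s) T *
            ((univ.filter (fun j : Fin (len i s) => (j.val ≠ 0 ∧ Inn (π i) (len i) s j.val) ∧
            (R.Adj y (T j) ∧ R.Adj z (T j) ∧ R.Adj x (T ((finRotate _).symm j)) ∧
              R.Adj x (T (finRotate _ j))))).card : ℝ)) / K :=
            div_le_div_of_nonneg_right (mul_le_mul_of_nonneg_left h1 hg) hK0.le
        _ = ∑ T : Fin (len i s) → Fin n, hW len om ga ⟨(i, s), T⟩ * gC π len K R i x y z ⟨(i, s), T⟩ := by
            rw [Finset.mul_sum, Finset.sum_div]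
            refine Finset.sum_congr rfl (fun T _ => ?_)
            rw [hypt_w1 h0, h2]
            ring
  · intro i' _ hi'
    refine Finset.sum_eq_zero (fun s _ => Finset.sum_eq_zero (fun T _ => ?_))
    have : gC π len K R i x y z (⟨(i', s), T⟩ : HE t n len) = 0 := by
      unfold gC
      exact if_neg hi'
    rw [this, mul_zero]
  · intro hc
    exact absurd (Finset.mem_univ _) hc

end
end Pool.Agent.APK
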