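import Pool.Agent.APK.PetO

/-!
# APK/PetM : Petersen's 2-factor theorem   (difficulty 3)

* `reg_perms`: a relation `O` on `Fin n` with all out-degrees and in-degrees `s` is the disjoint union of the graphs of `s`
  permutations: induction on `s`.  For `s ≥ 1` Hall's condition holds (`Finset.all_card_le_biUnion_card_iff_exists_injective`
  with `t v = {u : O v u}`): the `s |A|` pairs `O v u` with `v ∈ A` have their heads in the union `U` of the `t v`, and at most
  `s |U|` pairs have their heads in `U`.  So there is an injective, hence bijective, `σ` with `O v (σ v)`.  Remove the pairs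
  `(v, σ v)`: all degrees drop by one.
* `petersen`: orient `G` by `balanced`, take the `s` permutations `σ_i`, `Z i`: `Adj u v ↔ v = σ_i u ∨ u = σ_i v`.  Since `O` is
  asymmetric, `σ_i u ≠ u` and `σ_i (σ_i u) ≠ u`, so the two neighbours `σ_i u`, `σ_i⁻¹ u` are different: degree `2`.  Disjointness:
  each pair `O u v` belongs to exactly one `σ_i`, and an edge `uv` has exactly one of `O u v`, `O v u`.
-/

set_option autoImplicit false
open Finset
open scoped Classical

namespace Pool.Agent.APK
noncomputable section

theorem petm_hall {n : ℕ} (O : Fin n → Fin n → Prop) (s : ℕ) (hs : 0 < s)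
    (h1 : ∀ v, (univ.filter (fun u => O v u)).card = s) (h2 : ∀ v, (univ.filter (fun u => O u v)).card = s) :
    ∃ σ : Equiv.Perm (Fin n), ∀ v, O v (σ v) := by
  have hall := (Finset.all_card_le_biUnion_card_iff_exists_injective
    (fun v : Fin n => univ.filter (fun u => O v u))).1 ?_
  · obtain ⟨f, hf, hm⟩ := hall
    refine ⟨Equiv.ofBijective f (Finite.injective_iff_bijective.1 hf), fun v => ?_⟩
    exact (Finset.mem_filter.1 (hm v)).2
  · intro A
    set U := A.biUnion (fun v => univ.filter (fun u => O v u)) with hU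
    have e1 : ∑ v ∈ A, (univ.filter (fun u => O v u)).card = A.card * s := by
      rw [Finset.sum_congr rfl fun v _ => h1 v, Finset.sum_const, smul_eq_mul]
    have e2 : ∑ u ∈ U, (univ.filter (fun v => O v u)).card = U.card * s := by
      rw [Finset.sum_congr rfl fun v _ => h2 v, Finset.sum_const, smul_eq_mul]
    have e3 : ∑ v ∈ A, (univ.filter (fun u => O v u)).card
        ≤ ∑ u ∈ U, (univ.filter (fun v => O v u)).card := by
      have a1 : ∀ v ∈ A, (univ.filter (fun u => O v u)).card = ∑ u ∈ U, if O v u then 1 else 0 := by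
        intro v hv
        rw [← Finset.card_filter]
        congr 1
        ext u
        simp only [Finset.mem_filter, Finset.mem_univ, true_and, hU, Finset.mem_biUnion]
        exact ⟨fun h => ⟨⟨v, hv, h⟩, h⟩, fun h => h.2⟩
      rw [Finset.sum_congr rfl a1, Finset.sum_comm]
      refine Finset.sum_le_sum fun u _ => ?_
      rw [← Finset.card_filter]
      exact Finset.card_le_card (Finset.filter_subset_filter _ (Finset.subset_univ A))
    rw [e1, e2] at e3
    exact Nat.le_of_mul_le_mul_right e3 hs

theorem reg_perms {n : ℕ} (O : Fin n → Fin n → Prop) (s : ℕ)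
    (h1 : ∀ v, (univ.filter (fun u => O v u)).card = s) (h2 : ∀ v, (univ.filter (fun u => O u v)).card = s) :
    ∃ σ : Fin s → Equiv.Perm (Fin n), (∀ u v, O u v ↔ ∃ i, σ i u = v) ∧
      ∀ i j u, i ≠ j → σ i u ≠ σ j u := by
  induction s generalizing O with
  | zero =>
    refine ⟨fun i => i.elim0, fun u v => ?_, fun i => i.elim0⟩
    constructor
    · intro h
      exfalso
      have := Finset.card_eq_zero.1 (h1 u)
      have h3 : v ∈ univ.filter (fun w => O u w) := Finset.mem_filter.2 ⟨Finset.mem_univ v, h⟩
      rw [this] at h3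
      simp at h3
    · rintro ⟨i, _⟩
      exact i.elim0
  | succ s ih =>
    obtain ⟨τ, hτ⟩ := petm_hall O (s + 1) (Nat.succ_pos s) h1 h2
    obtain ⟨O', hO'⟩ : ∃ O' : Fin n → Fin n → Prop, ∀ u v, O' u v ↔ (O u v ∧ v ≠ τ u) :=
      ⟨fun u v => O u v ∧ v ≠ τ u, fun _ _ => Iff.rfl⟩
    have g1 : ∀ v, (univ.filter (fun u => O' v u)).card = s := by
      intro v
      have e : univ.filter (fun u => O' v u) = (univ.filter (fun u => O v u)).erase (τ v) := by
        ext u
        simp only [Finset.mem_filter, Finset.mem_univ, true_and, Finset.mem_erase, hO']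
        exact and_comm
      have e2 := Finset.card_erase_of_mem (s := univ.filter (fun u => O v u)) (a := τ v)
        (Finset.mem_filter.2 ⟨Finset.mem_univ _, hτ v⟩)
      rw [e, e2, h1 v]
      rfl
    have g2 : ∀ v, (univ.filter (fun u => O' u v)).card = s := by
      intro v
      have e : univ.filter (fun u => O' u v)
          = (univ.filter (fun u => O u v)).erase (τ.symm v) := by
        ext u
        simp only [Finset.mem_filter, Finset.mem_univ, true_and, Finset.mem_erase, hO']
        constructor
        · rintro ⟨h3, h4⟩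
          exact ⟨fun h5 => h4 (by rw [h5, Equiv.apply_symm_apply]), h3⟩
        · rintro ⟨h3, h4⟩
          exact ⟨h4, fun h5 => h3 (by rw [h5, Equiv.symm_apply_apply])⟩
      have h3 : O (τ.symm v) v := by
        have := hτ (τ.symm v)
        rwa [Equiv.apply_symm_apply] at this
      have e2 := Finset.card_erase_of_mem (s := univ.filter (fun u => O u v)) (a := τ.symm v)
        (Finset.mem_filter.2 ⟨Finset.mem_univ _, h3⟩)
      rw [e, e2, h2 v]
      rfl
    obtain ⟨σ, hσ, hd⟩ := ih O' g1 g2
    simp only [hO'] at hσ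
    refine ⟨Fin.cons τ σ, fun u v => ?_, ?_⟩
    · rw [Fin.exists_fin_succ]
      simp only [Fin.cons_zero, Fin.cons_succ]
      rw [← hσ u v]
      constructor
      · intro h
        by_cases h3 : v = τ u
        · exact Or.inl h3.symm
        · exact Or.inr ⟨h, h3⟩
      · rintro (h | h)
        · rw [← h]; exact hτ u
        · exact h.1
    · have hne : ∀ j u, τ u ≠ σ j u := by
        intro j u h
        have h3 : O u (σ j u) ∧ σ j u ≠ τ u := (hσ u (σ j u)).2 ⟨j, rfl⟩
        exact h3.2 h.symm
      intro i j u hij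
      refine Fin.cases ?_ (fun i' => ?_) i (motive := fun i => i ≠ j →
        (Fin.cons τ σ : Fin (s + 1) → Equiv.Perm (Fin n)) i u
          ≠ (Fin.cons τ σ : Fin (s + 1) → Equiv.Perm (Fin n)) j u) hij
      · refine Fin.cases ?_ (fun j' => ?_) j
        · intro h; exact absurd rfl h
        · intro _
          rw [Fin.cons_zero, Fin.cons_succ]
          exact hne j' u
      · refine Fin.cases ?_ (fun j' => ?_) j
        · intro _
          rw [Fin.cons_zero, Fin.cons_succ]
          exact (hne i' u).symm
        · intro h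
          rw [Fin.cons_succ, Fin.cons_succ]
          exact hd i' j' u fun h3 => h (by rw [h3])

theorem petersen {n : ℕ} (G : SimpleGraph (Fin n)) (s : ℕ) (hG : ∀ v, dg G v = 2 * s) :
    ∃ Z : Fin s → SimpleGraph (Fin n), (∀ i v, dg (Z i) v = 2) ∧
      (∀ i j, i ≠ j → Disjoint (Z i) (Z j)) ∧ (⨆ i, Z i) = G := by
  obtain ⟨O, hO, has, hout, hin⟩ := balanced G s hG
  obtain ⟨σ, hσ, hd⟩ := reg_perms O s hout hin
  have hO' : ∀ i u, O u (σ i u) := fun i u => (hσ u _).2 ⟨i, rfl⟩
  have hirr : ∀ u, ¬ O u u := fun u h => has u u h h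
  have hne : ∀ i u, σ i u ≠ u := fun i u h => hirr u (by
    have := hO' i u
    rwa [h] at this)
  have hne2 : ∀ i u, σ i (σ i u) ≠ u := fun i u h => has _ _ (hO' i u) (by
    have := hO' i (σ i u)
    rwa [h] at this)
  have hmk : ∀ i, ∃ Z : SimpleGraph (Fin n), ∀ u v, Z.Adj u v ↔ (σ i u = v ∨ σ i v = u) := fun i =>
    ⟨{ Adj := fun u v => σ i u = v ∨ σ i v = u
       symm := ⟨fun u v h => h.symm⟩
       loopless := ⟨fun u h => by
        rcases h with h | h <;> exact hne i u h⟩ }, fun _ _ => Iff.rfl⟩
  choose Z hZ using hmk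
  refine ⟨Z, ?_, ?_, ?_⟩
  · intro i v
    unfold dg
    have e : univ.filter (fun u => (Z i).Adj v u) = {σ i v, (σ i).symm v} := by
      ext u
      simp only [Finset.mem_filter, Finset.mem_univ, true_and, Finset.mem_insert,
        Finset.mem_singleton, hZ]
      constructor
      · rintro (h | h)
        · exact Or.inl h.symm
        · exact Or.inr (by rw [← h, Equiv.symm_apply_apply])
      · rintro (h | h)
        · exact Or.inl h.symm
        · exact Or.inr (by rw [h, Equiv.apply_symm_apply])
    rw [e, Finset.card_pair]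
    intro h
    apply hne2 i v
    rw [h, Equiv.apply_symm_apply]
  · intro i j hij
    rw [SimpleGraph.disjoint_left]
    intro u v h1 h2
    rw [hZ] at h1 h2
    rcases h1 with h1 | h1 <;> rcases h2 with h2 | h2
    · exact hd i j u hij (h1.trans h2.symm)
    · have a1 := hO' i u
      rw [h1] at a1
      have a2 := hO' j v
      rw [h2] at a2
      exact has _ _ a1 a2
    · have a1 := hO' i v
      rw [h1] at a1
      have a2 := hO' j u
      rw [h2] at a2
      exact has _ _ a1 a2
    · exact hd i j v hij (h1.trans h2.symm)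
  · ext u v
    rw [SimpleGraph.iSup_adj]
    constructor
    · rintro ⟨i, h⟩
      rw [hZ] at h
      rw [hO]
      rcases h with h | h
      · exact Or.inl (h ▸ hO' i u)
      · exact Or.inr (h ▸ hO' i v)
    · intro h
      rw [hO] at h
      rcases h with h | h
      · obtain ⟨i, hi⟩ := (hσ u v).1 h
        exact ⟨i, (hZ i u v).2 (Or.inl hi)⟩
      · obtain ⟨i, hi⟩ := (hσ v u).1 h
        exact ⟨i, (hZ i u v).2 (Or.inr hi)⟩

end
end Pool.Agent.APK
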