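import Pool.Agent.APK.GDefs

/-!
# APK/Prm : a finite 2-regular graph is the graph of a permutation   (difficulty 3)

Every vertex has exactly two neighbours.  We need a permutation `π` without fixed points and without 2-cycles
such that the neighbours of `u` are `π u` and `π⁻¹ u`.

Way 1 (darts). For a dart `(u,v)` let `nx (u,v) = (v, w)`, `w` the neighbour of `v` different from `u`: a permutation of
the finite set of darts, and with the reversal `rv (u,v) = (v,u)`: `nx (rv (nx d)) = rv d` (so `rv ∘ nx ∘ rv = nx⁻¹`).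
The `nx`-orbit of `d` does not contain `rv d`: if `nx^k d = rv d` with `k` minimal, `k ≥ 2` (`rv d ≠ d`; `nx d ≠ rv d` as
`w ≠ u`), then `nx^{k-2} (nx d) = nx^{k-1} d = nx⁻¹ (rv d) = rv (nx d)`, a smaller solution for `nx d`: infinite
descent.  So the orbits come in pairs `O ≠ rv O`; choose one from each pair (e.g. choose a set of orbits by
`Finset`/quotient choice: the relation same orbit up to reversal, choose a representative dart `d0` for each class and
take the darts in its orbit).  The chosen darts contain exactly one of `d`, `rv d` for every `d`, and are closed under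
`nx`; so every vertex `v` has exactly one chosen dart leaving it (if `(u,v)` is chosen, `nx (u,v) = (v,w)` is chosen and
`(v,u)` is not; and some dart into or out of `v` is chosen, `nx⁻¹` being also fine): `π v` = its head.
`π` is injective (exactly one chosen dart enters each vertex), `π v ≠ v`, `π (π v) ≠ v` (`nx (v, πv) = (πv, w)`, `w ≠ v`).

Way 2: Mathlib has `SimpleGraph.IsCycles` and
`SimpleGraph.IsCycles.exists_cycle_toSubgraph_verts_eq_connectedComponentSupp` (every component is the vertex set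
of a cycle); on every component let `π` be the successor along the cycle (`Walk.getVert`).
-/

set_option autoImplicit false
open Finset
open scoped Classical

namespace Pool.Agent.APK
noncomputable section

/-- darts -/
abbrev prm_X {n : ℕ} (F : SimpleGraph (Fin n)) : Type := {d : Fin n × Fin n // F.Adj d.1 d.2}

/-- reversal -/
def prm_rv {n : ℕ} {F : SimpleGraph (Fin n)} (d : prm_X F) : prm_X F := ⟨(d.1.2, d.1.1), d.2.symm⟩

/-- an orientation of the darts closed under the successor -/
theorem prm_orient {n : ℕ} {F : SimpleGraph (Fin n)} (o : Fin n → Fin n → Fin n)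
    (ho1 : ∀ v u, F.Adj v u → F.Adj v (o v u)) (ho2 : ∀ v u, F.Adj v u → o v u ≠ u)
    (ho3 : ∀ v u, F.Adj v u → o v (o v u) = u) :
    ∃ C : Fin n → Fin n → Prop, (∀ u v, F.Adj u v → (C v u ↔ ¬ C u v)) ∧
      (∀ u v, F.Adj u v → (C v (o v u) ↔ C u v)) := by
  let nx : Equiv.Perm (prm_X F) :=
    { toFun := fun d => ⟨(d.1.2, o d.1.2 d.1.1), ho1 _ _ d.2.symm⟩
      invFun := fun d => ⟨(o d.1.1 d.1.2, d.1.1), (ho1 _ _ d.2).symm⟩
      left_inv := by
        intro d
        apply Subtype.ext
        show (o d.1.2 (o d.1.2 d.1.1), d.1.2) = d.1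
        rw [ho3 _ _ d.2.symm]
      right_inv := by
        intro d
        apply Subtype.ext
        show (d.1.1, o d.1.1 (o d.1.1 d.1.2)) = d.1
        rw [ho3 _ _ d.2] }
  have hnx : ∀ d, nx d = ⟨(d.1.2, o d.1.2 d.1.1), ho1 _ _ d.2.symm⟩ := fun d => rfl
  have hrv : ∀ d : prm_X F, nx (prm_rv (nx d)) = prm_rv d := by
    intro d
    apply Subtype.ext
    show (d.1.2, o d.1.2 (o d.1.2 d.1.1)) = (d.1.2, d.1.1)
    rw [ho3 _ _ d.2.symm]
  have hno : ∀ (k : ℕ) (d : prm_X F), (nx ^ k) d ≠ prm_rv d := by
    intro k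
    induction k using Nat.twoStepInduction with
    | zero =>
      intro d h
      have h1 : d.1.1 = d.1.2 := congrArg (fun e : prm_X F => e.1.1) h
      exact d.2.ne h1
    | one =>
      intro d h
      rw [pow_one] at h
      have h1 : o d.1.2 d.1.1 = d.1.1 := congrArg (fun e : prm_X F => e.1.2) h
      exact ho2 _ _ d.2.symm h1
    | more k ih _ =>
      intro d h
      apply ih (nx d)
      apply nx.injective
      rw [hrv, ← h]
      have e1 : (nx ^ (k + 2)) d = nx ((nx ^ k) (nx d)) := by
        rw [← Equiv.Perm.mul_apply, ← Equiv.Perm.mul_apply, ← pow_succ', ← pow_succ]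
      rw [e1]
  have hcyc : ∀ d : prm_X F, ¬ nx.SameCycle d (prm_rv d) := by
    intro d h
    obtain ⟨k, hk⟩ := h.exists_nat_pow_eq
    exact hno k d hk
  let st : Setoid (prm_X F) := Equiv.Perm.SameCycle.setoid nx
  let c : prm_X F → Fin (Fintype.card (Quotient st)) := fun d => Fintype.equivFin (Quotient st) (Quotient.mk st d)
  have hc1 : ∀ d, c (nx d) = c d := by
    intro d
    show Fintype.equivFin (Quotient st) (Quotient.mk st (nx d)) = Fintype.equivFin (Quotient st) (Quotient.mk st d)
    have : Quotient.mk st (nx d) = Quotient.mk st d :=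
      Quotient.sound (s := st) (Equiv.Perm.sameCycle_apply_left.mpr (Equiv.Perm.SameCycle.refl nx d))
    rw [this]
  have hc2 : ∀ d, c d ≠ c (prm_rv d) := by
    intro d h
    have h1 : Quotient.mk st d = Quotient.mk st (prm_rv d) := (Fintype.equivFin (Quotient st)).injective h
    exact hcyc d (Quotient.exact h1)
  have hc3 : ∀ d, c (prm_rv (nx d)) = c (prm_rv d) := by
    intro d
    rw [← hc1 (prm_rv (nx d)), hrv]
  refine ⟨fun u v => ∃ h : F.Adj u v, c ⟨(u, v), h⟩ < c (prm_rv ⟨(u, v), h⟩), ?_, ?_⟩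
  · intro u v h
    have hrr : prm_rv (prm_rv (⟨(u, v), h⟩ : prm_X F)) = ⟨(u, v), h⟩ := rfl
    have hne := hc2 ⟨(u, v), h⟩
    constructor
    · rintro ⟨h', hlt⟩ ⟨h'', hlt'⟩
      have e1 : c (prm_rv (⟨(u, v), h⟩ : prm_X F)) < c ⟨(u, v), h⟩ := hlt
      have e2 : c (⟨(u, v), h⟩ : prm_X F) < c (prm_rv ⟨(u, v), h⟩) := hlt'
      exact absurd e1 (lt_asymm e2)
    · intro hn
      refine ⟨h.symm, ?_⟩
      show c (prm_rv (⟨(u, v), h⟩ : prm_X F)) < c ⟨(u, v), h⟩
      rcases lt_trichotomy (c (prm_rv (⟨(u, v), h⟩ : prm_X F))) (c ⟨(u, v), h⟩) with h1 | h1 | h1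
      · exact h1
      · exact absurd h1.symm hne
      · exact absurd ⟨h, h1⟩ hn
  · intro u v h
    have e1 : c (⟨(v, o v u), ho1 _ _ h.symm⟩ : prm_X F) = c ⟨(u, v), h⟩ := hc1 ⟨(u, v), h⟩
    have e2 : c (prm_rv (⟨(v, o v u), ho1 _ _ h.symm⟩ : prm_X F)) = c (prm_rv ⟨(u, v), h⟩) := hc3 ⟨(u, v), h⟩
    constructor
    · rintro ⟨h', hlt⟩
      refine ⟨h, ?_⟩
      rw [← e1, ← e2]
      exact hlt
    · rintro ⟨h', hlt⟩
      refine ⟨ho1 _ _ h.symm, ?_⟩
      rw [e1, e2]
      exact hlt

theorem exists_perm {n : ℕ} (F : SimpleGraph (Fin n)) (hF : ∀ v, dg F v = 2) :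
    ∃ π : Equiv.Perm (Fin n), (∀ u v, F.Adj u v ↔ (v = π u ∨ u = π v)) ∧ (∀ u, π u ≠ u) ∧
      ∀ u, π (π u) ≠ u := by
  have hab : ∀ v, ∃ a b : Fin n, a ≠ b ∧ ∀ w, F.Adj v w ↔ (w = a ∨ w = b) := by
    intro v
    obtain ⟨a, b, hne, he⟩ := card_eq_two.mp (hF v)
    refine ⟨a, b, hne, fun w => ?_⟩
    have h1 : w ∈ univ.filter (fun u => F.Adj v u) ↔ w ∈ ({a, b} : Finset (Fin n)) := by rw [he]
    rw [mem_filter, mem_insert, mem_singleton] at h1
    constructor
    · intro h
      exact h1.mp ⟨mem_univ _, h⟩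
    · intro h
      exact (h1.mpr h).2
  choose a b hne hadj using hab
  let o : Fin n → Fin n → Fin n := fun v u => if u = a v then b v else a v
  have hoa : ∀ v, o v (a v) = b v := fun v => if_pos rfl
  have hob : ∀ v, o v (b v) = a v := fun v => if_neg (hne v).symm
  have ho1 : ∀ v u, F.Adj v u → F.Adj v (o v u) := by
    intro v u h
    rcases (hadj v u).mp h with rfl | rfl
    · rw [hoa]
      exact (hadj v _).mpr (Or.inr rfl)
    · rw [hob]
      exact (hadj v _).mpr (Or.inl rfl)
  have ho2 : ∀ v u, F.Adj v u → o v u ≠ u := by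
    intro v u h
    rcases (hadj v u).mp h with rfl | rfl
    · rw [hoa]
      exact (hne v).symm
    · rw [hob]
      exact hne v
  have ho3 : ∀ v u, F.Adj v u → o v (o v u) = u := by
    intro v u h
    rcases (hadj v u).mp h with rfl | rfl
    · rw [hoa, hob]
    · rw [hob, hoa]
  have ho4 : ∀ v u w, F.Adj v u → F.Adj v w → w = u ∨ w = o v u := by
    intro v u w h h'
    rcases (hadj v u).mp h with rfl | rfl
    · rw [hoa]
      exact (hadj v w).mp h'
    · rw [hob]
      exact ((hadj v w).mp h').symm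
  obtain ⟨C, hC1, hC2⟩ := prm_orient o ho1 ho2 ho3
  -- exactly one out-neighbour
  have hex : ∀ v, ∃ w, F.Adj v w ∧ C v w ∧ ∀ w', F.Adj v w' → C v w' → w' = w := by
    intro v
    have hva : F.Adj v (a v) := (hadj v _).mpr (Or.inl rfl)
    have key : ∀ u, F.Adj v u → (C v (o v u) ↔ ¬ C v u) := by
      intro u hu
      rw [hC2 u v hu.symm, hC1 v u hu]
    by_cases h : C v (a v)
    · refine ⟨a v, hva, h, ?_⟩
      intro w' hw' hCw
      rcases ho4 v (a v) w' hva hw' with e | e
      · exact e
      · rw [e] at hCw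
        exact absurd h ((key _ hva).mp hCw)
    · refine ⟨o v (a v), ho1 _ _ hva, (key _ hva).mpr h, ?_⟩
      intro w' hw' hCw
      rcases ho4 v (a v) w' hva hw' with e | e
      · rw [e] at hCw
        exact absurd hCw h
      · exact e
  choose f hf1 hf2 hf3 using hex
  have hinj : Function.Injective f := by
    intro u v huv
    -- both `u` and `v` are neighbours of `f u` whose dart enters
    have h1 : F.Adj (f u) u := (hf1 u).symm
    have h2 : F.Adj (f u) v := by
      rw [huv]
      exact (hf1 v).symm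
    rcases ho4 (f u) u v h1 h2 with e | e
    · exact e.symm
    · exfalso
      have h3 : C (f u) (o (f u) u) ↔ C u (f u) := hC2 u (f u) (hf1 u)
      have h4 : C (f u) v := by
        rw [e]
        exact h3.mpr (hf2 u)
      have h5 : C v (f u) := by
        rw [huv]
        exact hf2 v
      exact (hC1 v (f u) h2.symm).mp h4 h5
  have hbij : Function.Bijective f := Finite.injective_iff_bijective.mp hinj
  refine ⟨Equiv.ofBijective f hbij, ?_, ?_, ?_⟩
  · intro u v
    show F.Adj u v ↔ (v = f u ∨ u = f v)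
    constructor
    · intro h
      by_cases hc : C u v
      · left
        exact hf3 u v h hc
      · right
        exact hf3 v u h.symm ((hC1 u v h).mpr hc)
    · rintro (h | h)
      · rw [h]
        exact hf1 u
      · rw [h]
        exact (hf1 v).symm
  · intro u
    show f u ≠ u
    exact (hf1 u).ne.symm
  · intro u
    show f (f u) ≠ u
    intro h
    have h1 : C (f u) u := by
      have := hf2 (f u)
      rwa [h] at this
    exact (hC1 u (f u) (hf1 u)).mp h1 (hf2 u)

end
end Pool.Agent.APK
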