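import Pool.Agent.APK.GDefs
import Pool.Agent.APK.Cyl

/-!
# APK/RsvQ : degrees and edge sums for a random reserve   (difficulty 3)

`S` is a random subset of `Sym2 (Fin n)`, all probabilities `rho`.

* `rsvD`: `dg (RG G S) v = ∑_u [G.Adj v u] [s(v,u) ∈ S]` is `cylF` with `J = {u : G.Adj v u}`, weights `1`,
  `P u = {s(v,u)}`, `N u = ∅`; expectation `rho dg G v`; `load e ≤ 1`, and `load e = 0` unless `e = s(v,u)`: so
  `∑ rho load² ≤ n = V`, `b = 1`, `lam = e0 n/2`: both tails `≤ exp (- e0² n/16)` (`lam²/(4V) = e0² n/16`,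
  `lam/(2b) = e0 n/4`, `e0 ≤ 1`).
* `rsvS`: `∑_z w x y z [s(x,z) ∉ S, s(y,z) ∉ S]` is `cylF` with `J = {z : w x y z ≠ 0}`, weights `w x y z`, `P z = ∅`,
  `N z = {s(x,z), s(y,z)}` (two different pairs, as `x ≠ y`); expectation `(1-rho)² σ`, `σ = ∑_z w x y z`.
  `load e ≤ 2C/n` (`e` is `s(x,z)` for at most one `z` and `s(y,z)` for at most one `z`), nonzero for at most `2n`
  pairs `e`; `∑ rho load² ≤ 8 C²/n = V` (`rho ≤ 1`), `b = 2C/n`, `lam = e0/4`:
  `lam²/(4V) = e0² n/(512 C²)`, `lam/(2b) = e0 n/(16 C)`.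
-/

set_option autoImplicit false
open Finset
open scoped Classical

namespace Pool.Agent.APK
noncomputable section

theorem rsvq_two {ι τ : Type} [DecidableEq ι] {p : ι → ℝ} {U : Finset ι} (hp : IsP p U) (J : Finset τ)
    (w : τ → ℝ) (P N : τ → Finset ι) (hw : ∀ t ∈ J, 0 ≤ w t) {b V lam : ℝ} (hb : 0 < b) (hV : 0 < V)
    (hlam : 0 ≤ lam) (hlb : ∀ e ∈ U, load J w P N e ≤ b) (hlV : ∑ e ∈ U, p e * load J w P N e ^ 2 ≤ V) :
    PP p U (fun S => lam ≤ |cylF J w P N S - EE p U (cylF J w P N)|)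
      ≤ 2 * Real.exp (- min (lam ^ 2 / (4 * V)) (lam / (2 * b))) := by
  have h1 := cyl_up hp J w P N hw hb hV hlam hlb hlV
  have h2 := cyl_low hp J w P N hw hb hV hlam hlb hlV
  have h3 : PP p U (fun S => lam ≤ |cylF J w P N S - EE p U (cylF J w P N)|) ≤
      PP p U (fun S => EE p U (cylF J w P N) + lam ≤ cylF J w P N S ∨
        cylF J w P N S ≤ EE p U (cylF J w P N) - lam) := by
    apply PP_mono hp
    intro S _ hS
    rcases le_abs.mp hS with h | h
    · left
      linarith
    · right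
      linarith
  have h4 := PP_or hp (fun S => EE p U (cylF J w P N) + lam ≤ cylF J w P N S)
    (fun S => cylF J w P N S ≤ EE p U (cylF J w P N) - lam)
  linarith

theorem rsvq_load_nonneg {ι τ : Type} [DecidableEq ι] (J : Finset τ) (w : τ → ℝ) (P N : τ → Finset ι)
    (hw : ∀ t ∈ J, 0 ≤ w t) (e : ι) : 0 ≤ load J w P N e := by
  unfold load
  apply Finset.sum_nonneg
  intro t ht
  by_cases h : e ∈ P t ∨ e ∈ N t
  · rw [if_pos h]
    exact hw t ht
  · rw [if_neg h]

theorem rsvq_sum {ι τ : Type} [DecidableEq ι] (U : Finset ι) (J : Finset τ) (w : τ → ℝ) (P N : τ → Finset ι)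
    (hw : ∀ t ∈ J, 0 ≤ w t) :
    ∑ e ∈ U, load J w P N e ≤ ∑ t ∈ J, w t * ((P t).card + (N t).card) := by
  unfold load
  rw [Finset.sum_comm]
  refine Finset.sum_le_sum fun t ht => ?_
  have h1 : ∑ e ∈ U, (if e ∈ P t ∨ e ∈ N t then w t else 0) ≤ ∑ e ∈ P t ∪ N t, w t := by
    have e1 : ∑ e ∈ U, (if e ∈ P t ∨ e ∈ N t then w t else 0) = ∑ e ∈ U.filter (fun e => e ∈ P t ∨ e ∈ N t), w t := by
      rw [Finset.sum_filter]
    rw [e1]
    apply Finset.sum_le_sum_of_subset_of_nonneg
    · intro e he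
      rw [mem_filter] at he
      rw [mem_union]
      exact he.2
    · intro e _ _
      exact hw t ht
  refine h1.trans ?_
  rw [Finset.sum_const, nsmul_eq_mul, mul_comm]
  apply mul_le_mul_of_nonneg_left _ (hw t ht)
  have := card_union_le (P t) (N t)
  exact_mod_cast this

theorem rsvq_V {ι τ : Type} [DecidableEq ι] {p : ι → ℝ} {U : Finset ι} (hp : IsP p U) (J : Finset τ)
    (w : τ → ℝ) (P N : τ → Finset ι) (hw : ∀ t ∈ J, 0 ≤ w t) {b : ℝ} (hb : 0 < b)
    (hlb : ∀ e ∈ U, load J w P N e ≤ b) :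
    ∑ e ∈ U, p e * load J w P N e ^ 2 ≤ b * ∑ t ∈ J, w t * ((P t).card + (N t).card) := by
  have h1 : ∑ e ∈ U, p e * load J w P N e ^ 2 ≤ ∑ e ∈ U, b * load J w P N e := by
    refine Finset.sum_le_sum fun e he => ?_
    have h0 := rsvq_load_nonneg J w P N hw e
    have h2 := hlb e he
    have h3 := hp e he
    calc p e * load J w P N e ^ 2 ≤ 1 * load J w P N e ^ 2 :=
          mul_le_mul_of_nonneg_right h3.2 (by positivity)
      _ = load J w P N e * load J w P N e := by ring
      _ ≤ b * load J w P N e := mul_le_mul_of_nonneg_right h2 h0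
  rw [← Finset.mul_sum] at h1
  exact h1.trans (mul_le_mul_of_nonneg_left (rsvq_sum U J w P N hw) hb.le)

theorem rsvq_one {n : ℕ} (x : Fin n) (e : Sym2 (Fin n)) (f : Fin n → ℝ) {b : ℝ} (hb : 0 ≤ b)
    (hf : ∀ z, 0 ≤ f z ∧ f z ≤ b) (J : Finset (Fin n)) :
    ∑ z ∈ J, (if e = s(x, z) then f z else 0) ≤ b := by
  by_cases h : ∃ z0 ∈ J, e = s(x, z0)
  · obtain ⟨z0, hz0, he⟩ := h
    rw [Finset.sum_eq_single z0]
    · rw [if_pos he]
      exact (hf z0).2
    · intro z _ hz
      rw [if_neg]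
      intro he'
      apply hz
      rw [he] at he'
      exact (Sym2.congr_right.mp he').symm
    · intro h
      exact absurd hz0 h
  · push Not at h
    rw [Finset.sum_eq_zero]
    · exact hb
    · intro z hz
      rw [if_neg (h z hz)]

theorem rsvD (e0 rho : ℝ) (he0 : 0 < e0) (he1 : e0 ≤ 1) (hr0 : 0 ≤ rho) (hr1 : rho ≤ 1) (n : ℕ) (hn : 1 ≤ n)
    (G : SimpleGraph (Fin n)) (v : Fin n) :
    PP (fun _ => rho) (univ : Finset (Sym2 (Fin n)))
      (fun S => e0 / 2 * n ≤ |(dg (RG G S) v : ℝ) - rho * dg G v|)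
      ≤ 2 * Real.exp (- (e0 ^ 2 / 16 * n)) := by
  have hn0 : (0 : ℝ) < n := by exact_mod_cast hn
  have hp : IsP (fun _ => rho) (univ : Finset (Sym2 (Fin n))) := fun _ _ => ⟨hr0, hr1⟩
  set J : Finset (Fin n) := univ.filter (fun u => G.Adj v u) with hJ
  set P : Fin n → Finset (Sym2 (Fin n)) := fun u => {s(v, u)} with hP
  set N : Fin n → Finset (Sym2 (Fin n)) := fun _ => ∅ with hN
  set w : Fin n → ℝ := fun _ => 1 with hwd
  have hw : ∀ t ∈ J, 0 ≤ w t := fun _ _ => zero_le_one
  have hlb : ∀ e ∈ (univ : Finset (Sym2 (Fin n))), load J w P N e ≤ 1 := by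
    intro e _
    have h1 := rsvq_one v e w zero_le_one (fun _ => ⟨zero_le_one, le_rfl⟩) J
    refine le_trans (le_of_eq ?_) h1
    unfold load
    refine Finset.sum_congr rfl fun t _ => ?_
    by_cases h : e = s(v, t)
    · rw [if_pos h, if_pos (Or.inl (mem_singleton.mpr h))]
    · rw [if_neg h, if_neg]
      rintro (h' | h')
      · exact h (mem_singleton.mp h')
      · exact absurd h' (notMem_empty _)
  have hJn : (J.card : ℝ) ≤ n := by
    have := card_le_univ J
    rw [Fintype.card_fin] at this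
    exact_mod_cast this
  have hV : ∑ e ∈ (univ : Finset (Sym2 (Fin n))), (fun _ => rho) e * load J w P N e ^ 2 ≤ (n : ℝ) := by
    refine (rsvq_V hp J w P N hw one_pos hlb).trans ?_
    have : ∑ t ∈ J, w t * (((P t).card : ℝ) + (N t).card) = J.card := by
      have e1 : ∀ t ∈ J, w t * (((P t).card : ℝ) + (N t).card) = 1 := by
        intro t _
        show (1 : ℝ) * ((({s(v, t)} : Finset (Sym2 (Fin n))).card : ℝ) + ((∅ : Finset (Sym2 (Fin n))).card : ℝ)) = 1
        rw [card_singleton, card_empty]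
        norm_num
      rw [Finset.sum_congr rfl e1, Finset.sum_const, nsmul_eq_mul, mul_one]
    rw [this, one_mul]
    exact hJn
  have hlam : 0 ≤ e0 / 2 * n := by positivity
  have key := rsvq_two hp J w P N hw one_pos hn0 hlam hlb hV
  have hE : EE (fun _ => rho) (univ : Finset (Sym2 (Fin n))) (cylF J w P N) = rho * dg G v := by
    rw [EE_cylF J w P N (fun _ _ => subset_univ _) (fun _ _ => subset_univ _)
      (fun _ _ => Finset.disjoint_empty_right _)]
    have e1 : ∀ t ∈ J, w t * ((∏ i ∈ P t, (fun _ => rho) i) * ∏ i ∈ N t, (1 - (fun _ => rho) i)) = rho := by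
      intro t _
      show (1 : ℝ) * ((∏ i ∈ ({s(v, t)} : Finset (Sym2 (Fin n))), rho) *
        ∏ i ∈ (∅ : Finset (Sym2 (Fin n))), (1 - rho)) = rho
      rw [prod_singleton, prod_empty, one_mul, mul_one]
    rw [Finset.sum_congr rfl e1, Finset.sum_const, nsmul_eq_mul, mul_comm]
    rfl
  have hC : ∀ S : Finset (Sym2 (Fin n)), cylF J w P N S = (dg (RG G S) v : ℝ) := by
    intro S
    unfold cylF dg
    have e1 : (univ.filter fun u => (RG G S).Adj v u) = J.filter fun u => s(v, u) ∈ S := by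
      ext u
      rw [hJ, mem_filter, mem_filter, mem_filter]
      constructor
      · rintro ⟨h1, h2⟩
        exact ⟨⟨h1, h2.1⟩, h2.2⟩
      · rintro ⟨⟨h1, h2⟩, h3⟩
        exact ⟨h1, h2, h3⟩
    rw [e1, Finset.card_filter]
    push_cast
    refine Finset.sum_congr rfl fun t _ => ?_
    by_cases h : s(v, t) ∈ S
    · rw [if_pos h, if_pos ⟨Finset.singleton_subset_iff.mpr h, Finset.disjoint_empty_left _⟩]
      exact one_mul 1
    · rw [if_neg h, if_neg (fun h' => h (Finset.singleton_subset_iff.mp h'.1))]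
      exact mul_zero _
  rw [hE] at key
  have hev : PP (fun _ => rho) (univ : Finset (Sym2 (Fin n)))
      (fun S => e0 / 2 * n ≤ |(dg (RG G S) v : ℝ) - rho * dg G v|) =
      PP (fun _ => rho) (univ : Finset (Sym2 (Fin n)))
      (fun S => e0 / 2 * n ≤ |cylF J w P N S - rho * dg G v|) := by
    apply PP_congr
    intro S _
    rw [hC S]
  rw [hev]
  refine key.trans ?_
  have hmin : e0 ^ 2 / 16 * n ≤ min ((e0 / 2 * n) ^ 2 / (4 * n)) (e0 / 2 * n / (2 * 1)) := by
    apply le_min
    · rw [le_div_iff₀ (by positivity)]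
      exact le_of_eq (by ring)
    · rw [le_div_iff₀ (by positivity)]
      nlinarith
  have := Real.exp_le_exp.mpr (neg_le_neg hmin)
  linarith

theorem rsvS (e0 rho C : ℝ) (he0 : 0 < e0) (he1 : e0 ≤ 1) (hr0 : 0 ≤ rho) (hr1 : rho ≤ 1) (hC : 0 < C)
    (n : ℕ) (hn : 1 ≤ n) (G : SimpleGraph (Fin n)) (w : Fin n → Fin n → Fin n → ℝ) (e1 : ℝ)
    (hw : TriW G w C e1) (x y : Fin n) :
    PP (fun _ => rho) (univ : Finset (Sym2 (Fin n)))
      (fun S => e0 / 4 ≤ |(∑ z, if s(x, z) ∉ S ∧ s(y, z) ∉ S then w x y z else 0)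
        - (1 - rho) ^ 2 * ∑ z, w x y z|)
      ≤ 2 * Real.exp (- (min (e0 ^ 2 / (512 * C ^ 2)) (e0 / (16 * C)) * n)) := by
  have hn0 : (0 : ℝ) < n := by exact_mod_cast hn
  have hp : IsP (fun _ => rho) (univ : Finset (Sym2 (Fin n))) := fun _ _ => ⟨hr0, hr1⟩
  set J : Finset (Fin n) := univ.filter (fun z => w x y z ≠ 0) with hJ
  set P : Fin n → Finset (Sym2 (Fin n)) := fun _ => ∅ with hP
  set N : Fin n → Finset (Sym2 (Fin n)) := fun z => {s(x, z), s(y, z)} with hN
  set f : Fin n → ℝ := fun z => w x y z with hfd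
  have hf : ∀ t ∈ J, 0 ≤ f t := fun t _ => hw.nonneg x y t
  have hfb : ∀ z, 0 ≤ f z ∧ f z ≤ C / n := fun z => ⟨hw.nonneg x y z, hw.le x y z⟩
  have hCn : 0 < C / n := by positivity
  have hb : 0 < 2 * C / n := by positivity
  have hlb : ∀ e ∈ (univ : Finset (Sym2 (Fin n))), load J f P N e ≤ 2 * C / n := by
    intro e _
    have h1 := rsvq_one x e f hCn.le hfb J
    have h2 := rsvq_one y e f hCn.le hfb J
    have h3 : load J f P N e ≤ ∑ z ∈ J, ((if e = s(x, z) then f z else 0) + (if e = s(y, z) then f z else 0)) := by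
      unfold load
      refine Finset.sum_le_sum fun z _ => ?_
      have hz := (hfb z).1
      by_cases ha : e = s(x, z)
      · rw [if_pos ha, if_pos (Or.inr (by
          show e ∈ ({s(x, z), s(y, z)} : Finset (Sym2 (Fin n)))
          rw [mem_insert]
          exact Or.inl ha))]
        by_cases hb : e = s(y, z)
        · rw [if_pos hb]
          linarith
        · rw [if_neg hb]
          linarith
      · rw [if_neg ha]
        by_cases hb : e = s(y, z)
        · rw [if_pos hb, if_pos (Or.inr (by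
            show e ∈ ({s(x, z), s(y, z)} : Finset (Sym2 (Fin n)))
            rw [mem_insert, mem_singleton]
            exact Or.inr hb))]
          linarith
        · rw [if_neg hb, if_neg]
          · linarith
          · rintro (h | h)
            · exact absurd h (notMem_empty _)
            · have h' : e ∈ ({s(x, z), s(y, z)} : Finset (Sym2 (Fin n))) := h
              rw [mem_insert, mem_singleton] at h'
              rcases h' with h' | h'
              · exact ha h'
              · exact hb h'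
    rw [Finset.sum_add_distrib] at h3
    have h4 : 2 * C / n = C / n + C / n := by ring
    linarith
  have hsum : ∑ t ∈ J, f t * (((P t).card : ℝ) + (N t).card) ≤ 2 * C := by
    have e2 : ∀ t ∈ J, f t * (((P t).card : ℝ) + (N t).card) ≤ C / n * 2 := by
      intro t _
      have h1 : ((P t).card : ℝ) = 0 := by
        show ((∅ : Finset (Sym2 (Fin n))).card : ℝ) = 0
        rw [card_empty]
        exact Nat.cast_zero
      have h2 : ((N t).card : ℝ) ≤ 2 := by
        have : (N t).card ≤ 2 := card_le_two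
        exact_mod_cast this
      rw [h1, zero_add]
      exact mul_le_mul (hfb t).2 h2 (Nat.cast_nonneg _) hCn.le
    refine (Finset.sum_le_sum e2).trans ?_
    rw [Finset.sum_const, nsmul_eq_mul]
    have hJn : (J.card : ℝ) ≤ n := by
      have := card_le_univ J
      rw [Fintype.card_fin] at this
      exact_mod_cast this
    calc (J.card : ℝ) * (C / n * 2) ≤ n * (C / n * 2) := mul_le_mul_of_nonneg_right hJn (by positivity)
      _ = 2 * C := by
        field_simp
  have hV0 : 0 < 8 * C ^ 2 / n := by positivity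
  have hV : ∑ e ∈ (univ : Finset (Sym2 (Fin n))), (fun _ => rho) e * load J f P N e ^ 2 ≤ 8 * C ^ 2 / n := by
    refine (rsvq_V hp J f P N hf hb hlb).trans ?_
    calc 2 * C / n * ∑ t ∈ J, f t * (((P t).card : ℝ) + (N t).card) ≤ 2 * C / n * (2 * C) :=
          mul_le_mul_of_nonneg_left hsum hb.le
      _ = 4 * C ^ 2 / n := by ring
      _ ≤ 8 * C ^ 2 / n := by
        apply div_le_div_of_nonneg_right _ hn0.le
        have : 0 < C ^ 2 := by positivity
        linarith
  have hlam : 0 ≤ e0 / 4 := by positivity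
  have key := rsvq_two hp J f P N hf hb hV0 hlam hlb hV
  have hxy : ∀ z ∈ J, s(x, z) ≠ s(y, z) := by
    intro z hz he
    rw [hJ, mem_filter] at hz
    have h1 := (hw.supp x y z hz.2).1.ne
    exact h1 (Sym2.congr_left.mp he)
  have hE : EE (fun _ => rho) (univ : Finset (Sym2 (Fin n))) (cylF J f P N) = (1 - rho) ^ 2 * ∑ z, w x y z := by
    rw [EE_cylF J f P N (fun _ _ => subset_univ _) (fun _ _ => subset_univ _)
      (fun _ _ => Finset.disjoint_empty_left _)]
    have e2 : ∀ t ∈ J, f t * ((∏ i ∈ P t, (fun _ => rho) i) * ∏ i ∈ N t, (1 - (fun _ => rho) i)) =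
        (1 - rho) ^ 2 * w x y t := by
      intro t ht
      show w x y t * ((∏ i ∈ (∅ : Finset (Sym2 (Fin n))), rho) *
        ∏ i ∈ ({s(x, t), s(y, t)} : Finset (Sym2 (Fin n))), (1 - rho)) = _
      rw [prod_pair (hxy t ht), prod_empty]
      ring
    rw [Finset.sum_congr rfl e2, ← Finset.mul_sum, hJ, Finset.sum_filter_ne_zero]
  have hCy : ∀ S : Finset (Sym2 (Fin n)), cylF J f P N S =
      ∑ z, if s(x, z) ∉ S ∧ s(y, z) ∉ S then w x y z else 0 := by
    intro S
    unfold cylF
    have e2 : ∑ z, (if s(x, z) ∉ S ∧ s(y, z) ∉ S then w x y z else 0) =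
        ∑ z ∈ J, (if s(x, z) ∉ S ∧ s(y, z) ∉ S then w x y z else 0) := by
      symm
      apply Finset.sum_subset (subset_univ _)
      intro z _ hz
      rw [hJ, mem_filter] at hz
      push Not at hz
      rw [hz (mem_univ _), ite_self]
    rw [e2]
    refine Finset.sum_congr rfl fun z _ => ?_
    by_cases h : s(x, z) ∉ S ∧ s(y, z) ∉ S
    · have hcond : P z ⊆ S ∧ Disjoint (N z) S := by
        refine ⟨Finset.empty_subset _, ?_⟩
        show Disjoint ({s(x, z), s(y, z)} : Finset (Sym2 (Fin n))) S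
        rw [Finset.disjoint_insert_left, Finset.disjoint_singleton_left]
        exact h
      rw [if_pos h, if_pos hcond]
      exact mul_one _
    · rw [if_neg h, if_neg]
      · exact mul_zero _
      · rintro ⟨_, h2⟩
        have h3 : Disjoint ({s(x, z), s(y, z)} : Finset (Sym2 (Fin n))) S := h2
        rw [Finset.disjoint_insert_left, Finset.disjoint_singleton_left] at h3
        exact h h3
  rw [hE] at key
  have hev : PP (fun _ => rho) (univ : Finset (Sym2 (Fin n)))
      (fun S => e0 / 4 ≤ |(∑ z, if s(x, z) ∉ S ∧ s(y, z) ∉ S then w x y z else 0)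
        - (1 - rho) ^ 2 * ∑ z, w x y z|) =
      PP (fun _ => rho) (univ : Finset (Sym2 (Fin n)))
      (fun S => e0 / 4 ≤ |cylF J f P N S - (1 - rho) ^ 2 * ∑ z, w x y z|) := by
    apply PP_congr
    intro S _
    rw [hCy S]
  rw [hev]
  refine key.trans ?_
  have hmin : min (e0 ^ 2 / (512 * C ^ 2)) (e0 / (16 * C)) * n ≤
      min ((e0 / 4) ^ 2 / (4 * (8 * C ^ 2 / n))) (e0 / 4 / (2 * (2 * C / n))) := by
    apply le_min
    · have h1 : min (e0 ^ 2 / (512 * C ^ 2)) (e0 / (16 * C)) * n ≤ e0 ^ 2 / (512 * C ^ 2) * n :=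
        mul_le_mul_of_nonneg_right (min_le_left _ _) hn0.le
      refine h1.trans (le_of_eq ?_)
      field_simp
      ring
    · have h1 : min (e0 ^ 2 / (512 * C ^ 2)) (e0 / (16 * C)) * n ≤ e0 / (16 * C) * n :=
        mul_le_mul_of_nonneg_right (min_le_right _ _) hn0.le
      refine h1.trans (le_of_eq ?_)
      field_simp
      ring
  have := Real.exp_le_exp.mpr (neg_le_neg hmin)
  linarith

end
end Pool.Agent.APK
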