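import Pool.Agent.APK.RsvP
import Pool.Agent.APK.RsvQ

/-!
# APK/Rsv : existence of the reserve   (difficulty 3)

Union bound over `v` (`rsvD`), `(x,y)` (`rsvS`), `(x,y,z)` (`rsvP`): the sum of the probabilities is at most
`2n exp (-c n) + 2n² exp (-c n) + n³ exp (-c n) < 1` for large `n` with `c = min` of the three constants.  Take `S`
(`exists_of_PP`) that avoids all bad events, `B = BG G S`, `R = RG G S`,
`w' x y z = (1-e0)/(1-rho)² w x y z` if `s(x,y), s(y,z), s(x,z) ∉ S` (and `w' = 0` otherwise).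
* `Base.disj`: clear.  `dg B v + dg R v = dg G v`, so
  `|dg B v - (1-rho) d| ≤ |dg R v - rho dg G v| + (1-rho) |dg G v - d| ≤ e0 n/2 + e0 n/2 ≤ 3 e0 n`.
* `TriW B w' (2C) (3e0)`: `(1-e0)/(1-rho)² ≤ 64/49 ≤ 2`.  For `B.Adj x y`: `∑_z w' x y z =
  (1-e0)/(1-rho)² ∑_z w x y z [s(x,z), s(y,z) ∉ S]`, which differs from `(1-e0) σ` by at most
  `(1-e0)/(1-rho)² e0/4 ≤ (1 - e0) e0/2` (`(1-rho)² ≥ 49/64 ≥ 1/2`), `σ ∈ [1-e0, 1]`: so it is in `[(1-e0)(1-3e0/2), (1-e0)(1+e0/2)]`,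
  contained in `[1-3e0, 1]`.  If not `B.Adj x y`: if `w' x y z ≠ 0` then `w x y z ≠ 0` so `G.Adj x y`, and
  `s(x,y) ∉ S`; so the sum is `0`.
* `pat`: the sum with `w'` is `(1-e0)/(1-rho)² patS ≥ (7/8) rho^4 n²/20 ≥ rho^4/64 n²` (if `w' a v b ≠ 0` the three
  conditions of `patS` on `a v b` hold, otherwise the term is `0`).
-/

set_option autoImplicit false
open Finset
open scoped Classical

namespace Pool.Agent.APK
noncomputable section

theorem rsv_n0 {c : ℝ} (hc : 0 < c) : ∃ n0 : ℕ, ∀ n : ℕ, n0 ≤ n → 1 ≤ n ∧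
    (2 * (n : ℝ) + 2 * (n : ℝ) ^ 2 + (n : ℝ) ^ 3) * Real.exp (- (c * n)) < 1 := by
  refine ⟨⌈121 / c ^ 4⌉₊ + 1, fun n hn => ?_⟩
  have hn1 : 1 ≤ n := by omega
  have hn1' : (1 : ℝ) ≤ n := by exact_mod_cast hn1
  refine ⟨hn1, ?_⟩
  have h1 : 121 / c ^ 4 ≤ (n : ℝ) := by
    refine (Nat.le_ceil _).trans ?_
    have : ⌈121 / c ^ 4⌉₊ ≤ n := by omega
    exact_mod_cast this
  rw [div_le_iff₀ (by positivity)] at h1
  have h2 := Real.pow_div_factorial_le_exp (c * n) (by positivity) 4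
  have h3 : ((Nat.factorial 4 : ℕ) : ℝ) = 24 := by norm_num [Nat.factorial]
  rw [h3] at h2
  rw [Real.exp_neg, ← div_eq_mul_inv, div_lt_one (Real.exp_pos _)]
  refine lt_of_lt_of_le ?_ h2
  have h4 : (n : ℝ) ^ 1 ≤ (n : ℝ) ^ 3 := pow_le_pow_right₀ hn1' (by norm_num)
  have h5 : (n : ℝ) ^ 2 ≤ (n : ℝ) ^ 3 := pow_le_pow_right₀ hn1' (by norm_num)
  have h6 : (n : ℝ) ^ 3 * 121 ≤ (n : ℝ) ^ 3 * (n * c ^ 4) :=
    mul_le_mul_of_nonneg_left h1 (by positivity)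
  have h7 : (c * n) ^ 4 / 24 = (n : ℝ) ^ 3 * (n * c ^ 4) / 24 := by ring
  have h8 : (0 : ℝ) < (n : ℝ) ^ 3 := by positivity
  rw [h7]
  rw [pow_one] at h4
  linarith

theorem rsv_dg {n : ℕ} (G : SimpleGraph (Fin n)) (S : Finset (Sym2 (Fin n))) (v : Fin n) :
    (dg (BG G S) v : ℝ) + dg (RG G S) v = dg G v := by
  have h1 : dg (BG G S) v + dg (RG G S) v = dg G v := by
    unfold dg
    have h2 := Finset.card_filter_add_card_filter_not (s := univ.filter (fun u => G.Adj v u))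
      (fun u => s(v, u) ∉ S)
    rw [Finset.filter_filter, Finset.filter_filter] at h2
    rw [← h2]
    have e1 : univ.filter (fun u => (BG G S).Adj v u)
        = univ.filter (fun u => G.Adj v u ∧ s(v, u) ∉ S) := Finset.filter_congr fun _ _ => Iff.rfl
    have e2 : univ.filter (fun u => (RG G S).Adj v u)
        = univ.filter (fun u => G.Adj v u ∧ ¬ (s(v, u) ∉ S)) := by
      apply Finset.filter_congr
      intro u _
      rw [not_not]
      rfl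
    rw [e1, e2]
  exact_mod_cast h1

theorem rsv_S {n : ℕ} {C e0 rho ep d : ℝ} (he0 : 0 < e0)
    (he2 : e0 ≤ 1 / 8) (hr0 : 0 < rho) (hr1 : rho ≤ 1 / 8) (hC : 0 < C) (hn : 1 ≤ n)
    (G : SimpleGraph (Fin n)) (hd : ∀ v, |(dg G v : ℝ) - d| ≤ e0 / 2 * n)
    (w : Fin n → Fin n → Fin n → ℝ) (hw : TriW G w C e0) (S : Finset (Sym2 (Fin n)))
    (hD : ∀ v, |(dg (RG G S) v : ℝ) - rho * dg G v| < e0 / 2 * n)
    (hS : ∀ x y, |(∑ z, if s(x, z) ∉ S ∧ s(y, z) ∉ S then w x y z else 0)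
        - (1 - rho) ^ 2 * ∑ z, w x y z| < e0 / 4)
    (hP : ∀ x y z, rho ^ 4 * (n : ℝ) ^ 2 / 20 ≤ patS G w S x y z) :
    ∃ (B R : SimpleGraph (Fin n)) (w' : Fin n → Fin n → Fin n → ℝ), B ≤ G ∧ R ≤ G ∧
        Base B R w' (2 * C) (3 * e0) ((1 - rho) * d) (rho ^ 4 / 64) := by
  obtain ⟨κ, hκ⟩ : ∃ κ : ℝ, κ = (1 - e0) / (1 - rho) ^ 2 := ⟨_, rfl⟩
  have hrp : 0 < 1 - rho := by linarith
  have hr49 : 49 / 64 ≤ (1 - rho) ^ 2 := by nlinarith
  have hr_1 : (1 - rho) ^ 2 ≤ 1 := by nlinarith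
  have hκ1 : κ ≤ 2 * (1 - e0) := by
    rw [hκ, div_le_iff₀ (by positivity)]
    nlinarith
  have hκ2 : 7 / 8 ≤ κ := by
    rw [hκ, le_div_iff₀ (by positivity)]
    nlinarith
  have hκ0 : 0 ≤ κ := by linarith
  have hκr : κ * (1 - rho) ^ 2 = 1 - e0 := by
    rw [hκ]
    field_simp
  have hn0 : (0 : ℝ) < n := by exact_mod_cast hn
  obtain ⟨w', hw'⟩ : ∃ w' : Fin n → Fin n → Fin n → ℝ, ∀ x y z, w' x y z =
      if s(x, y) ∉ S ∧ s(y, z) ∉ S ∧ s(x, z) ∉ S then κ * w x y z else 0 := ⟨_, fun _ _ _ => rfl⟩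
  refine ⟨BG G S, RG G S, w', fun _ _ h => h.1, fun _ _ h => h.1, ?_⟩
  have hsum : ∀ x y, s(x, y) ∉ S → ∑ z, w' x y z
      = κ * ∑ z, if s(x, z) ∉ S ∧ s(y, z) ∉ S then w x y z else 0 := by
    intro x y hxy
    rw [Finset.mul_sum]
    refine Finset.sum_congr rfl fun z _ => ?_
    rw [hw']
    by_cases h : s(x, z) ∉ S ∧ s(y, z) ∉ S
    · rw [if_pos ⟨hxy, h.2, h.1⟩, if_pos h]
    · rw [if_neg (fun h' => h ⟨h'.2.2, h'.2.1⟩), if_neg h, mul_zero]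
  have hT : ∀ x y, κ * |(∑ z, if s(x, z) ∉ S ∧ s(y, z) ∉ S then w x y z else 0)
        - (1 - rho) ^ 2 * ∑ z, w x y z| ≤ e0 / 2 := by
    intro x y
    have h1 := mul_le_mul_of_nonneg_left (hS x y).le hκ0
    nlinarith
  have hT2 : ∀ x y, |κ * (∑ z, if s(x, z) ∉ S ∧ s(y, z) ∉ S then w x y z else 0)
        - (1 - e0) * ∑ z, w x y z| ≤ e0 / 2 := by
    intro x y
    have h1 := hT x y
    have h2 : κ * (∑ z, if s(x, z) ∉ S ∧ s(y, z) ∉ S then w x y z else 0)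
        - (1 - e0) * ∑ z, w x y z = κ * ((∑ z, if s(x, z) ∉ S ∧ s(y, z) ∉ S then w x y z else 0)
        - (1 - rho) ^ 2 * ∑ z, w x y z) := by
      rw [mul_sub, ← mul_assoc, hκr]
    rw [h2, abs_mul, abs_of_nonneg hκ0]
    exact h1
  refine ⟨?_, ?_, ⟨?_, ?_, ?_, ?_, ?_, ?_, ?_⟩, ?_⟩
  · rw [disjoint_iff_inf_le]
    intro u v h
    exact h.1.2 h.2.2
  · intro v
    have h1 := rsv_dg G S v
    have h2 := hD v
    have h3 := hd v
    have h4 : (dg (BG G S) v : ℝ) - (1 - rho) * d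
        = -((dg (RG G S) v : ℝ) - rho * dg G v) + (1 - rho) * ((dg G v : ℝ) - d) := by
      rw [← h1]
      ring
    rw [h4]
    refine (abs_add_le _ _).trans ?_
    rw [abs_neg, abs_mul, abs_of_pos hrp]
    have h5 : (1 - rho) * |(dg G v : ℝ) - d| ≤ 1 * (e0 / 2 * n) :=
      mul_le_mul (by linarith) h3 (abs_nonneg _) zero_le_one
    have h6 : 0 < e0 * n := by positivity
    linarith
  · intro x y z
    rw [hw']
    split_ifs
    · exact mul_nonneg hκ0 (hw.nonneg x y z)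
    · exact le_rfl
  · intro x y z
    rw [hw', hw', hw.symm1 x y z, Sym2.eq_swap (a := x) (b := y)]
    by_cases h : s(y, x) ∉ S ∧ s(y, z) ∉ S ∧ s(x, z) ∉ S
    · rw [if_pos h, if_pos ⟨h.1, h.2.2, h.2.1⟩]
    · rw [if_neg h, if_neg (fun h' => h ⟨h'.1, h'.2.2, h'.2.1⟩)]
  · intro x y z
    rw [hw', hw', hw.symm2 x y z, Sym2.eq_swap (a := y) (b := z)]
    by_cases h : s(x, y) ∉ S ∧ s(z, y) ∉ S ∧ s(x, z) ∉ S
    · rw [if_pos h, if_pos ⟨h.2.2, h.2.1, h.1⟩]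
    · rw [if_neg h, if_neg (fun h' => h ⟨h'.2.2, h'.2.1, h'.1⟩)]
  · intro x y z h
    rw [hw'] at h
    split_ifs at h with h1
    · have h2 := hw.supp x y z (right_ne_zero_of_mul h)
      exact ⟨⟨h2.1, h1.1⟩, ⟨h2.2.1, h1.2.1⟩, ⟨h2.2.2, h1.2.2⟩⟩
    · exact absurd rfl h
  · intro x y z
    rw [hw']
    split_ifs
    · have h1 := hw.le x y z
      have h2 := hw.nonneg x y z
      have h3 : κ * w x y z ≤ 2 * (C / n) := mul_le_mul (by linarith) h1 h2 (by norm_num)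
      rw [mul_div_assoc]
      exact h3
    · positivity
  · intro x y
    by_cases hxy : s(x, y) ∉ S
    · rw [hsum x y hxy]
      have h1 := (abs_le.mp (hT2 x y)).2
      have h2 := hw.sum_le x y
      have h3 : (1 - e0) * ∑ z, w x y z ≤ (1 - e0) * 1 :=
        mul_le_mul_of_nonneg_left h2 (by linarith)
      linarith
    · have h1 : ∑ z, w' x y z = 0 := by
        refine Finset.sum_eq_zero fun z _ => ?_
        rw [hw', if_neg (fun h => hxy h.1)]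
      rw [h1]
      exact zero_le_one
  · intro x y hxy
    rw [hsum x y hxy.2]
    have h1 := (abs_le.mp (hT2 x y)).1
    have h2 := hw.le_sum x y hxy.1
    have h3 : (1 - e0) * (1 - e0) ≤ (1 - e0) * ∑ z, w x y z :=
      mul_le_mul_of_nonneg_left h2 (by linarith)
    have h4 : 1 - 2 * e0 ≤ (1 - e0) * (1 - e0) := by nlinarith
    linarith
  · intro x y z
    have h1 : ∑ v, ∑ a, ∑ b, (if (RG G S).Adj y v ∧ (RG G S).Adj z v ∧ (RG G S).Adj x a ∧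
        (RG G S).Adj x b then w' a v b else 0) = κ * patS G w S x y z := by
      unfold patS
      rw [Finset.mul_sum]
      refine Finset.sum_congr rfl fun v _ => ?_
      rw [Finset.mul_sum]
      refine Finset.sum_congr rfl fun a _ => ?_
      rw [Finset.mul_sum]
      refine Finset.sum_congr rfl fun b _ => ?_
      by_cases hw0 : w a v b = 0
      · rw [hw', hw0]
        simp
      · have h2 := hw.supp a v b hw0
        by_cases h3 : (RG G S).Adj y v ∧ (RG G S).Adj z v ∧ (RG G S).Adj x a ∧ (RG G S).Adj x b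
        · rw [if_pos h3, hw']
          by_cases h4 : s(a, v) ∉ S ∧ s(v, b) ∉ S ∧ s(a, b) ∉ S
          · rw [if_pos h4, if_pos ⟨h3.1, h3.2.1, h3.2.2.1, h3.2.2.2, ⟨h2.1, h4.1⟩, ⟨h2.2.1, h4.2.1⟩,
              ⟨h2.2.2, h4.2.2⟩⟩]
          · rw [if_neg h4, if_neg (fun h5 => h4 ⟨h5.2.2.2.2.1.2, h5.2.2.2.2.2.1.2, h5.2.2.2.2.2.2.2⟩),
              mul_zero]
        · rw [if_neg h3, if_neg (fun h5 => h3 ⟨h5.1, h5.2.1, h5.2.2.1, h5.2.2.2.1⟩), mul_zero]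
    rw [h1]
    have h2 := hP x y z
    have h3 : 0 ≤ rho ^ 4 * (n : ℝ) ^ 2 / 20 := by positivity
    have h4 : 7 / 8 * (rho ^ 4 * (n : ℝ) ^ 2 / 20) ≤ κ * patS G w S x y z :=
      mul_le_mul hκ2 h2 h3 hκ0
    have h5 : rho ^ 4 / 64 * (n : ℝ) ^ 2 ≤ 7 / 8 * (rho ^ 4 * (n : ℝ) ^ 2 / 20) := by
      linarith
    linarith

theorem exists_base (ep e0 rho C : ℝ) (h0 : 0 < ep) (h1 : ep ≤ 1 / 4) (he0 : 0 < e0) (he1 : e0 ≤ ep)
    (he2 : e0 ≤ 1 / 8) (hr0 : 0 < rho) (hr1 : rho ≤ 1 / 8) (hC : 0 < C) :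
    ∃ n0 : ℕ, ∀ n : ℕ, n0 ≤ n → ∀ (G : SimpleGraph (Fin n)) (d : ℝ), (∀ v, (3 / 4 + ep) * n ≤ dg G v) →
      (∀ v, |(dg G v : ℝ) - d| ≤ e0 / 2 * n) → ∀ w, TriW G w C e0 →
      ∃ (B R : SimpleGraph (Fin n)) (w' : Fin n → Fin n → Fin n → ℝ), B ≤ G ∧ R ≤ G ∧
        Base B R w' (2 * C) (3 * e0) ((1 - rho) * d) (rho ^ 4 / 64) := by
  obtain ⟨c1, hc1⟩ : ∃ c1 : ℝ, c1 = e0 ^ 2 / 16 := ⟨_, rfl⟩
  obtain ⟨c2, hc2⟩ : ∃ c2 : ℝ, c2 = min (e0 ^ 2 / (512 * C ^ 2)) (e0 / (16 * C)) := ⟨_, rfl⟩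
  obtain ⟨c3, hc3⟩ : ∃ c3 : ℝ, c3 = rho ^ 8 / 400000 := ⟨_, rfl⟩
  obtain ⟨c, hcd⟩ : ∃ c : ℝ, c = min c1 (min c2 c3) := ⟨_, rfl⟩
  have hc1p : 0 < c1 := by rw [hc1]; positivity
  have hc2p : 0 < c2 := by
    rw [hc2]
    exact lt_min (by positivity) (by positivity)
  have hc3p : 0 < c3 := by rw [hc3]; positivity
  have hcp : 0 < c := by
    rw [hcd]
    exact lt_min hc1p (lt_min hc2p hc3p)
  have hcc1 : c ≤ c1 := by rw [hcd]; exact min_le_left _ _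
  have hcc2 : c ≤ c2 := by rw [hcd]; exact (min_le_right _ _).trans (min_le_left _ _)
  have hcc3 : c ≤ c3 := by rw [hcd]; exact (min_le_right _ _).trans (min_le_right _ _)
  obtain ⟨n1, hn1⟩ := rsvP ep e0 rho C h0 h1 he0 he1 hr0 hr1
  obtain ⟨n2, hn2⟩ := rsv_n0 hcp
  refine ⟨max n1 n2, ?_⟩
  intro n hn G d hG hGd w hw
  have hna : n1 ≤ n := (le_max_left _ _).trans hn
  obtain ⟨hnp, hlt⟩ := hn2 n ((le_max_right _ _).trans hn)
  have hn0 : (0 : ℝ) ≤ n := Nat.cast_nonneg _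
  have hp : IsP (fun _ => rho) (univ : Finset (Sym2 (Fin n))) :=
    fun _ _ => ⟨hr0.le, by linarith⟩
  obtain ⟨QD, hQD⟩ : ∃ QD : Fin n → Finset (Sym2 (Fin n)) → Prop, QD = fun v S =>
      e0 / 2 * n ≤ |(dg (RG G S) v : ℝ) - rho * dg G v| := ⟨_, rfl⟩
  obtain ⟨QS, hQS⟩ : ∃ QS : Fin n × Fin n → Finset (Sym2 (Fin n)) → Prop, QS = fun q S =>
      e0 / 4 ≤ |(∑ z, if s(q.1, z) ∉ S ∧ s(q.2, z) ∉ S then w q.1 q.2 z else 0)
        - (1 - rho) ^ 2 * ∑ z, w q.1 q.2 z| := ⟨_, rfl⟩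
  obtain ⟨QP, hQP⟩ : ∃ QP : Fin n × Fin n × Fin n → Finset (Sym2 (Fin n)) → Prop, QP = fun q S =>
      patS G w S q.1 q.2.1 q.2.2 < rho ^ 4 * (n : ℝ) ^ 2 / 20 := ⟨_, rfl⟩
  have hE : ∀ a : ℝ, c ≤ a → Real.exp (-(a * n)) ≤ Real.exp (-(c * n)) := by
    intro a ha
    apply Real.exp_le_exp.mpr
    have := mul_le_mul_of_nonneg_right ha hn0
    linarith
  have hbD : ∀ v, PP (fun _ => rho) univ (QD v) ≤ 2 * Real.exp (-(c * n)) := by
    intro v
    rw [hQD]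
    refine (rsvD e0 rho he0 (by linarith) hr0.le (by linarith) n hnp G v).trans ?_
    have h2 := hE _ hcc1
    rw [hc1] at h2
    linarith
  have hbS : ∀ q, PP (fun _ => rho) univ (QS q) ≤ 2 * Real.exp (-(c * n)) := by
    intro q
    rw [hQS]
    refine (rsvS e0 rho C he0 (by linarith) hr0.le (by linarith) hC n hnp G w e0 hw q.1 q.2).trans ?_
    have h2 := hE _ hcc2
    rw [hc2] at h2
    linarith
  have hbP : ∀ q, PP (fun _ => rho) univ (QP q) ≤ Real.exp (-(c * n)) := by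
    intro q
    rw [hQP]
    refine (hn1 n hna G hG w hw q.1 q.2.1 q.2.2).trans ?_
    have h2 := hE _ hcc3
    rw [hc3] at h2
    exact h2
  have hPP : PP (fun _ => rho) (univ : Finset (Sym2 (Fin n)))
      (fun S => (∃ v ∈ (univ : Finset (Fin n)), QD v S) ∨
        ((∃ q ∈ (univ : Finset (Fin n × Fin n)), QS q S) ∨
          ∃ q ∈ (univ : Finset (Fin n × Fin n × Fin n)), QP q S)) < 1 := by
    have g1 := PP_or hp (fun S => ∃ v ∈ (univ : Finset (Fin n)), QD v S)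
      (fun S => (∃ q ∈ (univ : Finset (Fin n × Fin n)), QS q S) ∨
          ∃ q ∈ (univ : Finset (Fin n × Fin n × Fin n)), QP q S)
    have g2 := PP_or hp (fun S => ∃ q ∈ (univ : Finset (Fin n × Fin n)), QS q S)
      (fun S => ∃ q ∈ (univ : Finset (Fin n × Fin n × Fin n)), QP q S)
    have g3 := PP_exists hp (univ : Finset (Fin n)) QD
    have g4 := PP_exists hp (univ : Finset (Fin n × Fin n)) QS
    have g5 := PP_exists hp (univ : Finset (Fin n × Fin n × Fin n)) QP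
    have g6 : ∑ v : Fin n, PP (fun _ => rho) univ (QD v) ≤ n * (2 * Real.exp (-(c * n))) := by
      refine (Finset.sum_le_sum fun v _ => hbD v).trans ?_
      rw [Finset.sum_const, Finset.card_univ, Fintype.card_fin, nsmul_eq_mul]
    have g7 : ∑ q : Fin n × Fin n, PP (fun _ => rho) univ (QS q)
        ≤ (n : ℝ) ^ 2 * (2 * Real.exp (-(c * n))) := by
      refine (Finset.sum_le_sum fun v _ => hbS v).trans ?_
      rw [Finset.sum_const, Finset.card_univ, Fintype.card_prod, Fintype.card_fin, nsmul_eq_mul]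
      push_cast
      rw [sq]
    have g8 : ∑ q : Fin n × Fin n × Fin n, PP (fun _ => rho) univ (QP q)
        ≤ (n : ℝ) ^ 3 * Real.exp (-(c * n)) := by
      refine (Finset.sum_le_sum fun v _ => hbP v).trans ?_
      rw [Finset.sum_const, Finset.card_univ, Fintype.card_prod, Fintype.card_prod,
        Fintype.card_fin, nsmul_eq_mul]
      push_cast
      apply le_of_eq
      ring
    refine lt_of_le_of_lt (b := (2 * (n : ℝ) + 2 * (n : ℝ) ^ 2 + (n : ℝ) ^ 3)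
      * Real.exp (- (c * n))) ?_ hlt
    have g9 : (2 * (n : ℝ) + 2 * (n : ℝ) ^ 2 + (n : ℝ) ^ 3) * Real.exp (- (c * n))
        = n * (2 * Real.exp (-(c * n))) + ((n : ℝ) ^ 2 * (2 * Real.exp (-(c * n)))
          + (n : ℝ) ^ 3 * Real.exp (-(c * n))) := by ring
    rw [g9]
    linarith
  obtain ⟨S, _, hS⟩ := exists_of_PP _ hPP
  rw [not_or, not_or] at hS
  obtain ⟨hS1, hS2, hS3⟩ := hS
  refine rsv_S (ep := ep) he0 he2 hr0 hr1 hC hnp G hGd w hw S ?_ ?_ ?_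
  · intro v
    by_contra h
    push Not at h
    exact hS1 ⟨v, Finset.mem_univ _, by rw [hQD]; exact h⟩
  · intro x y
    by_contra h
    push Not at h
    exact hS2 ⟨(x, y), Finset.mem_univ _, by rw [hQS]; exact h⟩
  · intro x y z
    by_contra h
    push Not at h
    exact hS3 ⟨(x, y, z), Finset.mem_univ _, by rw [hQP]; exact h⟩

end
end Pool.Agent.APK
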