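import Pool.Agent.APK.TilA

/-!
# APK/TilB : existence of the tile weights   (difficulty 3)

`ω T = fanW w T` if `T` is injective, `0` otherwise, `ℓ = m + 2`, `m ≥ 1`.

* `Sg`: `Sg w = ∑_v ∑_x σ v x`, `∑_x σ v x ∈ [(1-e) dg B v, dg B v]` (`σ ≤ 1`, `σ v x = 0` off `B`), so
  `(1-e) n (D - e n) ≤ Sg ≤ n (D + e n)`; with `D ≥ n/2`: `D ± e n` is between `D (1 - 2e)` and `D (1 + 2e)`;
  `Sg ≥ (1-e) n (n/2)(1-2e) ≥ n²/4` (`e ≤ 1/16`).
* density: `chW (w h) t = rs (t 0) ∏_{j<m} w h (t j) (t (j+1))/rs (t j) = w h (t 0) (t 1) ∏_{1 ≤ j < m} (…)`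
  `≤ (C/n) (2C/n)^(m-1)` (if the weight is not `0`, `rs (w h) (t j) = σ h (t j) ≥ 1 - e ≥ 1/2` since
  `B.Adj h (t j)`; and `w ≤ C/n`); so `fanW ≤ 4 (2C)^m / n^(m+2) ≤ C1/n^ℓ`, `C1 = 4 (2C+1)^K`.
* non-injective `T`: `∑_{T not injective} fanW T ≤ ∑_{a<b} #{T : T a = T b} C1/n^ℓ ≤ K² C1/n`; and with `T j = v` in
  addition: `≤ K² C1/n²` (the number of `T` with `T j = v`, `T a = T b`, `a ≠ b`, is at most `n^(ℓ-2)`).
* `marg_le`: `(∑_x σ v x)/Sg ≤ (D + e n)/((1-e) n (D - e n)) ≤ (1+2e)/((1-e)(1-2e) n) ≤ (1+8e)/n` for `e ≤ 1/16`.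
* `le_marg`: `≥ (1-e)(D - e n)/(n (D + e n)) - K² C1/n² ≥ (1-e)(1-2e)/((1+2e) n) - K² C1/n² ≥ (1-5e)/n - K² C1/n²
  ≥ (1-8e)/n` for `n ≥ K² C1/e`.
* `pair_le`: `σ/Sg ≤ 1/((1-e) n (D-en)) ≤ (1+8e)/(n D)`.
* `pat`: `fan_pat` minus the non-injective part: `≥ c² - K² C1/n ≥ c²/2` for large `n`.
-/

set_option autoImplicit false
open Finset
open scoped Classical

namespace Pool.Agent.APK
noncomputable section

section tilb
variable {n : ℕ} {B : SimpleGraph (Fin n)} {w : Fin n → Fin n → Fin n → ℝ} {C e : ℝ}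

theorem tilb_row_le (h : TriW B w C e) (v : Fin n) : ∑ x, ∑ z, w v x z ≤ dg B v := by
  unfold dg
  rw [Finset.card_filter, Nat.cast_sum]
  refine Finset.sum_le_sum fun x _ => ?_
  by_cases hx : B.Adj v x
  · rw [if_pos hx, Nat.cast_one]
    exact h.sum_le v x
  · rw [if_neg hx, Nat.cast_zero]
    refine le_of_eq (Finset.sum_eq_zero fun z _ => ?_)
    by_contra hne
    exact hx (h.supp v x z hne).1

theorem tilb_row_ge (h : TriW B w C e) (v : Fin n) : (1 - e) * dg B v ≤ ∑ x, ∑ z, w v x z := by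
  unfold dg
  rw [Finset.card_filter, Nat.cast_sum, Finset.mul_sum]
  refine Finset.sum_le_sum fun x _ => ?_
  by_cases hx : B.Adj v x
  · rw [if_pos hx, Nat.cast_one, mul_one]
    exact h.le_sum v x hx
  · rw [if_neg hx, Nat.cast_zero, mul_zero]
    exact Finset.sum_nonneg fun z _ => h.nonneg v x z

theorem tilb_chW (h : TriW B w C e) (he : e ≤ 1 / 2) (hC : 0 < C) (hn : 1 ≤ n) (a : Fin n) {m : ℕ}
    (t : Fin (m + 1) → Fin n) : chW (w a) t ≤ (2 * C / n) ^ m := by
  have hn' : (0 : ℝ) < n := by exact_mod_cast hn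
  by_cases h0 : chW (w a) t = 0
  · rw [h0]; positivity
  unfold chW at h0 ⊢
  have h2 := right_ne_zero_of_mul h0
  rw [Finset.prod_ne_zero_iff] at h2
  have hrs : rs (w a) (t 0) ≤ 1 := h.sum_le a (t 0)
  have hfac : ∀ j ∈ (univ : Finset (Fin m)), w a (t j.castSucc) (t j.succ) / rs (w a) (t j.castSucc)
      ≤ 2 * C / n := by
    intro j hj
    have h3 : w a (t j.castSucc) (t j.succ) ≠ 0 := fun hh => h2 j hj (by rw [hh, zero_div])
    have h4 : 1 / 2 ≤ rs (w a) (t j.castSucc) := by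
      have := h.le_sum a (t j.castSucc) (h.supp _ _ _ h3).1
      unfold rs
      linarith
    rw [div_le_iff₀ (by linarith)]
    have h5 := h.le a (t j.castSucc) (t j.succ)
    have h6 : 2 * C / n * (1 / 2) = C / n := by ring
    have h7 : 2 * C / n * (1 / 2) ≤ 2 * C / n * rs (w a) (t j.castSucc) :=
      mul_le_mul_of_nonneg_left h4 (by positivity)
    linarith
  have hfac0 : ∀ j ∈ (univ : Finset (Fin m)),
      0 ≤ w a (t j.castSucc) (t j.succ) / rs (w a) (t j.castSucc) := fun j _ =>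
    div_nonneg (h.nonneg _ _ _) (Finset.sum_nonneg fun z _ => h.nonneg _ _ _)
  have hp : ∏ j : Fin m, (w a (t j.castSucc) (t j.succ) / rs (w a) (t j.castSucc))
      ≤ (2 * C / n) ^ m := by
    refine (Finset.prod_le_prod hfac0 hfac).trans (le_of_eq ?_)
    rw [Finset.prod_const, Finset.card_univ, Fintype.card_fin]
  have hp0 : 0 ≤ ∏ j : Fin m, (w a (t j.castSucc) (t j.succ) / rs (w a) (t j.castSucc)) :=
    Finset.prod_nonneg hfac0
  calc rs (w a) (t 0) * ∏ j : Fin m, (w a (t j.castSucc) (t j.succ) / rs (w a) (t j.castSucc))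
      ≤ 1 * ∏ j : Fin m, (w a (t j.castSucc) (t j.succ) / rs (w a) (t j.castSucc)) :=
        mul_le_mul_of_nonneg_right hrs hp0
    _ ≤ (2 * C / n) ^ m := by rw [one_mul]; exact hp

theorem tilb_count {ℓ : ℕ} (j a b : Fin ℓ) (hab : a ≠ b) (v : Fin n) :
    (univ.filter (fun T : Fin ℓ → Fin n => T j = v ∧ T a = T b)).card ≤ n ^ (ℓ - 2) := by
  wlog hb : b ≠ j generalizing a b with H
  · have hbj : b = j := not_not.1 hb
    have ha : a ≠ j := fun hh => hab (hh.trans hbj.symm)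
    have := H b a hab.symm ha
    refine le_trans (le_of_eq ?_) this
    congr 1
    ext T
    simp only [Finset.mem_filter, Finset.mem_univ, true_and]
    exact ⟨fun h => ⟨h.1, h.2.symm⟩, fun h => ⟨h.1, h.2.symm⟩⟩
  have hcard : Fintype.card {i : Fin ℓ // i ∉ ({j, b} : Finset (Fin ℓ))} = ℓ - 2 := by
    rw [Fintype.card_subtype]
    have e1 : univ.filter (fun i : Fin ℓ => i ∉ ({j, b} : Finset (Fin ℓ))) = ({j, b} : Finset (Fin ℓ))ᶜ := by
      ext i
      rw [Finset.mem_filter, Finset.mem_compl]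
      exact ⟨fun h => h.2, fun h => ⟨Finset.mem_univ i, h⟩⟩
    rw [e1, Finset.card_compl, Finset.card_pair hb.symm, Fintype.card_fin]
  have h1 : Fintype.card ({i : Fin ℓ // i ∉ ({j, b} : Finset (Fin ℓ))} → Fin n) = n ^ (ℓ - 2) := by
    rw [Fintype.card_fun, hcard, Fintype.card_fin]
  rw [← h1, ← Finset.card_univ]
  refine Finset.card_le_card_of_injOn
    (fun T : Fin ℓ → Fin n => fun i : {i : Fin ℓ // i ∉ ({j, b} : Finset (Fin ℓ))} => T i.1)
    (fun _ _ => Finset.mem_coe.2 (Finset.mem_univ _)) ?_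
  intro T hT T' hT' he
  simp only [Finset.coe_filter, Finset.mem_univ, true_and, Set.mem_ofPred_eq] at hT hT'
  have key : ∀ i, i ≠ b → T i = T' i := by
    intro i hi
    by_cases hij : i = j
    · rw [hij, hT.1, hT'.1]
    · exact congrFun he ⟨i, by simp [hij, hi]⟩
  funext i
  by_cases hi : i = b
  · rw [hi, ← hT.2, ← hT'.2]
    exact key a hab
  · exact key i hi

theorem tilb_noninj {ℓ K : ℕ} (hℓ : ℓ ≤ K) (hℓ2 : 2 ≤ ℓ) (hn : 1 ≤ n) (j : Fin ℓ) (v : Fin n)
    (f : (Fin ℓ → Fin n) → ℝ) {C1 : ℝ} (hC1 : 0 ≤ C1)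
    (hf : ∀ T, f T ≤ C1 / (n : ℝ) ^ ℓ) :
    ∑ T, (if T j = v ∧ ¬ Function.Injective T then f T else 0) ≤ (K : ℝ) ^ 2 * C1 / (n : ℝ) ^ 2 := by
  have hn' : (0 : ℝ) < n := by exact_mod_cast hn
  rw [← Finset.sum_filter]
  have h1 : (univ.filter (fun T : Fin ℓ → Fin n => T j = v ∧ ¬ Function.Injective T)) ⊆
      ((univ : Finset (Fin ℓ × Fin ℓ)).filter (fun x => x.1 ≠ x.2)).biUnion
        (fun x => univ.filter (fun T : Fin ℓ → Fin n => T j = v ∧ T x.1 = T x.2)) := by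
    intro T hT
    simp only [Finset.mem_filter, Finset.mem_univ, true_and] at hT
    obtain ⟨hT1, hT2⟩ := hT
    unfold Function.Injective at hT2
    push Not at hT2
    obtain ⟨a, b, hab, hne⟩ := hT2
    refine Finset.mem_biUnion.2 ⟨(a, b), ?_, ?_⟩
    · simp [hne]
    · simp [hT1, hab]
  have h2 : (univ.filter (fun T : Fin ℓ → Fin n => T j = v ∧ ¬ Function.Injective T)).card
      ≤ K ^ 2 * n ^ (ℓ - 2) := by
    refine (Finset.card_le_card h1).trans (Finset.card_biUnion_le.trans ?_)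
    refine (Finset.sum_le_card_nsmul _ _ (n ^ (ℓ - 2)) fun x hx => ?_).trans ?_
    · exact tilb_count j x.1 x.2 (Finset.mem_filter.1 hx).2 v
    · rw [smul_eq_mul]
      refine Nat.mul_le_mul_right _ ((Finset.card_le_univ _).trans ?_)
      rw [Fintype.card_prod, Fintype.card_fin, sq]
      exact Nat.mul_le_mul hℓ hℓ
  have h3 : (((univ.filter (fun T : Fin ℓ → Fin n => T j = v ∧ ¬ Function.Injective T)).card : ℕ) : ℝ)
      ≤ (K : ℝ) ^ 2 * (n : ℝ) ^ (ℓ - 2) := by exact_mod_cast h2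
  refine (Finset.sum_le_card_nsmul _ _ (C1 / (n : ℝ) ^ ℓ) fun T _ => hf T).trans ?_
  rw [nsmul_eq_mul]
  refine (mul_le_mul_of_nonneg_right h3 (by positivity)).trans (le_of_eq ?_)
  have h4 : (n : ℝ) ^ ℓ = (n : ℝ) ^ (ℓ - 2) * (n : ℝ) ^ 2 := by
    rw [← pow_add]; congr 1; omega
  rw [h4]
  field_simp

theorem tilb_noninj_all {ℓ K : ℕ} (hℓ : ℓ ≤ K) (hℓ2 : 2 ≤ ℓ) (hn : 1 ≤ n)
    (f : (Fin ℓ → Fin n) → ℝ) {C1 : ℝ} (hC1 : 0 ≤ C1)
    (hf : ∀ T, f T ≤ C1 / (n : ℝ) ^ ℓ) :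
    ∑ T, (if ¬ Function.Injective T then f T else 0) ≤ (K : ℝ) ^ 2 * C1 / n := by
  have hn' : (0 : ℝ) < n := by exact_mod_cast hn
  have h1 : ∑ T, (if ¬ Function.Injective T then f T else 0)
      = ∑ v : Fin n, ∑ T, (if T (⟨0, by omega⟩ : Fin ℓ) = v ∧ ¬ Function.Injective T
          then f T else 0) := by
    rw [Finset.sum_comm]
    refine Finset.sum_congr rfl fun T _ => ?_
    rw [Finset.sum_eq_single (T (⟨0, by omega⟩ : Fin ℓ))]
    · simp
    · intro b _ hb
      rw [if_neg fun hh => hb hh.1.symm]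
    · intro h; exact absurd (Finset.mem_univ _) h
  rw [h1]
  refine (Finset.sum_le_sum fun v _ => tilb_noninj hℓ hℓ2 hn ⟨0, by omega⟩ v f hC1 hf).trans
    (le_of_eq ?_)
  rw [Finset.sum_const, Finset.card_univ, Fintype.card_fin, nsmul_eq_mul]
  field_simp

end tilb

theorem tilb_main {K : ℕ} {C e c C1 : ℝ} (hC : 0 < C) (he0 : 0 < e) (he1 : e ≤ 1 / 16) (hc0 : 0 < c)
    (hc1 : c ≤ 1) (hC1 : 4 * (2 * C + 1) ^ K ≤ C1) {n : ℕ} (hn : 1 ≤ n)
    (hn1 : (K : ℝ) ^ 2 * C1 ≤ e * n) (hn2 : (K : ℝ) ^ 2 * C1 ≤ c ^ 2 / 2 * n)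
    {B R : SimpleGraph (Fin n)} {w : Fin n → Fin n → Fin n → ℝ} {D : ℝ} (hB : Base B R w C e D c)
    (hD : (n : ℝ) / 2 ≤ D) {m : ℕ} (hm : 1 ≤ m) (hmK : m + 2 ≤ K) :
    Tile B R (m + 2) (fun T => if Function.Injective T then fanW w T else 0) C1 (8 * e) D
      (c ^ 2 / 2) := by
  have hn' : (0 : ℝ) < n := by exact_mod_cast hn
  have h := hB.tri
  have hD0 : 0 < D := by linarith
  have hen : e * n ≤ 2 * e * D := by nlinarith
  have hr1 : ∀ v, ∑ x, ∑ z, w v x z ≤ (1 + 2 * e) * D := by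
    intro v
    have h1 := tilb_row_le h v
    have h2 := (abs_le.1 (hB.deg v)).2
    linarith
  have hr2 : ∀ v, (1 - e) * ((1 - 2 * e) * D) ≤ ∑ x, ∑ z, w v x z := by
    intro v
    have h1 := tilb_row_ge h v
    have h2 := (abs_le.1 (hB.deg v)).1
    refine le_trans (mul_le_mul_of_nonneg_left ?_ (by linarith)) h1
    linarith
  have hSle : Sg w ≤ n * ((1 + 2 * e) * D) := by
    unfold Sg
    refine (Finset.sum_le_sum fun v _ => hr1 v).trans (le_of_eq ?_)
    rw [Finset.sum_const, Finset.card_univ, Fintype.card_fin, nsmul_eq_mul]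
  have hSge : n * ((1 - e) * ((1 - 2 * e) * D)) ≤ Sg w := by
    unfold Sg
    refine le_trans (le_of_eq ?_) (Finset.sum_le_sum fun v _ => hr2 v)
    rw [Finset.sum_const, Finset.card_univ, Fintype.card_fin, nsmul_eq_mul]
  have h12 : 0 < (1 - e) * (1 - 2 * e) := mul_pos (by linarith) (by linarith)
  have hP : 0 < n * ((1 - e) * ((1 - 2 * e) * D)) := by
    have := mul_pos hn' (mul_pos h12 hD0)
    linarith
  have hS : 0 < Sg w := lt_of_lt_of_le hP hSge
  have hS4 : (n : ℝ) ^ 2 / 4 ≤ Sg w := by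
    refine le_trans ?_ hSge
    have h3 : (1 : ℝ) / 2 ≤ (1 - e) * (1 - 2 * e) := by nlinarith
    have h4 : (1 / 2) * (n / 2) ≤ ((1 - e) * (1 - 2 * e)) * D :=
      mul_le_mul h3 hD (by positivity) h12.le
    have h5 := mul_le_mul_of_nonneg_left h4 hn'.le
    nlinarith
  have hC1p : 0 < C1 := lt_of_lt_of_le (by positivity) hC1
  -- density
  have hdens : ∀ T : Fin (m + 2) → Fin n, fanW w T ≤ C1 / (n : ℝ) ^ (m + 2) := by
    intro T
    unfold fanW
    have h1 := tilb_chW h (by linarith) hC hn (T 0) (Fin.tail T)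
    have h2 : chW (w (T 0)) (Fin.tail T) / Sg w ≤ (2 * C / n) ^ m / ((n : ℝ) ^ 2 / 4) :=
      div_le_div₀ (by positivity) h1 (by positivity) hS4
    refine h2.trans ?_
    have h3 : (2 * C / n) ^ m / ((n : ℝ) ^ 2 / 4) = 4 * (2 * C) ^ m / (n : ℝ) ^ (m + 2) := by
      rw [div_pow, pow_add]
      field_simp
    rw [h3]
    refine div_le_div_of_nonneg_right ?_ (by positivity)
    refine le_trans ?_ hC1
    have h4 : (2 * C) ^ m ≤ (2 * C + 1) ^ m := pow_le_pow_left₀ (by positivity) (by linarith) m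
    have h5 : (2 * C + 1) ^ m ≤ (2 * C + 1) ^ K := pow_le_pow_right₀ (by linarith) (by omega)
    linarith
  have hf0 : ∀ T : Fin (m + 2) → Fin n, 0 ≤ fanW w T := fun T => fan_nonneg h T
  have hω : ∀ T : Fin (m + 2) → Fin n, (if Function.Injective T then fanW w T else 0) ≤ fanW w T := by
    intro T
    split_ifs
    · exact le_rfl
    · exact hf0 T
  refine ⟨?_, ?_, ?_, ?_, ?_, ?_, ?_, ?_, ?_⟩
  · intro T
    show 0 ≤ (if Function.Injective T then fanW w T else 0)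
    split_ifs
    · exact hf0 T
    · exact le_rfl
  · intro T hT
    by_contra hi
    exact hT (if_neg hi)
  · intro T hT j
    refine fan_adj h hm T (fun h0 => hT ?_) j
    show (if Function.Injective T then fanW w T else 0) = 0
    rw [h0, ite_self]
  · intro T
    exact (hω T).trans (hdens T)
  · exact (Finset.sum_le_sum fun T _ => hω T).trans (fan_total h m)
  · intro j v
    have h1 : ∑ T : Fin (m + 2) → Fin n,
        (if T j = v then (if Function.Injective T then fanW w T else 0) else 0)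
        ≤ ∑ T : Fin (m + 2) → Fin n, (if T j = v then fanW w T else 0) := by
      refine Finset.sum_le_sum fun T _ => ?_
      by_cases hv : T j = v
      · rw [if_pos hv, if_pos hv]; exact hω T
      · rw [if_neg hv, if_neg hv]
    refine h1.trans ?_
    rw [fan_marg h j v, div_le_div_iff₀ hS hn']
    have h2 := hr1 v
    have h3 : (1 + 2 * e) ≤ (1 + 8 * e) * ((1 - e) * (1 - 2 * e)) := by
      nlinarith [mul_pos he0 he0, mul_nonneg he0.le (by linarith : (0 : ℝ) ≤ 1 / 16 - e),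
        mul_pos (mul_pos he0 he0) he0]
    have h4 := mul_le_mul_of_nonneg_left hSge (by linarith : (0 : ℝ) ≤ 1 + 8 * e)
    have h5 := mul_le_mul_of_nonneg_right h3 (mul_pos hn' hD0).le
    have h6 := mul_le_mul_of_nonneg_right h2 hn'.le
    nlinarith
  · intro j v
    have h1 : ∑ T : Fin (m + 2) → Fin n, (if T j = v then fanW w T else 0)
        = ∑ T : Fin (m + 2) → Fin n,
          (if T j = v then (if Function.Injective T then fanW w T else 0) else 0)
        + ∑ T : Fin (m + 2) → Fin n, (if T j = v ∧ ¬ Function.Injective T then fanW w T else 0) := by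
      rw [← Finset.sum_add_distrib]
      refine Finset.sum_congr rfl fun T _ => ?_
      by_cases hv : T j = v <;> by_cases hi : Function.Injective T <;> simp [hv, hi]
    have h2 := tilb_noninj hmK (by omega) hn j v (fanW w) hC1p.le hdens
    have h3 := fan_marg h j v
    have h4 : (1 - 5 * e) / n ≤ (∑ x, ∑ z, w v x z) / Sg w := by
      rw [div_le_div_iff₀ hn' hS]
      have h5 := hr2 v
      have h6 : (1 - 5 * e) * (1 + 2 * e) ≤ (1 - e) * (1 - 2 * e) := by nlinarith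
      have h7 := mul_le_mul_of_nonneg_left hSle (by linarith : (0 : ℝ) ≤ 1 - 5 * e)
      have h8 := mul_le_mul_of_nonneg_right h6 (mul_pos hn' hD0).le
      have h9 := mul_le_mul_of_nonneg_right h5 hn'.le
      nlinarith
    have h5 : (K : ℝ) ^ 2 * C1 / (n : ℝ) ^ 2 ≤ e / n := by
      rw [div_le_div_iff₀ (by positivity) hn']
      nlinarith
    have h6 : (1 - 8 * e) / n ≤ (1 - 5 * e) / n - e / n := by
      rw [← sub_div]
      exact div_le_div_of_nonneg_right (by linarith) hn'.le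
    have h7 : (1 - 8 * e) / n ≤ ∑ T : Fin (m + 2) → Fin n,
          (if T j = v then (if Function.Injective T then fanW w T else 0) else 0) := by
      linarith
    exact h7
  · intro j u v
    have h1 : ∑ T : Fin (m + 2) → Fin n,
        (if T j = u ∧ T (finRotate (m + 2) j) = v then
          (if Function.Injective T then fanW w T else 0) else 0)
        ≤ ∑ T : Fin (m + 2) → Fin n,
          (if T j = u ∧ T (finRotate (m + 2) j) = v then fanW w T else 0) := by
      refine Finset.sum_le_sum fun T _ => ?_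
      by_cases hv : T j = u ∧ T (finRotate (m + 2) j) = v
      · rw [if_pos hv, if_pos hv]; exact hω T
      · rw [if_neg hv, if_neg hv]
    refine h1.trans ?_
    rw [fan_pair h hm j u v, div_le_div_iff₀ hS (mul_pos hn' hD0)]
    have h2 := h.sum_le u v
    have h3 : 1 ≤ (1 + 8 * e) * ((1 - e) * (1 - 2 * e)) := by
      nlinarith [mul_pos he0 he0, mul_nonneg he0.le (by linarith : (0 : ℝ) ≤ 1 / 16 - e),
        mul_pos (mul_pos he0 he0) he0]
    have h4 := mul_le_mul_of_nonneg_left hSge (by linarith : (0 : ℝ) ≤ 1 + 8 * e)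
    have h5 := mul_le_mul_of_nonneg_right h3 (mul_pos hn' hD0).le
    have h6 := mul_le_mul_of_nonneg_right h2 (mul_pos hn' hD0).le
    nlinarith
  · intro j hj x y z
    have h1 := fan_pat h hc0 hc1 hn hm j hj x y z (hB.pat x y z)
    have h2 := tilb_noninj_all hmK (by omega) hn (fanW w (m := m)) hC1p.le hdens
    have h3 : (K : ℝ) ^ 2 * C1 / n ≤ c ^ 2 / 2 := by
      rw [div_le_iff₀ hn']; exact hn2
    have h4 : ∑ T : Fin (m + 2) → Fin n, (if R.Adj y (T j) ∧ R.Adj z (T j) ∧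
        R.Adj x (T ((finRotate (m + 2)).symm j)) ∧ R.Adj x (T (finRotate (m + 2) j))
          then fanW w T else 0)
        ≤ ∑ T : Fin (m + 2) → Fin n, (if R.Adj y (T j) ∧ R.Adj z (T j) ∧
        R.Adj x (T ((finRotate (m + 2)).symm j)) ∧ R.Adj x (T (finRotate (m + 2) j))
          then (if Function.Injective T then fanW w T else 0) else 0)
        + ∑ T : Fin (m + 2) → Fin n, (if ¬ Function.Injective T then fanW w T else 0) := by
      rw [← Finset.sum_add_distrib]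
      refine Finset.sum_le_sum fun T _ => ?_
      have h0 := hf0 T
      by_cases hv : R.Adj y (T j) ∧ R.Adj z (T j) ∧
        R.Adj x (T ((finRotate (m + 2)).symm j)) ∧ R.Adj x (T (finRotate (m + 2) j))
      · rw [if_pos hv, if_pos hv]
        by_cases hi : Function.Injective T
        · rw [if_pos hi, if_neg (not_not.2 hi), add_zero]
        · rw [if_neg hi, if_pos hi, zero_add]
      · rw [if_neg hv, if_neg hv, zero_add]
        split_ifs
        · exact le_rfl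
        · exact h0
    have h5 : c ^ 2 / 2 ≤ ∑ T : Fin (m + 2) → Fin n, (if R.Adj y (T j) ∧ R.Adj z (T j) ∧
        R.Adj x (T ((finRotate (m + 2)).symm j)) ∧ R.Adj x (T (finRotate (m + 2) j))
          then (if Function.Injective T then fanW w T else 0) else 0) := by
      linarith
    exact h5

theorem tile_exists (K : ℕ) (C e c : ℝ) (hC : 0 < C) (he0 : 0 < e) (he1 : e ≤ 1 / 16) (hc0 : 0 < c)
    (hc1 : c ≤ 1) :
    ∃ (C1 : ℝ) (n0 : ℕ), 1 ≤ C1 ∧ ∀ n : ℕ, n0 ≤ n → ∀ (B R : SimpleGraph (Fin n)) (w) (D : ℝ),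
      Base B R w C e D c → (n : ℝ) / 2 ≤ D → ∀ ℓ : ℕ, 3 ≤ ℓ → ℓ ≤ K →
      ∃ ω : (Fin ℓ → Fin n) → ℝ, Tile B R ℓ ω C1 (8 * e) D (c ^ 2 / 2) := by
  obtain ⟨n0, hn0⟩ := exists_nat_ge (max 1 (max ((K : ℝ) ^ 2 * (4 * (2 * C + 1) ^ K) / e)
    ((K : ℝ) ^ 2 * (4 * (2 * C + 1) ^ K) / (c ^ 2 / 2))))
  refine ⟨4 * (2 * C + 1) ^ K, n0, ?_, ?_⟩
  · have : (1 : ℝ) ≤ (2 * C + 1) ^ K := one_le_pow₀ (by linarith)
    linarith
  · intro n hn B R w D hB hD ℓ hℓ3 hℓK
    have hnn : (n0 : ℝ) ≤ n := by exact_mod_cast hn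
    have h1 : (1 : ℝ) ≤ n := ((le_max_left _ _).trans hn0).trans hnn
    have h2 := (((le_max_left _ _).trans (le_max_right _ _)).trans hn0).trans hnn
    have h3 := (((le_max_right _ _).trans (le_max_right _ _)).trans hn0).trans hnn
    rw [div_le_iff₀ he0] at h2
    rw [div_le_iff₀ (by positivity)] at h3
    obtain ⟨m, rfl⟩ : ∃ m, ℓ = m + 2 := ⟨ℓ - 2, by omega⟩
    exact ⟨_, tilb_main hC he0 he1 hc0 hc1 le_rfl (by exact_mod_cast h1) (by linarith) (by linarith)
      hB hD (by omega) hℓK⟩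

end
end Pool.Agent.APK
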