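import Pool.Agent.APK.FN3
import Pool.Agent.APK.Hof

/-!
# APK/Wts : bounded triangle weights with almost exact edge sums   (difficulty 3)

Take `s` from `hof`. For a good `ξ` let `wξ` be a weighting of the sampled graph `G.comap ξ` from `fn3`
(`Fintype.card (Fin s) = s`); for a bad `ξ` put `wξ = 0`.
`W x y z = n^2 / (s (s-1) n^s) * ∑_ξ ∑_{a,b,c} [ξ a = x, ξ b = y, ξ c = z] wξ a b c`.
* symmetric, nonnegative; support: `wξ a b c ≠ 0` gives `G.Adj (ξ a) (ξ b)` etc.
* `∑_z W x y z = n^2/(s(s-1)n^s) ∑_{a,b} ∑_ξ [ξ a = x, ξ b = y] ∑_c wξ a b c`.  If `G.Adj x y` the inner sum is `1` for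
  good `ξ` (`a`, `b` are adjacent in the sample) and `0` for bad ones; only `a ≠ b` contribute; the number of good `ξ`
  with `ξ a = x`, `ξ b = y` is between `n^(s-2) - e0 n^(s-2)` and `n^(s-2)`: so the sum is in `[1 - e0, 1]`.
  If not `G.Adj x y`, all terms vanish.
* `W x y z ≤ 2 s / n`: if `W x y z ≠ 0` then `x, y, z` are distinct, `wξ ≤ 1`, there are at most `s³` triples
  `(a,b,c)` (distinct), and `n^(s-3)` maps for each: `W ≤ n²/(s(s-1)n^s) s³ n^(s-3) = s²/((s-1) n) ≤ 2s/n`.
  (`s ≥ 3` if there are three distinct coordinates; for `s = 2` there are none and `W = 0`.)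
`C = 2 s`.
-/

set_option autoImplicit false
open Finset
open scoped Classical

namespace Pool.Agent.APK
noncomputable section

theorem wts_cnt (n s : ℕ) (A : Finset (Fin s)) (f : Fin s → Fin n) :
    (univ.filter (fun ξ : Fin s → Fin n => ∀ i ∈ A, ξ i = f i)).card = n ^ (s - A.card) := by
  have h1 : (univ.filter (fun ξ : Fin s → Fin n => ∀ i ∈ A, ξ i = f i)) =
      Fintype.piFinset (fun i => if i ∈ A then {f i} else univ) := by
    ext ξ
    simp only [mem_filter, mem_univ, true_and, Fintype.mem_piFinset]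
    constructor
    · intro h i
      by_cases hi : i ∈ A
      · simp [hi, h i hi]
      · simp [hi]
    · intro h i hi
      have := h i
      simpa [hi] using this
  rw [h1, Fintype.card_piFinset]
  have h2 : ∀ i : Fin s, (if i ∈ A then ({f i} : Finset (Fin n)) else univ).card = if i ∈ A then 1 else n := by
    intro i
    by_cases hi : i ∈ A
    · simp [hi]
    · simp [hi]
  rw [Finset.prod_congr rfl (fun i _ => h2 i), Finset.prod_ite]
  simp only [prod_const_one, one_mul, prod_const]
  congr 1
  rw [Finset.filter_not, Finset.card_sdiff_of_subset (Finset.filter_subset _ _)]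
  simp

theorem wts_cnt2 {n s : ℕ} {a b : Fin s} (hab : a ≠ b) (x y : Fin n) :
    (univ.filter (fun ξ : Fin s → Fin n => ξ a = x ∧ ξ b = y)).card = n ^ (s - 2) := by
  have h := wts_cnt n s {a, b} (fun i => if i = a then x else y)
  rw [Finset.card_pair hab] at h
  rw [← h]
  congr 1
  ext ξ
  simp only [mem_filter, mem_univ, true_and, mem_insert, mem_singleton, forall_eq_or_imp, forall_eq, if_true,
    if_neg (Ne.symm hab)]

theorem wts_cnt3 {n s : ℕ} {a b c : Fin s} (hab : a ≠ b) (hac : a ≠ c) (hbc : b ≠ c) (x y z : Fin n) :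
    (univ.filter (fun ξ : Fin s → Fin n => ξ a = x ∧ ξ b = y ∧ ξ c = z)).card = n ^ (s - 3) := by
  have h := wts_cnt n s {a, b, c} (fun i => if i = a then x else if i = b then y else z)
  have h3 : ({a, b, c} : Finset (Fin s)).card = 3 := Finset.card_eq_three.mpr ⟨a, b, c, hab, hac, hbc, rfl⟩
  rw [h3] at h
  rw [← h]
  congr 1
  ext ξ
  simp only [mem_filter, mem_univ, true_and, mem_insert, mem_singleton, forall_eq_or_imp, forall_eq, if_true,
    if_neg (Ne.symm hab), if_neg (Ne.symm hac), if_neg (Ne.symm hbc)]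

theorem wts_off (s : ℕ) (m : ℝ) :
    ∑ a : Fin s, ∑ b : Fin s, (if a = b then 0 else m) = s * (s - 1) * m := by
  have h : ∀ a : Fin s, ∑ b : Fin s, (if a = b then 0 else m) = (s - 1) * m := by
    intro a
    have h1 : ∀ b : Fin s, (if a = b then 0 else m) = m - (if a = b then m else 0) := by
      intro b
      by_cases hb : a = b
      · simp [hb]
      · simp [hb]
    rw [Finset.sum_congr rfl (fun b _ => h1 b), Finset.sum_sub_distrib]
    simp
    ring
  rw [Finset.sum_congr rfl (fun a _ => h a)]
  simp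
  ring

theorem wts_card {α : Type} [Fintype α] (P : α → Prop) [DecidablePred P] :
    ∑ x : α, (if P x then (1 : ℝ) else 0) = ((univ.filter P).card : ℝ) := by
  rw [Finset.sum_boole]

theorem wts (ep e0 : ℝ) (h0 : 0 < ep) (h1 : ep ≤ 1 / 4) (he : 0 < e0) :
    ∃ C : ℝ, 0 < C ∧ ∀ n : ℕ, 1 ≤ n → ∀ G : SimpleGraph (Fin n), (∀ v, (3 / 4 + ep) * n ≤ dg G v) →
      ∃ w, TriW G w C e0 := by
  obtain ⟨s, hs2, hof'⟩ := hof ep e0 h0 h1 he
  have hs2' : (2 : ℝ) ≤ s := by exact_mod_cast hs2
  refine ⟨s, by linarith, fun n hn G hG => ?_⟩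
  have hn' : (1 : ℝ) ≤ n := by exact_mod_cast hn
  have hn0 : (0 : ℝ) < n := by linarith
  have hbad := hof' n hn G hG
  have key : ∀ ξ : Fin s → Fin n, ∃ w : Fin s → Fin s → Fin s → ℝ,
      (∀ x y z, 0 ≤ w x y z ∧ w x y z ≤ 1) ∧ (∀ x y z, w x y z = w y x z) ∧
      (∀ x y z, w x y z = w x z y) ∧
      (∀ x y z, w x y z ≠ 0 → G.Adj (ξ x) (ξ y) ∧ G.Adj (ξ y) (ξ z) ∧ G.Adj (ξ x) (ξ z)) ∧
      (Good G ξ → ∀ x y, G.Adj (ξ x) (ξ y) → ∑ z, w x y z = 1) ∧ ∀ x y, ∑ z, w x y z ≤ 1 := by
    intro ξ
    by_cases hg : Good G ξ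
    · obtain ⟨w, hw1, hw2, hw3, hw4, hw5⟩ := fn3 (G.comap ξ) (fun v => by
        rw [Fintype.card_fin]; exact hg v)
      refine ⟨w, hw1, hw2, hw3, fun x y z h => hw4 x y z h, fun _ x y h => hw5 x y h, fun x y => ?_⟩
      by_cases h : (G.comap ξ).Adj x y
      · exact (hw5 x y h).le
      · have : ∑ z, w x y z = 0 := by
          apply Finset.sum_eq_zero
          intro z _
          by_contra hne
          exact h (hw4 x y z hne).1
        rw [this]; exact zero_le_one
    · exact ⟨fun _ _ _ => 0, fun _ _ _ => ⟨le_rfl, zero_le_one⟩, fun _ _ _ => rfl, fun _ _ _ => rfl,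
        fun _ _ _ h => (h rfl).elim, fun h => (hg h).elim, fun _ _ => by simp⟩
  choose wx hb hs1 hs2s hsu hone hle1 using key
  set K : ℝ := (n : ℝ) ^ 2 / (s * (s - 1) * (n : ℝ) ^ s) with hK
  have hK0 : 0 ≤ K := by
    have : (0 : ℝ) ≤ s - 1 := by linarith
    positivity
  have hKn : K * (s * (s - 1) * (n : ℝ) ^ (s - 2)) = 1 := by
    have e1 : (n : ℝ) ^ s = (n : ℝ) ^ 2 * (n : ℝ) ^ (s - 2) := by
      rw [← pow_add]; congr 1; omega
    have h3 : (s : ℝ) - 1 ≠ 0 := by linarith
    have h4 : (s : ℝ) ≠ 0 := by linarith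
    have h5 : (n : ℝ) ≠ 0 := hn0.ne'
    rw [hK, e1]
    field_simp
  set F : Fin n → Fin n → Fin n → (Fin s → Fin n) → Fin s → Fin s → Fin s → ℝ := fun x y z ξ a b c =>
    if ξ a = x ∧ ξ b = y ∧ ξ c = z then wx ξ a b c else 0 with hF
  have hF0 : ∀ x y z ξ a b c, 0 ≤ F x y z ξ a b c := by
    intro x y z ξ a b c
    simp only [hF]
    split_ifs
    · exact (hb ξ a b c).1
    · exact le_rfl
  set W : Fin n → Fin n → Fin n → ℝ := fun x y z => K * ∑ ξ, ∑ a, ∑ b, ∑ c, F x y z ξ a b c with hW
  -- marginals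
  have hsum : ∀ x y, ∑ z, W x y z = K * ∑ a : Fin s, ∑ b : Fin s, ∑ ξ : Fin s → Fin n,
      (if ξ a = x ∧ ξ b = y then ∑ c, wx ξ a b c else 0) := by
    intro x y
    simp only [hW]
    rw [← Finset.mul_sum]
    congr 1
    rw [Finset.sum_comm]
    have e1 : ∀ ξ : Fin s → Fin n, ∑ z, ∑ a, ∑ b, ∑ c, F x y z ξ a b c =
        ∑ a : Fin s, ∑ b : Fin s, (if ξ a = x ∧ ξ b = y then ∑ c, wx ξ a b c else 0) := by
      intro ξ
      rw [Finset.sum_comm]
      refine Finset.sum_congr rfl fun a _ => ?_
      rw [Finset.sum_comm]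
      refine Finset.sum_congr rfl fun b _ => ?_
      rw [Finset.sum_comm]
      by_cases h : ξ a = x ∧ ξ b = y
      · rw [if_pos h]
        refine Finset.sum_congr rfl fun c _ => ?_
        simp only [hF, h.1, h.2, true_and]
        simp
      · rw [if_neg h]
        refine Finset.sum_eq_zero fun c _ => Finset.sum_eq_zero fun z _ => ?_
        simp only [hF]
        rw [if_neg]
        rintro ⟨h1, h2, _⟩
        exact h ⟨h1, h2⟩
    rw [Finset.sum_congr rfl (fun ξ _ => e1 ξ), Finset.sum_comm]
    refine Finset.sum_congr rfl fun a _ => ?_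
    rw [Finset.sum_comm]
  have hdiag : ∀ (ξ : Fin s → Fin n) (a : Fin s), ∑ c, wx ξ a a c = 0 := by
    intro ξ a
    refine Finset.sum_eq_zero fun c _ => ?_
    by_contra hne
    exact G.loopless.irrefl _ (hsu ξ a a c hne).1
  refine ⟨W, ?_, ?_, ?_, ?_, ?_, ?_, ?_⟩
  · intro x y z
    exact mul_nonneg hK0 (Finset.sum_nonneg fun ξ _ => Finset.sum_nonneg fun a _ => Finset.sum_nonneg fun b _ =>
      Finset.sum_nonneg fun c _ => hF0 x y z ξ a b c)
  · intro x y z
    simp only [hW]
    congr 1
    refine Finset.sum_congr rfl fun ξ _ => ?_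
    rw [Finset.sum_comm]
    refine Finset.sum_congr rfl fun a _ => Finset.sum_congr rfl fun b _ => Finset.sum_congr rfl fun c _ => ?_
    simp only [hF]
    by_cases h : ξ b = x ∧ ξ a = y ∧ ξ c = z
    · rw [if_pos h, if_pos ⟨h.2.1, h.1, h.2.2⟩, hs1]
    · rw [if_neg h, if_neg (fun h' => h ⟨h'.2.1, h'.1, h'.2.2⟩)]
  · intro x y z
    simp only [hW]
    congr 1
    refine Finset.sum_congr rfl fun ξ _ => Finset.sum_congr rfl fun a _ => ?_
    rw [Finset.sum_comm]
    refine Finset.sum_congr rfl fun b _ => Finset.sum_congr rfl fun c _ => ?_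
    simp only [hF]
    by_cases h : ξ a = x ∧ ξ c = y ∧ ξ b = z
    · rw [if_pos h, if_pos ⟨h.1, h.2.2, h.2.1⟩, hs2s]
    · rw [if_neg h, if_neg (fun h' => h ⟨h'.1, h'.2.2, h'.2.1⟩)]
  · intro x y z hne
    have h2 : ∑ ξ, ∑ a, ∑ b, ∑ c, F x y z ξ a b c ≠ 0 := by
      intro h
      apply hne
      simp only [hW]
      rw [h, mul_zero]
    obtain ⟨ξ, _, h3⟩ := Finset.exists_ne_zero_of_sum_ne_zero h2
    obtain ⟨a, _, h4⟩ := Finset.exists_ne_zero_of_sum_ne_zero h3
    obtain ⟨b, _, h5⟩ := Finset.exists_ne_zero_of_sum_ne_zero h4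
    obtain ⟨c, _, h6⟩ := Finset.exists_ne_zero_of_sum_ne_zero h5
    simp only [hF] at h6
    by_cases h : ξ a = x ∧ ξ b = y ∧ ξ c = z
    · rw [if_pos h] at h6
      have := hsu ξ a b c h6
      rw [h.1, h.2.1, h.2.2] at this
      exact this
    · rw [if_neg h] at h6
      exact (h6 rfl).elim
  · intro x y z
    -- each triple contributes at most the number of maps
    have hT : ∀ a b c : Fin s, ∑ ξ : Fin s → Fin n, F x y z ξ a b c ≤
        if a = b then 0 else (n : ℝ) ^ (s - 2) / n := by
      intro a b c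
      by_cases hab : a = b
      · rw [if_pos hab]
        refine (Finset.sum_eq_zero fun ξ _ => ?_).le
        simp only [hF]
        split_ifs with h
        · by_contra hne
          subst hab
          exact G.loopless.irrefl _ (hsu ξ a a c hne).1
        · rfl
      · rw [if_neg hab]
        by_cases hac : a = c
        · have : ∑ ξ : Fin s → Fin n, F x y z ξ a b c = 0 := by
            refine Finset.sum_eq_zero fun ξ _ => ?_
            simp only [hF]
            split_ifs with h
            · by_contra hne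
              subst hac
              exact G.loopless.irrefl _ (hsu ξ a b a hne).2.2
            · rfl
          rw [this]; positivity
        · by_cases hbc : b = c
          · have : ∑ ξ : Fin s → Fin n, F x y z ξ a b c = 0 := by
              refine Finset.sum_eq_zero fun ξ _ => ?_
              simp only [hF]
              split_ifs with h
              · by_contra hne
                subst hbc
                exact G.loopless.irrefl _ (hsu ξ a b b hne).2.1
              · rfl
            rw [this]; positivity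
          · have hs3 : 3 ≤ s := by
              have h3 : ({a, b, c} : Finset (Fin s)).card = 3 := Finset.card_eq_three.mpr ⟨a, b, c, hab, hac, hbc, rfl⟩
              have h4 := Finset.card_le_univ ({a, b, c} : Finset (Fin s))
              rw [h3, Fintype.card_fin] at h4
              exact h4
            calc ∑ ξ : Fin s → Fin n, F x y z ξ a b c
                ≤ ∑ ξ : Fin s → Fin n, (if ξ a = x ∧ ξ b = y ∧ ξ c = z then (1 : ℝ) else 0) := by
                  refine Finset.sum_le_sum fun ξ _ => ?_
                  simp only [hF]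
                  split_ifs
                  · exact (hb ξ a b c).2
                  · exact le_rfl
              _ = (n : ℝ) ^ (s - 3) := by
                  rw [wts_card, wts_cnt3 hab hac hbc]
                  push_cast
                  rfl
              _ = (n : ℝ) ^ (s - 2) / n := by
                  rw [eq_div_iff hn0.ne', ← pow_succ]
                  congr 1
                  omega
    have hR : ∑ ξ, ∑ a, ∑ b, ∑ c, F x y z ξ a b c =
        ∑ a : Fin s, ∑ b : Fin s, ∑ c : Fin s, ∑ ξ : Fin s → Fin n, F x y z ξ a b c := by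
      rw [Finset.sum_comm]
      refine Finset.sum_congr rfl fun a _ => ?_
      rw [Finset.sum_comm]
      refine Finset.sum_congr rfl fun b _ => ?_
      rw [Finset.sum_comm]
    calc W x y z = K * ∑ a : Fin s, ∑ b : Fin s, ∑ c : Fin s, ∑ ξ : Fin s → Fin n, F x y z ξ a b c := by
          simp only [hW]; rw [hR]
      _ ≤ K * ∑ a : Fin s, ∑ b : Fin s, ∑ c : Fin s, (if a = b then 0 else (n : ℝ) ^ (s - 2) / n) :=
          mul_le_mul_of_nonneg_left (Finset.sum_le_sum fun a _ => Finset.sum_le_sum fun b _ =>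
            Finset.sum_le_sum fun c _ => hT a b c) hK0
      _ = K * (s * (s * (s - 1) * ((n : ℝ) ^ (s - 2) / n))) := by
          congr 1
          rw [← wts_off s ((n : ℝ) ^ (s - 2) / n), Finset.mul_sum]
          refine Finset.sum_congr rfl fun a _ => ?_
          rw [Finset.mul_sum]
          refine Finset.sum_congr rfl fun b _ => ?_
          simp
      _ = (K * (s * (s - 1) * (n : ℝ) ^ (s - 2))) * (s / n) := by ring
      _ = s / n := by rw [hKn, one_mul]
  · intro x y
    rw [hsum]
    calc K * ∑ a : Fin s, ∑ b : Fin s, ∑ ξ : Fin s → Fin n, (if ξ a = x ∧ ξ b = y then ∑ c, wx ξ a b c else 0)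
        ≤ K * ∑ a : Fin s, ∑ b : Fin s, (if a = b then 0 else (n : ℝ) ^ (s - 2)) := by
          refine mul_le_mul_of_nonneg_left (Finset.sum_le_sum fun a _ => Finset.sum_le_sum fun b _ => ?_) hK0
          by_cases hab : a = b
          · rw [if_pos hab]
            subst hab
            refine (Finset.sum_eq_zero fun ξ _ => ?_).le
            rw [hdiag]
            simp
          · rw [if_neg hab]
            calc ∑ ξ : Fin s → Fin n, (if ξ a = x ∧ ξ b = y then ∑ c, wx ξ a b c else 0)
                ≤ ∑ ξ : Fin s → Fin n, (if ξ a = x ∧ ξ b = y then (1 : ℝ) else 0) := by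
                  refine Finset.sum_le_sum fun ξ _ => ?_
                  split_ifs
                  · exact hle1 ξ a b
                  · exact le_rfl
              _ = (n : ℝ) ^ (s - 2) := by
                  rw [wts_card, wts_cnt2 hab]
                  push_cast
                  rfl
      _ = K * (s * (s - 1) * (n : ℝ) ^ (s - 2)) := by rw [wts_off]
      _ = 1 := hKn
      _ ≤ 1 := le_rfl
  · intro x y hxy
    rw [hsum]
    calc 1 - e0 = K * (s * (s - 1) * ((1 - e0) * (n : ℝ) ^ (s - 2))) := by
          have : K * (s * (s - 1) * ((1 - e0) * (n : ℝ) ^ (s - 2))) =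
              (K * (s * (s - 1) * (n : ℝ) ^ (s - 2))) * (1 - e0) := by ring
          rw [this, hKn, one_mul]
      _ = K * ∑ a : Fin s, ∑ b : Fin s, (if a = b then 0 else (1 - e0) * (n : ℝ) ^ (s - 2)) := by rw [wts_off]
      _ ≤ K * ∑ a : Fin s, ∑ b : Fin s, ∑ ξ : Fin s → Fin n,
            (if ξ a = x ∧ ξ b = y then ∑ c, wx ξ a b c else 0) := by
          refine mul_le_mul_of_nonneg_left (Finset.sum_le_sum fun a _ => Finset.sum_le_sum fun b _ => ?_) hK0
          by_cases hab : a = b
          · rw [if_pos hab]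
            refine Finset.sum_nonneg fun ξ _ => ?_
            split_ifs
            · exact Finset.sum_nonneg fun c _ => (hb ξ a b c).1
            · exact le_rfl
          · rw [if_neg hab]
            have hc1 : ∑ ξ : Fin s → Fin n, (if ξ a = x ∧ ξ b = y then (1 : ℝ) else 0) = (n : ℝ) ^ (s - 2) := by
              rw [wts_card, wts_cnt2 hab]
              push_cast
              rfl
            have hc2 : ∑ ξ : Fin s → Fin n, (if ξ a = x ∧ ξ b = y ∧ ¬ Good G ξ then (1 : ℝ) else 0) ≤
                e0 * (n : ℝ) ^ (s - 2) := by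
              rw [wts_card]
              exact hbad a b hab x y
            have hc3 : ∑ ξ : Fin s → Fin n, (if ξ a = x ∧ ξ b = y then (1 : ℝ) else 0) -
                ∑ ξ : Fin s → Fin n, (if ξ a = x ∧ ξ b = y ∧ ¬ Good G ξ then (1 : ℝ) else 0) ≤
                ∑ ξ : Fin s → Fin n, (if ξ a = x ∧ ξ b = y then ∑ c, wx ξ a b c else 0) := by
              rw [← Finset.sum_sub_distrib]
              refine Finset.sum_le_sum fun ξ _ => ?_
              by_cases hP : ξ a = x ∧ ξ b = y
              · rw [if_pos hP, if_pos hP]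
                by_cases hg : Good G ξ
                · rw [if_neg (fun h => h.2.2 hg), sub_zero, hone ξ hg a b (by rw [hP.1, hP.2]; exact hxy)]
                · rw [if_pos ⟨hP.1, hP.2, hg⟩, sub_self]
                  exact Finset.sum_nonneg fun c _ => (hb ξ a b c).1
              · rw [if_neg hP, if_neg hP, if_neg (fun h => hP ⟨h.1, h.2.1⟩), sub_zero]
            rw [hc1] at hc3
            linarith

end
end Pool.Agent.APK
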