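import Pool.Agent.APK.Mid
import Pool.Agent.APK.Wts
import Pool.Agent.APK.Rsv
import Pool.Agent.APK.TilB
import Pool.Agent.APK.Prm
import Pool.Agent.APK.Chk
import Pool.Agent.APK.FLf
import Pool.Agent.APK.PetM

/-!
# APK/Main : assembly (helper18)
-/

set_option autoImplicit false
open Finset
open scoped Classical

namespace Pool.Agent.APK
noncomputable section

theorem core (ep et : ℝ) (hep : 0 < ep) (hep1 : ep ≤ 1 / 4) (het : 0 < et) (het1 : et ≤ 1 / 2) :
    ∃ n0 : ℕ, ∀ n : ℕ, n0 ≤ n → ∀ (G : SimpleGraph (Fin n)) (d : ℕ), (∀ v, dg G v = d) →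
      (3 / 4 + ep) * n ≤ (d : ℝ) → ∀ (t : ℕ), (n : ℝ) / 8 ≤ t → ∀ (F : Fin t → SimpleGraph (Fin n)),
      (∀ i v, dg (F i) v = 2) → 2 * (t : ℝ) ≤ (1 - et) * d →
      ∃ H : Fin t → SimpleGraph (Fin n), (∀ i, Nonempty (F i ≃g H i)) ∧ (∀ i, H i ≤ G) ∧
        ∀ i j, i ≠ j → Disjoint (H i) (H j) := by
  -- constants
  set rho : ℝ := et / 4 with hrho
  have hr0 : 0 < rho := by rw [hrho]; linarith
  have hr1 : rho ≤ 1 / 8 := by rw [hrho]; linarith
  set cc : ℝ := rho ^ 4 / 64 with hcc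
  have hcc0 : 0 < cc := by rw [hcc]; positivity
  have hcc1 : cc ≤ 1 := by
    rw [hcc]
    have : rho ^ 4 ≤ 1 := pow_le_one₀ hr0.le (by linarith)
    linarith
  set ct : ℝ := cc ^ 2 / 2 with hct
  have hct0 : 0 < ct := by rw [hct]; positivity
  have hct1 : ct ≤ 1 := by
    rw [hct]
    have : cc ^ 2 ≤ 1 := pow_le_one₀ hcc0.le hcc1
    linarith
  set c1 : ℝ := ct / 8 with hc1
  have hc10 : 0 < c1 := by rw [hc1]; positivity
  have hc11 : c1 ≤ 1 := by rw [hc1]; linarith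
  set kap : ℝ := c1 / 32 with hkap
  have hkap0 : 0 < kap := by rw [hkap]; positivity
  set lam : ℝ := c1 ^ 2 / 3000 with hlam
  have hlam0 : 0 < lam := by rw [hlam]; positivity
  have hlam1 : lam ≤ 1 := by
    rw [hlam]
    have : c1 ^ 2 ≤ 1 := pow_le_one₀ hc10.le hc11
    linarith
  have hnum : 9 * lam + 18 * lam / kap + 8 * lam + 8 * kap < c1 := by
    have h1 : 18 * lam / kap = 18 * 32 / 3000 * c1 := by
      rw [hlam, hkap]
      field_simp
    rw [h1]
    have h2 : lam ≤ c1 / 3000 := by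
      rw [hlam]
      have : c1 ^ 2 ≤ c1 := by nlinarith
      linarith
    have h3 : kap = c1 / 32 := hkap
    rw [h3]
    linarith
  set e0 : ℝ := min ep (min (1 / 48) (lam / 192)) with he0
  have he00 : 0 < e0 := by
    rw [he0]
    exact lt_min hep (lt_min (by norm_num) (by positivity))
  have he01 : e0 ≤ ep := min_le_left _ _
  have he02 : e0 ≤ 1 / 48 := (min_le_right _ _).trans (min_le_left _ _)
  have he03 : e0 ≤ lam / 192 := (min_le_right _ _).trans (min_le_right _ _)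
  obtain ⟨C0, hC0, hW⟩ := wts ep e0 hep hep1 he00
  obtain ⟨nA, hA⟩ := exists_base ep e0 rho C0 hep hep1 he00 he01 (by linarith) hr0 hr1 hC0
  set L : ℕ := max 8 ⌈32 / lam⌉₊ with hL
  have hL8 : 8 ≤ L := le_max_left _ _
  have hL1 : 32 / lam ≤ (L : ℝ) := (Nat.le_ceil _).trans (by exact_mod_cast le_max_right _ _)
  have hL0 : (0 : ℝ) < L := by
    have : (8 : ℝ) ≤ L := by exact_mod_cast hL8
    linarith
  have hL2 : 4 / (L : ℝ) ≤ lam / 8 := by
    rw [div_le_iff₀ hL0]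
    rw [div_le_iff₀ hlam0] at hL1
    linarith
  have hL3 : 2 / (L : ℝ) ≤ lam / 8 := by
    refine le_trans ?_ hL2
    apply div_le_div_of_nonneg_right (by norm_num) hL0.le
  set K : ℕ := (L + 1) ^ 2 with hK
  have hK3 : 3 ≤ K := by
    rw [hK]
    nlinarith
  obtain ⟨C1, nB, hC1, hB⟩ := tile_exists K (2 * C0) (3 * e0) cc (by linarith) (by linarith) (by linarith)
    hcc0 hcc1
  obtain ⟨nC, hC⟩ := mid K hK3 lam ct C1 hlam0 hlam1 hct0 hct1 hC1
  refine ⟨max (max nA nB) (max nC (max ⌈2 / kap⌉₊ 1)), ?_⟩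
  intro n hn G d hGd hd t ht F hF htd
  have hnA : nA ≤ n := le_trans (le_trans (le_max_left _ _) (le_max_left _ _)) hn
  have hnB : nB ≤ n := le_trans (le_trans (le_max_right _ _) (le_max_left _ _)) hn
  have hnC : nC ≤ n := le_trans (le_trans (le_max_left _ _) (le_max_right _ _)) hn
  have hnD : ⌈2 / kap⌉₊ ≤ n :=
    le_trans (le_trans (le_max_left _ _) (le_trans (le_max_right _ _) (le_max_right _ _))) hn
  have hn1 : 1 ≤ n :=
    le_trans (le_trans (le_max_right _ _) (le_trans (le_max_right _ _) (le_max_right _ _))) hn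
  have hn0 : (0 : ℝ) < n := by exact_mod_cast hn1
  have hkn : 2 ≤ kap * n := by
    have h1 : 2 / kap ≤ (n : ℝ) := (Nat.le_ceil _).trans (by exact_mod_cast hnD)
    rw [div_le_iff₀ hkap0] at h1
    linarith
  have hdeg : ∀ v, (3 / 4 + ep) * n ≤ dg G v := by
    intro v
    rw [hGd v]
    exact hd
  obtain ⟨w, hw⟩ := hW n hn1 G hdeg
  obtain ⟨B, R, w', hBG, hRG, hBase⟩ := hA n hnA G d hdeg (by
    intro v
    rw [hGd v, sub_self, abs_zero]
    positivity) w hw
  have hdn : (d : ℝ) ≤ n := by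
    obtain ⟨v⟩ : Nonempty (Fin n) := ⟨⟨0, hn1⟩⟩
    rw [← hGd v]
    unfold dg
    have := card_le_univ (univ.filter (fun u => G.Adj v u))
    rw [Fintype.card_fin] at this
    exact_mod_cast this
  have hd34 : 3 / 4 * (n : ℝ) ≤ d := by nlinarith
  have hD : (n : ℝ) / 2 ≤ (1 - rho) * d := by nlinarith
  have htile := fun ℓ h3 hk => hB n hnB B R w' ((1 - rho) * d) hBase hD ℓ h3 hk
  let om : (ℓ : ℕ) → (Fin ℓ → Fin n) → ℝ := fun ℓ =>
    if h : 3 ≤ ℓ ∧ ℓ ≤ K then (htile ℓ h.1 h.2).choose else fun _ => 0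
  have hom : ∀ ℓ, 3 ≤ ℓ → ℓ ≤ K → Tile B R ℓ (om ℓ) C1 (8 * (3 * e0)) ((1 - rho) * d) (cc ^ 2 / 2) := by
    intro ℓ h3 hk
    have h1 : om ℓ = (htile ℓ h3 hk).choose := dif_pos ⟨h3, hk⟩
    rw [h1]
    exact (htile ℓ h3 hk).choose_spec
  choose π hπ1 hπ2 hπ3 using fun i => exists_perm (F i) (hF i)
  choose len hl1 hl2 hl3 hl4 using fun i => chunks L hL8 (π i) (hπ2 i) (hπ3 i)
  have htn : t ≤ n := by
    have h1 : (t : ℝ) ≤ n := by nlinarith
    exact_mod_cast h1
  have hApp : App t n K π len B R om (lam / 8) C1 (8 * (3 * e0)) ((1 - rho) * d) (cc ^ 2 / 2) :=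
    { npos := hn1
      tn := htn
      K3 := hK3
      chunk := hl1
      tile := hom
      ga0 := by positivity
      ga1 := by linarith
      C1 := hC1
      e0 := by positivity
      e1 := by linarith
      Dpos := by nlinarith
      vert := by
        have h1 : 8 * (3 * e0) ≤ lam / 8 := by linarith
        nlinarith
      edge := by
        have h1 : 8 * (3 * e0) ≤ lam / 8 := by linarith
        have h2 : (1 - lam / 8) * (1 + 8 * (3 * e0)) ≤ 1 := by nlinarith
        have h3 : (0 : ℝ) ≤ 2 * t := by positivity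
        have h4 : (1 - lam / 8) * (1 + 8 * (3 * e0)) * (2 * t) ≤ 1 * (2 * (t : ℝ)) :=
          mul_le_mul_of_nonneg_right h2 h3
        have h5 : (1 - et) * (d : ℝ) ≤ (1 - rho) * d := by
          apply mul_le_mul_of_nonneg_right _ (by positivity)
          rw [hrho]; linarith
        linarith }
  obtain ⟨φ, Dm, hFL⟩ := hC n hnC t ht π len B R om (8 * (3 * e0)) ((1 - rho) * d) hApp (by linarith)
    (fun i => by
      refine le_trans ?_ (hl2 i)
      apply mul_le_mul_of_nonneg_right _ hn0.le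
      linarith)
    (fun i => by
      refine le_trans ?_ (hl3 i)
      apply mul_le_mul_of_nonneg_right _ hn0.le
      linarith)
    (fun i => hl4 i)
  obtain ⟨ψ, hψ1, hψ2⟩ := finish hFL hBase.disj hπ2 hπ3 htn hlam0.le hkap0 hkn hnum
  refine ⟨fun i => (F i).map (ψ i).toEmbedding, ?_, ?_, ?_⟩
  · intro i
    exact ⟨SimpleGraph.Iso.map (ψ i) (F i)⟩
  · intro i a b hab
    rw [SimpleGraph.map_adj] at hab
    obtain ⟨u, v, huv, rfl, rfl⟩ := hab
    have h1 : (B ⊔ R).Adj (ψ i u) (ψ i v) := by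
      rcases (hπ1 i u v).1 huv with h | h
      · rw [h]; exact hψ1 i u
      · rw [h]; exact (hψ1 i v).symm
    rcases h1 with h1 | h1
    · exact hBG h1
    · exact hRG h1
  · intro i j hij
    rw [SimpleGraph.disjoint_left]
    intro a b h1 h2
    rw [SimpleGraph.map_adj] at h1 h2
    obtain ⟨u, v, huv, ha, hb⟩ := h1
    obtain ⟨u', v', huv', ha', hb'⟩ := h2
    have e1 : ∃ p, s(a, b) = s(ψ i p, ψ i (π i p)) := by
      rcases (hπ1 i u v).1 huv with h | h
      · refine ⟨u, ?_⟩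
        rw [← h, ← ha, ← hb]; rfl
      · refine ⟨v, ?_⟩
        rw [← h, ← ha, ← hb, Sym2.eq_swap]; rfl
    have e2 : ∃ r, s(a, b) = s(ψ j r, ψ j (π j r)) := by
      rcases (hπ1 j u' v').1 huv' with h | h
      · refine ⟨u', ?_⟩
        rw [← h, ← ha', ← hb']; rfl
      · refine ⟨v', ?_⟩
        rw [← h, ← ha', ← hb', Sym2.eq_swap]; rfl
    obtain ⟨p, hp⟩ := e1
    obtain ⟨r, hr⟩ := e2
    exact hψ2 i j p r hij (hp.symm.trans hr)

theorem approx (ep et : ℝ) (hep : 0 < ep) (het : 0 < et) :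
    ∃ n0 : ℕ, ∀ n : ℕ, n0 ≤ n → ∀ (G : SimpleGraph (Fin n)) (d : ℕ), (∀ v, dg G v = d) →
      (3 / 4 + ep) * n ≤ (d : ℝ) → ∀ (t : ℕ) (F : Fin t → SimpleGraph (Fin n)),
      (∀ i v, dg (F i) v = 2) → 2 * (t : ℝ) ≤ (1 - et) * d →
      ∃ H : Fin t → SimpleGraph (Fin n), (∀ i, Nonempty (F i ≃g H i)) ∧ (∀ i, H i ≤ G) ∧
        ∀ i j, i ≠ j → Disjoint (H i) (H j) := by
  obtain ⟨n1, h1⟩ := core (min ep (1 / 4)) (min et (1 / 2)) (lt_min hep (by norm_num)) (min_le_right _ _)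
    (lt_min het (by norm_num)) (min_le_right _ _)
  refine ⟨max n1 16, ?_⟩
  intro n hn G d hG hd t F hF ht
  rcases Nat.eq_zero_or_pos t with ht0 | ht0
  · subst ht0
    exact ⟨F, fun i => i.elim0, fun i => i.elim0, fun i => i.elim0⟩
  have hn1 : n1 ≤ n := le_trans (le_max_left _ _) hn
  have hn16 : 16 ≤ n := le_trans (le_max_right _ _) hn
  have hn16r : (16 : ℝ) ≤ n := by exact_mod_cast hn16
  have hd0 : (0 : ℝ) ≤ d := by positivity
  have he1 : min ep (1 / 4) ≤ ep := min_le_left _ _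
  have he2 : min et (1 / 2) ≤ et := min_le_left _ _
  have he3 : min et (1 / 2) ≤ 1 / 2 := min_le_right _ _
  have hd' : (3 / 4 + min ep (1 / 4)) * n ≤ (d : ℝ) := by
    refine le_trans ?_ hd
    apply mul_le_mul_of_nonneg_right _ (by linarith)
    linarith
  have hd34 : 3 / 4 * (n : ℝ) ≤ d := by nlinarith
  set t' : ℕ := ⌊(1 - min et (1 / 2)) * d / 2⌋₊ with ht'
  have hx0 : (0 : ℝ) ≤ (1 - min et (1 / 2)) * d / 2 := by
    apply div_nonneg _ (by norm_num)
    apply mul_nonneg _ hd0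
    linarith
  have htt : t ≤ t' := by
    rw [ht']
    apply Nat.le_floor
    have h2 : (1 - et) * (d : ℝ) ≤ (1 - min et (1 / 2)) * d :=
      mul_le_mul_of_nonneg_right (by linarith) hd0
    linarith
  have ht'1 : 2 * (t' : ℝ) ≤ (1 - min et (1 / 2)) * d := by
    have h2 := Nat.floor_le hx0
    rw [← ht'] at h2
    linarith
  have ht'2 : (n : ℝ) / 8 ≤ t' := by
    have h2 := Nat.lt_floor_add_one ((1 - min et (1 / 2)) * d / 2)
    rw [← ht'] at h2
    have h3 : (1 / 2) * (d : ℝ) ≤ (1 - min et (1 / 2)) * d :=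
      mul_le_mul_of_nonneg_right (by linarith) hd0
    linarith
  let F' : Fin t' → SimpleGraph (Fin n) := fun i => if h : i.val < t then F ⟨i.val, h⟩ else F ⟨0, ht0⟩
  have hF' : ∀ i v, dg (F' i) v = 2 := by
    intro i v
    by_cases h : i.val < t
    · have h2 : F' i = F ⟨i.val, h⟩ := dif_pos h
      rw [h2]; exact hF _ _
    · have h2 : F' i = F ⟨0, ht0⟩ := dif_neg h
      rw [h2]; exact hF _ _
  obtain ⟨H, hH1, hH2, hH3⟩ := h1 n hn1 G d hG hd' t' ht'2 F' hF' ht'1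
  refine ⟨fun i => H (Fin.castLE htt i), ?_, ?_, ?_⟩
  · intro i
    have h2 : F' (Fin.castLE htt i) = F i := by
      have h3 : (Fin.castLE htt i).val < t := i.2
      exact dif_pos h3
    rw [← h2]
    exact hH1 _
  · intro i
    exact hH2 _
  · intro i j hij
    apply hH3
    intro h
    apply hij
    exact Fin.castLE_injective htt h

end
end Pool.Agent.APK
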