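import Pool.Agent.APK.AlvP
import Pool.Agent.APK.Ber

/-!
# APK/MatA : isolated edges inside the support of a test function   (difficulty 3)

`Eg = {i : w_i ≠ 0 and g_i ≠ 0}`; for `S ⊆ Eg`: `isoS g S = ∑_{i ∈ S isolated in S} g_i`.
Expectation: `E isoS = ∑_{i ∈ Eg} g_i p_i ∏_{j ∈ Eg, j ≠ i, V j ∩ V i ≠ ∅} (1 - p_j)` (`EE_sum`, `PP_cyl` with
`B = {i}`, `C` = the others that meet `V i`), and `∏ (1 - p_j) ≥ 1 - ∑ p_j ≥ 1 - 2 k ze` (`touch`), `p_i = ze w_i`, so
`E isoS ≥ ze (1 - 2 k ze) Γ`, `Γ = Gam w g = ∑_{i ∈ Eg} w_i g_i`.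
`bernstein_low` with constant `c_j = 2k`, `b = 2k`: comparing `S.erase j` and `insert j S`: an index isolated in
`insert j S` and different from `j` is isolated in `S.erase j`; the indices `i` isolated in `S.erase j` but not in
`insert j S` meet `V j`, their `V i` are pairwise disjoint, so there are at most `|V j| ≤ k` of them
(choose a point of `V i ∩ V j`: injective). So the change is between `-k` and `1`.
`V = ∑_{i∈Eg} p_i (2k)² = 4k² ze ∑_{Eg} w_i ≤ 4 k³ ze Γ` because `g_i ≥ 1/k` on `Eg`; `lam = eta ze Γ`: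
`lam²/(4V) = eta² ze Γ/(16 k³) ≥ Lam`, `lam/(2b) = eta ze Γ/(4k) ≥ Lam`.
-/

set_option autoImplicit false
open Finset
open scoped Classical

namespace Pool.Agent.APK
noncomputable section

variable {I X : Type} [Fintype I] [DecidableEq I] [Fintype X] [DecidableEq X]

/-- support of the test function -/
def Eg (w g : I → ℝ) : Finset I := univ.filter (fun i => w i ≠ 0 ∧ g i ≠ 0)

/-- weight of the isolated edges of `S` -/
def isoS (V : I → Finset X) (g : I → ℝ) (S : Finset I) : ℝ := ∑ i, if Iso V S i then g i else 0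

theorem mata_prod {κ : Type} (C : Finset κ) (q : κ → ℝ) (h0 : ∀ j ∈ C, 0 ≤ q j) (h1 : ∀ j ∈ C, q j ≤ 1) :
    1 - ∑ j ∈ C, q j ≤ ∏ j ∈ C, (1 - q j) := by
  induction C using Finset.induction_on with
  | empty => simp
  | insert a C ha ih =>
    rw [Finset.sum_insert ha, Finset.prod_insert ha]
    have ih' := ih (fun j hj => h0 j (Finset.mem_insert_of_mem hj)) (fun j hj => h1 j (Finset.mem_insert_of_mem hj))
    have ha0 := h0 a (Finset.mem_insert_self _ _)
    have ha1 := h1 a (Finset.mem_insert_self _ _)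
    have hs : 0 ≤ ∑ j ∈ C, q j := Finset.sum_nonneg fun j hj => h0 j (Finset.mem_insert_of_mem hj)
    have h2 := mul_le_mul_of_nonneg_left ih' (by linarith : 0 ≤ 1 - q a)
    nlinarith

/-- pairwise disjoint sets that meet `Y` -/
theorem mata_card {V : I → Finset X} (B : Finset I) (Y : Finset X)
    (hB : ∀ i ∈ B, ∀ j ∈ B, i ≠ j → Disjoint (V i) (V j)) (hY : ∀ i ∈ B, ¬ Disjoint (V i) Y) :
    B.card ≤ (Y.filter (fun y => ∃ i ∈ B, y ∈ V i)).card := by
  rcases B.eq_empty_or_nonempty with rfl | ⟨i₀, hi₀⟩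
  · simp
  obtain ⟨y₀, -, -⟩ := Finset.not_disjoint_iff.1 (hY i₀ hi₀)
  have hch : ∀ i : I, ∃ y : X, i ∈ B → y ∈ V i ∧ y ∈ Y := by
    intro i
    by_cases hi : i ∈ B
    · obtain ⟨y, hy1, hy2⟩ := Finset.not_disjoint_iff.1 (hY i hi)
      exact ⟨y, fun _ => ⟨hy1, hy2⟩⟩
    · exact ⟨y₀, fun h => absurd h hi⟩
  choose f hf using hch
  apply Finset.card_le_card_of_injOn f
  · intro i hi
    exact Finset.mem_coe.2 (Finset.mem_filter.2 ⟨(hf i hi).2, i, hi, (hf i hi).1⟩)
  · intro i hi j hj hij
    by_contra hne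
    have h1 := hf i hi
    have h2 := hf j hj
    rw [← hij] at h2
    exact Finset.disjoint_left.1 (hB i hi j hj hne) h1.1 h2.1

theorem mata_EE {k : ℕ} {ze de s : ℝ} {V : I → Finset X} {p w : I → ℝ} (h : Round k ze de s V p w)
    (g : I → ℝ) (hg : ∀ i, 0 ≤ g i ∧ g i ≤ 1) :
    ze * (1 - 2 * k * ze) * Gam w g ≤ EE p (Eg w g) (isoS V g) := by
  have hP := isP_univ h (Eg w g)
  have e1 : EE p (Eg w g) (isoS V g) = ∑ i, g i * PP p (Eg w g) (fun S => Iso V S i) := by
    have e2 : EE p (Eg w g) (isoS V g) = ∑ i, EE p (Eg w g) (fun S => if Iso V S i then g i else 0) :=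
      EE_sum p (Eg w g) univ (fun i S => if Iso V S i then g i else 0)
    rw [e2]
    apply Finset.sum_congr rfl
    intro i _
    unfold PP
    rw [← EE_mul]
    apply EE_congr
    intro S _
    by_cases hi : Iso V S i
    · simp [hi]
    · simp [hi]
  rw [e1]
  unfold Gam
  rw [Finset.mul_sum]
  apply Finset.sum_le_sum
  intro i _
  by_cases hi : i ∈ Eg w g
  · have hwi : w i ≠ 0 := (Finset.mem_filter.1 hi).2.1
    have e3 : PP p (Eg w g) (fun S => Iso V S i) =
        (∏ j ∈ ({i} : Finset I), p j) * ∏ j ∈ (Eg w g).filter (fun j => j ≠ i ∧ ¬ Disjoint (V j) (V i)), (1 - p j) := by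
      rw [← PP_cyl (A := Eg w g) (Finset.singleton_subset_iff.2 hi) (Finset.filter_subset _ _)
        (by
          rw [Finset.disjoint_singleton_left]
          intro hh
          exact (Finset.mem_filter.1 hh).2.1 rfl)]
      apply PP_congr
      intro S hS
      constructor
      · intro hI
        refine ⟨Finset.singleton_subset_iff.2 hI.1, ?_⟩
        rw [Finset.disjoint_left]
        intro j hj hjS
        have hj' := (Finset.mem_filter.1 hj).2
        exact hj'.2 ((hI.2 j hjS hj'.1).symm)
      · rintro ⟨h1, h2⟩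
        refine ⟨Finset.singleton_subset_iff.1 h1, fun j hj hji => ?_⟩
        by_contra hd
        exact Finset.disjoint_left.1 h2 (Finset.mem_filter.2 ⟨hS hj, hji, fun hd' => hd hd'.symm⟩) hj
    have e4 : 1 - 2 * k * ze ≤ ∏ j ∈ (Eg w g).filter (fun j => j ≠ i ∧ ¬ Disjoint (V j) (V i)), (1 - p j) := by
      refine le_trans ?_ (mata_prod _ _ (fun j _ => h.p0 j) (fun j _ => (h.p1 j).trans (by norm_num)))
      have e5 : ∑ j ∈ (Eg w g).filter (fun j => j ≠ i ∧ ¬ Disjoint (V j) (V i)), p j ≤
          ∑ j ∈ Eg w g, (if Disjoint (V j) (V i) then 0 else p j) := by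
        rw [Finset.sum_filter]
        apply Finset.sum_le_sum
        intro j _
        by_cases hd : Disjoint (V j) (V i)
        · simp [hd]
        · by_cases hji : j = i
          · simp only [hji, ne_eq, not_true_eq_false, false_and, if_false]
            split_ifs
            · exact le_rfl
            · exact h.p0 i
          · simp [hd, hji]
      have e6 := touch h (V i) (Eg w g)
      have e7 : 2 * ze * ((V i).card : ℝ) ≤ 2 * ze * k := by
        apply mul_le_mul_of_nonneg_left
        · exact_mod_cast h.card i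
        · have := h.ze0
          linarith
      linarith
    rw [e3, Finset.prod_singleton, h.pw i hwi]
    have h0 := h.w0 i
    have h1 := (hg i).1
    have h2 := h.ze0
    have h3 : 0 ≤ g i * (ze * w i) := by positivity
    have h4 := mul_le_mul_of_nonneg_left e4 h3
    calc ze * (1 - 2 * k * ze) * (w i * g i) = g i * (ze * w i) * (1 - 2 * k * ze) := by ring
      _ ≤ _ := h4
      _ = _ := by ring
  · have h1 : w i * g i = 0 := by
      by_contra hne
      have := mul_ne_zero_iff.1 hne
      exact hi (Finset.mem_filter.2 ⟨Finset.mem_univ _, this⟩)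
    rw [h1, mul_zero]
    exact mul_nonneg (hg i).1 (PP_nonneg hP _)

theorem mata_step {k : ℕ} {V : I → Finset X} (hk : 1 ≤ k) (hcard : ∀ i, (V i).card ≤ k)
    (g : I → ℝ) (hg : ∀ i, 0 ≤ g i ∧ g i ≤ 1) (j : I) (S : Finset I) :
    |isoS V g (insert j S) - isoS V g (S.erase j)| ≤ 2 * k := by
  have hk' : (1 : ℝ) ≤ k := by exact_mod_cast hk
  have hmono : ∀ i, i ≠ j → Iso V (insert j S) i → Iso V (S.erase j) i := by
    intro i hij hI
    refine ⟨Finset.mem_erase.2 ⟨hij, ?_⟩, fun j' hj' hne => ?_⟩
    · exact (Finset.mem_insert.1 hI.1).resolve_left hij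
    · exact hI.2 j' (Finset.mem_insert_of_mem (Finset.mem_of_mem_erase hj')) hne
  have hnj : ¬ Iso V (S.erase j) j := fun hI => (Finset.notMem_erase j S) hI.1
  rw [abs_le]
  constructor
  · have h1 : isoS V g (S.erase j) - isoS V g (insert j S) ≤
        ∑ i, if (Iso V (S.erase j) i ∧ ¬ Disjoint (V i) (V j)) then (1 : ℝ) else 0 := by
      unfold isoS
      rw [← Finset.sum_sub_distrib]
      apply Finset.sum_le_sum
      intro i _
      by_cases hI0 : Iso V (S.erase j) i
      · by_cases hd : Disjoint (V i) (V j)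
        · have hI1 : Iso V (insert j S) i := by
            refine ⟨Finset.mem_insert_of_mem (Finset.mem_of_mem_erase hI0.1), fun j' hj' hne => ?_⟩
            rcases Finset.mem_insert.1 hj' with rfl | hj''
            · exact hd
            · by_cases hjj : j' = j
              · rw [hjj]
                exact hd
              · exact hI0.2 j' (Finset.mem_erase.2 ⟨hjj, hj''⟩) hne
          simp [hI0, hI1, hd]
        · simp only [hI0, if_true, hd, not_false_eq_true, and_self]
          split_ifs
          · linarith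
          · linarith [(hg i).2]
      · simp only [hI0, if_false, false_and]
        split_ifs
        · linarith [(hg i).1]
        · simp
    have h2 : (∑ i, if (Iso V (S.erase j) i ∧ ¬ Disjoint (V i) (V j)) then (1 : ℝ) else 0) ≤ k := by
      rw [← Finset.sum_filter, Finset.sum_const, nsmul_eq_mul, mul_one]
      have h3 := mata_card (V := V) (univ.filter (fun i => Iso V (S.erase j) i ∧ ¬ Disjoint (V i) (V j))) (V j)
        (fun i hi i' hi' hne => (Finset.mem_filter.1 hi).2.1.2 i' (Finset.mem_filter.1 hi').2.1.1 hne.symm)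
        (fun i hi => (Finset.mem_filter.1 hi).2.2)
      have h4 := h3.trans ((Finset.card_filter_le _ _).trans (hcard j))
      exact_mod_cast h4
    linarith
  · have h1 : isoS V g (insert j S) - isoS V g (S.erase j) ≤ ∑ i, if i = j then (1 : ℝ) else 0 := by
      unfold isoS
      rw [← Finset.sum_sub_distrib]
      apply Finset.sum_le_sum
      intro i _
      by_cases hij : i = j
      · rw [hij]
        simp only [hnj, if_false, if_true, sub_zero]
        split_ifs
        · exact (hg j).2
        · norm_num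
      · simp only [hij, if_false]
        by_cases hI1 : Iso V (insert j S) i
        · have hI0 := hmono i hij hI1
          simp [hI0, hI1]
        · simp only [hI1, if_false]
          split_ifs
          · linarith [(hg i).1]
          · simp
    have h2 : (∑ i, if i = j then (1 : ℝ) else 0) = 1 := by
      simp
    linarith

theorem matA {k : ℕ} {ze de s : ℝ} {V : I → Finset X} {p w : I → ℝ} (h : Round k ze de s V p w)
    {eta Lam : ℝ} (he0 : 0 < eta) (he1 : eta ≤ 1 / 8) (g : I → ℝ) (hg : ∀ i, 0 ≤ g i ∧ g i ≤ 1)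
    (hgk : ∀ i, g i ≠ 0 → 1 / k ≤ g i) (hG : 0 < Gam w g)
    (h1 : 16 * k ^ 3 * Lam ≤ eta ^ 2 * ze * Gam w g) (h2 : 4 * k * Lam ≤ eta * ze * Gam w g) :
    PP p (Eg w g) (fun S => isoS V g S < (1 - 2 * k * ze - eta) * ze * Gam w g) ≤ Real.exp (-Lam) := by
  have hk : (1 : ℝ) ≤ k := by exact_mod_cast h.kpos
  have hk0 : (0 : ℝ) < k := by linarith
  have hz := h.ze0
  have hP := isP_univ h (Eg w g)
  have hlam : 0 ≤ eta * ze * Gam w g := by positivity
  have hVpos : 0 < 4 * (k : ℝ) ^ 3 * ze * Gam w g := by positivity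
  have key := bernstein_low (p := p) (A := Eg w g) hP (f := isoS V g) (c := fun _ => 2 * (k : ℝ)) (b := 2 * (k : ℝ))
    (V := 4 * (k : ℝ) ^ 3 * ze * Gam w g) (lam := eta * ze * Gam w g) (by positivity) hVpos hlam
    (fun _ _ => ⟨by positivity, le_rfl⟩)
    (fun j _ S _ => mata_step h.kpos h.card g hg j S)
    (by
      have h3 : ∀ i ∈ Eg w g, p i * (2 * (k : ℝ)) ^ 2 ≤ 4 * (k : ℝ) ^ 3 * ze * (w i * g i) := by
        intro i hi
        have hi' := (Finset.mem_filter.1 hi).2
        rw [h.pw i hi'.1]
        have h4 := hgk i hi'.2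
        have h5 : 1 ≤ k * g i := by
          rw [div_le_iff₀ hk0] at h4
          linarith
        have h6 : 0 ≤ ze * w i * (4 * (k : ℝ) ^ 2) := by
          have := h.w0 i
          positivity
        have h7 := mul_le_mul_of_nonneg_left h5 h6
        calc ze * w i * (2 * (k : ℝ)) ^ 2 = ze * w i * (4 * (k : ℝ) ^ 2) * 1 := by ring
          _ ≤ _ := h7
          _ = _ := by ring
      refine (Finset.sum_le_sum h3).trans ?_
      rw [← Finset.mul_sum]
      apply mul_le_mul_of_nonneg_left _ (by positivity)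
      unfold Gam
      apply Finset.sum_le_sum_of_subset_of_nonneg (Finset.subset_univ _)
      intro i _ _
      exact mul_nonneg (h.w0 i) (hg i).1)
  refine le_trans (PP_mono hP (Q' := fun S => isoS V g S ≤ EE p (Eg w g) (isoS V g) - eta * ze * Gam w g) ?_) (key.trans ?_)
  · intro S _ hS
    have h3 := mata_EE h g hg
    show isoS V g S ≤ _
    have h4 : (1 - 2 * k * ze - eta) * ze * Gam w g = ze * (1 - 2 * k * ze) * Gam w g - eta * ze * Gam w g := by ring
    rw [h4] at hS
    linarith
  · apply Real.exp_le_exp.2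
    apply neg_le_neg
    apply le_min
    · have e1 : (eta * ze * Gam w g) ^ 2 / (4 * (4 * (k : ℝ) ^ 3 * ze * Gam w g)) = (eta ^ 2 * ze * Gam w g) / (16 * k ^ 3) := by
        field_simp
        norm_num
      rw [e1, le_div_iff₀ (by positivity)]
      linarith
    · have e1 : eta * ze * Gam w g / (2 * (2 * (k : ℝ))) = (eta * ze * Gam w g) / (4 * k) := by
        congr 1
        ring
      rw [e1, le_div_iff₀ (by positivity)]
      linarith

end
end Pool.Agent.APK
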