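import Pool.Agent.APK.MatA

/-!
# APK/MatB : isolated edges, second exposure   (difficulty 3)

`S ⊆ Eg w g` is fixed with `x1 = isoS V g S ≥ (1 - 2k ze - eta) ze Γ` (so `x1 ≥ ze Γ/2`), `T` is the random subset of
`C = univ \ Eg w g`.  For `i ∈ Eg w g`: `Iso V (S ∪ T) i` iff `Iso V S i` and no `j ∈ T` meets `V i`
(`S` and `T` are disjoint; `T` contains no index of `Eg`).  So
`∑_i [Iso (S ∪ T) i, w i ≠ 0] g_i = x1 - hh T`, `hh T = ∑_{i iso in S} g_i [∃ j ∈ T, V j ∩ V i ≠ ∅]`
(the terms with `g_i = 0` vanish, so only `i ∈ Eg` count).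
`E hh ≤ ∑_{i iso in S} g_i ∑_{j ∈ C, V j ∩ V i ≠ ∅} p_j ≤ 2 k ze x1` (union bound `PP_exists` and
`PP p C (j ∈ T) = p_j` by `PP_cyl`; `touch`).
`bernstein` for `hh` on `C`: `c_j = ∑_{y ∈ V j} d_y`, `d_y = 1` if `y` lies in some `V i`, `i` isolated in `S`, and `0`
otherwise: at most `∑_{y∈V j} d_y ≤ k = b` isolated `i` meet `V j` (the `V i` are pairwise disjoint), each with
`g_i ≤ 1`.  `∑ p_j c_j² ≤ 2 ze k ∑_y d_y ≤ 2 ze k² #iso ≤ 2 ze k³ x1 = V` (`varB`; `g_i ≥ 1/k` for the isolated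
`i ∈ S ⊆ Eg`), `lam = eta x1`: `lam²/(4V) = eta² x1/(8 ze k³) ≥ eta² Γ/(16 k³) ≥ Lam` (`ze ≤ 1`) and
`lam/(2b) = eta x1/(2k) ≥ eta ze Γ/(4k) ≥ Lam`.  (If `Γ > 0` then `x1 > 0`, so `V > 0`.)
-/

set_option autoImplicit false
open Finset
open scoped Classical

namespace Pool.Agent.APK
noncomputable section

variable {I X : Type} [Fintype I] [DecidableEq I] [Fintype X] [DecidableEq X]

/-- total `g` of the isolated real edges of `T` -/
def matS (V : I → Finset X) (w g : I → ℝ) (T : Finset I) : ℝ :=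
  ∑ i, if Iso V T i ∧ w i ≠ 0 then g i else 0

/-- the part of the weight of the isolated indices of `S` that survives `T` -/
def matbF (V : I → Finset X) (g : I → ℝ) (S T : Finset I) : ℝ :=
  ∑ i, if Iso V S i ∧ (∀ j ∈ T, Disjoint (V j) (V i)) then g i else 0

theorem matb_eq {V : I → Finset X} {w g : I → ℝ} {S T : Finset I} (hS : S ⊆ Eg w g) (hT : T ⊆ univ \ Eg w g) :
    matS V w g (S ∪ T) = matbF V g S T := by
  unfold matS matbF
  apply Finset.sum_congr rfl
  intro i _
  by_cases hgi : g i = 0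
  · rw [hgi]
    split_ifs <;> rfl
  have hiff : (Iso V (S ∪ T) i ∧ w i ≠ 0) ↔ (Iso V S i ∧ (∀ j ∈ T, Disjoint (V j) (V i))) := by
    constructor
    · rintro ⟨hI, hw⟩
      have hiE : i ∈ Eg w g := Finset.mem_filter.2 ⟨Finset.mem_univ _, hw, hgi⟩
      have hiT : i ∉ T := fun hh => (Finset.mem_sdiff.1 (hT hh)).2 hiE
      have hiS : i ∈ S := (Finset.mem_union.1 hI.1).resolve_right hiT
      refine ⟨⟨hiS, fun j hj hne => hI.2 j (Finset.mem_union_left _ hj) hne⟩, fun j hj => ?_⟩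
      have hji : j ≠ i := by
        rintro rfl
        exact hiT hj
      exact (hI.2 j (Finset.mem_union_right _ hj) hji).symm
    · rintro ⟨hI, hd⟩
      refine ⟨⟨Finset.mem_union_left _ hI.1, fun j hj hne => ?_⟩, (Finset.mem_filter.1 (hS hI.1)).2.1⟩
      rcases Finset.mem_union.1 hj with hj | hj
      · exact hI.2 j hj hne
      · exact (hd j hj).symm
  simp only [hiff]

theorem matb_EE {k : ℕ} {ze de s : ℝ} {V : I → Finset X} {p w : I → ℝ} (h : Round k ze de s V p w)
    (g : I → ℝ) (hg : ∀ i, 0 ≤ g i ∧ g i ≤ 1) (S A : Finset I) :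
    (1 - 2 * k * ze) * isoS V g S ≤ EE p A (matbF V g S) := by
  have e1 : EE p A (matbF V g S) = ∑ i, (if Iso V S i then g i else 0) * PP p A (fun T => ∀ j ∈ T, Disjoint (V j) (V i)) := by
    have e2 : EE p A (matbF V g S) = ∑ i, EE p A (fun T => if Iso V S i ∧ (∀ j ∈ T, Disjoint (V j) (V i)) then g i else 0) :=
      EE_sum p A univ (fun i T => if Iso V S i ∧ (∀ j ∈ T, Disjoint (V j) (V i)) then g i else 0)
    rw [e2]
    apply Finset.sum_congr rfl
    intro i _
    unfold PP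
    rw [← EE_mul]
    apply EE_congr
    intro T _
    by_cases h1 : Iso V S i
    · by_cases h2 : (∀ j ∈ T, Disjoint (V j) (V i))
      · rw [if_pos ⟨h1, h2⟩, if_pos h1, if_pos h2, mul_one]
      · rw [if_neg (fun hh => h2 hh.2), if_neg h2, mul_zero]
    · rw [if_neg (fun hh => h1 hh.1), if_neg h1, zero_mul]
  rw [e1]
  unfold isoS
  rw [Finset.mul_sum]
  apply Finset.sum_le_sum
  intro i _
  have h0 : 0 ≤ (if Iso V S i then g i else 0) := by
    split_ifs
    · exact (hg i).1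
    · exact le_rfl
  have h1 : 1 - 2 * k * ze ≤ PP p A (fun T => ∀ j ∈ T, Disjoint (V j) (V i)) := by
    rw [alv_eq h (V i) A]
    have e3 : ∏ j ∈ A, (if Disjoint (V j) (V i) then 1 else 1 - p j) =
        ∏ j ∈ A, (1 - (if Disjoint (V j) (V i) then 0 else p j)) := by
      apply Finset.prod_congr rfl
      intro j _
      split_ifs
      · rw [sub_zero]
      · rfl
    rw [e3]
    refine le_trans ?_ (mata_prod A (fun j => if Disjoint (V j) (V i) then 0 else p j) ?_ ?_)
    · have e6 := touch h (V i) A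
      have e7 : 2 * ze * ((V i).card : ℝ) ≤ 2 * ze * k := by
        apply mul_le_mul_of_nonneg_left
        · exact_mod_cast h.card i
        · have := h.ze0
          linarith
      linarith
    · intro j _
      show 0 ≤ (if Disjoint (V j) (V i) then 0 else p j)
      split_ifs
      · exact le_rfl
      · exact h.p0 j
    · intro j _
      show (if Disjoint (V j) (V i) then 0 else p j) ≤ 1
      split_ifs
      · norm_num
      · exact (h.p1 j).trans (by norm_num)
  rw [mul_comm (1 - 2 * (k : ℝ) * ze)]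
  exact mul_le_mul_of_nonneg_left h1 h0

theorem matb_step {V : I → Finset X} (g : I → ℝ) (hg : ∀ i, 0 ≤ g i ∧ g i ≤ 1) (S : Finset I) (j : I) (T : Finset I) :
    |matbF V g S (insert j T) - matbF V g S (T.erase j)| ≤
      ∑ y ∈ V j, (if ∃ i, Iso V S i ∧ y ∈ V i then (1 : ℝ) else 0) := by
  have hle : matbF V g S (insert j T) ≤ matbF V g S (T.erase j) := by
    unfold matbF
    apply Finset.sum_le_sum
    intro i _
    by_cases h1 : Iso V S i ∧ (∀ j' ∈ insert j T, Disjoint (V j') (V i))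
    · have h2 : Iso V S i ∧ (∀ j' ∈ T.erase j, Disjoint (V j') (V i)) :=
        ⟨h1.1, fun j' hj' => h1.2 j' (Finset.mem_insert_of_mem (Finset.mem_of_mem_erase hj'))⟩
      rw [if_pos h1, if_pos h2]
    · rw [if_neg h1]
      split_ifs
      · exact (hg i).1
      · exact le_rfl
  rw [abs_of_nonpos (by linarith)]
  have h1 : matbF V g S (T.erase j) - matbF V g S (insert j T) ≤
      ∑ i, if (Iso V S i ∧ ¬ Disjoint (V i) (V j)) then (1 : ℝ) else 0 := by
    unfold matbF
    rw [← Finset.sum_sub_distrib]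
    apply Finset.sum_le_sum
    intro i _
    by_cases hI : Iso V S i
    · by_cases hd : Disjoint (V i) (V j)
      · have e : (∀ j' ∈ insert j T, Disjoint (V j') (V i)) ↔ (∀ j' ∈ T.erase j, Disjoint (V j') (V i)) := by
          constructor
          · intro hh j' hj'
            exact hh j' (Finset.mem_insert_of_mem (Finset.mem_of_mem_erase hj'))
          · intro hh j' hj'
            rcases Finset.mem_insert.1 hj' with rfl | hj''
            · exact hd.symm
            · by_cases hjj : j' = j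
              · rw [hjj]
                exact hd.symm
              · exact hh j' (Finset.mem_erase.2 ⟨hjj, hj''⟩)
        simp only [e, sub_self]
        split_ifs
        · norm_num
        · exact le_rfl
      · rw [if_pos (⟨hI, hd⟩ : Iso V S i ∧ ¬ Disjoint (V i) (V j))]
        have h2 : (if Iso V S i ∧ (∀ j' ∈ T.erase j, Disjoint (V j') (V i)) then g i else 0) ≤ 1 := by
          split_ifs
          · exact (hg i).2
          · norm_num
        have h3 : 0 ≤ (if Iso V S i ∧ (∀ j' ∈ insert j T, Disjoint (V j') (V i)) then g i else 0) := by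
          split_ifs
          · exact (hg i).1
          · exact le_rfl
        linarith
    · rw [if_neg (fun hh => hI hh.1), if_neg (fun hh => hI hh.1), if_neg (fun hh => hI hh.1), sub_zero]
  have h2 : (∑ i, if (Iso V S i ∧ ¬ Disjoint (V i) (V j)) then (1 : ℝ) else 0) ≤
      ∑ y ∈ V j, (if ∃ i, Iso V S i ∧ y ∈ V i then (1 : ℝ) else 0) := by
    rw [← Finset.sum_filter, Finset.sum_const, nsmul_eq_mul, mul_one, ← Finset.sum_filter, Finset.sum_const,
      nsmul_eq_mul, mul_one]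
    have h3 := mata_card (V := V) (univ.filter (fun i => Iso V S i ∧ ¬ Disjoint (V i) (V j))) (V j)
      (fun i hi i' hi' hne => (Finset.mem_filter.1 hi).2.1.2 i' (Finset.mem_filter.1 hi').2.1.1 hne.symm)
      (fun i hi => (Finset.mem_filter.1 hi).2.2)
    refine Nat.cast_le.2 (h3.trans (Finset.card_le_card ?_))
    intro y hy
    rw [Finset.mem_filter] at hy ⊢
    obtain ⟨hy1, i, hi, hyi⟩ := hy
    exact ⟨hy1, i, (Finset.mem_filter.1 hi).2.1, hyi⟩
  linarith

theorem matb_sum {k : ℕ} {V : I → Finset X} (hk : 1 ≤ k) (hcard : ∀ i, (V i).card ≤ k) {w g : I → ℝ}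
    (hg : ∀ i, 0 ≤ g i ∧ g i ≤ 1) (hgk : ∀ i, g i ≠ 0 → 1 / k ≤ g i) {S : Finset I} (hS : S ⊆ Eg w g) :
    ∑ y, (if ∃ i, Iso V S i ∧ y ∈ V i then (1 : ℝ) else 0) ^ 2 ≤ k ^ 2 * isoS V g S := by
  have hk0 : (0 : ℝ) < k := by exact_mod_cast hk
  have h1 : ∀ y, (if ∃ i, Iso V S i ∧ y ∈ V i then (1 : ℝ) else 0) ^ 2 ≤
      ∑ i, if (Iso V S i ∧ y ∈ V i) then (1 : ℝ) else 0 := by
    intro y
    have h0 : ∀ i ∈ (univ : Finset I), 0 ≤ (if (Iso V S i ∧ y ∈ V i) then (1 : ℝ) else 0) := by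
      intro i _
      split_ifs
      · norm_num
      · exact le_rfl
    by_cases hy : ∃ i, Iso V S i ∧ y ∈ V i
    · rw [if_pos hy, one_pow]
      obtain ⟨i, hi⟩ := hy
      have := Finset.single_le_sum h0 (Finset.mem_univ i)
      rwa [if_pos hi] at this
    · rw [if_neg hy]
      rw [zero_pow two_ne_zero]
      exact Finset.sum_nonneg h0
  refine (Finset.sum_le_sum fun y _ => h1 y).trans ?_
  rw [Finset.sum_comm]
  unfold isoS
  rw [Finset.mul_sum]
  apply Finset.sum_le_sum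
  intro i _
  by_cases hI : Iso V S i
  · rw [if_pos hI]
    have hi := (Finset.mem_filter.1 (hS hI.1)).2
    have h4 := hgk i hi.2
    have h5 : 1 ≤ k * g i := by
      rw [div_le_iff₀ hk0] at h4
      linarith
    have h6 : (∑ y, if (Iso V S i ∧ y ∈ V i) then (1 : ℝ) else 0) = ((V i).card : ℝ) := by
      simp [hI]
    rw [h6]
    have h7 : ((V i).card : ℝ) ≤ k := by exact_mod_cast hcard i
    calc ((V i).card : ℝ) ≤ k := h7
      _ = k * 1 := by ring
      _ ≤ k * (k * g i) := mul_le_mul_of_nonneg_left h5 hk0.le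
      _ = _ := by ring
  · simp [hI]

theorem matB {k : ℕ} {ze de s : ℝ} {V : I → Finset X} {p w : I → ℝ} (h : Round k ze de s V p w)
    {eta Lam : ℝ} (he0 : 0 < eta) (he1 : eta ≤ 1 / 8) (g : I → ℝ) (hg : ∀ i, 0 ≤ g i ∧ g i ≤ 1)
    (hgk : ∀ i, g i ≠ 0 → 1 / k ≤ g i) (hG : 0 < Gam w g)
    (h1 : 16 * k ^ 3 * Lam ≤ eta ^ 2 * ze * Gam w g) (h2 : 4 * k * Lam ≤ eta * ze * Gam w g)
    (S : Finset I) (hS : S ⊆ Eg w g) (hx : (1 - 2 * k * ze - eta) * ze * Gam w g ≤ isoS V g S) :
    PP p (univ \ Eg w g) (fun T => matS V w g (S ∪ T) < (1 - 2 * k * ze - eta) * isoS V g S)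
      ≤ Real.exp (-Lam) := by
  have hk : (1 : ℝ) ≤ k := by exact_mod_cast h.kpos
  have hk0 : (0 : ℝ) < k := by linarith
  have hz := h.ze0
  have hz1 := h.ze1
  have hP := isP_univ h (univ \ Eg w g)
  obtain ⟨x, hxd⟩ : ∃ x : ℝ, x = isoS V g S := ⟨_, rfl⟩
  rw [← hxd] at hx ⊢
  have hzG : 0 < ze * Gam w g := mul_pos hz hG
  have hx2 : ze * Gam w g / 2 ≤ x := by
    have h3 : 1 / 2 ≤ 1 - 2 * k * ze - eta := by linarith
    have h4 := mul_le_mul_of_nonneg_right h3 hzG.le
    linarith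
  have hx0 : 0 < x := by linarith
  have hze1 : ze ≤ 1 := by nlinarith
  obtain ⟨d, hd⟩ : ∃ d : X → ℝ, d = fun y => if ∃ i, Iso V S i ∧ y ∈ V i then (1 : ℝ) else 0 := ⟨_, rfl⟩
  have hd0 : ∀ y, 0 ≤ d y := by
    intro y
    rw [hd]
    show 0 ≤ (if ∃ i, Iso V S i ∧ y ∈ V i then (1 : ℝ) else 0)
    split_ifs
    · norm_num
    · exact le_rfl
  have hd1 : ∀ y, d y ≤ 1 := by
    intro y
    rw [hd]
    show (if ∃ i, Iso V S i ∧ y ∈ V i then (1 : ℝ) else 0) ≤ 1
    split_ifs
    · exact le_rfl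
    · norm_num
  have hVpos : 0 < 2 * ze * (k : ℝ) ^ 3 * x := by positivity
  have key := bernstein_low (p := p) (A := univ \ Eg w g) hP (f := matbF V g S) (c := fun j => ∑ y ∈ V j, d y)
    (b := (k : ℝ)) (V := 2 * ze * (k : ℝ) ^ 3 * x) (lam := eta * x) hk0 hVpos (by positivity)
    (by
      intro j _
      refine ⟨Finset.sum_nonneg fun y _ => hd0 y, ?_⟩
      have h3 : ∑ y ∈ V j, d y ≤ ∑ y ∈ V j, (1 : ℝ) := Finset.sum_le_sum fun y _ => hd1 y
      rw [Finset.sum_const, nsmul_eq_mul, mul_one] at h3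
      have h4 : ((V j).card : ℝ) ≤ k := by exact_mod_cast h.card j
      exact h3.trans h4)
    (by
      intro j _ T _
      have h3 := matb_step (V := V) g hg S j T
      rw [hd]
      exact h3)
    (by
      have h3 : ∑ j ∈ univ \ Eg w g, p j * (∑ y ∈ V j, d y) ^ 2 ≤ ∑ j, p j * (∑ y ∈ V j, d y) ^ 2 := by
        apply Finset.sum_le_sum_of_subset_of_nonneg (Finset.subset_univ _)
        intro j _ _
        exact mul_nonneg (h.p0 j) (sq_nonneg _)
      have h4 := varB h d hd0
      have h5 : ∑ y, d y ^ 2 ≤ (k : ℝ) ^ 2 * x := by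
        rw [hd, hxd]
        exact matb_sum (w := w) h.kpos h.card hg hgk hS
      have h6 : 2 * ze * k * ∑ y, d y ^ 2 ≤ 2 * ze * k * ((k : ℝ) ^ 2 * x) :=
        mul_le_mul_of_nonneg_left h5 (by positivity)
      have h7 : 2 * ze * k * ((k : ℝ) ^ 2 * x) = 2 * ze * (k : ℝ) ^ 3 * x := by ring
      linarith)
  refine le_trans (PP_mono hP (Q' := fun T => matbF V g S T ≤ EE p (univ \ Eg w g) (matbF V g S) - eta * x) ?_) (key.trans ?_)
  · intro T hT hlt
    have h3 := matb_EE h g hg S (univ \ Eg w g)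
    rw [← hxd] at h3
    rw [matb_eq hS hT] at hlt
    show matbF V g S T ≤ _
    have h4 : (1 - 2 * k * ze - eta) * x = (1 - 2 * k * ze) * x - eta * x := by ring
    rw [h4] at hlt
    linarith
  · apply Real.exp_le_exp.2
    apply neg_le_neg
    apply le_min
    · have e1 : (eta * x) ^ 2 / (4 * (2 * ze * (k : ℝ) ^ 3 * x)) = (eta ^ 2 * x) / (8 * ze * k ^ 3) := by
        field_simp
        norm_num
      rw [e1, le_div_iff₀ (by positivity)]
      have h3 : eta ^ 2 * (ze * Gam w g / 2) ≤ eta ^ 2 * x := mul_le_mul_of_nonneg_left hx2 (by positivity)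
      have h4 : ze * (16 * k ^ 3 * Lam) ≤ 1 * (eta ^ 2 * ze * Gam w g) := by
        rcases le_or_gt 0 Lam with hL | hL
        · exact mul_le_mul hze1 h1 (by positivity) (by norm_num)
        · have h5 : ze * (16 * k ^ 3 * Lam) ≤ 0 := by
            have : 0 ≤ ze * (16 * (k : ℝ) ^ 3) := by positivity
            nlinarith
          have h6 : 0 ≤ 1 * (eta ^ 2 * ze * Gam w g) := by positivity
          linarith
      linarith
    · have e1 : eta * x / (2 * (k : ℝ)) = (2 * (eta * x)) / (4 * k) := by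
        field_simp
        norm_num
      rw [e1, le_div_iff₀ (by positivity)]
      have h3 : eta * (ze * Gam w g / 2) ≤ eta * x := mul_le_mul_of_nonneg_left hx2 he0.le
      linarith

end
end Pool.Agent.APK
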