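import Pool.Agent.APK.Nib
import Pool.Agent.APK.HypD
import Pool.Agent.APK.HypC
import Pool.Agent.APK.HypT
import Pool.Agent.APK.Ext

/-!
# APK/Mid : the nibble applied to the tile hypergraph   (difficulty 3)

Put `ga = tau = lam/8`, `k = 2K+1`, `de = 4 K² C/n`, `Lam = √n` (`Real.sqrt n`), tests indexed by
`J = Fin n ⊕ Fin t ⊕ (Fin t × Fin n × Fin n × Fin n)` (`gA v`, `gB i`, `gC i x y z`).
Hypotheses of `nibble`: `hV_ne`, `hV_card`, `hW_nonneg`, `hDeg`, `hCod`, `gA_bd`, `gB_bd`, `gC_bd`;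
* `hsm`: `2^22 k³ (4K²C/n) (4/tau)^(2k) √n ≤ tau³` for large `n` (`√n/n → 0`);
* `hG`: all the total weights are at least `c' n` with `c' > 0` depending on `lam, c, K` only: `gamA`:
  `≥ (1-ga)(1-e)(1 - lam/8) t ≥ (7/8)³ n/8`; `gamB`: `≥ (7/8)³ n/K`; `gamC`: `≥ (7/8) c n/(2K)`
  (`e ≤ lam/8 ≤ 1/8`); and `√n/n → 0`;
* `h8`: `|HV t n| ≤ n² + n² + n²`, `|J| ≤ n + n + n⁴` (`t ≤ n`; `Sym2.card`, or `≤ n²` by the surjection from pairs), and
  `(3n² + 3(2n + n⁴)) exp (-√n) → 0`.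
From `M`: `∑_M gA v ≥ (1-lam/8) Gam ≥ (1-lam/8)^4 t ≥ (1-lam) t`; `∑_M gB i ≥ (1-lam/8)^4 n/K ≥ (1-lam) n/K`;
`∑_M gC ≥ (1-lam/8)² c n/(2K) ≥ (c/8) n/K`.  Apply `extract`.
-/

set_option autoImplicit false
open Finset
open scoped Classical

namespace Pool.Agent.APK
noncomputable section

/-- index set of the tests -/
abbrev MidJ (t n : ℕ) := Fin n ⊕ Fin t ⊕ (Fin t × Fin n × Fin n × Fin n)

theorem mid_card_nat (t n : ℕ) (htn : t ≤ n) (hn : 1 ≤ n) :
    Fintype.card (HV t n) + 3 * Fintype.card (MidJ t n) ≤ 12 * n ^ 4 := by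
  have h1 : Fintype.card (HV t n) ≤ 3 * n ^ 2 := by
    have e : Fintype.card (HV t n) = t * n + (t * n + Nat.choose (n + 1) 2) := by
      simp only [HV, Fintype.card_sum, Fintype.card_prod, Fintype.card_fin, Sym2.card]
    rw [e, Nat.choose_two_right]
    have h2 : (n + 1) * (n + 1 - 1) / 2 ≤ n ^ 2 := by
      apply Nat.div_le_of_le_mul
      simp only [Nat.add_sub_cancel]
      nlinarith
    have h3 : t * n ≤ n ^ 2 := by nlinarith
    omega
  have h2 : Fintype.card (MidJ t n) ≤ 2 * n + n ^ 4 := by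
    have e : Fintype.card (MidJ t n) = n + (t + t * (n * (n * n))) := by
      simp only [MidJ, Fintype.card_sum, Fintype.card_prod, Fintype.card_fin]
    rw [e]
    have h3 : t * (n * (n * n)) ≤ n * (n * (n * n)) := Nat.mul_le_mul_right _ htn
    have h4 : n * (n * (n * n)) = n ^ 4 := by ring
    omega
  have h3 : n ^ 2 ≤ n ^ 4 := Nat.pow_le_pow_right hn (by norm_num)
  have h4 : n ≤ n ^ 4 := by
    calc n = n ^ 1 := (pow_one n).symm
      _ ≤ n ^ 4 := Nat.pow_le_pow_right hn (by norm_num)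
  omega

theorem mid_exp {x : ℝ} (hx : 4354561 ≤ x) : 12 * x ^ 8 * Real.exp (-x) < 1 := by
  have h0 : 0 < x := by linarith
  have h := Real.pow_div_factorial_le_exp x h0.le 9
  have hf : ((Nat.factorial 9 : ℕ) : ℝ) = 362880 := by norm_num [Nat.factorial]
  rw [hf] at h
  have h2 : 12 * x ^ 8 < Real.exp x := by
    refine lt_of_lt_of_le ?_ h
    rw [lt_div_iff₀ (by norm_num)]
    have h8 : 0 < x ^ 8 := pow_pos h0 8
    have : x ^ 9 = x ^ 8 * x := by ring
    rw [this]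
    nlinarith
  rw [Real.exp_neg]
  rw [← div_eq_mul_inv, div_lt_one (Real.exp_pos x)]
  exact h2

theorem mid_h8 {t n : ℕ} (htn : t ≤ n) (hn : 4354561 ≤ Real.sqrt n) :
    ((Fintype.card (HV t n) : ℝ) + 3 * Fintype.card (MidJ t n)) * Real.exp (-Real.sqrt n) < 1 := by
  have hn0 : (0 : ℝ) ≤ n := Nat.cast_nonneg n
  have hn1 : 1 ≤ n := by
    by_contra hcon
    have : n = 0 := by omega
    subst this
    norm_num at hn
  have h1 : ((Fintype.card (HV t n) : ℝ) + 3 * Fintype.card (MidJ t n)) ≤ 12 * (Real.sqrt n) ^ 8 := by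
    have h2 := mid_card_nat t n htn hn1
    have h3 : (Real.sqrt n) ^ 8 = (n : ℝ) ^ 4 := by
      have : (Real.sqrt n) ^ 8 = ((Real.sqrt n) ^ 2) ^ 4 := by ring
      rw [this, Real.sq_sqrt hn0]
    rw [h3]
    exact_mod_cast h2
  exact lt_of_le_of_lt (mul_le_mul_of_nonneg_right h1 (Real.exp_pos _).le) (mid_exp hn)

/-- the tests -/
def midG {t n : ℕ} (π : Fin t → Equiv.Perm (Fin n)) (len : Fin t → Fin n → ℕ) (K : ℕ)
    (R : SimpleGraph (Fin n)) : MidJ t n → HE t n len → ℝ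
  | Sum.inl v => gA π len v
  | Sum.inr (Sum.inl i) => gB len K i
  | Sum.inr (Sum.inr p) => gC π len K R p.1 p.2.1 p.2.2.1 p.2.2.2

theorem mid_four {x : ℝ} (h0 : 0 ≤ x) (h1 : x ≤ 1) {e : ℝ} (he : e ≤ x / 8) :
    1 - x ≤ (1 - x / 8) * ((1 - x / 8) * (1 - e) * (1 - x / 8)) := by
  have h2 : (0 : ℝ) ≤ 1 - x / 8 := by linarith
  have h3 : 1 - x / 8 ≤ 1 - e := by linarith
  have h4 : (1 - x / 8) * ((1 - x / 8) * (1 - x / 8) * (1 - x / 8))
      ≤ (1 - x / 8) * ((1 - x / 8) * (1 - e) * (1 - x / 8)) := by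
    gcongr
  have h5 : (1 - x / 8) * ((1 - x / 8) * (1 - x / 8) * (1 - x / 8)) = (1 - x / 8) ^ 4 := by ring
  rw [h5] at h4
  have h6 : 1 + ((4 : ℕ) : ℝ) * (-(x / 8)) ≤ (1 + (-(x / 8))) ^ 4 :=
    one_add_mul_le_pow (by linarith) 4
  have h7 : (1 + (-(x / 8))) ^ 4 = (1 - x / 8) ^ 4 := by ring
  rw [h7] at h6
  push_cast at h6
  linarith

theorem mid_GA {t n K : ℕ} {π : Fin t → Equiv.Perm (Fin n)} {len : Fin t → Fin n → ℕ}
    {B R : SimpleGraph (Fin n)} {om : (ℓ : ℕ) → (Fin ℓ → Fin n) → ℝ} {lam C e D c : ℝ}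
    (hl0 : 0 < lam) (hl1 : lam ≤ 1) (he : e ≤ lam / 8)
    (h : App t n K π len B R om (lam / 8) C e D c)
    (h2 : ∀ i, (1 - lam / 8) * n ≤
          ∑ s, (((range (len i s)).filter (fun a => Inn (π i) (len i) s a)).card : ℝ)) (v : Fin n) :
    (1 - lam / 8) * (1 - e) * (1 - lam / 8) * t ≤ Gam (hW len om (lam / 8)) (gA π len v) := by
  have hn : (0 : ℝ) < n := by exact_mod_cast h.npos
  have hg := gamA h v
  have hsum : (t : ℝ) * ((1 - lam / 8) * n) ≤
      ∑ i, ∑ s, (((range (len i s)).filter (fun a => Inn (π i) (len i) s a)).card : ℝ) := by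
    calc (t : ℝ) * ((1 - lam / 8) * n) = ∑ _i : Fin t, ((1 - lam / 8) * n) := by
          rw [Finset.sum_const, Finset.card_univ, Fintype.card_fin, nsmul_eq_mul]
      _ ≤ _ := Finset.sum_le_sum fun i _ => h2 i
  refine le_trans ?_ hg
  have h3 : (0 : ℝ) ≤ (1 - lam / 8) * ((1 - e) / n) := by
    apply mul_nonneg (by linarith)
    apply div_nonneg _ hn.le
    linarith
  calc (1 - lam / 8) * (1 - e) * (1 - lam / 8) * t
      = (1 - lam / 8) * ((1 - e) / n) * ((t : ℝ) * ((1 - lam / 8) * n)) := by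
        field_simp
    _ ≤ _ := mul_le_mul_of_nonneg_left hsum h3

theorem mid_GB {t n K : ℕ} {π : Fin t → Equiv.Perm (Fin n)} {len : Fin t → Fin n → ℕ}
    {B R : SimpleGraph (Fin n)} {om : (ℓ : ℕ) → (Fin ℓ → Fin n) → ℝ} {lam C e D c : ℝ}
    (hl0 : 0 < lam) (hl1 : lam ≤ 1) (he : e ≤ lam / 8)
    (h : App t n K π len B R om (lam / 8) C e D c)
    (h1 : ∀ i, (1 - lam / 8) * n ≤ ∑ s, (len i s : ℝ)) (i : Fin t) :
    (1 - lam / 8) * (1 - e) * (1 - lam / 8) * n / K ≤ Gam (hW len om (lam / 8)) (gB len K i) := by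
  have hK : (0 : ℝ) < K := by
    have := h.K3
    exact_mod_cast (by omega : 0 < K)
  refine le_trans ?_ (gamB h i)
  have h3 : (0 : ℝ) ≤ (1 - lam / 8) * (1 - e) := mul_nonneg (by linarith) (by linarith)
  have h4 := mul_le_mul_of_nonneg_left (h1 i) h3
  rw [div_le_div_iff_of_pos_right hK]
  calc (1 - lam / 8) * (1 - e) * (1 - lam / 8) * n = (1 - lam / 8) * (1 - e) * ((1 - lam / 8) * n) := by ring
    _ ≤ _ := h4

theorem mid_GC {t n K : ℕ} {π : Fin t → Equiv.Perm (Fin n)} {len : Fin t → Fin n → ℕ}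
    {B R : SimpleGraph (Fin n)} {om : (ℓ : ℕ) → (Fin ℓ → Fin n) → ℝ} {lam C e D c : ℝ}
    (hl0 : 0 < lam) (hl1 : lam ≤ 1) (hc0 : 0 < c)
    (h : App t n K π len B R om (lam / 8) C e D c)
    (h3 : ∀ i, (n : ℝ) / 2 ≤
          ∑ s, (((range (len i s)).filter (fun a => a ≠ 0 ∧ Inn (π i) (len i) s a)).card : ℝ))
    (i : Fin t) (x y z : Fin n) :
    (1 - lam / 8) * c * (n / 2) / K ≤ Gam (hW len om (lam / 8)) (gC π len K R i x y z) := by
  have hK : (0 : ℝ) < K := by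
    have := h.K3
    exact_mod_cast (by omega : 0 < K)
  refine le_trans ?_ (gamC h hc0.le i x y z)
  rw [div_le_div_iff_of_pos_right hK]
  exact mul_le_mul_of_nonneg_left (h3 i) (mul_nonneg (by linarith) hc0.le)

theorem mid_low {t n K : ℕ} {π : Fin t → Equiv.Perm (Fin n)} {len : Fin t → Fin n → ℕ}
    {B R : SimpleGraph (Fin n)} {om : (ℓ : ℕ) → (Fin ℓ → Fin n) → ℝ} {lam C e D c : ℝ}
    (hl0 : 0 < lam) (hl1 : lam ≤ 1) (hc0 : 0 < c) (hc1 : c ≤ 1) (he : e ≤ lam / 8)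
    (ht : (n : ℝ) / 8 ≤ t)
    (h : App t n K π len B R om (lam / 8) C e D c)
    (h1 : ∀ i, (1 - lam / 8) * n ≤ ∑ s, (len i s : ℝ))
    (h2 : ∀ i, (1 - lam / 8) * n ≤
          ∑ s, (((range (len i s)).filter (fun a => Inn (π i) (len i) s a)).card : ℝ))
    (h3 : ∀ i, (n : ℝ) / 2 ≤
          ∑ s, (((range (len i s)).filter (fun a => a ≠ 0 ∧ Inn (π i) (len i) s a)).card : ℝ))
    (j : MidJ t n) :
    c / (16 * K) * n ≤ Gam (hW len om (lam / 8)) (midG π len K R j) := by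
  have hK3 : (3 : ℝ) ≤ K := by exact_mod_cast h.K3
  have hK : (0 : ℝ) < K := by linarith
  have hn : (0 : ℝ) < n := by exact_mod_cast h.npos
  have ha : (7 / 8 : ℝ) ≤ 1 - lam / 8 := by linarith
  have hb : (7 / 8 : ℝ) ≤ 1 - e := by linarith
  have hab : (7 / 8 : ℝ) * (7 / 8) * (7 / 8) ≤ (1 - lam / 8) * (1 - e) * (1 - lam / 8) := by
    gcongr
  have hcK : c / (16 * K) ≤ 1 / (16 * K) := by gcongr
  have hcK2 : (1 : ℝ) / (16 * K) ≤ 1 / 48 := by
    apply one_div_le_one_div_of_le (by norm_num)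
    linarith
  rcases j with v | i | p
  · have hG := mid_GA hl0 hl1 he h h2 v
    refine le_trans ?_ hG
    calc c / (16 * K) * n ≤ 1 / 48 * n := by
          apply mul_le_mul_of_nonneg_right (le_trans hcK hcK2) hn.le
      _ ≤ (7 / 8 : ℝ) * (7 / 8) * (7 / 8) * (n / 8) := by linarith
      _ ≤ (1 - lam / 8) * (1 - e) * (1 - lam / 8) * t := by
          apply mul_le_mul hab ht (by positivity)
          exact le_trans (by norm_num) hab
  · have hG := mid_GB hl0 hl1 he h h1 i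
    refine le_trans ?_ hG
    have e1 : c / (16 * K) * n = (c / 16) * n / K := by field_simp
    rw [e1, div_le_div_iff_of_pos_right hK]
    apply mul_le_mul_of_nonneg_right _ hn.le
    linarith
  · have hG := mid_GC hl0 hl1 hc0 h h3 p.1 p.2.1 p.2.2.1 p.2.2.2
    refine le_trans ?_ hG
    have e1 : c / (16 * K) * n = (c / 16) * n / K := by field_simp
    rw [e1, div_le_div_iff_of_pos_right hK]
    have : (7 / 8 : ℝ) * c * (n / 2) ≤ (1 - lam / 8) * c * (n / 2) := by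
      gcongr
    have h5 : 0 < c * n := mul_pos hc0 hn
    nlinarith

theorem mid (K : ℕ) (hK : 3 ≤ K) (lam c C : ℝ) (hl0 : 0 < lam) (hl1 : lam ≤ 1) (hc0 : 0 < c) (hc1 : c ≤ 1)
    (hC : 1 ≤ C) :
    ∃ n0 : ℕ, ∀ n : ℕ, n0 ≤ n → ∀ t : ℕ, (n : ℝ) / 8 ≤ t →
      ∀ (π : Fin t → Equiv.Perm (Fin n)) (len : Fin t → Fin n → ℕ) (B R : SimpleGraph (Fin n))
        (om : (ℓ : ℕ) → (Fin ℓ → Fin n) → ℝ) (e D : ℝ),
        App t n K π len B R om (lam / 8) C e D c → e ≤ lam / 8 →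
        (∀ i, (1 - lam / 8) * n ≤ ∑ s, (len i s : ℝ)) →
        (∀ i, (1 - lam / 8) * n ≤
          ∑ s, (((range (len i s)).filter (fun a => Inn (π i) (len i) s a)).card : ℝ)) →
        (∀ i, (n : ℝ) / 2 ≤
          ∑ s, (((range (len i s)).filter (fun a => a ≠ 0 ∧ Inn (π i) (len i) s a)).card : ℝ)) →
        ∃ (φ : Fin t → Fin n → Fin n) (Dm : Fin t → Finset (Fin n)), FLin t n π B R φ Dm lam (c / 8) := by
  have hKr : (3 : ℝ) ≤ K := by exact_mod_cast hK
  have hK0 : (0 : ℝ) < K := by linarith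
  set kk : ℝ := ((2 * K + 1 : ℕ) : ℝ) with hkk
  have hkk0 : 0 < kk := by rw [hkk]; positivity
  obtain ⟨A1, hA1⟩ : ∃ A1 : ℝ, A1 = 2 ^ 22 * kk ^ 3 * (4 * (K : ℝ) ^ 2 * C * (4 / (lam / 8)) ^ (2 * (2 * K + 1)))
    / (lam / 8) ^ 3 := ⟨_, rfl⟩
  obtain ⟨A2, hA2⟩ : ∃ A2 : ℝ, A2 = 2 ^ 35 * kk ^ 6 / ((lam / 8) ^ 8 * (c / (16 * K))) := ⟨_, rfl⟩
  obtain ⟨N, hN⟩ := exists_nat_ge (max (max A1 A2) 4354561)
  refine ⟨N ^ 2, fun n hn t ht π len B R om e D happ he h1 h2 h3 => ?_⟩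
  have hsq : (N : ℝ) ≤ Real.sqrt n := by
    apply Real.le_sqrt_of_sq_le
    exact_mod_cast hn
  have hs1 : A1 ≤ Real.sqrt n := le_trans (le_trans (le_max_left _ _) (le_max_left _ _)) (hN.trans hsq)
  have hs2 : A2 ≤ Real.sqrt n := le_trans (le_trans (le_max_right _ _) (le_max_left _ _)) (hN.trans hsq)
  have hs3 : 4354561 ≤ Real.sqrt n := le_trans (le_max_right _ _) (hN.trans hsq)
  have hn0 : (0 : ℝ) < n := by exact_mod_cast happ.npos
  have hss : Real.sqrt n * Real.sqrt n = n := Real.mul_self_sqrt hn0.le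
  have hs0 : 0 < Real.sqrt n := by linarith
  obtain ⟨M, hM0, hMd, hMg⟩ := nibble (k := 2 * K + 1) (tau := lam / 8) (de := 4 * K ^ 2 * C / n)
    (Lam := Real.sqrt n) (by omega) (by linarith) (by linarith) (by positivity) (by linarith)
    (hV len) (hW len om (lam / 8)) hV_ne (hV_card happ) (hW_nonneg happ) (hDeg happ) (hCod happ)
    (midG π len K R)
    (by
      rintro (v | i | p) x
      · exact (gA_bd happ v x).1
      · exact (gB_bd happ i x).1
      · exact (gC_bd happ p.1 p.2.1 p.2.2.1 p.2.2.2 x).1)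
    (by
      rintro (v | i | p) x
      · exact (gA_bd happ v x).2
      · exact (gB_bd happ i x).2
      · exact (gC_bd happ p.1 p.2.1 p.2.2.1 p.2.2.2 x).2)
    (by
      have h4 : 0 < (lam / 8) ^ 3 := by positivity
      have h5 : 2 ^ 22 * kk ^ 3 * (4 * (K : ℝ) ^ 2 * C * (4 / (lam / 8)) ^ (2 * (2 * K + 1)))
          = A1 * (lam / 8) ^ 3 := by
        rw [hA1]; field_simp
      have h6 : 2 ^ 22 * kk ^ 3 * (4 * (K : ℝ) ^ 2 * C / n * (4 / (lam / 8)) ^ (2 * (2 * K + 1))) * Real.sqrt n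
          = (2 ^ 22 * kk ^ 3 * (4 * (K : ℝ) ^ 2 * C * (4 / (lam / 8)) ^ (2 * (2 * K + 1)))) * Real.sqrt n / n := by
        field_simp
      rw [h6, h5, div_le_iff₀ hn0]
      calc A1 * (lam / 8) ^ 3 * Real.sqrt n ≤ Real.sqrt n * (lam / 8) ^ 3 * Real.sqrt n := by
            apply mul_le_mul_of_nonneg_right _ hs0.le
            exact mul_le_mul_of_nonneg_right hs1 h4.le
        _ = (lam / 8) ^ 3 * (Real.sqrt n * Real.sqrt n) := by ring
        _ = (lam / 8) ^ 3 * n := by rw [hss])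
    (by
      intro j
      have hlow := mid_low hl0 hl1 hc0 hc1 he ht happ h1 h2 h3 j
      have h4 : 0 < (lam / 8) ^ 8 := by positivity
      have h5 : 0 < c / (16 * K) := by positivity
      have h6 : 2 ^ 35 * kk ^ 6 = A2 * ((lam / 8) ^ 8 * (c / (16 * K))) := by
        rw [hA2]; field_simp
      rw [h6]
      calc A2 * ((lam / 8) ^ 8 * (c / (16 * K))) * Real.sqrt n
          ≤ Real.sqrt n * ((lam / 8) ^ 8 * (c / (16 * K))) * Real.sqrt n := by
            apply mul_le_mul_of_nonneg_right _ hs0.le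
            exact mul_le_mul_of_nonneg_right hs2 (by positivity)
        _ = (lam / 8) ^ 8 * (c / (16 * K) * (Real.sqrt n * Real.sqrt n)) := by ring
        _ = (lam / 8) ^ 8 * (c / (16 * K) * n) := by rw [hss]
        _ ≤ _ := mul_le_mul_of_nonneg_left hlow h4.le)
    (mid_h8 happ.tn hs3)
  have hq : (0 : ℝ) ≤ 1 - lam / 8 := by linarith
  refine extract happ hl0.le M hM0 hMd ?_ ?_ ?_
  · intro v
    have hm := hMg (Sum.inl v)
    have hG := mid_GA hl0 hl1 he happ h2 v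
    refine le_trans ?_ hm
    have h5 := mul_le_mul_of_nonneg_left hG hq
    refine le_trans ?_ h5
    have h6 := mul_le_mul_of_nonneg_right (mid_four hl0.le hl1 he) (Nat.cast_nonneg (α := ℝ) t)
    linarith
  · intro i
    have hm := hMg (Sum.inr (Sum.inl i))
    have hG := mid_GB hl0 hl1 he happ h1 i
    refine le_trans ?_ hm
    have h5 := mul_le_mul_of_nonneg_left hG hq
    refine le_trans ?_ h5
    have h6 := mul_le_mul_of_nonneg_right (mid_four hl0.le hl1 he) (Nat.cast_nonneg (α := ℝ) n)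
    rw [mul_div_assoc', div_le_div_iff_of_pos_right hK0]
    linarith
  · intro i x y z
    have hm := hMg (Sum.inr (Sum.inr (i, x, y, z)))
    have hG := mid_GC hl0 hl1 hc0 happ h3 i x y z
    refine le_trans ?_ hm
    have h5 := mul_le_mul_of_nonneg_left hG hq
    refine le_trans ?_ h5
    rw [mul_div_assoc', div_le_div_iff_of_pos_right hK0]
    have h6 : (7 / 8 : ℝ) * (7 / 8) ≤ (1 - lam / 8) * (1 - lam / 8) := by
      apply mul_le_mul <;> linarith
    have h7 := mul_le_mul_of_nonneg_right h6 (mul_pos hc0 hn0).le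
    nlinarith [mul_pos hc0 hn0]

end
end Pool.Agent.APK
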