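import Pool.Agent.APK.NibI

/-!
# APK/Nib : the quantitative nibble with test functions   (difficulty 3)

`nibI` with `ze = tau/(32 k)`, `eta = ze tau/32 = tau²/(1024 k)`, `R0 = ⌈log (4/tau) / ze⌉`, `R = R0`.
Write `l = log (4/tau) ≥ log 4 ≥ 1`.  `l ≤ ze R0 ≤ l + ze`.
(1) `(s⁻¹)^R0 = exp ((ze + ze²) R0) ≤ exp ((1+ze)(l + ze)) ≤ exp (2 l) = (4/tau)²` (`ze ≤ 1/32`, `l ≥ 1`), so
`(s⁻¹)^(k R0) ≤ (4/tau)^(2k)` and `D := de (s⁻¹)^(k R0)` satisfies `2^22 k³ D Lam ≤ tau³` by `hsm`.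
`h3`: `8 k D Lam ≤ 8 tau³/(2^22 k²) ≤ tau²/(1024 k)`.  `h2`: `128 ze k² D Lam = 4 tau k D Lam ≤ 4 tau⁴/(2^22 k²)
= tau⁴/(2^20 k²) = eta²`.  `h1`: `16 ze k² D = tau k D/2 ≤ tau⁴/(2^23 k²) ≤ eta` (`Lam ≥ 1`).
(2) `q = (1-eta)² s`: `(1-eta)² ≥ exp (-4 eta) ≥ exp (- ze/2)` (`1 - x ≥ exp(-2x)` for `x ≤ 1/2`), so
`q ≥ exp (-2 ze)` and `q^R0 ≥ exp (-2 (l + ze)) ≥ (tau/4)² e^(-1) ≥ (tau/4)³` (`tau/4 ≤ 1/4 ≤ e^{-1}`).
With `hG`: `q^R0 Γ ≥ 2^35 k^6 Lam/(64 tau^5) = 2^29 k^6 Lam/tau^5`.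
`h6`: `eta² ze · 2^29 k^6 Lam / tau^5 = tau^5/(2^20 k² · 32 k) 2^29 k^6 Lam / tau^5 = 16 k³ Lam`.
`h7`: `eta ze · 2^29 k^6 Lam/tau^5 = tau³/(2^15 k²) 2^29 k^6 Lam/tau^5 ≥ 4 k Lam`.
`h4`: `128 ze k² Lam = 4 tau k Lam ≤ eta² 2^29 k^6 Lam/tau^5 = 2^9 k^4 Lam/tau`. `h5`: `eta 2^29 k^6 Lam/tau^5 ≥ 8 k Lam`.
(3) `∑_{r<R0} q^r = (1 - q^R0)/(1 - q)`, `q < 1`, `1 - q ≤ (1 - s) + 2 eta ≤ ze + ze² + 2 eta`,
`q^R0 ≤ s^R0 ≤ exp (- ze R0) ≤ tau/4`.  So
`(1 - 4k ze - 2 eta) ze ∑ q^r ≥ (1 - tau/8 - 2 eta)(1 - tau/4)/(1 + ze + 2 eta/ze)` and `2 eta ≤ tau/32`,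
`ze ≤ tau/32`, `2 eta/ze = tau/16`: `≥ (1 - 5tau/32)(1 - tau/4)(1 - 3 tau/32) ≥ 1 - tau`.
-/

set_option autoImplicit false
open Finset
open scoped Classical

namespace Pool.Agent.APK
noncomputable section

variable {E X J : Type} [Fintype E] [DecidableEq E] [Fintype X] [DecidableEq X] [Fintype J]

theorem nib_exp {x : ℝ} (h0 : 0 ≤ x) (h1 : x ≤ 1 / 2) : Real.exp (-(2 * x)) ≤ 1 - x := by
  have h2 : 1 + 2 * x ≤ Real.exp (2 * x) := by
    have := Real.add_one_le_exp (2 * x)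
    linarith
  rw [Real.exp_neg]
  have h3 : (0 : ℝ) < 1 + 2 * x := by linarith
  have h4 : (Real.exp (2 * x))⁻¹ ≤ (1 + 2 * x)⁻¹ := inv_anti₀ h3 h2
  refine h4.trans ?_
  rw [inv_le_comm₀ h3 (by linarith)]
  rw [inv_le_iff_one_le_mul₀ (by linarith)]
  nlinarith

/-- the final numerical estimate -/
theorem nib_fin {tau ze q A Sg Q : ℝ} (ht0 : 0 < tau) (ht1 : tau ≤ 1) (hz : 0 < ze) (hQ : Q ≤ tau / 4)
    (hSg : 0 ≤ Sg) (hgeo : Sg * (1 - q) = 1 - Q) (hq : 1 - q ≤ ze * (1 + 3 * tau / 32)) (hA : 1 - 5 * tau / 32 ≤ A) :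
    1 - tau ≤ A * ze * Sg := by
  have h1 : 1 - tau / 4 ≤ (ze * Sg) * (1 + 3 * tau / 32) := by
    have h2 : Sg * (1 - q) ≤ Sg * (ze * (1 + 3 * tau / 32)) := mul_le_mul_of_nonneg_left hq hSg
    nlinarith
  have hY : 0 ≤ ze * Sg := mul_nonneg hz.le hSg
  have h3 : (1 - 5 * tau / 32) * (ze * Sg) ≤ A * ze * Sg := by
    have := mul_le_mul_of_nonneg_right hA hY
    linarith
  refine le_trans ?_ h3
  have h4 : (1 - tau) * (1 + 3 * tau / 32) ≤ ((1 - 5 * tau / 32) * (ze * Sg)) * (1 + 3 * tau / 32) := by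
    have h5 : (1 - 5 * tau / 32) * (1 - tau / 4) ≤ (1 - 5 * tau / 32) * ((ze * Sg) * (1 + 3 * tau / 32)) :=
      mul_le_mul_of_nonneg_left h1 (by linarith)
    have h6 : (1 - tau) * (1 + 3 * tau / 32) ≤ (1 - 5 * tau / 32) * (1 - tau / 4) := by nlinarith
    linarith
  exact le_of_mul_le_mul_right h4 (by linarith)

/-- powers of the survival probability -/
theorem nib_pow {tau K ze eta s q l : ℝ} {R0 : ℕ} (ht0 : 0 < tau) (ht1 : tau ≤ 1) (hK : 1 ≤ K)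
    (hze : ze = tau / (32 * K)) (heta : eta = tau ^ 2 / (1024 * K)) (hs : s = Real.exp (-ze - ze ^ 2))
    (hq : q = (1 - eta) ^ 2 * s) (hl : l = Real.log (4 / tau)) (hR1 : l ≤ ze * R0) (hR2 : ze * R0 ≤ l + ze) :
    (s⁻¹) ^ R0 ≤ (4 / tau) ^ 2 ∧ (tau / 4) ^ 3 ≤ q ^ R0 ∧ q ^ R0 ≤ tau / 4 ∧ 0 < q ∧ q < 1 ∧
      1 - q ≤ ze * (1 + 3 * tau / 32) ∧ 1 - 5 * tau / 32 ≤ 1 - 4 * K * ze - 2 * eta := by
  have hK0 : 0 < K := by linarith
  have hz0 : 0 < ze := by rw [hze]; positivity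
  have hz1 : ze ≤ tau / 32 := by
    rw [hze, div_le_div_iff₀ (by positivity) (by norm_num)]
    nlinarith
  have hz2 : ze ≤ 1 / 32 := by linarith
  have he0 : 0 < eta := by rw [heta]; positivity
  have hez : eta = ze * tau / 32 := by
    rw [heta, hze]
    field_simp
    norm_num
  have he1 : eta ≤ tau / 1024 := by
    rw [hez]
    nlinarith
  have h4t : (4 : ℝ) ≤ 4 / tau := by
    rw [le_div_iff₀ ht0]
    linarith
  have hl1 : 1 ≤ l := by
    rw [hl, Real.le_log_iff_exp_le (by positivity)]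
    have := Real.exp_one_lt_d9
    linarith
  have hel : Real.exp l = 4 / tau := by
    rw [hl, Real.exp_log (by positivity)]
  have hs0 : 0 < s := by rw [hs]; exact Real.exp_pos _
  have hs1 : s ≤ 1 := by
    rw [hs, Real.exp_le_one_iff]
    nlinarith
  have hs2 : 1 - ze - ze ^ 2 ≤ s := by
    rw [hs]
    have := Real.add_one_le_exp (-ze - ze ^ 2)
    linarith
  have hq0 : 0 < q := by
    rw [hq]
    have : 0 < 1 - eta := by linarith
    positivity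
  have hqs : q ≤ s := by
    rw [hq]
    have h1 : (1 - eta) ^ 2 ≤ 1 := by nlinarith
    nlinarith
  have hsl : s < 1 := by
    rw [hs, Real.exp_lt_one_iff]
    nlinarith
  have hinv : s⁻¹ ^ R0 = Real.exp ((ze + ze ^ 2) * R0) := by
    rw [hs, ← Real.exp_neg, ← Real.exp_nat_mul]
    congr 1
    ring
  have hspow : s ^ R0 = Real.exp (-((ze + ze ^ 2) * R0)) := by
    rw [hs, ← Real.exp_nat_mul]
    congr 1
    ring
  have hRn : (0 : ℝ) ≤ R0 := Nat.cast_nonneg _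
  refine ⟨?_, ?_, ?_, hq0, lt_of_le_of_lt hqs hsl, ?_, ?_⟩
  · rw [hinv, ← hel, ← Real.exp_nat_mul]
    apply Real.exp_le_exp.2
    have h1 : (ze + ze ^ 2) * R0 = (1 + ze) * (ze * R0) := by ring
    rw [h1]
    have h2 : (1 + ze) * (ze * R0) ≤ (1 + ze) * (l + ze) := mul_le_mul_of_nonneg_left hR2 (by linarith)
    push_cast
    nlinarith
  · have h1 : Real.exp (-(2 * ze)) ≤ q := by
      rw [hq]
      have h2 := nib_exp he0.le (by linarith)
      have h3 : Real.exp (-(4 * eta)) ≤ (1 - eta) ^ 2 := by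
        have h4 : Real.exp (-(4 * eta)) = Real.exp (-(2 * eta)) ^ 2 := by
          rw [← Real.exp_nat_mul]
          congr 1
          push_cast
          ring
        rw [h4]
        exact pow_le_pow_left₀ (Real.exp_pos _).le h2 2
      calc Real.exp (-(2 * ze)) ≤ Real.exp (-(4 * eta)) * s := by
            rw [hs, ← Real.exp_add]
            apply Real.exp_le_exp.2
            nlinarith
        _ ≤ (1 - eta) ^ 2 * s := mul_le_mul_of_nonneg_right h3 hs0.le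
    have h5 : Real.exp (-(2 * ze)) ^ R0 ≤ q ^ R0 := pow_le_pow_left₀ (Real.exp_pos _).le h1 R0
    refine le_trans ?_ h5
    have h6 : tau / 4 = Real.exp (-l) := by
      rw [Real.exp_neg, hel, inv_div]
    rw [h6, ← Real.exp_nat_mul, ← Real.exp_nat_mul]
    apply Real.exp_le_exp.2
    push_cast
    nlinarith
  · refine (pow_le_pow_left₀ hq0.le hqs R0).trans ?_
    have h6 : tau / 4 = Real.exp (-l) := by
      rw [Real.exp_neg, hel, inv_div]
    rw [hspow, h6]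
    apply Real.exp_le_exp.2
    nlinarith [mul_nonneg (sq_nonneg ze) hRn]
  · have h1 : (1 - 2 * eta) * s ≤ q := by
      rw [hq]
      apply mul_le_mul_of_nonneg_right _ hs0.le
      nlinarith
    have h2 : s - 2 * eta ≤ (1 - 2 * eta) * s := by nlinarith
    have h3 : 1 - q ≤ ze + ze ^ 2 + 2 * eta := by linarith
    rw [hez] at h3
    nlinarith
  · have h1 : 4 * K * ze = tau / 8 := by
      rw [hze]
      field_simp
      norm_num
    rw [h1]
    linarith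

/-- **The nibble with test functions.** -/
theorem nibble {k : ℕ} {tau de Lam : ℝ} (hk : 1 ≤ k) (ht0 : 0 < tau) (ht1 : tau ≤ 1) (hde : 0 < de)
    (hLam : 1 ≤ Lam)
    (V : E → Finset X) (w : E → ℝ) (hne : ∀ e, (V e).Nonempty) (hcard : ∀ e, (V e).card ≤ k)
    (hw : ∀ e, 0 ≤ w e) (hdeg : ∀ x, Deg V w x ≤ 1) (hcod : ∀ x y, x ≠ y → Cod V w x y ≤ de)
    (g : J → E → ℝ) (hg : ∀ j e, 0 ≤ g j e ∧ g j e ≤ 1) (hgk : ∀ j e, g j e ≠ 0 → 1 / k ≤ g j e)
    (hsm : 2 ^ 22 * (k : ℝ) ^ 3 * (de * (4 / tau) ^ (2 * k)) * Lam ≤ tau ^ 3)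
    (hG : ∀ j, 2 ^ 35 * (k : ℝ) ^ 6 * Lam ≤ tau ^ 8 * Gam w (g j))
    (h8 : ((Fintype.card X : ℝ) + 3 * Fintype.card J) * Real.exp (-Lam) < 1) :
    ∃ M : Finset E, (∀ e ∈ M, w e ≠ 0) ∧ (∀ e ∈ M, ∀ f ∈ M, e ≠ f → Disjoint (V e) (V f)) ∧
      ∀ j, (1 - tau) * Gam w (g j) ≤ ∑ e ∈ M, g j e := by
  have hK : (1 : ℝ) ≤ (k : ℝ) := by exact_mod_cast hk
  have hK0 : (0 : ℝ) < (k : ℝ) := by linarith
  set K : ℝ := (k : ℝ) with hKdef
  obtain ⟨ze, hze⟩ : ∃ ze : ℝ, ze = tau / (32 * K) := ⟨_, rfl⟩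
  obtain ⟨eta, heta⟩ : ∃ eta : ℝ, eta = tau ^ 2 / (1024 * K) := ⟨_, rfl⟩
  obtain ⟨s, hs⟩ : ∃ s : ℝ, s = Real.exp (-ze - ze ^ 2) := ⟨_, rfl⟩
  obtain ⟨q, hq⟩ : ∃ q : ℝ, q = (1 - eta) ^ 2 * s := ⟨_, rfl⟩
  obtain ⟨l, hl⟩ : ∃ l : ℝ, l = Real.log (4 / tau) := ⟨_, rfl⟩
  have hz0 : 0 < ze := by rw [hze]; positivity
  have he0 : 0 < eta := by rw [heta]; positivity
  have he1 : eta ≤ 1 / 8 := by
    rw [heta, div_le_div_iff₀ (by positivity) (by norm_num)]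
    nlinarith
  have hl0 : 0 ≤ l := by
    rw [hl]
    apply Real.log_nonneg
    rw [le_div_iff₀ ht0]
    linarith
  obtain ⟨R0, hR0⟩ : ∃ R0 : ℕ, R0 = ⌈l / ze⌉₊ := ⟨_, rfl⟩
  have hR1 : l ≤ ze * R0 := by
    have := Nat.le_ceil (l / ze)
    rw [← hR0, div_le_iff₀ hz0] at this
    linarith
  have hR2 : ze * R0 ≤ l + ze := by
    have := (Nat.ceil_lt_add_one (div_nonneg hl0 hz0.le)).le
    rw [← hR0] at this
    have h2 : ze * R0 ≤ ze * (l / ze + 1) := mul_le_mul_of_nonneg_left this hz0.le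
    have h3 : ze * (l / ze + 1) = l + ze := by
      field_simp
    linarith
  obtain ⟨hp1, hp2, hp3, hq0, hq1, hq2, hp4⟩ := nib_pow ht0 ht1 hK hze heta hs hq hl hR1 hR2
  have hs0 : 0 < s := by rw [hs]; exact Real.exp_pos _
  obtain ⟨D, hD⟩ : ∃ D : ℝ, D = de * (s⁻¹) ^ (k * R0) := ⟨_, rfl⟩
  have hD0 : 0 < D := by rw [hD]; positivity
  have hDle : D ≤ de * (4 / tau) ^ (2 * k) := by
    rw [hD, mul_comm k R0, pow_mul, pow_mul]
    exact mul_le_mul_of_nonneg_left (pow_le_pow_left₀ (by positivity) hp1 k) hde.le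
  have hDL : 2 ^ 22 * K ^ 3 * D * Lam ≤ tau ^ 3 := by
    refine le_trans ?_ hsm
    apply mul_le_mul_of_nonneg_right _ (by linarith)
    exact mul_le_mul_of_nonneg_left hDle (by positivity)
  have hK2 : K ^ 2 ≤ K ^ 3 := pow_le_pow_right₀ hK (by norm_num)
  have hDL0 : 0 < D * Lam := mul_pos hD0 (by linarith)
  have hDL2 : 2 ^ 22 * (K ^ 2 * (D * Lam)) ≤ tau ^ 3 := by
    refine le_trans ?_ hDL
    have := mul_le_mul_of_nonneg_right hK2 hDL0.le
    linarith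
  have hDD : D ≤ D * Lam := by nlinarith
  have ht3 : tau ^ 3 ≤ tau := by nlinarith [sq_nonneg tau, mul_le_one₀ ht1 ht0.le ht1]
  have ht32 : tau ^ 3 ≤ tau ^ 2 := pow_le_pow_of_le_one ht0.le ht1 (by norm_num)
  have hGp : ∀ j, 0 < Gam w (g j) := by
    intro j
    have h1 := hG j
    have h2 : 0 < 2 ^ 35 * K ^ 6 * Lam := by positivity
    have h3 : 0 < tau ^ 8 * Gam w (g j) := lt_of_lt_of_le h2 h1
    exact (pos_iff_pos_of_mul_pos h3).1 (by positivity)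
  have hGG : ∀ j, 2 ^ 29 * K ^ 6 * Lam ≤ tau ^ 5 * (q ^ R0 * Gam w (g j)) := by
    intro j
    have h1 := hG j
    have h2 : (tau / 4) ^ 3 * Gam w (g j) ≤ q ^ R0 * Gam w (g j) := mul_le_mul_of_nonneg_right hp2 (hGp j).le
    have h3 : tau ^ 5 * ((tau / 4) ^ 3 * Gam w (g j)) ≤ tau ^ 5 * (q ^ R0 * Gam w (g j)) :=
      mul_le_mul_of_nonneg_left h2 (by positivity)
    have h4 : tau ^ 5 * ((tau / 4) ^ 3 * Gam w (g j)) = tau ^ 8 * Gam w (g j) / 64 := by ring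
    linarith
  have hKL : 0 < K ^ 3 * Lam := by positivity
  have hK36 : K ^ 3 * Lam ≤ K ^ 6 * Lam := mul_le_mul_of_nonneg_right (pow_le_pow_right₀ hK (by norm_num)) (by linarith)
  have hK26 : K ^ 2 * Lam ≤ K ^ 6 * Lam := mul_le_mul_of_nonneg_right (pow_le_pow_right₀ hK (by norm_num)) (by linarith)
  have ht2 : tau ^ 2 ≤ 1 := pow_le_one₀ ht0.le ht1
  have ht3' : tau ^ 3 ≤ 1 := pow_le_one₀ ht0.le ht1
  obtain ⟨A, M, hM1, hM2, -, -, hM5⟩ := nibI (R0 := R0) (q := q) (ze := ze) (eta := eta) (Lam := Lam) (s := s) hk hz0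
    (by
      rw [← hKdef, hze]
      have : 8 * K * (tau / (32 * K)) = tau / 4 := by
        field_simp
        norm_num
      rw [this]
      linarith)
    hde hs hq V w hne hcard hw hdeg hcod he0 he1
    (by
      rw [← hKdef, ← hD, hze, heta]
      have e1 : 16 * (tau / (32 * K)) * K ^ 2 * D = (512 * (K ^ 2 * D) * tau) / (1024 * K) := by
        field_simp
        norm_num
      rw [e1]
      apply div_le_div_of_nonneg_right _ (by positivity)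
      have h1 : K ^ 2 * D ≤ K ^ 2 * (D * Lam) := mul_le_mul_of_nonneg_left hDD (by positivity)
      nlinarith)
    (by
      rw [← hKdef, ← hD, hze, heta]
      have e1 : 128 * (tau / (32 * K)) * K ^ 2 * D * Lam = (2 ^ 22 * K ^ 3 * D * Lam * tau) / (1024 * K) ^ 2 := by
        field_simp
        norm_num
      rw [e1, div_pow]
      apply div_le_div_of_nonneg_right _ (by positivity)
      have := mul_le_mul_of_nonneg_right hDL ht0.le
      calc _ ≤ tau ^ 3 * tau := this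
        _ = (tau ^ 2) ^ 2 := by ring)
    (by
      rw [← hKdef, ← hD, heta]
      rw [le_div_iff₀ (by positivity)]
      nlinarith)
    g hg hgk hGp
    (by
      intro j
      have h1 := hGG j
      generalize q ^ R0 * Gam w (g j) = Y at h1 ⊢
      rw [← hKdef, hze, heta]
      have e1 : 128 * (tau / (32 * K)) * K ^ 2 * Lam = (2 ^ 22 * (K ^ 3 * Lam) * tau) / (1024 * K) ^ 2 := by
        field_simp
        norm_num
      have e2 : (tau ^ 2 / (1024 * K)) ^ 2 * Y =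
          (tau ^ 4 * Y) / (1024 * K) ^ 2 := by
        field_simp
      rw [e1, e2]
      apply div_le_div_of_nonneg_right _ (by positivity)
      have h2 : (2 ^ 22 * (K ^ 3 * Lam) * tau) * tau ≤ (tau ^ 4 * Y) * tau := by
        have h3 : (2 ^ 22 * (K ^ 3 * Lam) * tau) * tau = 2 ^ 22 * (K ^ 3 * Lam) * tau ^ 2 := by ring
        have h4 : (tau ^ 4 * Y) * tau = tau ^ 5 * Y := by ring
        rw [h3, h4]
        have h5 : 2 ^ 22 * (K ^ 3 * Lam) * tau ^ 2 ≤ 2 ^ 22 * (K ^ 3 * Lam) * 1 :=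
          mul_le_mul_of_nonneg_left ht2 (by positivity)
        linarith
      exact le_of_mul_le_mul_right h2 ht0)
    (by
      intro j
      have h1 := hGG j
      generalize q ^ R0 * Gam w (g j) = Y at h1 ⊢
      rw [← hKdef, heta]
      have e2 : tau ^ 2 / (1024 * K) * Y =
          (tau ^ 2 * Y) / (1024 * K) := div_mul_eq_mul_div _ _ _
      rw [e2, le_div_iff₀ (by positivity)]
      have h2 : (8 * K * Lam * (1024 * K)) * tau ^ 3 ≤ (tau ^ 2 * Y) * tau ^ 3 := by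
        have h3 : (8 * K * Lam * (1024 * K)) * tau ^ 3 = 8192 * (K ^ 2 * Lam) * tau ^ 3 := by ring
        have h4 : (tau ^ 2 * Y) * tau ^ 3 = tau ^ 5 * Y := by ring
        rw [h3, h4]
        have h5 : 8192 * (K ^ 2 * Lam) * tau ^ 3 ≤ 8192 * (K ^ 2 * Lam) * 1 :=
          mul_le_mul_of_nonneg_left ht3' (by positivity)
        linarith
      exact le_of_mul_le_mul_right h2 (by positivity))
    (by
      intro j
      have h1 := hGG j
      generalize q ^ R0 * Gam w (g j) = Y at h1 ⊢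
      rw [← hKdef, heta, hze]
      have e2 : (tau ^ 2 / (1024 * K)) ^ 2 * (tau / (32 * K)) * Y =
          (tau ^ 5 * Y) / (2 ^ 25 * K ^ 3) := by
        field_simp
        ring
      rw [e2, le_div_iff₀ (by positivity)]
      calc 16 * K ^ 3 * Lam * (2 ^ 25 * K ^ 3) = 2 ^ 29 * K ^ 6 * Lam := by ring
        _ ≤ _ := h1)
    (by
      intro j
      have h1 := hGG j
      generalize q ^ R0 * Gam w (g j) = Y at h1 ⊢
      rw [← hKdef, heta, hze]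
      have e2 : tau ^ 2 / (1024 * K) * (tau / (32 * K)) * Y =
          (tau ^ 3 * Y) / (2 ^ 15 * K ^ 2) := by
        field_simp
        ring
      rw [e2, le_div_iff₀ (by positivity)]
      have h2 : (4 * K * Lam * (2 ^ 15 * K ^ 2)) * tau ^ 2 ≤ (tau ^ 3 * Y) * tau ^ 2 := by
        have h3 : (4 * K * Lam * (2 ^ 15 * K ^ 2)) * tau ^ 2 = 2 ^ 17 * (K ^ 3 * Lam) * tau ^ 2 := by ring
        have h4 : (tau ^ 3 * Y) * tau ^ 2 = tau ^ 5 * Y := by ring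
        rw [h3, h4]
        have h5 : 2 ^ 17 * (K ^ 3 * Lam) * tau ^ 2 ≤ 2 ^ 17 * (K ^ 3 * Lam) * 1 :=
          mul_le_mul_of_nonneg_left ht2 (by positivity)
        linarith
      exact le_of_mul_le_mul_right h2 (by positivity))
    h8 R0 le_rfl
  refine ⟨M, fun e he => (hM1 e he).1, hM2, fun j => ?_⟩
  refine le_trans ?_ (hM5 j)
  apply mul_le_mul_of_nonneg_right _ (hGp j).le
  rw [← hKdef]
  refine nib_fin ht0 ht1 hz0 hp3 (Finset.sum_nonneg fun i _ => (pow_pos hq0 i).le) ?_ hq2 hp4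
  have := geom_sum_mul q R0
  linarith

end
end Pool.Agent.APK
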