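import Pool.Agent.APK.RndE

/-!
# APK/NibI : iteration of the rounds   (difficulty 3)

Induction on `R`.  Statement for `R`: there are `A : Finset X`, `M : Finset E` with
`w_R e := if V e ⊆ A then w e * ((1-eta)/s^(|V e|-1))^R else 0` (`itW V w s eta A R e`) such that the five conclusions hold.
`R = 0`: `A = univ`, `M = ∅`.  Step: `w_R` satisfies the hypotheses of `roundE` with `de := deR = de * s^(-(k*R0))`:
`0 ≤ w_R ≤ w s^{-(|V e|-1)R} ≤ w * s^{-k R0}` so `Cod V w_R x y ≤ Cod V w x y * (s⁻¹)^(k R0) ≤ deR` (here `R < R0`, `s ≤ 1`,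
`0 ≤ 1 - eta ≤ 1`);
`Gam w_R (g j) ≥ q^R Gam w (g j) ≥ q^R0 Gam w (g j) =: ≥ Gm`, `q = (1-eta)² s ≤ 1`, so the conditions
`h4 .. h7` follow from those for `Gm` (hypotheses below).  With `A', M'` from `roundE` take `A ∩ A'`, `M ∪ M'`:
`nextW V w_R s eta A' = itW V w s eta (A ∩ A') (R+1)` (`V e ⊆ A ∧ V e ⊆ A'`); an edge of `M'` has `w_R e ≠ 0` so
`V e ⊆ A` (and `w e ≠ 0`) and is disjoint from the edges of `M` (these are disjoint from `A`); edges of `M ∪ M'` are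
disjoint from `A ∩ A'`.  The new edges contribute
`∑_{M'} g ≥ (1 - 4k ze - 2 eta) ze Gam w_R g ≥ (1 - 4k ze - 2eta) ze q^R Gam w g` (`M` and `M'` are disjoint as sets because
the `V e` are nonempty and disjoint).
-/

set_option autoImplicit false
open Finset
open scoped Classical

namespace Pool.Agent.APK
noncomputable section

variable {E X J : Type} [Fintype E] [DecidableEq E] [Fintype X] [DecidableEq X] [Fintype J]

/-- the weights after `R` rounds -/
def itW (V : E → Finset X) (w : E → ℝ) (s eta : ℝ) (A : Finset X) (R : ℕ) (e : E) : ℝ :=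
  if V e ⊆ A then w e * ((1 - eta) / s ^ ((V e).card - 1)) ^ R else 0

theorem NibI_s {ze s : ℝ} (hz0 : 0 < ze) (hs : s = Real.exp (-ze - ze ^ 2)) : 0 < s ∧ s ≤ 1 := by
  subst hs
  refine ⟨Real.exp_pos _, ?_⟩
  rw [Real.exp_le_one_iff]
  nlinarith [sq_nonneg ze]

theorem NibI_r {s eta : ℝ} {k c : ℕ} (hs0 : 0 < s) (hs1 : s ≤ 1) (he0 : 0 < eta) (he1 : eta ≤ 1 / 8) (hc : c ≤ k) :
    0 ≤ (1 - eta) / s ^ (c - 1) ∧ (1 - eta) / s ^ (c - 1) ≤ (s⁻¹) ^ k := by
  have h1 : 0 < s ^ (c - 1) := pow_pos hs0 _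
  refine ⟨div_nonneg (by linarith) h1.le, ?_⟩
  rw [div_eq_mul_inv, ← inv_pow]
  have h2 : (1 : ℝ) ≤ s⁻¹ := (one_le_inv₀ hs0).2 hs1
  have h3 : (s⁻¹) ^ (c - 1) ≤ (s⁻¹) ^ k := pow_le_pow_right₀ h2 (by omega)
  have h4 : 0 ≤ (s⁻¹) ^ (c - 1) := by positivity
  nlinarith

omit [Fintype E] [DecidableEq E] [Fintype X] in
theorem NibI_w {s eta : ℝ} {k R0 R : ℕ} (hs0 : 0 < s) (hs1 : s ≤ 1) (he0 : 0 < eta) (he1 : eta ≤ 1 / 8)
    (V : E → Finset X) (w : E → ℝ) (hcard : ∀ e, (V e).card ≤ k) (hw : ∀ e, 0 ≤ w e) (A : Finset X) (hR : R ≤ R0)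
    (e : E) : 0 ≤ itW V w s eta A R e ∧ itW V w s eta A R e ≤ w e * (s⁻¹) ^ (k * R0) := by
  have h2 : (1 : ℝ) ≤ s⁻¹ := (one_le_inv₀ hs0).2 hs1
  obtain ⟨ha, hb⟩ := NibI_r (eta := eta) (k := k) hs0 hs1 he0 he1 (hcard e)
  have h5 : 0 ≤ (s⁻¹) ^ (k * R0) := by positivity
  unfold itW
  split_ifs with h
  · refine ⟨mul_nonneg (hw e) (pow_nonneg ha _), ?_⟩
    apply mul_le_mul_of_nonneg_left _ (hw e)
    calc ((1 - eta) / s ^ ((V e).card - 1)) ^ R ≤ ((s⁻¹) ^ k) ^ R := pow_le_pow_left₀ ha hb _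
      _ = (s⁻¹) ^ (k * R) := by rw [← pow_mul]
      _ ≤ _ := pow_le_pow_right₀ h2 (Nat.mul_le_mul_left _ hR)
  · exact ⟨le_refl _, mul_nonneg (hw e) h5⟩

omit [Fintype E] [DecidableEq E] [Fintype X] in
theorem NibI_next (V : E → Finset X) (w : E → ℝ) (s eta : ℝ) (A A' : Finset X) (R : ℕ) :
    nextW V (itW V w s eta A R) s eta A' = itW V w s eta (A ∩ A') (R + 1) := by
  funext e
  unfold nextW itW
  by_cases h1 : V e ⊆ A
  · by_cases h2 : V e ⊆ A'
    · rw [if_pos h2, if_pos h1, if_pos (subset_inter h1 h2), pow_succ]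
      ring
    · rw [if_neg h2, if_neg (fun h => h2 (h.trans inter_subset_right))]
  · rw [if_neg h1, if_neg (fun h : V e ⊆ A ∩ A' => h1 (h.trans inter_subset_left))]
    simp

theorem nibI {k R0 : ℕ} {ze de eta Lam s q : ℝ} (hk : 1 ≤ k) (hz0 : 0 < ze) (hz1 : 8 * k * ze ≤ 1)
    (hde : 0 < de) (hs : s = Real.exp (-ze - ze ^ 2)) (hq : q = (1 - eta) ^ 2 * s)
    (V : E → Finset X) (w : E → ℝ) (hne : ∀ e, (V e).Nonempty) (hcard : ∀ e, (V e).card ≤ k)
    (hw : ∀ e, 0 ≤ w e) (hdeg : ∀ x, Deg V w x ≤ 1) (hcod : ∀ x y, x ≠ y → Cod V w x y ≤ de)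
    (he0 : 0 < eta) (he1 : eta ≤ 1 / 8)
    (h1 : 16 * ze * k ^ 2 * (de * (s⁻¹) ^ (k * R0)) ≤ eta)
    (h2 : 128 * ze * k ^ 2 * (de * (s⁻¹) ^ (k * R0)) * Lam ≤ eta ^ 2)
    (h3 : 8 * k * (de * (s⁻¹) ^ (k * R0)) * Lam ≤ eta)
    (g : J → E → ℝ) (hg : ∀ j e, 0 ≤ g j e ∧ g j e ≤ 1) (hgk : ∀ j e, g j e ≠ 0 → 1 / k ≤ g j e)
    (hG : ∀ j, 0 < Gam w (g j))
    (h4 : ∀ j, 128 * ze * k ^ 2 * Lam ≤ eta ^ 2 * (q ^ R0 * Gam w (g j)))
    (h5 : ∀ j, 8 * k * Lam ≤ eta * (q ^ R0 * Gam w (g j)))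
    (h6 : ∀ j, 16 * k ^ 3 * Lam ≤ eta ^ 2 * ze * (q ^ R0 * Gam w (g j)))
    (h7 : ∀ j, 4 * k * Lam ≤ eta * ze * (q ^ R0 * Gam w (g j)))
    (h8 : ((Fintype.card X : ℝ) + 3 * Fintype.card J) * Real.exp (-Lam) < 1) (R : ℕ) (hR : R ≤ R0) :
    ∃ (A : Finset X) (M : Finset E), (∀ e ∈ M, w e ≠ 0 ∧ Disjoint (V e) A) ∧
      (∀ e ∈ M, ∀ f ∈ M, e ≠ f → Disjoint (V e) (V f)) ∧
      (∀ x, Deg V (itW V w s eta A R) x ≤ 1) ∧
      (∀ j, q ^ R * Gam w (g j) ≤ Gam (itW V w s eta A R) (g j)) ∧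
      (∀ j, (1 - 4 * k * ze - 2 * eta) * ze * (∑ r ∈ range R, q ^ r) * Gam w (g j) ≤ ∑ e ∈ M, g j e) := by
  obtain ⟨hs0, hs1⟩ := NibI_s hz0 hs
  have hq0 : 0 < q := by rw [hq]; exact mul_pos (pow_pos (by linarith) _) hs0
  have hq1 : q ≤ 1 := by
    rw [hq]
    have : (1 - eta) ^ 2 ≤ 1 := by nlinarith
    nlinarith [sq_nonneg (1 - eta)]
  have hkk : (1 : ℝ) ≤ k := by exact_mod_cast hk
  have hs2 : (1 : ℝ) ≤ s⁻¹ := (one_le_inv₀ hs0).2 hs1
  have hcc : 0 ≤ 1 - 4 * k * ze - 2 * eta := by linarith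
  induction R with
  | zero =>
    have e0 : itW V w s eta (univ : Finset X) 0 = w := by
      funext e
      simp [itW]
    refine ⟨univ, ∅, by simp, by simp, ?_, ?_, ?_⟩
    · rw [e0]; exact hdeg
    · intro j
      rw [e0]; simp
    · intro j
      simp
  | succ R ih =>
    obtain ⟨A, M, a1, a2, a3, a4, a5⟩ := ih (by omega)
    have hR' : R ≤ R0 := by omega
    have hG' : ∀ j, q ^ R0 * Gam w (g j) ≤ Gam (itW V w s eta A R) (g j) := fun j =>
      le_trans (mul_le_mul_of_nonneg_right (pow_le_pow_of_le_one hq0.le hq1 hR') (hG j).le) (a4 j)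
    have hGp : ∀ j, 0 < Gam (itW V w s eta A R) (g j) := fun j =>
      lt_of_lt_of_le (mul_pos (pow_pos hq0 _) (hG j)) (hG' j)
    have hw' : ∀ e, 0 ≤ itW V w s eta A R e := fun e =>
      (NibI_w (R0 := R0) hs0 hs1 he0 he1 V w hcard hw A hR' e).1
    have hcod' : ∀ x y, x ≠ y → Cod V (itW V w s eta A R) x y ≤ de * (s⁻¹) ^ (k * R0) := by
      intro x y hxy
      have h5 : 0 ≤ (s⁻¹) ^ (k * R0) := by positivity
      calc Cod V (itW V w s eta A R) x y ≤ Cod V w x y * (s⁻¹) ^ (k * R0) := by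
            unfold Cod
            rw [Finset.sum_mul]
            apply Finset.sum_le_sum
            intro e _
            split_ifs
            · exact (NibI_w (R0 := R0) hs0 hs1 he0 he1 V w hcard hw A hR' e).2
            · simp
        _ ≤ _ := mul_le_mul_of_nonneg_right (hcod x y hxy) h5
    obtain ⟨A', M', b1, b2, b3, b4, b5⟩ := roundE (Lam := Lam) hk hz0 hz1 (de := de * (s⁻¹) ^ (k * R0)) (by positivity) V
      (itW V w s eta A R) hne hcard hw' a3 hcod' he0 he1 h1 h2 h3 g hg hgk hGp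
      (fun j => (h4 j).trans (mul_le_mul_of_nonneg_left (hG' j) (by positivity)))
      (fun j => (h5 j).trans (mul_le_mul_of_nonneg_left (hG' j) (by positivity)))
      (fun j => (h6 j).trans (mul_le_mul_of_nonneg_left (hG' j) (by positivity)))
      (fun j => (h7 j).trans (mul_le_mul_of_nonneg_left (hG' j) (by positivity))) h8
    rw [← hs, NibI_next] at b3 b4
    have hsub : ∀ e ∈ M', w e ≠ 0 ∧ V e ⊆ A := by
      intro e he
      have := (b1 e he).1
      unfold itW at this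
      split_ifs at this with h
      · exact ⟨left_ne_zero_of_mul this, h⟩
      · exact absurd rfl this
    refine ⟨A ∩ A', M ∪ M', ?_, ?_, b3, ?_, ?_⟩
    · intro e he
      rcases mem_union.1 he with he | he
      · exact ⟨(a1 e he).1, (a1 e he).2.mono_right inter_subset_left⟩
      · exact ⟨(hsub e he).1, (b1 e he).2.mono_right inter_subset_right⟩
    · intro e he f hf hef
      rcases mem_union.1 he with he | he <;> rcases mem_union.1 hf with hf | hf
      · exact a2 e he f hf hef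
      · exact (a1 e he).2.mono_right (hsub f hf).2
      · exact ((a1 f hf).2.mono_right (hsub e he).2).symm
      · exact b2 e he f hf hef
    · intro j
      refine le_trans ?_ (b4 j)
      rw [← hq, pow_succ]
      have := mul_le_mul_of_nonneg_left (a4 j) hq0.le
      linarith
    · intro j
      have hd : Disjoint M M' := by
        rw [Finset.disjoint_left]
        intro e he he'
        have h9 := (a1 e he).2.mono_right (hsub e he').2
        rw [disjoint_self] at h9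
        have h10 := hne e
        rw [Finset.nonempty_iff_ne_empty] at h10
        exact h10 h9
      rw [Finset.sum_union hd, Finset.sum_range_succ]
      have c1 := a5 j
      have c2 := b5 j
      have c3 : (1 - 4 * k * ze - 2 * eta) * ze * (q ^ R * Gam w (g j)) ≤
          (1 - 4 * k * ze - 2 * eta) * ze * Gam (itW V w s eta A R) (g j) :=
        mul_le_mul_of_nonneg_left (a4 j) (mul_nonneg hcc hz0.le)
      nlinarith

end
end Pool.Agent.APK
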