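import Pool.Agent.APK.GDefs

/-!
# APK/PetO : balanced orientation of a graph with even degrees   (difficulty 3)

`G` has all degrees `2s`.  Among the orientations `O` (relations with `G.Adj u v ↔ O u v ∨ O v u` and `O` asymmetric; they exist:
`O u v := G.Adj u v ∧ u < v`) take one that minimises `Φ = ∑_v |out v - in v|` (a natural number; `out v + in v = 2s`).
Suppose `Φ > 0`.  `∑ (out v - in v) = 0`, so some `v` has `out v > in v`, hence `out v ≥ in v + 2` (equal parity).  Let `S` be the set of the
vertices reachable from `v` along `O`-edges (`Relation.ReflTransGen O v`).  No `O`-edge leaves `S`, so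
`∑_{u ∈ S} out u ≤ ∑_{u ∈ S} in u` (every edge out of a vertex of `S` enters a vertex of `S`); as `v ∈ S`, some `u ∈ S` has
`out u < in u`, i.e. `out u ≤ in u - 2`.  Reverse the edges of a simple directed path from `v` to `u` (a shortest one):
`out v` decreases by one, `in v` increases by one, the opposite at `u`, nothing else changes: `Φ` decreases by `4`.
Contradiction; so `out v = in v = s` for all `v`.
(Alternative without paths: induction. Or: minimise `∑ (out v)²`, and take a pair `(v,u)` with `u` reachable from `v`,
`out v ≥ out u + 2`; along a path `v = x_0, x_1, …, x_k = u` some step has… reversing the whole path is simplest.)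
Another way: strong induction on the number of edges, removing a cycle and orienting it cyclically (a graph with even
degrees and at least one edge has a cycle).
-/

set_option autoImplicit false
open Finset
open scoped Classical

namespace Pool.Agent.APK
noncomputable section

theorem PetO_hall {n : ℕ} (G : SimpleGraph (Fin n)) (s : ℕ) (hs : 0 < s) (hG : ∀ v, dg G v = 2 * s) :
    ∃ f : G.edgeSet → Fin n × ℕ, Function.Injective f ∧ ∀ e, (f e).1 ∈ e.1 ∧ (f e).2 < s := by
  let t : G.edgeSet → Finset (Fin n × ℕ) := fun e => (univ.filter (fun v => v ∈ e.1)) ×ˢ range s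
  have ht : ∀ e p, p ∈ t e ↔ p.1 ∈ e.1 ∧ p.2 < s := by
    intro e p
    simp only [t, mem_product, mem_filter, mem_univ, true_and, mem_range]
  have hall : ∀ F : Finset G.edgeSet, F.card ≤ (F.biUnion t).card := by
    intro F
    have key := Finset.card_mul_le_card_mul (s := F) (t := F.biUnion t) (fun e p => p ∈ t e) (m := 2 * s) (n := 2 * s)
      (by
        intro e he
        have h1 : t e ⊆ Finset.bipartiteAbove (fun e p => p ∈ t e) (F.biUnion t) e := by
          intro p hp
          rw [Finset.mem_bipartiteAbove]
          exact ⟨mem_biUnion.2 ⟨e, he, hp⟩, hp⟩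
        refine le_trans ?_ (card_le_card h1)
        rw [show t e = (univ.filter (fun v => v ∈ e.1)) ×ˢ range s from rfl, card_product, card_range]
        apply Nat.mul_le_mul_right
        obtain ⟨e, hge⟩ := e
        induction e using Sym2.ind with
        | _ a b =>
          have hab : a ≠ b := (SimpleGraph.mem_edgeSet G).1 hge |>.ne
          have h2 : ({a, b} : Finset (Fin n)) ⊆ univ.filter (fun v => v ∈ s(a, b)) := by
            intro v hv
            simp only [mem_insert, mem_singleton] at hv
            simp only [mem_filter, mem_univ, true_and, Sym2.mem_iff]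
            exact hv
          have h3 := card_le_card h2
          rw [card_pair hab] at h3
          exact h3)
      (by
        intro p hp
        obtain ⟨v, i⟩ := p
        rw [← card_image_of_injective _ Subtype.val_injective, ← hG v]
        have h1 : (Finset.bipartiteBelow (fun e p => p ∈ t e) F (v, i)).image Subtype.val ⊆
            (univ.filter (fun u => G.Adj v u)).image (fun u => s(v, u)) := by
          intro e he
          obtain ⟨e', he', rfl⟩ := mem_image.1 he
          rw [Finset.mem_bipartiteBelow] at he'
          have h2 := ((ht _ _).1 he'.2).1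
          obtain ⟨u, hu⟩ := Sym2.mem_iff_exists.1 h2
          rw [hu]
          refine mem_image.2 ⟨u, ?_, rfl⟩
          simp only [mem_filter, mem_univ, true_and]
          rw [← SimpleGraph.mem_edgeSet, ← hu]
          exact e'.2
        exact (card_le_card h1).trans card_image_le)
    exact Nat.le_of_mul_le_mul_right key (by omega)
  obtain ⟨f, hf, hf'⟩ := (Finset.all_card_le_biUnion_card_iff_exists_injective t).1 hall
  exact ⟨f, hf, fun e => (ht _ _).1 (hf' e)⟩

theorem PetO_swap {n : ℕ} {G : SimpleGraph (Fin n)} (f : G.edgeSet → Fin n × ℕ) (u v : Fin n)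
    (h : s(u, v) ∈ G.edgeSet) (h' : s(v, u) ∈ G.edgeSet) : f ⟨s(u, v), h⟩ = f ⟨s(v, u), h'⟩ := by
  congr 1
  exact Subtype.ext Sym2.eq_swap

theorem balanced {n : ℕ} (G : SimpleGraph (Fin n)) (s : ℕ) (hG : ∀ v, dg G v = 2 * s) :
    ∃ O : Fin n → Fin n → Prop, (∀ u v, G.Adj u v ↔ (O u v ∨ O v u)) ∧ (∀ u v, O u v → ¬ O v u) ∧
      (∀ v, (univ.filter (fun u => O v u)).card = s) ∧ (∀ v, (univ.filter (fun u => O u v)).card = s) := by
  rcases Nat.eq_zero_or_pos s with rfl | hs
  · have h0 : ∀ u v, ¬ G.Adj u v := by
      intro u v h
      have h1 := hG u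
      unfold dg at h1
      rw [mul_zero, card_eq_zero, filter_eq_empty_iff] at h1
      exact h1 (mem_univ v) h
    refine ⟨fun _ _ => False, fun u v => ?_, fun u v h => h.elim, fun v => by simp, fun v => by simp⟩
    simp [h0 u v]
  · obtain ⟨f, hf, hf'⟩ := PetO_hall G s hs hG
    let O : Fin n → Fin n → Prop := fun v u => ∃ h : s(v, u) ∈ G.edgeSet, (f ⟨s(v, u), h⟩).1 = v
    have hO1 : ∀ u v, G.Adj u v ↔ (O u v ∨ O v u) := by
      intro u v
      constructor
      · intro h
        have h1 : s(u, v) ∈ G.edgeSet := (SimpleGraph.mem_edgeSet G).2 h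
        have h2 : s(v, u) ∈ G.edgeSet := (SimpleGraph.mem_edgeSet G).2 h.symm
        have h3 := (hf' ⟨s(u, v), h1⟩).1
        rw [Sym2.mem_iff] at h3
        rcases h3 with h3 | h3
        · exact Or.inl ⟨h1, h3⟩
        · right
          refine ⟨h2, ?_⟩
          rw [← PetO_swap f u v h1 h2]
          exact h3
      · rintro (⟨h, _⟩ | ⟨h, _⟩)
        · exact (SimpleGraph.mem_edgeSet G).1 h
        · exact ((SimpleGraph.mem_edgeSet G).1 h).symm
    have hO2 : ∀ u v, O u v → ¬ O v u := by
      rintro u v ⟨h1, h2⟩ ⟨h3, h4⟩
      rw [PetO_swap f v u h3 h1, h2] at h4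
      exact ((SimpleGraph.mem_edgeSet G).1 h1).ne h4
    have hout : ∀ v, (univ.filter (fun u => O v u)).card ≤ s := by
      intro v
      let φ : Fin n → ℕ := fun u => if h : s(v, u) ∈ G.edgeSet then (f ⟨s(v, u), h⟩).2 else 0
      have h1 : ∀ u ∈ univ.filter (fun u => O v u), φ u ∈ range s := by
        intro u hu
        obtain ⟨h, h2⟩ := (mem_filter.1 hu).2
        rw [mem_range, show φ u = (f ⟨s(v, u), h⟩).2 from dif_pos h]
        exact (hf' _).2
      have h2 : Set.InjOn φ (univ.filter (fun u => O v u) : Finset (Fin n)) := by
        intro u hu u' hu' he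
        obtain ⟨h, h2⟩ := (mem_filter.1 (mem_coe.1 hu)).2
        obtain ⟨h', h2'⟩ := (mem_filter.1 (mem_coe.1 hu')).2
        rw [show φ u = (f ⟨s(v, u), h⟩).2 from dif_pos h, show φ u' = (f ⟨s(v, u'), h'⟩).2 from dif_pos h'] at he
        have h3 : f ⟨s(v, u), h⟩ = f ⟨s(v, u'), h'⟩ := Prod.ext (h2.trans h2'.symm) he
        have h4 := congrArg Subtype.val (hf h3)
        exact Sym2.congr_right.1 h4
      have h3 := card_le_card_of_injOn φ h1 h2
      rwa [card_range] at h3
    have hsum : ∀ v, (univ.filter (fun u => O v u)).card + (univ.filter (fun u => O u v)).card = 2 * s := by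
      intro v
      rw [← hG v, ← card_union_of_disjoint]
      · unfold dg
        congr 1
        ext u
        simp only [mem_union, mem_filter, mem_univ, true_and]
        exact (hO1 v u).symm
      · rw [disjoint_left]
        intro u hu hu'
        exact hO2 v u (mem_filter.1 hu).2 (mem_filter.1 hu').2
    have hcomm : ∑ v, (univ.filter (fun u => O v u)).card = ∑ v, (univ.filter (fun u => O u v)).card := by
      simp only [card_filter]
      exact Finset.sum_comm
    have htot : ∑ v, (univ.filter (fun u => O v u)).card = ∑ _v : Fin n, s := by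
      have h1 : ∑ v, ((univ.filter (fun u => O v u)).card + (univ.filter (fun u => O u v)).card) = ∑ _v : Fin n, 2 * s :=
        Finset.sum_congr rfl (fun v _ => hsum v)
      rw [Finset.sum_add_distrib, ← hcomm, ← Finset.mul_sum] at h1
      omega
    have heq : ∀ v, (univ.filter (fun u => O v u)).card = s := by
      intro v
      exact (Finset.sum_eq_sum_iff_of_le (fun v _ => hout v)).1 htot v (mem_univ v)
    refine ⟨O, hO1, hO2, fun v => ?_, fun v => ?_⟩
    · convert heq v
    · have h1 := hsum v
      rw [heq v] at h1
      have h2 : (univ.filter (fun u => O u v)).card = s := by omega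
      convert h2

end
end Pool.Agent.APK
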