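import Mathlib

/-!
# APK/Prb : finite product Bernoulli measures   (difficulty 2)

`EE p A f` is the expectation of `f S` when `S` is the random subset of the finset `A` that contains each
`i ∈ A` independently with probability `p i`; `PP p A Q` is the probability of `Q S`.

Proofs.
* `EE_insert`: `Finset.sum_powerset_insert`, and `(insert i A) \ (insert i S) = A \ S`,
  `(insert i A) \ S = insert i (A \ S)` for `S ⊆ A`, `i ∉ A`.
* `EE_const`: induction on `A` with `EE_insert` (`EE p ∅ f = f ∅`).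
* `EE_split`: induction on `B` with `EE_insert` (the union `insert i B ∪ C = insert i (B ∪ C)`), for all `f`.
* `EE_prod`: `Finset.prod_add` or induction on `A` with `EE_insert` (only `f S` for `S ⊆ A` matters: `EE_congr`).
* `PP_cyl`: `EE_prod` with `a = if i ∈ C then 0 else 1`, `b = if i ∈ B then 0 else 1`: the product over `A` is the
  indicator of `B ⊆ S ∧ Disjoint C S`, and `∏_{i ∈ A} (p a + (1-p) b) = ∏_B p * ∏_C (1 - p)` as the other factors
  are `1`.
* `exists_of_PP`: if all `S ⊆ A` satisfied `Q S` then `PP p A Q = EE 1 = 1`.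
* `PP_two_stage`: `PP p (B ∪ C) Q = EE p B (fun S => PP p C (fun T => Q (S ∪ T)))` (`EE_split`), and the inner
  probability is at most `(if Q1 S then 1 else 0) + r`.
-/

set_option autoImplicit false
open Finset
open scoped Classical

namespace Pool.Agent.APK
noncomputable section

variable {ι κ : Type} [DecidableEq ι]

/-- product Bernoulli weight of `S ⊆ A` -/
def wt (p : ι → ℝ) (A S : Finset ι) : ℝ := (∏ i ∈ S, p i) * ∏ i ∈ A \ S, (1 - p i)

/-- expectation of `f S`, `S` the random subset of `A` -/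
def EE (p : ι → ℝ) (A : Finset ι) (f : Finset ι → ℝ) : ℝ := ∑ S ∈ A.powerset, wt p A S * f S

/-- probability -/
def PP (p : ι → ℝ) (A : Finset ι) (Q : Finset ι → Prop) : ℝ := EE p A (fun S => if Q S then 1 else 0)

/-- `p` is a vector of probabilities on `A` -/
def IsP (p : ι → ℝ) (A : Finset ι) : Prop := ∀ i ∈ A, 0 ≤ p i ∧ p i ≤ 1

theorem wt_nonneg {p : ι → ℝ} {A S : Finset ι} (hp : IsP p A) (hS : S ⊆ A) : 0 ≤ wt p A S := by
  refine mul_nonneg (Finset.prod_nonneg fun i hi => (hp i (hS hi)).1)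
    (Finset.prod_nonneg fun i hi => ?_)
  have := (hp i (Finset.mem_sdiff.1 hi).1).2
  linarith

theorem EE_empty (p : ι → ℝ) (f : Finset ι → ℝ) : EE p ∅ f = f ∅ := by
  unfold EE wt
  rw [Finset.powerset_empty, Finset.sum_singleton]
  simp

theorem EE_insert {p : ι → ℝ} {A : Finset ι} {i : ι} (hi : i ∉ A) (f : Finset ι → ℝ) :
    EE p (insert i A) f = p i * EE p A (fun S => f (insert i S)) + (1 - p i) * EE p A f := by
  unfold EE
  rw [Finset.sum_powerset_insert hi, Finset.mul_sum, Finset.mul_sum, add_comm]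
  refine congrArg₂ (· + ·) (Finset.sum_congr rfl fun S hS => ?_)
    (Finset.sum_congr rfl fun S hS => ?_)
  · have hiS : i ∉ S := fun h => hi (Finset.mem_powerset.1 hS h)
    unfold wt
    rw [Finset.insert_sdiff_insert, Finset.sdiff_insert_of_notMem hi, Finset.prod_insert hiS]
    ring
  · have hiS : i ∉ S := fun h => hi (Finset.mem_powerset.1 hS h)
    unfold wt
    rw [Finset.insert_sdiff_of_notMem A hiS, Finset.prod_insert (fun h => hi (Finset.mem_sdiff.1 h).1)]
    ring

theorem EE_congr {p : ι → ℝ} {A : Finset ι} {f g : Finset ι → ℝ} (h : ∀ S, S ⊆ A → f S = g S) :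
    EE p A f = EE p A g := by
  refine Finset.sum_congr rfl fun S hS => ?_
  rw [h S (Finset.mem_powerset.1 hS)]

theorem EE_const (p : ι → ℝ) (A : Finset ι) (c : ℝ) : EE p A (fun _ => c) = c := by
  induction A using Finset.induction_on with
  | empty => rw [EE_empty]
  | insert i A hi ih =>
    rw [EE_insert hi, ih]
    ring

theorem EE_add (p : ι → ℝ) (A : Finset ι) (f g : Finset ι → ℝ) :
    EE p A (fun S => f S + g S) = EE p A f + EE p A g := by
  unfold EE
  rw [← Finset.sum_add_distrib]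
  exact Finset.sum_congr rfl fun S _ => mul_add _ _ _

theorem EE_sub (p : ι → ℝ) (A : Finset ι) (f g : Finset ι → ℝ) :
    EE p A (fun S => f S - g S) = EE p A f - EE p A g := by
  unfold EE
  rw [← Finset.sum_sub_distrib]
  exact Finset.sum_congr rfl fun S _ => mul_sub _ _ _

theorem EE_neg (p : ι → ℝ) (A : Finset ι) (f : Finset ι → ℝ) :
    EE p A (fun S => - f S) = - EE p A f := by
  unfold EE
  rw [← Finset.sum_neg_distrib]
  exact Finset.sum_congr rfl fun S _ => mul_neg _ _

theorem EE_mul (p : ι → ℝ) (A : Finset ι) (c : ℝ) (f : Finset ι → ℝ) :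
    EE p A (fun S => c * f S) = c * EE p A f := by
  unfold EE
  rw [Finset.mul_sum]
  exact Finset.sum_congr rfl fun S _ => by ring

theorem EE_sum (p : ι → ℝ) (A : Finset ι) (J : Finset κ) (f : κ → Finset ι → ℝ) :
    EE p A (fun S => ∑ j ∈ J, f j S) = ∑ j ∈ J, EE p A (f j) := by
  unfold EE
  simp_rw [Finset.mul_sum]
  exact Finset.sum_comm

theorem EE_mono {p : ι → ℝ} {A : Finset ι} (hp : IsP p A) {f g : Finset ι → ℝ}
    (h : ∀ S, S ⊆ A → f S ≤ g S) : EE p A f ≤ EE p A g := by
  refine Finset.sum_le_sum fun S hS => ?_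
  have hS' := Finset.mem_powerset.1 hS
  exact mul_le_mul_of_nonneg_left (h S hS') (wt_nonneg hp hS')

theorem PP_mono {p : ι → ℝ} {A : Finset ι} (hp : IsP p A) {Q Q' : Finset ι → Prop}
    (h : ∀ S, S ⊆ A → Q S → Q' S) : PP p A Q ≤ PP p A Q' := by
  refine EE_mono hp fun S hS => ?_
  by_cases h1 : Q S
  · rw [if_pos h1, if_pos (h S hS h1)]
  · rw [if_neg h1]
    split_ifs
    · exact zero_le_one
    · exact le_rfl

theorem PP_congr {p : ι → ℝ} {A : Finset ι} {Q Q' : Finset ι → Prop}
    (h : ∀ S, S ⊆ A → (Q S ↔ Q' S)) : PP p A Q = PP p A Q' := by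
  refine EE_congr fun S hS => ?_
  by_cases h1 : Q S
  · rw [if_pos h1, if_pos ((h S hS).1 h1)]
  · rw [if_neg h1, if_neg fun h2 => h1 ((h S hS).2 h2)]

theorem PP_nonneg {p : ι → ℝ} {A : Finset ι} (hp : IsP p A) (Q : Finset ι → Prop) : 0 ≤ PP p A Q := by
  have h := EE_mono (f := fun _ => 0) (g := fun S => if Q S then 1 else 0) hp (fun S _ => by
    split_ifs
    · exact zero_le_one
    · exact le_rfl)
  rw [EE_const] at h
  exact h

theorem PP_le_one {p : ι → ℝ} {A : Finset ι} (hp : IsP p A) (Q : Finset ι → Prop) : PP p A Q ≤ 1 := by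
  have h := EE_mono (f := fun S => if Q S then 1 else 0) (g := fun _ => 1) hp (fun S _ => by
    split_ifs
    · exact le_rfl
    · exact zero_le_one)
  rw [EE_const] at h
  exact h

theorem PP_or {p : ι → ℝ} {A : Finset ι} (hp : IsP p A) (Q Q' : Finset ι → Prop) :
    PP p A (fun S => Q S ∨ Q' S) ≤ PP p A Q + PP p A Q' := by
  unfold PP
  rw [← EE_add]
  refine EE_mono hp fun S _ => ?_
  by_cases h1 : Q S
  · by_cases h2 : Q' S
    · rw [if_pos (Or.inl h1), if_pos h1, if_pos h2]
      norm_num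
    · rw [if_pos (Or.inl h1), if_pos h1, if_neg h2]
      norm_num
  · by_cases h2 : Q' S
    · rw [if_pos (Or.inr h2), if_neg h1, if_pos h2]
      norm_num
    · rw [if_neg (fun h => h.elim h1 h2), if_neg h1, if_neg h2]
      norm_num

theorem PP_exists {p : ι → ℝ} {A : Finset ι} (hp : IsP p A) (J : Finset κ) (Q : κ → Finset ι → Prop) :
    PP p A (fun S => ∃ j ∈ J, Q j S) ≤ ∑ j ∈ J, PP p A (Q j) := by
  unfold PP
  rw [← EE_sum]
  refine EE_mono hp fun S _ => ?_
  have h0 : ∀ j ∈ J, (0 : ℝ) ≤ if Q j S then 1 else 0 := fun j _ => by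
    split_ifs
    · exact zero_le_one
    · exact le_rfl
  by_cases h1 : ∃ j ∈ J, Q j S
  · rw [if_pos h1]
    obtain ⟨j, hj, hQ⟩ := h1
    refine le_trans (le_of_eq ?_) (Finset.single_le_sum h0 hj)
    rw [if_pos hQ]
  · rw [if_neg h1]
    exact Finset.sum_nonneg h0

theorem exists_of_PP {p : ι → ℝ} {A : Finset ι} (Q : Finset ι → Prop) (h : PP p A Q < 1) :
    ∃ S, S ⊆ A ∧ ¬ Q S := by
  by_contra hne
  have h1 : ∀ S, S ⊆ A → Q S := fun S hS => by
    by_contra h2
    exact hne ⟨S, hS, h2⟩
  have h2 : PP p A Q = EE p A (fun _ => 1) := EE_congr fun S hS => if_pos (h1 S hS)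
  rw [EE_const] at h2
  linarith

theorem EE_split {p : ι → ℝ} {B C : Finset ι} (h : Disjoint B C) (f : Finset ι → ℝ) :
    EE p (B ∪ C) f = EE p B (fun S => EE p C (fun T => f (S ∪ T))) := by
  induction B using Finset.induction_on generalizing f with
  | empty =>
    rw [EE_empty, Finset.empty_union]
    exact EE_congr fun S _ => by rw [Finset.empty_union]
  | insert i B hi ih =>
    have h1 : Disjoint B C := Finset.disjoint_of_subset_left (Finset.subset_insert i B) h
    have h2 : i ∉ B ∪ C := fun h3 => (Finset.mem_union.1 h3).elim hi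
      (Finset.disjoint_left.1 h (Finset.mem_insert_self i B))
    rw [Finset.insert_union, EE_insert h2, EE_insert hi, ih h1, ih h1]
    refine congrArg₂ (· + ·) (congrArg _ (EE_congr fun S _ => EE_congr fun T _ => ?_)) rfl
    rw [Finset.insert_union]

theorem EE_prod (p : ι → ℝ) (A : Finset ι) (a b : ι → ℝ) :
    EE p A (fun S => ∏ i ∈ A, if i ∈ S then a i else b i) = ∏ i ∈ A, (p i * a i + (1 - p i) * b i) := by
  induction A using Finset.induction_on with
  | empty =>
    rw [EE_empty, Finset.prod_empty, Finset.prod_empty]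
  | insert i A hi ih =>
    rw [EE_insert hi, Finset.prod_insert hi, ← ih]
    have h1 : EE p A (fun S => ∏ j ∈ insert i A, if j ∈ insert i S then a j else b j) =
        a i * EE p A (fun S => ∏ j ∈ A, if j ∈ S then a j else b j) := by
      rw [← EE_mul]
      refine EE_congr fun S hS => ?_
      rw [Finset.prod_insert hi, if_pos (Finset.mem_insert_self i S)]
      refine congrArg _ (Finset.prod_congr rfl fun j hj => ?_)
      have hji : j ≠ i := fun h => hi (h ▸ hj)
      by_cases hjS : j ∈ S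
      · rw [if_pos (Finset.mem_insert_of_mem hjS), if_pos hjS]
      · rw [if_neg (fun h => (Finset.mem_insert.1 h).elim hji hjS), if_neg hjS]
    have h2 : EE p A (fun S => ∏ j ∈ insert i A, if j ∈ S then a j else b j) =
        b i * EE p A (fun S => ∏ j ∈ A, if j ∈ S then a j else b j) := by
      rw [← EE_mul]
      refine EE_congr fun S hS => ?_
      rw [Finset.prod_insert hi, if_neg (fun h => hi (hS h))]
    rw [h1, h2]
    ring

theorem prb_ite {A B : Finset ι} (hB : B ⊆ A) (g : ι → ℝ) :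
    ∏ i ∈ A, (if i ∈ B then g i else 1) = ∏ i ∈ B, g i := by
  rw [← Finset.prod_subset hB (f := fun i => if i ∈ B then g i else 1)
    (fun i _ hi => if_neg hi)]
  exact Finset.prod_congr rfl fun i hi => if_pos hi

theorem PP_cyl {p : ι → ℝ} {A B C : Finset ι} (hB : B ⊆ A) (hC : C ⊆ A) (hBC : Disjoint B C) :
    PP p A (fun S => B ⊆ S ∧ Disjoint C S) = (∏ i ∈ B, p i) * ∏ i ∈ C, (1 - p i) := by
  have h1 : PP p A (fun S => B ⊆ S ∧ Disjoint C S) =
      EE p A (fun S => ∏ i ∈ A, if i ∈ S then (if i ∈ C then (0 : ℝ) else 1)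
        else (if i ∈ B then 0 else 1)) := by
    refine EE_congr fun S hS => ?_
    by_cases hd : B ⊆ S ∧ Disjoint C S
    · rw [if_pos hd]
      symm
      refine Finset.prod_eq_one fun i _ => ?_
      by_cases hi : i ∈ S
      · rw [if_pos hi, if_neg (Finset.disjoint_right.1 hd.2 hi)]
      · rw [if_neg hi, if_neg (fun h => hi (hd.1 h))]
    · rw [if_neg hd]
      symm
      by_cases h2 : B ⊆ S
      · have h3 : ¬ Disjoint C S := fun h => hd ⟨h2, h⟩
        obtain ⟨i, hiC, hiS⟩ := Finset.not_disjoint_iff.1 h3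
        refine Finset.prod_eq_zero (hC hiC) ?_
        rw [if_pos hiS, if_pos hiC]
      · obtain ⟨i, hiB, hiS⟩ := Finset.not_subset.1 h2
        refine Finset.prod_eq_zero (hB hiB) ?_
        rw [if_neg hiS, if_pos hiB]
  rw [h1, EE_prod]
  have h4 : ∀ i ∈ A, p i * (if i ∈ C then (0 : ℝ) else 1) + (1 - p i) * (if i ∈ B then 0 else 1) =
      (if i ∈ B then p i else 1) * (if i ∈ C then 1 - p i else 1) := by
    intro i _
    by_cases hi : i ∈ B
    · have hiC : i ∉ C := Finset.disjoint_left.1 hBC hi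
      rw [if_neg hiC, if_pos hi, if_pos hi, if_neg hiC]
      ring
    · by_cases hiC : i ∈ C
      · rw [if_pos hiC, if_neg hi, if_neg hi, if_pos hiC]
        ring
      · rw [if_neg hiC, if_neg hi, if_neg hi, if_neg hiC]
        ring
  rw [Finset.prod_congr rfl h4, Finset.prod_mul_distrib, prb_ite hB, prb_ite hC]

theorem PP_two_stage {p : ι → ℝ} {B C : Finset ι} (hpB : IsP p B) (hpC : IsP p C) (hBC : Disjoint B C)
    (Q1 Q : Finset ι → Prop) (r : ℝ) (hr : 0 ≤ r)
    (h : ∀ S, S ⊆ B → ¬ Q1 S → PP p C (fun T => Q (S ∪ T)) ≤ r) :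
    PP p (B ∪ C) Q ≤ PP p B Q1 + r := by
  have h1 : PP p (B ∪ C) Q = EE p B (fun S => PP p C (fun T => Q (S ∪ T))) := EE_split hBC _
  have h2 : EE p B (fun S => (if Q1 S then (1 : ℝ) else 0) + r) = PP p B Q1 + r := by
    rw [EE_add p B (fun S => if Q1 S then (1 : ℝ) else 0) (fun _ => r), EE_const]
    rfl
  rw [h1, ← h2]
  refine EE_mono hpB fun S hS => ?_
  by_cases hQ : Q1 S
  · rw [if_pos hQ]
    have := PP_le_one hpC (fun T => Q (S ∪ T))
    linarith
  · rw [if_neg hQ, zero_add]
    exact h S hS hQ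

end
end Pool.Agent.APK
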