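import Pool.Agent.APK.AlvP
import Pool.Agent.APK.Ber

/-!
# APK/RndG : the new total weight of a test function   (difficulty 3)

`f T = Gam (newW V w s eta T) g`, `Γ = Gam w g`.
`E f = ∑ w_i g_i (1-eta)/s^(|V i|-1) P(∀ j ∈ T, Disjoint (V j) (V i)) ≥ (1-eta) s Γ` by `alv_lower` (`|V i| ≥ 1`).
`bernstein_low` with `A = univ`, `c_j = ∑_{y ∈ V j} a_y`, `a_y = 2 Deg V (w g) y ≤ 2`
(toggling `j` changes only the terms with `V i ∩ V j ≠ ∅`; each is at most `2 w_i g_i` because
`s^(|V i|-1) ≥ s^k ≥ (1 - 2 ze)^k ≥ 1 - 2 k ze ≥ 3/4`), `b = 2k`,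
`∑ p_j c_j² ≤ 2 ze k ∑ a_y² ≤ 8 ze k ∑_y Deg V (w g) y ≤ 8 ze k² Γ = V` (`varB`, `sumDeg`, `Deg V (w g) y ≤ 1`),
`lam = eta Γ / 2`: since `(1-eta) s ≥ (7/8)(3/4) ≥ 1/2`, `f < (1-eta)² s Γ` implies
`f ≤ (1-eta) s Γ - eta (1-eta) s Γ ≤ E f - lam`.
Exponents: `lam²/(4V) = eta² Γ/(128 ze k²) ≥ Lam`, `lam/(2b) = eta Γ/(8k) ≥ Lam`.
-/

set_option autoImplicit false
open Finset
open scoped Classical

namespace Pool.Agent.APK
noncomputable section

variable {I X : Type} [Fintype I] [DecidableEq I] [Fintype X] [DecidableEq X]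

/-- indicator of the survival of `i` -/
def rndg_g (V : I → Finset X) (T : Finset I) (i : I) : ℝ :=
  if ∀ j ∈ T, Disjoint (V j) (V i) then 1 else 0

/-- weights -/
def rndg_W (V : I → Finset X) (w g : I → ℝ) (s eta : ℝ) (i : I) : ℝ :=
  w i * (1 - eta) / s ^ ((V i).card - 1) * g i

theorem rndg_ze {k : ℕ} {ze de s : ℝ} {V : I → Finset X} {p w : I → ℝ} (h : Round k ze de s V p w) :
    ze ≤ 1 / 8 := by
  have hze := h.ze0
  have hze1 := h.ze1
  have hk1 : (1 : ℝ) ≤ k := by exact_mod_cast h.kpos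
  nlinarith

theorem rndg_spow {k : ℕ} {ze de s : ℝ} {V : I → Finset X} {p w : I → ℝ} (h : Round k ze de s V p w)
    (i : I) : 1 / 2 ≤ s ^ ((V i).card - 1) := by
  obtain ⟨hs1, hs2, hs3⟩ := s_bds h
  have hk : (V i).card - 1 ≤ k := le_trans (Nat.sub_le _ _) (h.card i)
  have h1 : s ^ k ≤ s ^ ((V i).card - 1) := pow_le_pow_of_le_one (by linarith) hs2 hk
  have hze := h.ze0
  have hze1 := h.ze1
  have hk1 : (1 : ℝ) ≤ k := by exact_mod_cast h.kpos
  have hz2 : 0 ≤ 1 - 2 * ze := by nlinarith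
  have h2 : (1 - 2 * ze) ^ k ≤ s ^ k := pow_le_pow_left₀ hz2 hs3 k
  have h3 : 1 + (k : ℝ) * (-(2 * ze)) ≤ (1 + -(2 * ze)) ^ k := one_add_mul_le_pow (by nlinarith) k
  have h4 : (1 + -(2 * ze)) ^ k = (1 - 2 * ze) ^ k := by ring_nf
  rw [h4] at h3
  nlinarith

theorem rndg_W_nonneg {k : ℕ} {ze de s : ℝ} {V : I → Finset X} {p w : I → ℝ} (h : Round k ze de s V p w)
    {eta : ℝ} (he1 : eta ≤ 1 / 8) (g : I → ℝ) (hg : ∀ i, 0 ≤ g i ∧ g i ≤ 1) (i : I) :
    0 ≤ rndg_W V w g s eta i := by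
  unfold rndg_W
  have := rndg_spow h i
  exact mul_nonneg (div_nonneg (mul_nonneg (h.w0 i) (by linarith)) (by linarith)) (hg i).1

theorem rndg_W_le {k : ℕ} {ze de s : ℝ} {V : I → Finset X} {p w : I → ℝ} (h : Round k ze de s V p w)
    {eta : ℝ} (he0 : 0 < eta) (g : I → ℝ) (hg : ∀ i, 0 ≤ g i ∧ g i ≤ 1) (i : I) :
    rndg_W V w g s eta i ≤ 2 * (w i * g i) := by
  unfold rndg_W
  have h1 := rndg_spow h i
  have h5 : w i * (1 - eta) / s ^ ((V i).card - 1) ≤ 2 * w i := by
    rw [div_le_iff₀ (by linarith)]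
    have h2 : w i * (1 - eta) ≤ w i := by
      have := mul_nonneg (h.w0 i) he0.le
      linarith
    have h3 : 2 * w i * (1 / 2) ≤ 2 * w i * s ^ ((V i).card - 1) :=
      mul_le_mul_of_nonneg_left h1 (by linarith [h.w0 i])
    linarith
  calc w i * (1 - eta) / s ^ ((V i).card - 1) * g i ≤ 2 * w i * g i :=
        mul_le_mul_of_nonneg_right h5 (hg i).1
    _ = 2 * (w i * g i) := by ring

omit [Fintype X] in
theorem rndg_gam (V : I → Finset X) (w g : I → ℝ) (s eta : ℝ) (T : Finset I) :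
    Gam (newW V w s eta T) g = ∑ i, rndg_W V w g s eta i * rndg_g V T i := by
  unfold Gam newW rndg_W rndg_g
  refine Finset.sum_congr rfl fun i _ => ?_
  by_cases hc : ∀ j ∈ T, Disjoint (V j) (V i)
  · rw [if_pos hc, if_pos hc, mul_one]
  · rw [if_neg hc, if_neg hc, mul_zero, zero_mul]

theorem rndg_exp {k : ℕ} {ze de s : ℝ} {V : I → Finset X} {p w : I → ℝ} (h : Round k ze de s V p w)
    {eta : ℝ} (he1 : eta ≤ 1 / 8) (g : I → ℝ) (hg : ∀ i, 0 ≤ g i ∧ g i ≤ 1) :
    (1 - eta) * s * Gam w g ≤ EE p univ (fun T => Gam (newW V w s eta T) g) := by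
  have e1 : EE p univ (fun T => Gam (newW V w s eta T) g) =
      ∑ i, rndg_W V w g s eta i * PP p univ (fun T => ∀ j ∈ T, Disjoint (V j) (V i)) := by
    have : EE p univ (fun T => Gam (newW V w s eta T) g) =
        EE p univ (fun T => ∑ i, rndg_W V w g s eta i * rndg_g V T i) :=
      EE_congr fun T _ => rndg_gam V w g s eta T
    rw [this, EE_sum]
    refine Finset.sum_congr rfl fun i _ => ?_
    rw [EE_mul, PP]
    refine congrArg _ (EE_congr fun T _ => ?_)
    unfold rndg_g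
    by_cases hh : ∀ j ∈ T, Disjoint (V j) (V i)
    · rw [if_pos hh, if_pos hh]
    · rw [if_neg hh, if_neg hh]
  rw [e1]
  unfold Gam
  rw [Finset.mul_sum]
  refine Finset.sum_le_sum fun i _ => ?_
  have h2 := alv_lower h (V i)
  have hs := rndg_spow h i
  have hne : s ^ ((V i).card - 1) ≠ 0 := by
    intro h0
    rw [h0] at hs
    norm_num at hs
  have hc : (V i).card = (V i).card - 1 + 1 := by
    have := (h.ne i).card_pos
    omega
  calc (1 - eta) * s * (w i * g i) = rndg_W V w g s eta i * s ^ (V i).card := by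
        unfold rndg_W
        rw [hc, pow_succ, Nat.add_sub_cancel]
        field_simp
    _ ≤ rndg_W V w g s eta i * PP p univ (fun T => ∀ j ∈ T, Disjoint (V j) (V i)) :=
        mul_le_mul_of_nonneg_left h2 (rndg_W_nonneg h he1 g hg i)

/-- influence of a vertex -/
def rndg_a (V : I → Finset X) (w g : I → ℝ) (y : X) : ℝ := 2 * Deg V (fun i => w i * g i) y

theorem rndg_a_bd {k : ℕ} {ze de s : ℝ} {V : I → Finset X} {p w : I → ℝ} (h : Round k ze de s V p w)
    (g : I → ℝ) (hg : ∀ i, 0 ≤ g i ∧ g i ≤ 1) (y : X) : 0 ≤ rndg_a V w g y ∧ rndg_a V w g y ≤ 2 := by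
  unfold rndg_a
  constructor
  · refine mul_nonneg (by norm_num) (Finset.sum_nonneg fun i _ => ?_)
    split_ifs
    · exact mul_nonneg (h.w0 i) (hg i).1
    · exact le_rfl
  · have h1 : Deg V (fun i => w i * g i) y ≤ Deg V w y := by
      refine Finset.sum_le_sum fun i _ => ?_
      split_ifs
      · exact mul_le_of_le_one_right (h.w0 i) (hg i).2
      · exact le_rfl
    have := h.deg y
    linarith

theorem rndg_asum {k : ℕ} {ze de s : ℝ} {V : I → Finset X} {p w : I → ℝ} (h : Round k ze de s V p w)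
    (g : I → ℝ) (hg : ∀ i, 0 ≤ g i ∧ g i ≤ 1) : ∑ y, rndg_a V w g y ≤ 2 * (k * Gam w g) := by
  unfold rndg_a
  rw [← Finset.mul_sum]
  exact mul_le_mul_of_nonneg_left (sumDeg h g fun i => (hg i).1) (by norm_num)

theorem rndg_diff {k : ℕ} {ze de s : ℝ} {V : I → Finset X} {p w : I → ℝ} (h : Round k ze de s V p w)
    {eta : ℝ} (he0 : 0 < eta) (he1 : eta ≤ 1 / 8) (g : I → ℝ) (hg : ∀ i, 0 ≤ g i ∧ g i ≤ 1)
    (j : I) (S : Finset I) :
    |Gam (newW V w s eta (insert j S)) g - Gam (newW V w s eta (S.erase j)) g| ≤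
      ∑ y ∈ V j, rndg_a V w g y := by
  have hins : insert j S = insert j (S.erase j) := by
    ext i
    simp only [Finset.mem_insert, Finset.mem_erase]
    tauto
  rw [hins]
  generalize S.erase j = R
  rw [rndg_gam, rndg_gam, ← Finset.sum_sub_distrib]
  refine (Finset.abs_sum_le_sum_abs _ _).trans ?_
  have hterm : ∀ i, |rndg_W V w g s eta i * rndg_g V (insert j R) i -
      rndg_W V w g s eta i * rndg_g V R i| ≤
      ∑ y ∈ V j, 2 * (if y ∈ V i then w i * g i else 0) := by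
    intro i
    have hnn : ∀ y, 0 ≤ 2 * (if y ∈ V i then w i * g i else 0) := by
      intro y
      split_ifs
      · exact mul_nonneg (by norm_num) (mul_nonneg (h.w0 i) (hg i).1)
      · simp
    rw [← mul_sub, abs_mul, abs_of_nonneg (rndg_W_nonneg h he1 g hg i)]
    by_cases hc : Disjoint (V j) (V i)
    · have : rndg_g V (insert j R) i = rndg_g V R i := by
        unfold rndg_g
        have hiff : (∀ l ∈ insert j R, Disjoint (V l) (V i)) ↔ ∀ l ∈ R, Disjoint (V l) (V i) := by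
          simp [hc]
        by_cases hh : ∀ l ∈ R, Disjoint (V l) (V i)
        · rw [if_pos hh, if_pos (hiff.2 hh)]
        · rw [if_neg hh, if_neg (fun h' => hh (hiff.1 h'))]
      rw [this, sub_self, abs_zero, mul_zero]
      exact Finset.sum_nonneg fun y _ => hnn y
    · have hg1 : rndg_g V (insert j R) i = 0 := by
        unfold rndg_g
        exact if_neg (fun hh => hc (hh j (Finset.mem_insert_self _ _)))
      have hg2 : 0 ≤ rndg_g V R i ∧ rndg_g V R i ≤ 1 := by
        unfold rndg_g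
        split_ifs <;> norm_num
      rw [hg1, zero_sub, abs_neg, abs_of_nonneg hg2.1]
      rw [Finset.not_disjoint_iff] at hc
      obtain ⟨y, hyj, hyi⟩ := hc
      refine le_trans ?_ (Finset.single_le_sum (fun z _ => hnn z) hyj)
      rw [if_pos hyi]
      exact (mul_le_of_le_one_right (rndg_W_nonneg h he1 g hg i) hg2.2).trans (rndg_W_le h he0 g hg i)
  refine (Finset.sum_le_sum fun i _ => hterm i).trans (le_of_eq ?_)
  rw [Finset.sum_comm]
  refine Finset.sum_congr rfl fun y _ => ?_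
  unfold rndg_a
  rw [← Finset.mul_sum]
  rfl

theorem rndG {k : ℕ} {ze de s : ℝ} {V : I → Finset X} {p w : I → ℝ} (h : Round k ze de s V p w)
    {eta Lam : ℝ} (he0 : 0 < eta) (he1 : eta ≤ 1 / 8) (g : I → ℝ) (hg : ∀ i, 0 ≤ g i ∧ g i ≤ 1)
    (hG : 0 < Gam w g)
    (h1 : 128 * ze * k ^ 2 * Lam ≤ eta ^ 2 * Gam w g) (h2 : 8 * k * Lam ≤ eta * Gam w g) :
    PP p univ (fun T => Gam (newW V w s eta T) g < (1 - eta) ^ 2 * s * Gam w g) ≤ Real.exp (-Lam) := by
  have hze := h.ze0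
  have hze8 := rndg_ze h
  have hk1 : (1 : ℝ) ≤ k := by exact_mod_cast h.kpos
  obtain ⟨hs1, hs2, hs3⟩ := s_bds h
  have hE := rndg_exp h he1 g hg
  have hP := isP_univ h (univ : Finset I)
  have hes : 1 / 2 ≤ (1 - eta) * s := by
    have a1 : (3 : ℝ) / 4 ≤ s := by linarith
    have a2 : (7 : ℝ) / 8 ≤ 1 - eta := by linarith
    nlinarith
  have hsub : PP p univ (fun T => Gam (newW V w s eta T) g < (1 - eta) ^ 2 * s * Gam w g) ≤
      PP p univ (fun T => Gam (newW V w s eta T) g ≤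
        EE p univ (fun T => Gam (newW V w s eta T) g) - eta * Gam w g / 2) := by
    refine PP_mono hP fun T _ hT => ?_
    have a1 : eta * Gam w g / 2 ≤ eta * Gam w g * ((1 - eta) * s) := by
      have := mul_le_mul_of_nonneg_left hes (mul_nonneg he0.le hG.le)
      linarith
    have a2 : (1 - eta) ^ 2 * s * Gam w g = (1 - eta) * s * Gam w g - eta * Gam w g * ((1 - eta) * s) := by
      ring
    linarith
  refine hsub.trans ?_
  have hb : (0 : ℝ) < 2 * k := by positivity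
  have hV : 0 < 8 * ze * k ^ 2 * Gam w g := by positivity
  have hvar : ∑ i ∈ (univ : Finset I), p i * (∑ y ∈ V i, rndg_a V w g y) ^ 2 ≤ 8 * ze * k ^ 2 * Gam w g := by
    refine (varB h (rndg_a V w g) (fun y => (rndg_a_bd h g hg y).1)).trans ?_
    have h4 : ∑ y, rndg_a V w g y ^ 2 ≤ 2 * (2 * (k * Gam w g)) := by
      calc ∑ y, rndg_a V w g y ^ 2 ≤ ∑ y, 2 * rndg_a V w g y := by
            refine Finset.sum_le_sum fun y _ => ?_
            rw [pow_two]
            exact mul_le_mul_of_nonneg_right (rndg_a_bd h g hg y).2 (rndg_a_bd h g hg y).1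
        _ = 2 * ∑ y, rndg_a V w g y := by rw [Finset.mul_sum]
        _ ≤ 2 * (2 * (k * Gam w g)) := mul_le_mul_of_nonneg_left (rndg_asum h g hg) (by norm_num)
    calc 2 * ze * k * ∑ y, rndg_a V w g y ^ 2 ≤ 2 * ze * k * (2 * (2 * (k * Gam w g))) :=
          mul_le_mul_of_nonneg_left h4 (by positivity)
      _ = 8 * ze * k ^ 2 * Gam w g := by ring
  have hbern := bernstein_low (p := p) (A := (univ : Finset I)) hP
    (f := fun T => Gam (newW V w s eta T) g)
    (c := fun j => ∑ y ∈ V j, rndg_a V w g y) (b := 2 * k) (V := 8 * ze * k ^ 2 * Gam w g)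
    (lam := eta * Gam w g / 2) hb hV (by positivity)
    (fun j _ => ⟨Finset.sum_nonneg fun y _ => (rndg_a_bd h g hg y).1, by
      calc ∑ y ∈ V j, rndg_a V w g y ≤ ∑ y ∈ V j, (2 : ℝ) :=
            Finset.sum_le_sum fun y _ => (rndg_a_bd h g hg y).2
        _ = (V j).card * 2 := by rw [Finset.sum_const, nsmul_eq_mul]
        _ ≤ k * 2 := mul_le_mul_of_nonneg_right (by exact_mod_cast h.card j) (by norm_num)
        _ = 2 * k := by ring⟩)
    (fun j _ S _ => rndg_diff h he0 he1 g hg j S) hvar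
  refine hbern.trans (Real.exp_le_exp.2 (neg_le_neg (le_min ?_ ?_)))
  · rw [le_div_iff₀ (by positivity)]
    have := mul_le_mul_of_nonneg_right h1 hG.le
    nlinarith
  · rw [le_div_iff₀ (by positivity)]
    nlinarith

end
end Pool.Agent.APK
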