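import Pool.Agent.APK.RndD
import Pool.Agent.APK.RndG
import Pool.Agent.APK.MatB

/-!
# APK/Rnd : one round   (difficulty 2)

* `matC`: `PP_two_stage` with `B = Eg w g`, `C = univ \ Eg w g` (`B ∪ C = univ`), `Q1` the event of `matA`, `r = exp (-Lam)`
  from `matB` (if `¬ Q1 S` then `hx` holds), and `(1 - 2k ze - eta) isoS ≥ (1 - 2k ze - eta)² ze Γ
  ≥ (1 - 4k ze - 2 eta) ze Γ` (`1 - 2 k ze - eta ≥ 0`).
* `oneRound`: union bound (`PP_or`, `PP_exists`, `exists_of_PP`): the bad events are those of `rndD` for every `x`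
  (total `|X| exp(-Lam)`), of `rndG` for every test (`|J| exp (-Lam)`) and of `matC` for every test
  (`2 |J| exp (-Lam)`).  If `T` avoids them: for a vertex `x` that lies in some `V j`, `j ∈ T`, all `i ∋ x` have
  `newW = 0`, so `Deg = 0 ≤ 1`; otherwise `rndD`.
-/

set_option autoImplicit false
open Finset
open scoped Classical

namespace Pool.Agent.APK
noncomputable section

variable {I X J : Type} [Fintype I] [DecidableEq I] [Fintype X] [DecidableEq X] [Fintype J]

theorem matC {k : ℕ} {ze de s : ℝ} {V : I → Finset X} {p w : I → ℝ} (h : Round k ze de s V p w)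
    {eta Lam : ℝ} (he0 : 0 < eta) (he1 : eta ≤ 1 / 8) (g : I → ℝ) (hg : ∀ i, 0 ≤ g i ∧ g i ≤ 1)
    (hgk : ∀ i, g i ≠ 0 → 1 / k ≤ g i) (hG : 0 < Gam w g)
    (h1 : 16 * k ^ 3 * Lam ≤ eta ^ 2 * ze * Gam w g) (h2 : 4 * k * Lam ≤ eta * ze * Gam w g) :
    PP p univ (fun T => matS V w g T < (1 - 4 * k * ze - 2 * eta) * ze * Gam w g)
      ≤ 2 * Real.exp (-Lam) := by
  have hun : Eg w g ∪ (univ \ Eg w g) = univ := Finset.union_sdiff_of_subset (Finset.subset_univ _)
  have hdj : Disjoint (Eg w g) (univ \ Eg w g) := Finset.disjoint_sdiff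
  have hA := matA h he0 he1 g hg hgk hG h1 h2
  have hk0 : 0 ≤ 1 - 2 * k * ze - eta := by
    have := h.ze1
    linarith
  have hze := h.ze0
  have hmain := PP_two_stage (isP_univ h (Eg w g)) (isP_univ h (univ \ Eg w g)) hdj
    (fun S => isoS V g S < (1 - 2 * k * ze - eta) * ze * Gam w g)
    (fun T => matS V w g T < (1 - 4 * k * ze - 2 * eta) * ze * Gam w g) (Real.exp (-Lam))
    (Real.exp_pos _).le ?_
  · rw [hun] at hmain
    linarith
  · intro S hS hQ
    have hx : (1 - 2 * k * ze - eta) * ze * Gam w g ≤ isoS V g S := not_lt.1 hQ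
    refine le_trans (PP_mono (isP_univ h _) ?_) (matB h he0 he1 g hg hgk hG h1 h2 S hS hx)
    intro T _ hT
    have h3 : (1 - 2 * k * ze - eta) * ((1 - 2 * k * ze - eta) * ze * Gam w g) ≤
        (1 - 2 * k * ze - eta) * isoS V g S := mul_le_mul_of_nonneg_left hx hk0
    have h4 : 0 ≤ (2 * k * ze + eta) ^ 2 * (ze * Gam w g) :=
      mul_nonneg (sq_nonneg _) (mul_nonneg hze.le hG.le)
    have h5 : (1 - 4 * k * ze - 2 * eta) * ze * Gam w g + (2 * k * ze + eta) ^ 2 * (ze * Gam w g) =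
        (1 - 2 * k * ze - eta) * ((1 - 2 * k * ze - eta) * ze * Gam w g) := by ring
    show matS V w g (S ∪ T) < _
    have hT' : matS V w g (S ∪ T) < (1 - 4 * k * ze - 2 * eta) * ze * Gam w g := hT
    linarith

theorem oneRound {k : ℕ} {ze de s : ℝ} {V : I → Finset X} {p w : I → ℝ} (h : Round k ze de s V p w)
    {eta Lam : ℝ} (he0 : 0 < eta) (he1 : eta ≤ 1 / 8)
    (h1 : 16 * ze * k ^ 2 * de ≤ eta) (h2 : 128 * ze * k ^ 2 * de * Lam ≤ eta ^ 2)
    (h3 : 8 * k * de * Lam ≤ eta)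
    (g : J → I → ℝ) (hg : ∀ j i, 0 ≤ g j i ∧ g j i ≤ 1) (hgk : ∀ j i, g j i ≠ 0 → 1 / k ≤ g j i)
    (hG : ∀ j, 0 < Gam w (g j))
    (h4 : ∀ j, 128 * ze * k ^ 2 * Lam ≤ eta ^ 2 * Gam w (g j)) (h5 : ∀ j, 8 * k * Lam ≤ eta * Gam w (g j))
    (h6 : ∀ j, 16 * k ^ 3 * Lam ≤ eta ^ 2 * ze * Gam w (g j))
    (h7 : ∀ j, 4 * k * Lam ≤ eta * ze * Gam w (g j))
    (h8 : ((Fintype.card X : ℝ) + 3 * Fintype.card J) * Real.exp (-Lam) < 1) :
    ∃ T : Finset I, (∀ x, Deg V (newW V w s eta T) x ≤ 1) ∧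
      (∀ j, (1 - eta) ^ 2 * s * Gam w (g j) ≤ Gam (newW V w s eta T) (g j)) ∧
      (∀ j, (1 - 4 * k * ze - 2 * eta) * ze * Gam w (g j) ≤ matS V w (g j) T) := by
  have hP := isP_univ h (univ : Finset I)
  set A : X → Finset I → Prop := fun x T => (∀ j ∈ T, x ∉ V j) ∧ 1 < Deg V (newW V w s eta T) x with hA
  set B : J → Finset I → Prop := fun j T => Gam (newW V w s eta T) (g j) < (1 - eta) ^ 2 * s * Gam w (g j)
    with hB
  set C : J → Finset I → Prop := fun j T => matS V w (g j) T < (1 - 4 * k * ze - 2 * eta) * ze * Gam w (g j)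
    with hC
  have hpA : PP p univ (fun T => ∃ x ∈ (univ : Finset X), A x T) ≤ Fintype.card X * Real.exp (-Lam) := by
    refine (PP_exists hP univ A).trans ?_
    calc ∑ x, PP p univ (A x) ≤ ∑ _x : X, Real.exp (-Lam) :=
          Finset.sum_le_sum fun x _ => rndD h he0 he1 h1 h2 h3 x
      _ = Fintype.card X * Real.exp (-Lam) := by
          rw [Finset.sum_const, nsmul_eq_mul, Finset.card_univ]
  have hpB : PP p univ (fun T => ∃ j ∈ (univ : Finset J), B j T) ≤ Fintype.card J * Real.exp (-Lam) := by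
    refine (PP_exists hP univ B).trans ?_
    calc ∑ j, PP p univ (B j) ≤ ∑ _j : J, Real.exp (-Lam) :=
          Finset.sum_le_sum fun j _ => rndG h he0 he1 (g j) (hg j) (hG j) (h4 j) (h5 j)
      _ = Fintype.card J * Real.exp (-Lam) := by
          rw [Finset.sum_const, nsmul_eq_mul, Finset.card_univ]
  have hpC : PP p univ (fun T => ∃ j ∈ (univ : Finset J), C j T) ≤
      Fintype.card J * (2 * Real.exp (-Lam)) := by
    refine (PP_exists hP univ C).trans ?_
    calc ∑ j, PP p univ (C j) ≤ ∑ _j : J, 2 * Real.exp (-Lam) :=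
          Finset.sum_le_sum fun j _ => matC h he0 he1 (g j) (hg j) (hgk j) (hG j) (h6 j) (h7 j)
      _ = Fintype.card J * (2 * Real.exp (-Lam)) := by
          rw [Finset.sum_const, nsmul_eq_mul, Finset.card_univ]
  have htot : PP p univ (fun T => (∃ x ∈ (univ : Finset X), A x T) ∨
      ((∃ j ∈ (univ : Finset J), B j T) ∨ (∃ j ∈ (univ : Finset J), C j T))) < 1 := by
    have a1 := PP_or hP (fun T => ∃ x ∈ (univ : Finset X), A x T)
      (fun T => (∃ j ∈ (univ : Finset J), B j T) ∨ (∃ j ∈ (univ : Finset J), C j T))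
    have a2 := PP_or hP (fun T => ∃ j ∈ (univ : Finset J), B j T)
      (fun T => ∃ j ∈ (univ : Finset J), C j T)
    have a3 : (Fintype.card X : ℝ) * Real.exp (-Lam) + (Fintype.card J * Real.exp (-Lam) +
        Fintype.card J * (2 * Real.exp (-Lam))) =
        ((Fintype.card X : ℝ) + 3 * Fintype.card J) * Real.exp (-Lam) := by ring
    linarith
  obtain ⟨T, -, hT⟩ := exists_of_PP _ htot
  rw [not_or, not_or] at hT
  obtain ⟨hTA, hTB, hTC⟩ := hT
  refine ⟨T, fun x => ?_, fun j => ?_, fun j => ?_⟩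
  · by_cases hx : ∀ j ∈ T, x ∉ V j
    · by_contra hlt
      exact hTA ⟨x, Finset.mem_univ x, hx, not_le.1 hlt⟩
    · push Not at hx
      obtain ⟨j, hj, hxj⟩ := hx
      have h0 : Deg V (newW V w s eta T) x = 0 := by
        unfold Deg
        refine Finset.sum_eq_zero fun i _ => ?_
        by_cases hxi : x ∈ V i
        · rw [if_pos hxi]
          unfold newW
          rw [if_neg]
          intro hd
          exact Finset.disjoint_left.1 (hd j hj) hxj hxi
        · rw [if_neg hxi]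
      rw [h0]
      exact zero_le_one
  · by_contra hlt
    exact hTB ⟨j, Finset.mem_univ j, not_le.1 hlt⟩
  · by_contra hlt
    exact hTC ⟨j, Finset.mem_univ j, not_le.1 hlt⟩

end
end Pool.Agent.APK
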