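import Pool.Agent.APK.AlvP
import Pool.Agent.APK.Ber

/-!
# APK/RndD : the new degree of a surviving vertex is at most 1   (difficulty 3)
-/

set_option autoImplicit false
open Finset
open scoped Classical

namespace Pool.Agent.APK
noncomputable section

variable {I X : Type} [Fintype I] [DecidableEq I] [Fintype X] [DecidableEq X]

/-- condition that the selected index `j` does not kill the rest of `V i` -/
def rndd_C (V : I → Finset X) (x : X) (i j : I) : Prop := x ∉ V j → Disjoint (V j) ((V i).erase x)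

/-- indicator -/
def rndd_g (V : I → Finset X) (x : X) (T : Finset I) (i : I) : ℝ :=
  if ∀ j ∈ T, rndd_C V x i j then 1 else 0

/-- weights -/
def rndd_W (V : I → Finset X) (w : I → ℝ) (s eta : ℝ) (x : X) (i : I) : ℝ :=
  if x ∈ V i then w i * (1 - eta) / s ^ ((V i).card - 1) else 0

/-- the linearised degree -/
def rndd_f (V : I → Finset X) (w : I → ℝ) (s eta : ℝ) (x : X) (T : Finset I) : ℝ :=
  ∑ i, rndd_W V w s eta x i * rndd_g V x T i

omit [Fintype X] in
theorem rndd_spow {k : ℕ} {ze de s : ℝ} {V : I → Finset X} {p w : I → ℝ} [Fintype X] (h : Round k ze de s V p w)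
    (i : I) : 1 / 2 ≤ s ^ ((V i).card - 1) := by
  obtain ⟨hs1, hs2, hs3⟩ := s_bds h
  have hk : (V i).card - 1 ≤ k := le_trans (Nat.sub_le _ _) (h.card i)
  have h1 : s ^ k ≤ s ^ ((V i).card - 1) := pow_le_pow_of_le_one (by linarith) hs2 hk
  have hze := h.ze0
  have hze1 := h.ze1
  have hk1 : (1 : ℝ) ≤ k := by exact_mod_cast h.kpos
  have hz2 : 0 ≤ 1 - 2 * ze := by nlinarith
  have h2 : (1 - 2 * ze) ^ k ≤ s ^ k := pow_le_pow_left₀ hz2 hs3 k
  have h3 : 1 + (k : ℝ) * (-(2 * ze)) ≤ (1 + -(2 * ze)) ^ k := one_add_mul_le_pow (by nlinarith) k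
  have h4 : (1 + -(2 * ze)) ^ k = (1 - 2 * ze) ^ k := by ring_nf
  rw [h4] at h3
  nlinarith

theorem rndd_W_nonneg {k : ℕ} {ze de s : ℝ} {V : I → Finset X} {p w : I → ℝ} (h : Round k ze de s V p w)
    {eta : ℝ} (he1 : eta ≤ 1 / 8) (x : X) (i : I) : 0 ≤ rndd_W V w s eta x i := by
  unfold rndd_W
  split_ifs
  · have := rndd_spow h i
    exact div_nonneg (mul_nonneg (h.w0 i) (by linarith)) (by linarith)
  · exact le_rfl

theorem rndd_W_le {k : ℕ} {ze de s : ℝ} {V : I → Finset X} {p w : I → ℝ} (h : Round k ze de s V p w)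
    {eta : ℝ} (he0 : 0 < eta) (x : X) (i : I) :
    rndd_W V w s eta x i ≤ if x ∈ V i then 2 * w i else 0 := by
  unfold rndd_W
  split_ifs
  · have h1 := rndd_spow h i
    rw [div_le_iff₀ (by linarith)]
    have h2 : w i * (1 - eta) ≤ w i := by
      have := mul_nonneg (h.w0 i) he0.le
      linarith
    have h3 : 2 * w i * (1 / 2) ≤ 2 * w i * s ^ ((V i).card - 1) :=
      mul_le_mul_of_nonneg_left h1 (by linarith [h.w0 i])
    linarith
  · exact le_rfl

omit [Fintype X] in
theorem rndd_deg (V : I → Finset X) (w : I → ℝ) (s eta : ℝ) (x : X) (T : Finset I)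
    (hT : ∀ j ∈ T, x ∉ V j) : Deg V (newW V w s eta T) x = rndd_f V w s eta x T := by
  unfold Deg rndd_f rndd_W rndd_g
  refine Finset.sum_congr rfl fun i _ => ?_
  by_cases hx : x ∈ V i
  · rw [if_pos hx, if_pos hx]
    have hiff : (∀ j ∈ T, Disjoint (V j) (V i)) ↔ ∀ j ∈ T, rndd_C V x i j := by
      refine forall_congr' fun j => forall_congr' fun hj => ?_
      unfold rndd_C
      constructor
      · intro hd _
        exact Finset.disjoint_of_subset_right (Finset.erase_subset _ _) hd
      · intro hd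
        have hd' := hd (hT j hj)
        rw [Finset.disjoint_left] at hd' ⊢
        intro y hy hyi
        have hne : y ≠ x := by
          rintro rfl
          exact hT j hj hy
        exact hd' hy (Finset.mem_erase.2 ⟨hne, hyi⟩)
    unfold newW
    by_cases hc : ∀ j ∈ T, Disjoint (V j) (V i)
    · rw [if_pos hc, if_pos (hiff.1 hc), mul_one]
    · rw [if_neg hc, if_neg (fun hh => hc (hiff.2 hh)), mul_zero]
  · rw [if_neg hx, if_neg hx, zero_mul]

theorem rndd_exp {k : ℕ} {ze de s : ℝ} {V : I → Finset X} {p w : I → ℝ} (h : Round k ze de s V p w)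
    {eta : ℝ} (he0 : 0 < eta) (he1 : eta ≤ 1 / 8) (h1 : 16 * ze * k ^ 2 * de ≤ eta) (x : X) :
    EE p univ (rndd_f V w s eta x) ≤ 1 - eta / 2 := by
  have hze := h.ze0
  have hde := h.de0
  have e1 : EE p univ (rndd_f V w s eta x) =
      ∑ i, rndd_W V w s eta x i * PP p univ (fun T => ∀ j ∈ T, rndd_C V x i j) := by
    have : EE p univ (rndd_f V w s eta x) =
        EE p univ (fun T => ∑ i, rndd_W V w s eta x i * rndd_g V x T i) := rfl
    rw [this, EE_sum]
    refine Finset.sum_congr rfl fun i _ => ?_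
    rw [EE_mul]
    have hg : (fun T => rndd_g V x T i) = fun T => (if (∀ j ∈ T, rndd_C V x i j) then (1 : ℝ) else 0) := rfl
    rw [hg, PP]
    refine congrArg _ (EE_congr fun T _ => ?_)
    by_cases hh : ∀ j ∈ T, rndd_C V x i j
    · rw [if_pos hh, if_pos hh]
    · rw [if_neg hh, if_neg hh]
  set u : ℝ := 2 * (ze * de * (k : ℝ) ^ 2) with hu
  have hu0 : 0 ≤ u := by positivity
  have hu1 : u ≤ eta / 8 := by
    have : 16 * ze * (k : ℝ) ^ 2 * de = 8 * u := by rw [hu]; ring
    linarith
  have hexp : Real.exp u ≤ 1 + 2 * u := by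
    have h2 := Real.exp_bound_div_one_sub_of_interval hu0 (by linarith : u < 1)
    refine h2.trans ?_
    rw [div_le_iff₀ (by linarith)]
    nlinarith
  have hterm : ∀ i, rndd_W V w s eta x i * PP p univ (fun T => ∀ j ∈ T, rndd_C V x i j) ≤
      (if x ∈ V i then w i else 0) * ((1 - eta) * Real.exp u) := by
    intro i
    by_cases hx : x ∈ V i
    · rw [if_pos hx]
      have hs := rndd_spow h i
      have h2 : PP p univ (fun T => ∀ j ∈ T, rndd_C V x i j) ≤
          s ^ ((V i).card - 1) * Real.exp u := by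
        have h3 := alv_upper h x ((V i).erase x) (Finset.notMem_erase _ _)
        rw [Finset.card_erase_of_mem hx] at h3
        refine h3.trans (mul_le_mul_of_nonneg_left (Real.exp_le_exp.2 ?_) (by linarith))
        rw [hu]
        have h4 : (((V i).card - 1 : ℕ) : ℝ) ≤ k := by
          exact_mod_cast le_trans (Nat.sub_le _ _) (h.card i)
        have h5 : (((V i).card - 1 : ℕ) : ℝ) ^ 2 ≤ (k : ℝ) ^ 2 := pow_le_pow_left₀ (Nat.cast_nonneg _) h4 2
        have h6 := mul_le_mul_of_nonneg_left h5 (mul_nonneg hze.le hde.le)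
        linarith
      calc rndd_W V w s eta x i * PP p univ (fun T => ∀ j ∈ T, rndd_C V x i j)
          ≤ rndd_W V w s eta x i * (s ^ ((V i).card - 1) * Real.exp u) :=
            mul_le_mul_of_nonneg_left h2 (rndd_W_nonneg h he1 x i)
        _ = w i * ((1 - eta) * Real.exp u) := by
            unfold rndd_W
            rw [if_pos hx]
            have hne : s ^ ((V i).card - 1) ≠ 0 := by
              intro h0
              rw [h0] at hs
              norm_num at hs
            field_simp
    · unfold rndd_W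
      rw [if_neg hx, if_neg hx]
      simp
  rw [e1]
  refine (Finset.sum_le_sum fun i _ => hterm i).trans ?_
  rw [← Finset.sum_mul]
  have hdeg : ∑ i, (if x ∈ V i then w i else 0) ≤ 1 := h.deg x
  have h7 : (1 - eta) * Real.exp u ≤ 1 - eta / 2 := by
    have : (1 - eta) * Real.exp u ≤ (1 - eta) * (1 + 2 * u) :=
      mul_le_mul_of_nonneg_left hexp (by linarith)
    nlinarith
  have h8 : 0 ≤ (1 - eta) * Real.exp u := mul_nonneg (by linarith) (Real.exp_pos _).le
  calc (∑ i, (if x ∈ V i then w i else 0)) * ((1 - eta) * Real.exp u) ≤ 1 * ((1 - eta) * Real.exp u) :=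
        mul_le_mul_of_nonneg_right hdeg h8
    _ ≤ 1 - eta / 2 := by linarith

/-- influence of a vertex -/
def rndd_a (V : I → Finset X) (w : I → ℝ) (x y : X) : ℝ := if y = x then 0 else 2 * Cod V w x y

omit [Fintype X] in
theorem rndd_cod_nonneg {V : I → Finset X} {w : I → ℝ} (hw : ∀ i, 0 ≤ w i) (x y : X) :
    0 ≤ Cod V w x y :=
  Finset.sum_nonneg fun i _ => by
    split_ifs
    · exact hw i
    · exact le_rfl

theorem rndd_a_bd {k : ℕ} {ze de s : ℝ} {V : I → Finset X} {p w : I → ℝ} (h : Round k ze de s V p w)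
    (x y : X) : 0 ≤ rndd_a V w x y ∧ rndd_a V w x y ≤ 2 * de := by
  have hde := h.de0
  unfold rndd_a
  split_ifs with hy
  · exact ⟨le_rfl, by linarith⟩
  · exact ⟨by linarith [rndd_cod_nonneg h.w0 x y (V := V)], by linarith [h.codw x y (Ne.symm hy)]⟩

theorem rndd_asum {k : ℕ} {ze de s : ℝ} {V : I → Finset X} {p w : I → ℝ} (h : Round k ze de s V p w)
    (x : X) : ∑ y, rndd_a V w x y ≤ 2 * k := by
  have h1 : ∀ y, rndd_a V w x y ≤ 2 * ∑ i, (if x ∈ V i ∧ y ∈ V i then w i else 0) := by
    intro y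
    unfold rndd_a
    split_ifs
    · exact mul_nonneg (by norm_num) (rndd_cod_nonneg h.w0 x y)
    · exact le_rfl
  refine (Finset.sum_le_sum fun y _ => h1 y).trans ?_
  rw [← Finset.mul_sum, Finset.sum_comm]
  refine mul_le_mul_of_nonneg_left ?_ (by norm_num)
  have h2 : ∀ i, ∑ y, (if x ∈ V i ∧ y ∈ V i then w i else 0) ≤ k * (if x ∈ V i then w i else 0) := by
    intro i
    by_cases hx : x ∈ V i
    · simp only [hx, true_and, if_true]
      rw [← Finset.sum_filter, Finset.sum_const, nsmul_eq_mul]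
      refine mul_le_mul_of_nonneg_right ?_ (h.w0 i)
      have : (univ.filter fun y => y ∈ V i) = V i := by ext y; simp
      rw [this]
      exact_mod_cast h.card i
    · simp [hx]
  refine (Finset.sum_le_sum fun i _ => h2 i).trans ?_
  rw [← Finset.mul_sum]
  have h3 : ∑ i, (if x ∈ V i then w i else 0) ≤ 1 := h.deg x
  exact mul_le_of_le_one_right (Nat.cast_nonneg k) h3

theorem rndd_diff {k : ℕ} {ze de s : ℝ} {V : I → Finset X} {p w : I → ℝ} (h : Round k ze de s V p w)
    {eta : ℝ} (he0 : 0 < eta) (he1 : eta ≤ 1 / 8) (x : X) (j : I) (S : Finset I) :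
    |rndd_f V w s eta x (insert j S) - rndd_f V w s eta x (S.erase j)| ≤
      ∑ y ∈ V j, rndd_a V w x y := by
  have hins : insert j S = insert j (S.erase j) := by
    ext i
    simp only [Finset.mem_insert, Finset.mem_erase]
    tauto
  rw [hins]
  generalize S.erase j = R
  unfold rndd_f
  rw [← Finset.sum_sub_distrib]
  refine (Finset.abs_sum_le_sum_abs _ _).trans ?_
  have hterm : ∀ i, |rndd_W V w s eta x i * rndd_g V x (insert j R) i -
      rndd_W V w s eta x i * rndd_g V x R i| ≤
      ∑ y ∈ V j, (if y = x then 0 else 2 * (if x ∈ V i ∧ y ∈ V i then w i else 0)) := by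
    intro i
    have hnn : ∀ y, 0 ≤ (if y = x then 0 else 2 * (if x ∈ V i ∧ y ∈ V i then w i else 0)) := by
      intro y
      split_ifs
      · exact le_rfl
      · exact mul_nonneg (by norm_num) (h.w0 i)
      · simp
    rw [← mul_sub, abs_mul, abs_of_nonneg (rndd_W_nonneg h he1 x i)]
    by_cases hc : rndd_C V x i j
    · have : rndd_g V x (insert j R) i = rndd_g V x R i := by
        unfold rndd_g
        have hiff : (∀ l ∈ insert j R, rndd_C V x i l) ↔ ∀ l ∈ R, rndd_C V x i l := by
          simp [hc]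
        by_cases hh : ∀ l ∈ R, rndd_C V x i l
        · rw [if_pos hh, if_pos (hiff.2 hh)]
        · rw [if_neg hh, if_neg (fun h' => hh (hiff.1 h'))]
      rw [this, sub_self, abs_zero, mul_zero]
      exact Finset.sum_nonneg fun y _ => hnn y
    · have hg1 : rndd_g V x (insert j R) i = 0 := by
        unfold rndd_g
        exact if_neg (fun hh => hc (hh j (Finset.mem_insert_self _ _)))
      have hg2 : 0 ≤ rndd_g V x R i ∧ rndd_g V x R i ≤ 1 := by
        unfold rndd_g
        split_ifs <;> norm_num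
      rw [hg1, zero_sub, abs_neg, abs_of_nonneg hg2.1]
      -- a common vertex
      unfold rndd_C at hc
      rw [Classical.not_imp, Finset.not_disjoint_iff] at hc
      obtain ⟨_, y, hyj, hyi⟩ := hc
      have hyi' := Finset.mem_erase.1 hyi
      refine le_trans ?_ (Finset.single_le_sum (fun z _ => hnn z) hyj)
      rw [if_neg hyi'.1]
      have hW := rndd_W_le h he0 x i
      have hW0 := rndd_W_nonneg h he1 x i
      calc rndd_W V w s eta x i * rndd_g V x R i ≤ rndd_W V w s eta x i :=
            mul_le_of_le_one_right hW0 hg2.2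
        _ ≤ if x ∈ V i then 2 * w i else 0 := hW
        _ = 2 * (if x ∈ V i ∧ y ∈ V i then w i else 0) := by
            by_cases hx : x ∈ V i
            · rw [if_pos hx, if_pos ⟨hx, hyi'.2⟩]
            · rw [if_neg hx, if_neg (fun hh => hx hh.1), mul_zero]
  refine (Finset.sum_le_sum fun i _ => hterm i).trans (le_of_eq ?_)
  rw [Finset.sum_comm]
  refine Finset.sum_congr rfl fun y _ => ?_
  unfold rndd_a
  by_cases hy : y = x
  · simp [hy]
  · simp only [hy, if_false]
    rw [← Finset.mul_sum]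
    rfl

theorem rndD {k : ℕ} {ze de s : ℝ} {V : I → Finset X} {p w : I → ℝ} (h : Round k ze de s V p w)
    {eta Lam : ℝ} (he0 : 0 < eta) (he1 : eta ≤ 1 / 8)
    (h1 : 16 * ze * k ^ 2 * de ≤ eta) (h2 : 128 * ze * k ^ 2 * de * Lam ≤ eta ^ 2)
    (h3 : 8 * k * de * Lam ≤ eta) (x : X) :
    PP p univ (fun T => (∀ j ∈ T, x ∉ V j) ∧ 1 < Deg V (newW V w s eta T) x) ≤ Real.exp (-Lam) := by
  have hze := h.ze0
  have hde := h.de0
  have hk1 : (1 : ℝ) ≤ k := by exact_mod_cast h.kpos
  have hE := rndd_exp h he0 he1 h1 x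
  have hP := isP_univ h (univ : Finset I)
  have hsub : PP p univ (fun T => (∀ j ∈ T, x ∉ V j) ∧ 1 < Deg V (newW V w s eta T) x) ≤
      PP p univ (fun T => EE p univ (rndd_f V w s eta x) + eta / 2 ≤ rndd_f V w s eta x T) := by
    refine PP_mono hP fun T _ hT => ?_
    have := hT.2
    rw [rndd_deg V w s eta x T hT.1] at this
    linarith
  refine hsub.trans ?_
  have hb : 0 < 2 * k * de := by positivity
  have hV : 0 < 8 * ze * k ^ 2 * de := by positivity
  have hvar : ∑ i ∈ (univ : Finset I), p i * (∑ y ∈ V i, rndd_a V w x y) ^ 2 ≤ 8 * ze * k ^ 2 * de := by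
    refine (varB h (rndd_a V w x) (fun y => (rndd_a_bd h x y).1)).trans ?_
    have h4 : ∑ y, rndd_a V w x y ^ 2 ≤ 2 * de * (2 * k) := by
      calc ∑ y, rndd_a V w x y ^ 2 ≤ ∑ y, 2 * de * rndd_a V w x y := by
            refine Finset.sum_le_sum fun y _ => ?_
            rw [pow_two]
            exact mul_le_mul_of_nonneg_right (rndd_a_bd h x y).2 (rndd_a_bd h x y).1
        _ = 2 * de * ∑ y, rndd_a V w x y := by rw [Finset.mul_sum]
        _ ≤ 2 * de * (2 * k) := mul_le_mul_of_nonneg_left (rndd_asum h x) (by linarith)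
    calc 2 * ze * k * ∑ y, rndd_a V w x y ^ 2 ≤ 2 * ze * k * (2 * de * (2 * k)) :=
          mul_le_mul_of_nonneg_left h4 (by positivity)
      _ = 8 * ze * k ^ 2 * de := by ring
  have hbern := bernstein (p := p) (A := (univ : Finset I)) hP (f := rndd_f V w s eta x)
    (c := fun j => ∑ y ∈ V j, rndd_a V w x y) (b := 2 * k * de) (V := 8 * ze * k ^ 2 * de)
    (lam := eta / 2) hb hV (by linarith)
    (fun j _ => ⟨Finset.sum_nonneg fun y _ => (rndd_a_bd h x y).1, by
      calc ∑ y ∈ V j, rndd_a V w x y ≤ ∑ y ∈ V j, 2 * de :=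
            Finset.sum_le_sum fun y _ => (rndd_a_bd h x y).2
        _ = (V j).card * (2 * de) := by rw [Finset.sum_const, nsmul_eq_mul]
        _ ≤ k * (2 * de) := mul_le_mul_of_nonneg_right (by exact_mod_cast h.card j) (by linarith)
        _ = 2 * k * de := by ring⟩)
    (fun j _ S _ => rndd_diff h he0 he1 x j S) hvar
  refine hbern.trans (Real.exp_le_exp.2 (neg_le_neg (le_min ?_ ?_)))
  · rw [le_div_iff₀ (by positivity)]
    nlinarith
  · rw [le_div_iff₀ (by positivity)]
    nlinarith

end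
end Pool.Agent.APK
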