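import Pool.Agent.APK.Rnd

/-!
# APK/RndE : one round for a weighted hypergraph   (difficulty 3)

Data: `V : E → Finset X`, weights `w`.  Put `I = E ⊕ X`, `V' (inl e) = V e`, `V' (inr x) = {x}`, `w' (inl e) = w e`,
`w' (inr x) = 0`, `p (inl e) = ze * w e`, `p (inr x) = 1 - s / σ x` with `σ x = ∏_{e ∋ x} (1 - ze w_e)`,
`s = exp (-ze - ze²)`.
`Round k ze de s V' p w'`: `w_e ≤ Deg ≤ 1` (there is `x ∈ V e`), so `0 ≤ ze w_e ≤ 1/8`.  `σ x ≥ s`: `1 - u ≥ exp (-u - u²)`
for `0 ≤ u ≤ 1/2` so `σ x ≥ exp (- ∑ (ze w + ze² w²)) ≥ exp (-ze - ze²)` (`w² ≤ w`, `Deg ≤ 1`); `σ x ≤ 1`.  So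
`0 ≤ p (inr x) ≤ 1 - s ≤ ze + ze² ≤ 1/2`.  `surv V' p x = σ x * (1 - p (inr x)) = s` (product over the sum type
`Fintype.prod_sum_type`, `x ∈ {y} ↔ x = y`).  `Deg V' w' = Deg V w`, `Cod V' w' x y = Cod V w x y`,
`Cod V' p x y = ze Cod V w x y` for `x ≠ y`.
(`1 - u ≥ exp(-u-u²)`: from `Real.one_sub_inv_le_log_of_pos` or: `exp(u+u²) ≤ 1/(1-u)`; e.g.
`log (1-u) ≥ -u/(1-u) ≥ -u - u²·1/(1-u)`… is too weak, so use the series bound: for `0 ≤ u ≤ 1/2`,
`-log(1-u) = ∑ u^n/n ≤ u + u²/2 · 1/(1-u) ≤ u + u²`; in Mathlib: `Real.abs_log_sub_add_sum_range_le` or show by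
monotonicity that `log (1-u) + u + u² ≥ 0` on `[0,1/2]`: derivative `-1/(1-u) + 1 + 2u = u(1-2u)/(1-u) ≥ 0`.)
Apply `oneRound` to `g' j (inl e) = g j e`, `g' j (inr x) = 0`: `Gam w' g' = Gam w g`.  From `T` put
`A = {x : no j ∈ T has x ∈ V' j}`, `M = {e : Iso V' T (inl e) and w e ≠ 0}`.
Then `newW V' w' s eta T (inl e) = if V e ⊆ A then w e (1-eta)/s^(|V e|-1) else 0` and `newW (inr x) = 0`.
-/

set_option autoImplicit false
open Finset
open scoped Classical

namespace Pool.Agent.APK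
noncomputable section

variable {E X J : Type} [Fintype E] [DecidableEq E] [Fintype X] [DecidableEq X] [Fintype J]

/-- the weights after a round with the set `A` of surviving vertices -/
def nextW (V : E → Finset X) (w : E → ℝ) (s eta : ℝ) (A : Finset X) (e : E) : ℝ :=
  if V e ⊆ A then w e * (1 - eta) / s ^ ((V e).card - 1) else 0

theorem rnde_exp {u : ℝ} (h0 : 0 ≤ u) (h1 : u ≤ 1 / 2) : Real.exp (-u - u ^ 2) ≤ 1 - u := by
  have ht : 0 ≤ u + u ^ 2 := by positivity
  have h2 := Real.quadratic_le_exp_of_nonneg ht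
  have h3 : 1 ≤ (1 - u) * Real.exp (u + u ^ 2) := by
    have h4 : (1 - u) * (1 + (u + u ^ 2) + (u + u ^ 2) ^ 2 / 2) ≤
        (1 - u) * Real.exp (u + u ^ 2) := mul_le_mul_of_nonneg_left h2 (by linarith)
    refine le_trans ?_ h4
    have h5 : 0 ≤ u ^ 2 * (1 - u - u ^ 2 - u ^ 3) := by
      apply mul_nonneg (by positivity)
      have h6 : u ^ 2 ≤ 1 / 4 := by nlinarith
      have h7 : u ^ 3 ≤ 1 / 8 := by nlinarith [mul_nonneg h0 (sq_nonneg u)]
      linarith
    nlinarith [h5]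
  have h8 : Real.exp (-u - u ^ 2) = (Real.exp (u + u ^ 2))⁻¹ := by
    rw [← Real.exp_neg]
    congr 1
    ring
  rw [h8, inv_le_iff_one_le_mul₀ (Real.exp_pos _)]
  exact h3

theorem rnde_w_le (V : E → Finset X) (w : E → ℝ) (hne : ∀ e, (V e).Nonempty)
    (hw : ∀ e, 0 ≤ w e) (hdeg : ∀ x, Deg V w x ≤ 1) (e : E) : w e ≤ 1 := by
  obtain ⟨x, hx⟩ := hne e
  refine le_trans ?_ (hdeg x)
  unfold Deg
  have h := single_le_sum (f := fun i => if x ∈ V i then w i else 0) (s := (univ : Finset E))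
    (fun i _ => by
      by_cases hi : x ∈ V i
      · simp only [hi, if_true]; exact hw i
      · simp only [hi, if_false]; exact le_refl _) (mem_univ e)
  simp only [hx, if_true] at h
  exact h

theorem rnde_surv_ge (V : E → Finset X) (w : E → ℝ) {ze : ℝ} (hz0 : 0 < ze) (hz1 : ze ≤ 1 / 2)
    (hw : ∀ e, 0 ≤ w e) (hw1 : ∀ e, w e ≤ 1) (hdeg : ∀ x, Deg V w x ≤ 1) (x : X) :
    Real.exp (-ze - ze ^ 2) ≤ surv V (fun e => ze * w e) x := by
  unfold surv
  have h1 : ∏ e, Real.exp (if x ∈ V e then -(ze * w e) - (ze * w e) ^ 2 else 0) ≤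
      ∏ e, (if x ∈ V e then 1 - ze * w e else 1) := by
    apply prod_le_prod
    · intro e _
      exact (Real.exp_pos _).le
    · intro e _
      by_cases he : x ∈ V e
      · simp only [he, if_true]
        apply rnde_exp (mul_nonneg hz0.le (hw e))
        calc ze * w e ≤ ze * 1 := mul_le_mul_of_nonneg_left (hw1 e) hz0.le
          _ ≤ 1 / 2 := by linarith
      · simp only [he, if_false, Real.exp_zero]
        exact le_refl _
  refine le_trans ?_ h1
  rw [← Real.exp_sum]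
  apply Real.exp_le_exp.2
  have h2 : ∀ e, -(ze + ze ^ 2) * (if x ∈ V e then w e else 0) ≤
      (if x ∈ V e then -(ze * w e) - (ze * w e) ^ 2 else 0) := by
    intro e
    by_cases he : x ∈ V e
    · simp only [he, if_true]
      have h3 : (ze * w e) ^ 2 ≤ ze ^ 2 * w e := by
        have h4 : w e ^ 2 ≤ w e := by
          have := mul_le_mul_of_nonneg_left (hw1 e) (hw e)
          nlinarith
        calc (ze * w e) ^ 2 = ze ^ 2 * w e ^ 2 := by ring
          _ ≤ ze ^ 2 * w e := mul_le_mul_of_nonneg_left h4 (by positivity)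
      nlinarith
    · simp only [he, if_false, mul_zero]
      exact le_refl _
  refine le_trans ?_ (sum_le_sum (fun e _ => h2 e))
  rw [← mul_sum]
  have h5 : ∑ e, (if x ∈ V e then w e else 0) ≤ 1 := hdeg x
  have h6 : 0 ≤ ze + ze ^ 2 := by positivity
  nlinarith [mul_le_mul_of_nonneg_left h5 h6]

theorem rnde_surv_pos (V : E → Finset X) (w : E → ℝ) {ze : ℝ} (hz0 : 0 < ze) (hz1 : ze ≤ 1 / 2)
    (hw1 : ∀ e, w e ≤ 1) (x : X) :
    0 < surv V (fun e => ze * w e) x := by
  unfold surv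
  apply prod_pos
  intro e _
  by_cases he : x ∈ V e
  · simp only [he, if_true]
    have : ze * w e ≤ ze * 1 := mul_le_mul_of_nonneg_left (hw1 e) hz0.le
    linarith
  · simp only [he, if_false]
    exact one_pos

theorem rnde_surv_le (V : E → Finset X) (w : E → ℝ) {ze : ℝ} (hz0 : 0 < ze) (hz1 : ze ≤ 1 / 2)
    (hw : ∀ e, 0 ≤ w e) (hw1 : ∀ e, w e ≤ 1) (x : X) :
    surv V (fun e => ze * w e) x ≤ 1 := by
  unfold surv
  apply prod_le_one
  · intro e _
    by_cases he : x ∈ V e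
    · simp only [he, if_true]
      have : ze * w e ≤ ze * 1 := mul_le_mul_of_nonneg_left (hw1 e) hz0.le
      linarith
    · simp only [he, if_false]
      exact zero_le_one
  · intro e _
    by_cases he : x ∈ V e
    · simp only [he, if_true]
      have : 0 ≤ ze * w e := mul_nonneg hz0.le (hw e)
      linarith
    · simp only [he, if_false]
      exact le_refl _

/-- the sets of vertices with the dummy edges -/
def rndeV (V : E → Finset X) : E ⊕ X → Finset X := Sum.elim V (fun x => {x})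

/-- the weights, zero on the dummy edges -/
def rndeW (w : E → ℝ) : E ⊕ X → ℝ := Sum.elim w (fun _ => 0)

/-- the probabilities -/
def rndeP (V : E → Finset X) (w : E → ℝ) (ze : ℝ) : E ⊕ X → ℝ :=
  Sum.elim (fun e => ze * w e)
    (fun x => 1 - Real.exp (-ze - ze ^ 2) / surv V (fun e => ze * w e) x)

theorem rnde_deg (V : E → Finset X) (u : E ⊕ X → ℝ) (hu : ∀ x, u (Sum.inr x) = 0) (x : X) :
    Deg (rndeV V) u x = Deg V (fun e => u (Sum.inl e)) x := by
  unfold Deg
  rw [Fintype.sum_sum_type]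
  have : ∑ y : X, (if x ∈ rndeV V (Sum.inr y) then u (Sum.inr y) else 0) = 0 := by
    apply sum_eq_zero
    intro y _
    rw [hu y]
    simp
  rw [this, add_zero]
  rfl

theorem rnde_gam (u g : E ⊕ X → ℝ) (hu : ∀ x, g (Sum.inr x) = 0) :
    Gam u g = Gam (fun e => u (Sum.inl e)) (fun e => g (Sum.inl e)) := by
  unfold Gam
  rw [Fintype.sum_sum_type]
  have : ∑ y : X, u (Sum.inr y) * g (Sum.inr y) = 0 := by
    apply sum_eq_zero
    intro y _
    rw [hu y, mul_zero]
  rw [this, add_zero]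

theorem rnde_round {k : ℕ} {ze de : ℝ} (hk : 1 ≤ k) (hz0 : 0 < ze) (hz1 : 8 * k * ze ≤ 1)
    (hde : 0 < de)
    (V : E → Finset X) (w : E → ℝ) (hne : ∀ e, (V e).Nonempty) (hcard : ∀ e, (V e).card ≤ k)
    (hw : ∀ e, 0 ≤ w e) (hdeg : ∀ x, Deg V w x ≤ 1)
    (hcod : ∀ x y, x ≠ y → Cod V w x y ≤ de) :
    Round k ze de (Real.exp (-ze - ze ^ 2)) (rndeV V) (rndeP V w ze) (rndeW w) := by
  have hk' : (1 : ℝ) ≤ k := by exact_mod_cast hk
  have hz8 : ze ≤ 1 / 8 := by nlinarith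
  have hz2 : ze ≤ 1 / 2 := by linarith
  have hw1 := rnde_w_le V w hne hw hdeg
  have hge := rnde_surv_ge V w hz0 hz2 hw hw1 hdeg
  have hpos := rnde_surv_pos V w hz0 hz2 hw1
  have hle := rnde_surv_le V w hz0 hz2 hw hw1
  refine ⟨hk, hz0, hz1, hde, rfl, ?_, ?_, ?_, ?_, ?_, ?_, ?_, ?_, ?_, ?_⟩
  · rintro (e | x)
    · exact hne e
    · exact singleton_nonempty x
  · rintro (e | x)
    · exact hcard e
    · simp only [rndeV, Sum.elim_inr, card_singleton]
      exact hk
  · rintro (e | x)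
    · exact mul_nonneg hz0.le (hw e)
    · simp only [rndeP, Sum.elim_inr]
      have : Real.exp (-ze - ze ^ 2) / surv V (fun e => ze * w e) x ≤ 1 := by
        rw [div_le_one (hpos x)]
        exact hge x
      linarith
  · rintro (e | x)
    · simp only [rndeP, Sum.elim_inl]
      have : ze * w e ≤ ze * 1 := mul_le_mul_of_nonneg_left (hw1 e) hz0.le
      linarith
    · simp only [rndeP, Sum.elim_inr]
      have h1 : Real.exp (-ze - ze ^ 2) ≤ Real.exp (-ze - ze ^ 2) / surv V (fun e => ze * w e) x := by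
        rw [le_div_iff₀ (hpos x)]
        calc Real.exp (-ze - ze ^ 2) * surv V (fun e => ze * w e) x
            ≤ Real.exp (-ze - ze ^ 2) * 1 :=
              mul_le_mul_of_nonneg_left (hle x) (Real.exp_pos _).le
          _ = _ := mul_one _
      have h2 := Real.add_one_le_exp (-ze - ze ^ 2)
      have h3 : ze ^ 2 ≤ 1 / 8 := by nlinarith
      linarith
  · rintro (e | x)
    · exact hw e
    · exact le_refl _
  · rintro (e | x) hx
    · rfl
    · exact absurd rfl hx
  · intro x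
    unfold surv
    rw [Fintype.prod_sum_type]
    have h1 : ∏ y : X, (if x ∈ rndeV V (Sum.inr y) then 1 - rndeP V w ze (Sum.inr y) else 1) =
        Real.exp (-ze - ze ^ 2) / surv V (fun e => ze * w e) x := by
      rw [prod_eq_single x]
      · simp [rndeV, rndeP]
      · intro y _ hy
        have : x ∉ rndeV V (Sum.inr y) := by
          simp only [rndeV, Sum.elim_inr, mem_singleton]
          exact fun h => hy h.symm
        rw [if_neg this]
      · intro h
        exact absurd (mem_univ x) h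
    rw [h1]
    have h2 : ∏ e : E, (if x ∈ rndeV V (Sum.inl e) then 1 - rndeP V w ze (Sum.inl e) else 1) =
        surv V (fun e => ze * w e) x := rfl
    rw [h2]
    exact mul_div_cancel₀ _ (hpos x).ne'
  · intro x
    rw [rnde_deg V (rndeW w) (fun _ => rfl)]
    exact hdeg x
  · intro x y hxy
    refine le_trans (le_of_eq ?_) (hcod x y hxy)
    unfold Cod
    rw [Fintype.sum_sum_type]
    have : ∑ z : X, (if x ∈ rndeV V (Sum.inr z) ∧ y ∈ rndeV V (Sum.inr z) then
        rndeW w (Sum.inr z) else 0) = 0 := by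
      apply sum_eq_zero
      intro z _
      simp [rndeW]
    rw [this, add_zero]
    rfl
  · intro x y hxy
    refine le_trans (le_of_eq ?_) (mul_le_mul_of_nonneg_left (hcod x y hxy) hz0.le)
    unfold Cod
    rw [Fintype.sum_sum_type]
    have : ∑ z : X, (if x ∈ rndeV V (Sum.inr z) ∧ y ∈ rndeV V (Sum.inr z) then
        rndeP V w ze (Sum.inr z) else 0) = 0 := by
      apply sum_eq_zero
      intro z _
      rw [if_neg]
      rintro ⟨h1, h2⟩
      simp only [rndeV, Sum.elim_inr, mem_singleton] at h1 h2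
      exact hxy (h1.trans h2.symm)
    rw [this, add_zero, mul_sum]
    apply sum_congr rfl
    intro e _
    by_cases h4 : x ∈ V e ∧ y ∈ V e
    · have h5 : x ∈ rndeV V (Sum.inl e) ∧ y ∈ rndeV V (Sum.inl e) := h4
      rw [if_pos h4, if_pos h5]
      rfl
    · have h5 : ¬ (x ∈ rndeV V (Sum.inl e) ∧ y ∈ rndeV V (Sum.inl e)) := h4
      rw [if_neg h4, if_neg h5, mul_zero]

theorem roundE {k : ℕ} {ze de eta Lam : ℝ} (hk : 1 ≤ k) (hz0 : 0 < ze) (hz1 : 8 * k * ze ≤ 1) (hde : 0 < de)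
    (V : E → Finset X) (w : E → ℝ) (hne : ∀ e, (V e).Nonempty) (hcard : ∀ e, (V e).card ≤ k)
    (hw : ∀ e, 0 ≤ w e) (hdeg : ∀ x, Deg V w x ≤ 1) (hcod : ∀ x y, x ≠ y → Cod V w x y ≤ de)
    (he0 : 0 < eta) (he1 : eta ≤ 1 / 8)
    (h1 : 16 * ze * k ^ 2 * de ≤ eta) (h2 : 128 * ze * k ^ 2 * de * Lam ≤ eta ^ 2)
    (h3 : 8 * k * de * Lam ≤ eta)
    (g : J → E → ℝ) (hg : ∀ j e, 0 ≤ g j e ∧ g j e ≤ 1) (hgk : ∀ j e, g j e ≠ 0 → 1 / k ≤ g j e)
    (hG : ∀ j, 0 < Gam w (g j))
    (h4 : ∀ j, 128 * ze * k ^ 2 * Lam ≤ eta ^ 2 * Gam w (g j)) (h5 : ∀ j, 8 * k * Lam ≤ eta * Gam w (g j))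
    (h6 : ∀ j, 16 * k ^ 3 * Lam ≤ eta ^ 2 * ze * Gam w (g j))
    (h7 : ∀ j, 4 * k * Lam ≤ eta * ze * Gam w (g j))
    (h8 : ((Fintype.card X : ℝ) + 3 * Fintype.card J) * Real.exp (-Lam) < 1) :
    ∃ (A : Finset X) (M : Finset E), (∀ e ∈ M, w e ≠ 0 ∧ Disjoint (V e) A) ∧
      (∀ e ∈ M, ∀ f ∈ M, e ≠ f → Disjoint (V e) (V f)) ∧
      (∀ x, Deg V (nextW V w (Real.exp (-ze - ze ^ 2)) eta A) x ≤ 1) ∧
      (∀ j, (1 - eta) ^ 2 * Real.exp (-ze - ze ^ 2) * Gam w (g j)
        ≤ Gam (nextW V w (Real.exp (-ze - ze ^ 2)) eta A) (g j)) ∧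
      (∀ j, (1 - 4 * k * ze - 2 * eta) * ze * Gam w (g j) ≤ ∑ e ∈ M, g j e) := by
  have hR := rnde_round hk hz0 hz1 hde V w hne hcard hw hdeg hcod
  have hGam : ∀ j, Gam (rndeW (X := X) w) (Sum.elim (g j) (fun _ => 0)) = Gam w (g j) :=
    fun j => rnde_gam _ _ (fun _ => rfl)
  obtain ⟨T, hT1, hT2, hT3⟩ := oneRound hR he0 he1 h1 h2 h3
    (fun j => (Sum.elim (g j) (fun _ => 0) : E ⊕ X → ℝ))
    (by
      rintro j (e | x)
      · exact hg j e
      · exact ⟨le_refl _, zero_le_one⟩)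
    (by
      rintro j (e | x) hx
      · exact hgk j e hx
      · exact absurd rfl hx)
    (fun j => by rw [hGam]; exact hG j)
    (fun j => by rw [hGam]; exact h4 j) (fun j => by rw [hGam]; exact h5 j)
    (fun j => by rw [hGam]; exact h6 j) (fun j => by rw [hGam]; exact h7 j) h8
  set A : Finset X := univ.filter (fun x => ∀ j ∈ T, x ∉ rndeV V j) with hA
  set M : Finset E := univ.filter (fun e => Iso (rndeV V) T (Sum.inl e) ∧ w e ≠ 0) with hM
  have hnew1 : ∀ e, newW (rndeV V) (rndeW w) (Real.exp (-ze - ze ^ 2)) eta T (Sum.inl e) =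
      nextW V w (Real.exp (-ze - ze ^ 2)) eta A e := by
    intro e
    unfold newW nextW
    have hiff : (∀ j ∈ T, Disjoint (rndeV V j) (rndeV V (Sum.inl e))) ↔ V e ⊆ A := by
      constructor
      · intro h x hx
        rw [hA, mem_filter]
        refine ⟨mem_univ _, fun j hj hxj => ?_⟩
        exact (disjoint_left.1 (h j hj) hxj) hx
      · intro h j hj
        rw [disjoint_left]
        intro x hx hx'
        have := h (show x ∈ V e from hx')
        rw [hA, mem_filter] at this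
        exact this.2 j hj hx
    by_cases h : V e ⊆ A
    · rw [if_pos h, if_pos (hiff.2 h)]
      rfl
    · rw [if_neg h, if_neg (fun h' => h (hiff.1 h'))]
  have hnew2 : ∀ x, newW (rndeV V) (rndeW w) (Real.exp (-ze - ze ^ 2)) eta T (Sum.inr x) = 0 := by
    intro x
    unfold newW
    have : rndeW w (Sum.inr x) = 0 := rfl
    rw [this]
    simp
  refine ⟨A, M, ?_, ?_, ?_, ?_, ?_⟩
  · intro e he
    rw [hM, mem_filter] at he
    refine ⟨he.2.2, ?_⟩
    rw [disjoint_left]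
    intro x hx hxA
    rw [hA, mem_filter] at hxA
    exact hxA.2 (Sum.inl e) he.2.1.1 hx
  · intro e he f hf hef
    rw [hM, mem_filter] at he hf
    have hne' : (Sum.inl f : E ⊕ X) ≠ Sum.inl e := fun h => hef (Sum.inl.inj h).symm
    exact he.2.1.2 (Sum.inl f) hf.2.1.1 hne'
  · intro x
    have h := hT1 x
    rw [rnde_deg V _ hnew2] at h
    rw [show (fun e => newW (rndeV V) (rndeW w) (Real.exp (-ze - ze ^ 2)) eta T (Sum.inl e)) =
      nextW V w (Real.exp (-ze - ze ^ 2)) eta A from funext hnew1] at h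
    exact h
  · intro j
    have h := hT2 j
    simp only [hGam] at h
    rw [rnde_gam _ _ (fun _ => rfl)] at h
    rw [show (fun e => newW (rndeV V) (rndeW w) (Real.exp (-ze - ze ^ 2)) eta T (Sum.inl e)) =
      nextW V w (Real.exp (-ze - ze ^ 2)) eta A from funext hnew1] at h
    exact h
  · intro j
    have h := hT3 j
    simp only [hGam] at h
    refine le_trans h (le_of_eq ?_)
    unfold matS
    rw [Fintype.sum_sum_type]
    have h0 : ∑ x : X, (if Iso (rndeV V) T (Sum.inr x) ∧ rndeW w (Sum.inr x) ≠ 0 then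
        (Sum.elim (g j) (fun _ => 0) : E ⊕ X → ℝ) (Sum.inr x) else 0) = 0 := by
      apply sum_eq_zero
      intro x _
      simp
    rw [h0, add_zero, hM, sum_filter]
    rfl


end
end Pool.Agent.APK
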