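import Pool.Agent.APK.GDefs
import Pool.Agent.APK.Cyl

/-!
# APK/RsvP : the pattern sum for a random reserve   (difficulty 4)

`S` is a random subset of `Sym2 (Fin n)`, all probabilities `rho`.  `patS G w S x y z` is the total weight of the
triples `(v, a, b)` with `yv, zv, xa, xb` in the reserve `RG G S` and `av, vb, ab` in `BG G S`.

Fix `x, y, z`.  Let `J` be the finset of the triples `t = (v, a, b)` with `a, b, v ∉ {x, y, z}`, `G.Adj y v`, `G.Adj z v`,
`G.Adj x a`, `G.Adj x b` and `w a v b ≠ 0` (so `a, v, b` is a triangle of `G`), with weight `w a v b`,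
`P t = {s(y,v), s(z,v), s(x,a), s(x,b)}`, `N t = {s(a,v), s(v,b), s(a,b)}`.  `P t` and `N t` are disjoint (the pairs in
`P t` meet `{x,y,z}`, those in `N t` do not).  `patS ≥ cylF J w P N S` (drop terms, `w ≥ 0`).

Expectation (`EE_cylF`): `≥ rho^4 (1-rho)^3 ∑_{t ∈ J} w_t` (`|P t| ≤ 4`, `|N t| ≤ 3`, `rho, 1-rho ∈ [0,1]`).
`∑_J w_t ≥ n²/8`: there are at least `2 (3/4+ep) n - n - 3 ≥ n/2` vertices `v ∉ {x,y,z}` adjacent to `y` and `z`
(for large `n`), and for each of them, with `σ(a,v) = ∑_b w a v b ∈ [1-e0, 1]` for `G.Adj a v` (`0` otherwise),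
`∑_{a,b ∈ N(x) \ {x,y,z}} w a v b ≥ ∑_a σ(a,v) - 2 ∑_{a ∉ N(x)} σ(a,v) - 2 · 3 ≥ (1-e0)(3/4+ep) n - 2 (1/4-ep) n - 6 ≥ n/4`
for large `n` (`e0 ≤ ep`; symmetry in `a`, `b`).
`rho^4 (1-rho)^3/8 ≥ (1/12) rho^4` because `(7/8)^3 ≥ 2/3`.
Loads: every member of `P t ∪ N t` contains `v`, `a` or `b`, so `load e ≤ 6 n`; and `∑_e load e ≤ 7 ∑_J w ≤ 7 n²`, so
`∑ rho load² ≤ 42 n³ = V`, `b = 6 n`.
`cyl_low` with `lam = rho^4 n²/30`.  And `1/12 - 1/30 = 1/20`.
-/

set_option autoImplicit false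
open Finset
open scoped Classical

namespace Pool.Agent.APK
noncomputable section

/-- pattern sum -/
def patS {n : ℕ} (G : SimpleGraph (Fin n)) (w : Fin n → Fin n → Fin n → ℝ) (S : Finset (Sym2 (Fin n)))
    (x y z : Fin n) : ℝ :=
  ∑ v, ∑ a, ∑ b, (if (RG G S).Adj y v ∧ (RG G S).Adj z v ∧ (RG G S).Adj x a ∧ (RG G S).Adj x b ∧
    (BG G S).Adj a v ∧ (BG G S).Adj v b ∧ (BG G S).Adj a b then w a v b else 0)

section
variable {n : ℕ} {G : SimpleGraph (Fin n)} {w : Fin n → Fin n → Fin n → ℝ} {C e0 : ℝ}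

theorem rsvp_slice_v (h : TriW G w C e0) (v : Fin n) : ∑ a, ∑ b, w a v b ≤ n := by
  have h1 : ∑ a, ∑ b, w a v b ≤ ∑ _a : Fin n, (1 : ℝ) := Finset.sum_le_sum fun a _ => h.sum_le a v
  simpa using h1

theorem rsvp_slice_a (h : TriW G w C e0) (a : Fin n) : ∑ v, ∑ b, w a v b ≤ n := by
  have h1 : ∑ v, ∑ b, w a v b ≤ ∑ _v : Fin n, (1 : ℝ) := Finset.sum_le_sum fun v _ => h.sum_le a v
  simpa using h1

theorem rsvp_slice_b (h : TriW G w C e0) (b : Fin n) : ∑ v, ∑ a, w a v b ≤ n := by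
  have h1 : ∑ v, ∑ a, w a v b ≤ ∑ _v : Fin n, (1 : ℝ) := by
    refine Finset.sum_le_sum fun v _ => ?_
    have h2 : ∑ a, w a v b = ∑ a, w v b a :=
      Finset.sum_congr rfl fun a _ => by rw [h.symm1 a v b, h.symm2 v a b]
    rw [h2]
    exact h.sum_le v b
  simpa using h1

theorem rsvp_total (h : TriW G w C e0) : ∑ v, ∑ a, ∑ b, w a v b ≤ (n : ℝ) ^ 2 := by
  have h1 : ∑ v, ∑ a, ∑ b, w a v b ≤ ∑ _v : Fin n, (n : ℝ) :=
    Finset.sum_le_sum fun v _ => rsvp_slice_v h v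
  have h2 : ∑ _v : Fin n, (n : ℝ) = (n : ℝ) ^ 2 := by
    simp [sq]
  linarith

/-- the good neighbours of `x` -/
def rsvpA (G : SimpleGraph (Fin n)) (x y z : Fin n) : Finset (Fin n) :=
  (univ.filter fun a => G.Adj x a) \ {x, y, z}

/-- the good common neighbours of `y` and `z` -/
def rsvpV (G : SimpleGraph (Fin n)) (x y z : Fin n) : Finset (Fin n) :=
  ((univ.filter fun v => G.Adj y v) ∩ (univ.filter fun v => G.Adj z v)) \ {x, y, z}

theorem rsvp_three (x y z : Fin n) : ({x, y, z} : Finset (Fin n)).card ≤ 3 := Finset.card_le_three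

theorem rsvp_cardAc (G : SimpleGraph (Fin n)) (x y z : Fin n) :
    (((rsvpA G x y z)ᶜ).card : ℝ) ≤ n - dg G x + 3 := by
  have h1 := Finset.le_card_sdiff ({x, y, z} : Finset (Fin n)) (univ.filter fun a => G.Adj x a)
  have h2 := rsvp_three x y z
  have h3 : ((rsvpA G x y z)ᶜ).card + (rsvpA G x y z).card = n := by
    rw [Finset.card_compl, Fintype.card_fin]
    have := Finset.card_le_univ (rsvpA G x y z)
    rw [Fintype.card_fin] at this
    omega
  have h4 : dg G x ≤ (rsvpA G x y z).card + 3 := by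
    unfold dg rsvpA
    omega
  have h3' : (((rsvpA G x y z)ᶜ).card : ℝ) + ((rsvpA G x y z).card : ℝ) = n := by exact_mod_cast h3
  have h4' : (dg G x : ℝ) ≤ ((rsvpA G x y z).card : ℝ) + 3 := by exact_mod_cast h4
  linarith

theorem rsvp_cardV (G : SimpleGraph (Fin n)) (x y z : Fin n) :
    (dg G y : ℝ) + dg G z - n - 3 ≤ ((rsvpV G x y z).card : ℝ) := by
  have h1 := Finset.le_card_sdiff ({x, y, z} : Finset (Fin n))
    ((univ.filter fun v => G.Adj y v) ∩ (univ.filter fun v => G.Adj z v))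
  have h2 := rsvp_three x y z
  have h3 := Finset.card_union_add_card_inter (univ.filter fun v => G.Adj y v) (univ.filter fun v => G.Adj z v)
  have h4 := Finset.card_le_univ ((univ.filter fun v => G.Adj y v) ∪ (univ.filter fun v => G.Adj z v))
  rw [Fintype.card_fin] at h4
  have h5 : dg G y + dg G z ≤ (rsvpV G x y z).card + n + 3 := by
    unfold dg rsvpV
    omega
  have h5' : (dg G y : ℝ) + dg G z ≤ ((rsvpV G x y z).card : ℝ) + n + 3 := by exact_mod_cast h5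
  linarith

theorem rsvp_inner (h : TriW G w C e0) (x y z v : Fin n) :
    (1 - e0) * dg G v - 2 * (((rsvpA G x y z)ᶜ).card : ℝ) ≤
      ∑ a ∈ rsvpA G x y z, ∑ b ∈ rsvpA G x y z, w a v b := by
  set A := rsvpA G x y z with hA
  have h1 : ∑ a ∈ A, ∑ b ∈ A, w a v b = ∑ a ∈ A, ∑ b, w a v b - ∑ a ∈ A, ∑ b ∈ Aᶜ, w a v b := by
    rw [← Finset.sum_sub_distrib]
    refine Finset.sum_congr rfl fun a _ => ?_
    rw [← Finset.sum_add_sum_compl A (fun b => w a v b)]
    ring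
  have h2 : ∑ a, ∑ b, w a v b = ∑ a ∈ A, ∑ b, w a v b + ∑ a ∈ Aᶜ, ∑ b, w a v b :=
    (Finset.sum_add_sum_compl A _).symm
  have h3 : ∑ a ∈ Aᶜ, ∑ b, w a v b ≤ ((Aᶜ).card : ℝ) := by
    have : ∑ a ∈ Aᶜ, ∑ b, w a v b ≤ ∑ _a ∈ Aᶜ, (1 : ℝ) := Finset.sum_le_sum fun a _ => h.sum_le a v
    simpa using this
  have h4 : ∑ a ∈ A, ∑ b ∈ Aᶜ, w a v b ≤ ((Aᶜ).card : ℝ) := by
    have e1 : ∑ a ∈ A, ∑ b ∈ Aᶜ, w a v b ≤ ∑ a, ∑ b ∈ Aᶜ, w a v b :=
      Finset.sum_le_sum_of_subset_of_nonneg (Finset.subset_univ _)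
        fun a _ _ => Finset.sum_nonneg fun b _ => h.nonneg a v b
    have e2 : ∑ a, ∑ b ∈ Aᶜ, w a v b = ∑ b ∈ Aᶜ, ∑ a, w a v b := Finset.sum_comm
    have e3 : ∑ b ∈ Aᶜ, ∑ a, w a v b ≤ ∑ _b ∈ Aᶜ, (1 : ℝ) := by
      refine Finset.sum_le_sum fun b _ => ?_
      have : ∑ a, w a v b = ∑ a, w v b a :=
        Finset.sum_congr rfl fun a _ => by rw [h.symm1 a v b, h.symm2 v a b]
      rw [this]
      exact h.sum_le v b
    have e4 : ∑ _b ∈ Aᶜ, (1 : ℝ) = ((Aᶜ).card : ℝ) := by simp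
    linarith
  have h5 : (1 - e0) * dg G v ≤ ∑ a, ∑ b, w a v b := by
    have e1 : ∑ a ∈ univ.filter (fun u => G.Adj v u), ∑ b, w a v b ≤ ∑ a, ∑ b, w a v b :=
      Finset.sum_le_sum_of_subset_of_nonneg (Finset.subset_univ _)
        fun a _ _ => Finset.sum_nonneg fun b _ => h.nonneg a v b
    have e2 : ∑ _a ∈ univ.filter (fun u => G.Adj v u), (1 - e0) ≤
        ∑ a ∈ univ.filter (fun u => G.Adj v u), ∑ b, w a v b := by
      refine Finset.sum_le_sum fun a ha => ?_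
      rw [Finset.mem_filter] at ha
      exact h.le_sum a v ha.2.symm
    have e3 : ∑ _a ∈ univ.filter (fun u => G.Adj v u), (1 - e0) = (1 - e0) * dg G v := by
      rw [Finset.sum_const, nsmul_eq_mul]
      unfold dg
      ring
    linarith
  linarith

/-- the triples -/
def rsvpJ (G : SimpleGraph (Fin n)) (w : Fin n → Fin n → Fin n → ℝ) (x y z : Fin n) :
    Finset (Fin n × Fin n × Fin n) :=
  (rsvpV G x y z ×ˢ rsvpA G x y z ×ˢ rsvpA G x y z).filter fun t => w t.2.1 t.1 t.2.2 ≠ 0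

/-- weights -/
def rsvpW (w : Fin n → Fin n → Fin n → ℝ) (t : Fin n × Fin n × Fin n) : ℝ := w t.2.1 t.1 t.2.2

/-- pairs in the reserve -/
def rsvpP (x y z : Fin n) (t : Fin n × Fin n × Fin n) : Finset (Sym2 (Fin n)) :=
  {s(y, t.1), s(z, t.1), s(x, t.2.1), s(x, t.2.2)}

/-- pairs not in the reserve -/
def rsvpN (t : Fin n × Fin n × Fin n) : Finset (Sym2 (Fin n)) :=
  {s(t.2.1, t.1), s(t.1, t.2.2), s(t.2.1, t.2.2)}

theorem rsvp_sumJ (w : Fin n → Fin n → Fin n → ℝ) (x y z : Fin n) :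
    ∑ t ∈ rsvpJ G w x y z, rsvpW w t =
      ∑ v ∈ rsvpV G x y z, ∑ a ∈ rsvpA G x y z, ∑ b ∈ rsvpA G x y z, w a v b := by
  unfold rsvpJ rsvpW
  rw [Finset.sum_filter_ne_zero, Finset.sum_product]
  refine Finset.sum_congr rfl fun v _ => ?_
  rw [Finset.sum_product]

theorem rsvp_low {ep : ℝ} (h0 : 0 < ep) (h1 : ep ≤ 1 / 4) (he1 : e0 ≤ ep)
    (hn : 3 ≤ ep * n) (hG : ∀ v, (3 / 4 + ep) * n ≤ dg G v) (h : TriW G w C e0) (x y z : Fin n) :
    (n : ℝ) ^ 2 / 8 ≤ ∑ t ∈ rsvpJ G w x y z, rsvpW w t := by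
  rw [rsvp_sumJ]
  have hn0 : (0 : ℝ) ≤ n := Nat.cast_nonneg n
  have hV : (n : ℝ) / 2 ≤ ((rsvpV G x y z).card : ℝ) := by
    have e1 := rsvp_cardV G x y z
    have e2 := hG y
    have e3 := hG z
    nlinarith
  have hin : ∀ v ∈ rsvpV G x y z, (n : ℝ) / 4 ≤ ∑ a ∈ rsvpA G x y z, ∑ b ∈ rsvpA G x y z, w a v b := by
    intro v _
    have e1 := rsvp_inner h x y z v
    have e2 := rsvp_cardAc G x y z
    have e3 := hG x
    have e4 := hG v
    have e5 : (1 - e0) * ((3 / 4 + ep) * n) ≤ (1 - e0) * dg G v :=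
      mul_le_mul_of_nonneg_left e4 (by linarith)
    have e6 : (3 / 4 : ℝ) * n ≤ (1 - e0) * ((3 / 4 + ep) * n) := by
      have g1 : (3 / 4 : ℝ) ≤ (1 - e0) * (3 / 4 + ep) := by nlinarith
      have := mul_le_mul_of_nonneg_right g1 hn0
      linarith
    linarith
  have h2 : ∑ _v ∈ rsvpV G x y z, (n : ℝ) / 4 ≤
      ∑ v ∈ rsvpV G x y z, ∑ a ∈ rsvpA G x y z, ∑ b ∈ rsvpA G x y z, w a v b :=
    Finset.sum_le_sum hin
  rw [Finset.sum_const, nsmul_eq_mul] at h2
  have h3 : (n : ℝ) / 2 * (n / 4) ≤ ((rsvpV G x y z).card : ℝ) * (n / 4) :=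
    mul_le_mul_of_nonneg_right hV (by linarith)
  have h4 : (n : ℝ) ^ 2 / 8 = (n : ℝ) / 2 * (n / 4) := by ring
  linarith

theorem rsvp_memJ {x y z : Fin n} {t : Fin n × Fin n × Fin n} (ht : t ∈ rsvpJ G w x y z) :
    (G.Adj y t.1 ∧ G.Adj z t.1 ∧ t.1 ∉ ({x, y, z} : Finset (Fin n))) ∧
    (G.Adj x t.2.1 ∧ t.2.1 ∉ ({x, y, z} : Finset (Fin n))) ∧
    (G.Adj x t.2.2 ∧ t.2.2 ∉ ({x, y, z} : Finset (Fin n))) ∧ w t.2.1 t.1 t.2.2 ≠ 0 := by
  unfold rsvpJ rsvpV rsvpA at ht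
  simp only [Finset.mem_filter, Finset.mem_product, Finset.mem_sdiff, Finset.mem_inter, Finset.mem_univ,
    true_and] at ht
  exact ⟨⟨ht.1.1.1.1, ht.1.1.1.2, ht.1.1.2⟩, ⟨ht.1.2.1.1, ht.1.2.1.2⟩, ⟨ht.1.2.2.1, ht.1.2.2.2⟩, ht.2⟩

theorem rsvp_disj {x y z : Fin n} {t : Fin n × Fin n × Fin n} (ht : t ∈ rsvpJ G w x y z) :
    Disjoint (rsvpP x y z t) (rsvpN t) := by
  obtain ⟨⟨_, _, h1⟩, ⟨_, h2⟩, ⟨_, h3⟩, _⟩ := rsvp_memJ ht
  obtain ⟨v, a, b⟩ := t
  simp only [Finset.mem_insert, Finset.mem_singleton, not_or] at h1 h2 h3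
  obtain ⟨v1, v2, v3⟩ := h1
  obtain ⟨a1, a2, a3⟩ := h2
  obtain ⟨b1, b2, b3⟩ := h3
  rw [Finset.disjoint_left]
  intro e he he'
  unfold rsvpP at he
  unfold rsvpN at he'
  simp only [Finset.mem_insert, Finset.mem_singleton] at he he'
  have key : x ∈ e ∨ y ∈ e ∨ z ∈ e := by
    rcases he with rfl | rfl | rfl | rfl
    · right; left; exact Sym2.mem_mk_left _ _
    · right; right; exact Sym2.mem_mk_left _ _
    · left; exact Sym2.mem_mk_left _ _
    · left; exact Sym2.mem_mk_left _ _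
  rcases he' with rfl | rfl | rfl <;> simp only [Sym2.mem_iff] at key <;>
    rcases key with (h | h) | (h | h) | (h | h) <;> subst h <;> simp_all

theorem rsvp_ge (h : TriW G w C e0) (x y z : Fin n) (S : Finset (Sym2 (Fin n))) :
    cylF (rsvpJ G w x y z) (rsvpW w) (rsvpP x y z) rsvpN S ≤ patS G w S x y z := by
  have h1 : patS G w S x y z = ∑ t : Fin n × Fin n × Fin n,
      (if (RG G S).Adj y t.1 ∧ (RG G S).Adj z t.1 ∧ (RG G S).Adj x t.2.1 ∧ (RG G S).Adj x t.2.2 ∧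
        (BG G S).Adj t.2.1 t.1 ∧ (BG G S).Adj t.1 t.2.2 ∧ (BG G S).Adj t.2.1 t.2.2 then w t.2.1 t.1 t.2.2
        else 0) := by
    unfold patS
    rw [Fintype.sum_prod_type]
    refine Finset.sum_congr rfl fun v _ => ?_
    rw [Fintype.sum_prod_type]
  rw [h1]
  have h2 : ∑ t ∈ rsvpJ G w x y z,
      (if (RG G S).Adj y t.1 ∧ (RG G S).Adj z t.1 ∧ (RG G S).Adj x t.2.1 ∧ (RG G S).Adj x t.2.2 ∧
        (BG G S).Adj t.2.1 t.1 ∧ (BG G S).Adj t.1 t.2.2 ∧ (BG G S).Adj t.2.1 t.2.2 then w t.2.1 t.1 t.2.2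
        else 0) ≤ ∑ t : Fin n × Fin n × Fin n,
      (if (RG G S).Adj y t.1 ∧ (RG G S).Adj z t.1 ∧ (RG G S).Adj x t.2.1 ∧ (RG G S).Adj x t.2.2 ∧
        (BG G S).Adj t.2.1 t.1 ∧ (BG G S).Adj t.1 t.2.2 ∧ (BG G S).Adj t.2.1 t.2.2 then w t.2.1 t.1 t.2.2
        else 0) := by
    refine Finset.sum_le_sum_of_subset_of_nonneg (Finset.subset_univ _) fun t _ _ => ?_
    split_ifs
    · exact h.nonneg _ _ _
    · exact le_refl _
  refine le_trans ?_ h2
  unfold cylF
  refine Finset.sum_le_sum fun t ht => ?_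
  obtain ⟨⟨m1, m2, _⟩, ⟨m3, _⟩, ⟨m4, _⟩, m5⟩ := rsvp_memJ ht
  obtain ⟨g1, g2, g3⟩ := h.supp _ _ _ m5
  by_cases hc : rsvpP x y z t ⊆ S ∧ Disjoint (rsvpN t) S
  · have hP := hc.1
    have hN := Finset.disjoint_left.1 hc.2
    rw [if_pos hc, if_pos, mul_one]
    · exact le_refl _
    · unfold rsvpP at hP
      unfold rsvpN at hN
      refine ⟨⟨m1, hP ?_⟩, ⟨m2, hP ?_⟩, ⟨m3, hP ?_⟩, ⟨m4, hP ?_⟩, ⟨g1, fun hh => hN ?_ hh⟩,
        ⟨g2, fun hh => hN ?_ hh⟩, ⟨g3, fun hh => hN ?_ hh⟩⟩ <;> simp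
  · rw [if_neg hc, mul_zero]
    split_ifs
    · exact h.nonneg _ _ _
    · exact le_refl _

theorem rsvp_EE (h : TriW G w C e0) {rho : ℝ} (hr0 : 0 < rho) (hr1 : rho ≤ 1 / 8) (x y z : Fin n) :
    rho ^ 4 * (2 / 3) * ∑ t ∈ rsvpJ G w x y z, rsvpW w t ≤
      EE (fun _ => rho) (univ : Finset (Sym2 (Fin n)))
        (cylF (rsvpJ G w x y z) (rsvpW w) (rsvpP x y z) rsvpN) := by
  rw [EE_cylF _ _ _ _ (fun t _ => Finset.subset_univ _) (fun t _ => Finset.subset_univ _)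
    (fun t ht => rsvp_disj ht), Finset.mul_sum]
  refine Finset.sum_le_sum fun t _ => ?_
  rw [Finset.prod_const, Finset.prod_const]
  have c1 : (rsvpP x y z t).card ≤ 4 := Finset.card_le_four
  have c2 : (rsvpN t).card ≤ 3 := Finset.card_le_three
  have p1 : rho ^ 4 ≤ rho ^ (rsvpP x y z t).card := pow_le_pow_of_le_one hr0.le (by linarith) c1
  have p2 : (1 - rho) ^ 3 ≤ (1 - rho) ^ (rsvpN t).card :=
    pow_le_pow_of_le_one (by linarith) (by linarith) c2
  have p3 : (2 / 3 : ℝ) ≤ (1 - rho) ^ 3 := by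
    have : (7 / 8 : ℝ) ^ 3 ≤ (1 - rho) ^ 3 := pow_le_pow_left₀ (by norm_num) (by linarith) 3
    have h2 : (2 / 3 : ℝ) ≤ (7 / 8 : ℝ) ^ 3 := by norm_num
    linarith
  have p4 : rho ^ 4 * (2 / 3) ≤ rho ^ (rsvpP x y z t).card * (1 - rho) ^ (rsvpN t).card :=
    mul_le_mul p1 (by linarith) (by norm_num) (by positivity)
  have hw : 0 ≤ rsvpW w t := h.nonneg _ _ _
  have := mul_le_mul_of_nonneg_left p4 hw
  linarith

theorem rsvp_load (h : TriW G w C e0) (x y z : Fin n) (e : Sym2 (Fin n)) :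
    load (rsvpJ G w x y z) (rsvpW w) (rsvpP x y z) rsvpN e ≤ 6 * n := by
  induction e with | _ p q
  have hnn : ∀ t, 0 ≤ rsvpW w t := fun t => h.nonneg _ _ _
  -- the slices
  have hv : ∀ p : Fin n, ∑ t : Fin n × Fin n × Fin n, (if t.1 = p then rsvpW w t else 0) ≤ n := by
    intro p
    rw [Fintype.sum_prod_type, Finset.sum_eq_single p]
    · rw [Fintype.sum_prod_type]
      simp only [if_true]
      exact rsvp_slice_v h p
    · intro v _ hv
      exact Finset.sum_eq_zero fun t _ => if_neg hv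
    · intro hh
      exact absurd (Finset.mem_univ _) hh
  have ha : ∀ p : Fin n, ∑ t : Fin n × Fin n × Fin n, (if t.2.1 = p then rsvpW w t else 0) ≤ n := by
    intro p
    have e1 : ∑ t : Fin n × Fin n × Fin n, (if t.2.1 = p then rsvpW w t else 0) = ∑ v, ∑ b, w p v b := by
      rw [Fintype.sum_prod_type]
      refine Finset.sum_congr rfl fun v _ => ?_
      rw [Fintype.sum_prod_type, Finset.sum_eq_single p]
      · simp only [if_true]
        rfl
      · intro a _ ha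
        exact Finset.sum_eq_zero fun t _ => if_neg ha
      · intro hh
        exact absurd (Finset.mem_univ _) hh
    rw [e1]
    exact rsvp_slice_a h p
  have hb : ∀ p : Fin n, ∑ t : Fin n × Fin n × Fin n, (if t.2.2 = p then rsvpW w t else 0) ≤ n := by
    intro p
    have e1 : ∑ t : Fin n × Fin n × Fin n, (if t.2.2 = p then rsvpW w t else 0) = ∑ v, ∑ a, w a v p := by
      rw [Fintype.sum_prod_type]
      refine Finset.sum_congr rfl fun v _ => ?_
      rw [Fintype.sum_prod_type]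
      refine Finset.sum_congr rfl fun a _ => ?_
      rw [Finset.sum_eq_single p]
      · simp only [if_true]
        rfl
      · intro b _ hb
        exact if_neg hb
      · intro hh
        exact absurd (Finset.mem_univ _) hh
    rw [e1]
    exact rsvp_slice_b h p
  have key : load (rsvpJ G w x y z) (rsvpW w) (rsvpP x y z) rsvpN s(p, q) ≤
      ∑ t : Fin n × Fin n × Fin n, ((if t.1 = p then rsvpW w t else 0) + (if t.1 = q then rsvpW w t else 0) +
        (if t.2.1 = p then rsvpW w t else 0) + (if t.2.1 = q then rsvpW w t else 0) +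
        (if t.2.2 = p then rsvpW w t else 0) + (if t.2.2 = q then rsvpW w t else 0)) := by
    unfold load
    have hrest : ∀ t : Fin n × Fin n × Fin n, 0 ≤ (if t.1 = p then rsvpW w t else 0) +
        (if t.1 = q then rsvpW w t else 0) +
        (if t.2.1 = p then rsvpW w t else 0) + (if t.2.1 = q then rsvpW w t else 0) +
        (if t.2.2 = p then rsvpW w t else 0) + (if t.2.2 = q then rsvpW w t else 0) := by
      intro t
      have := hnn t
      have i : ∀ (P : Prop) [Decidable P], 0 ≤ (if P then rsvpW w t else 0) := by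
        intro P _
        split_ifs
        · exact this
        · exact le_refl _
      have i1 := i (t.1 = p)
      have i2 := i (t.1 = q)
      have i3 := i (t.2.1 = p)
      have i4 := i (t.2.1 = q)
      have i5 := i (t.2.2 = p)
      have i6 := i (t.2.2 = q)
      linarith
    refine le_trans (Finset.sum_le_sum (g := fun t : Fin n × Fin n × Fin n =>
      ((if t.1 = p then rsvpW w t else 0) + (if t.1 = q then rsvpW w t else 0) +
        (if t.2.1 = p then rsvpW w t else 0) + (if t.2.1 = q then rsvpW w t else 0) +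
        (if t.2.2 = p then rsvpW w t else 0) + (if t.2.2 = q then rsvpW w t else 0))) fun t _ => ?_)
      (Finset.sum_le_sum_of_subset_of_nonneg (Finset.subset_univ _) fun t _ _ => hrest t)
    by_cases hc : s(p, q) ∈ rsvpP x y z t ∨ s(p, q) ∈ rsvpN t
    · rw [if_pos hc]
      have i : ∀ (P : Prop) [Decidable P], 0 ≤ (if P then rsvpW w t else 0) := by
        intro P _
        have := hnn t
        split_ifs
        · exact this
        · exact le_refl _
      have i1 := i (t.1 = p)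
      have i2 := i (t.1 = q)
      have i3 := i (t.2.1 = p)
      have i4 := i (t.2.1 = q)
      have i5 := i (t.2.2 = p)
      have i6 := i (t.2.2 = q)
      have hcase : t.1 = p ∨ t.1 = q ∨ t.2.1 = p ∨ t.2.1 = q ∨ t.2.2 = p ∨ t.2.2 = q := by
        unfold rsvpP rsvpN at hc
        simp only [Finset.mem_insert, Finset.mem_singleton, Sym2.eq_iff] at hc
        tauto
      rcases hcase with hh | hh | hh | hh | hh | hh
      · rw [if_pos hh] at i1 ⊢
        linarith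
      · rw [if_pos hh] at i2 ⊢
        linarith
      · rw [if_pos hh] at i3 ⊢
        linarith
      · rw [if_pos hh] at i4 ⊢
        linarith
      · rw [if_pos hh] at i5 ⊢
        linarith
      · rw [if_pos hh] at i6 ⊢
        linarith
    · rw [if_neg hc]
      exact hrest t
  simp only [Finset.sum_add_distrib] at key
  have v1 := hv p
  have v2 := hv q
  have a1 := ha p
  have a2 := ha q
  have b1 := hb p
  have b2 := hb q
  linarith

theorem rsvp_load_nonneg (h : TriW G w C e0) (x y z : Fin n) (e : Sym2 (Fin n)) :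
    0 ≤ load (rsvpJ G w x y z) (rsvpW w) (rsvpP x y z) rsvpN e := by
  unfold load
  refine Finset.sum_nonneg fun t _ => ?_
  split_ifs
  · exact h.nonneg _ _ _
  · exact le_refl _

theorem rsvp_load_sum (h : TriW G w C e0) (x y z : Fin n) :
    ∑ e : Sym2 (Fin n), load (rsvpJ G w x y z) (rsvpW w) (rsvpP x y z) rsvpN e ≤ 7 * (n : ℝ) ^ 2 := by
  unfold load
  rw [Finset.sum_comm]
  have h1 : ∑ t ∈ rsvpJ G w x y z, ∑ e : Sym2 (Fin n),
      (if e ∈ rsvpP x y z t ∨ e ∈ rsvpN t then rsvpW w t else 0) ≤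
      ∑ t ∈ rsvpJ G w x y z, 7 * rsvpW w t := by
    refine Finset.sum_le_sum fun t _ => ?_
    rw [← Finset.sum_filter, Finset.sum_const, nsmul_eq_mul]
    have hw : 0 ≤ rsvpW w t := h.nonneg _ _ _
    refine mul_le_mul_of_nonneg_right ?_ hw
    have c1 : (rsvpP x y z t).card ≤ 4 := Finset.card_le_four
    have c2 : (rsvpN t).card ≤ 3 := Finset.card_le_three
    have c3 : (univ.filter fun e => e ∈ rsvpP x y z t ∨ e ∈ rsvpN t).card ≤ 7 := by
      have : (univ.filter fun e => e ∈ rsvpP x y z t ∨ e ∈ rsvpN t) ⊆ rsvpP x y z t ∪ rsvpN t := by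
        intro e he
        rw [Finset.mem_filter] at he
        exact Finset.mem_union.2 he.2
      have h2 := Finset.card_le_card this
      have h3 := Finset.card_union_le (rsvpP x y z t) (rsvpN t)
      omega
    exact_mod_cast c3
  refine h1.trans ?_
  rw [← Finset.mul_sum]
  have h2 : ∑ t ∈ rsvpJ G w x y z, rsvpW w t ≤ ∑ t : Fin n × Fin n × Fin n, rsvpW w t :=
    Finset.sum_le_sum_of_subset_of_nonneg (Finset.subset_univ _) fun t _ _ => h.nonneg _ _ _
  have h3 : ∑ t : Fin n × Fin n × Fin n, rsvpW w t = ∑ v, ∑ a, ∑ b, w a v b := by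
    rw [Fintype.sum_prod_type]
    refine Finset.sum_congr rfl fun v _ => ?_
    rw [Fintype.sum_prod_type]
    rfl
  have h4 := rsvp_total h
  linarith

end

theorem rsvP (ep e0 rho C : ℝ) (h0 : 0 < ep) (h1 : ep ≤ 1 / 4) (he0 : 0 < e0) (he1 : e0 ≤ ep)
    (hr0 : 0 < rho) (hr1 : rho ≤ 1 / 8) :
    ∃ n0 : ℕ, ∀ n : ℕ, n0 ≤ n → ∀ G : SimpleGraph (Fin n), (∀ v, (3 / 4 + ep) * n ≤ dg G v) →
      ∀ w, TriW G w C e0 → ∀ x y z : Fin n,
        PP (fun _ => rho) (univ : Finset (Sym2 (Fin n)))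
          (fun S => patS G w S x y z < rho ^ 4 * (n : ℝ) ^ 2 / 20)
          ≤ Real.exp (- (rho ^ 8 / 400000 * n)) := by
  obtain ⟨n0, hn0⟩ := exists_nat_ge (3 / ep)
  refine ⟨n0 + 1, fun n hn G hG w hw x y z => ?_⟩
  have hnR : (n0 : ℝ) + 1 ≤ n := by exact_mod_cast hn
  have hn1 : (1 : ℝ) ≤ n := by
    have : (0 : ℝ) ≤ n0 := Nat.cast_nonneg _
    linarith
  have hn3 : 3 ≤ ep * n := by
    have e1 : 3 / ep ≤ n := by linarith
    rw [div_le_iff₀ h0] at e1
    linarith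
  have hp : IsP (fun _ => rho) (univ : Finset (Sym2 (Fin n))) := fun i _ => ⟨hr0.le, by linarith⟩
  have hlow := rsvp_low h0 h1 he1 hn3 hG hw x y z
  have hEE := rsvp_EE hw hr0 hr1 x y z
  have hr4 : 0 < rho ^ 4 := by positivity
  have hn2 : 0 < (n : ℝ) ^ 2 := by positivity
  have hEE2 : rho ^ 4 * (n : ℝ) ^ 2 / 12 ≤ EE (fun _ => rho) (univ : Finset (Sym2 (Fin n)))
        (cylF (rsvpJ G w x y z) (rsvpW w) (rsvpP x y z) rsvpN) := by
    refine le_trans ?_ hEE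
    have := mul_le_mul_of_nonneg_left hlow (by positivity : 0 ≤ rho ^ 4 * (2 / 3))
    have e1 : rho ^ 4 * (2 / 3) * ((n : ℝ) ^ 2 / 8) = rho ^ 4 * (n : ℝ) ^ 2 / 12 := by ring
    linarith
  have hV : ∑ e ∈ (univ : Finset (Sym2 (Fin n))), (fun _ : Sym2 (Fin n) => rho) e *
      load (rsvpJ G w x y z) (rsvpW w) (rsvpP x y z) rsvpN e ^ 2 ≤ 42 * (n : ℝ) ^ 3 := by
    have e1 : ∑ e ∈ (univ : Finset (Sym2 (Fin n))), (fun _ : Sym2 (Fin n) => rho) e *
        load (rsvpJ G w x y z) (rsvpW w) (rsvpP x y z) rsvpN e ^ 2 ≤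
        ∑ e : Sym2 (Fin n), (6 * n) * load (rsvpJ G w x y z) (rsvpW w) (rsvpP x y z) rsvpN e := by
      refine Finset.sum_le_sum fun e _ => ?_
      have g1 := rsvp_load hw x y z e
      have g2 := rsvp_load_nonneg hw x y z e
      have g3 := mul_le_mul_of_nonneg_right g1 g2
      have g4 : rho * load (rsvpJ G w x y z) (rsvpW w) (rsvpP x y z) rsvpN e ^ 2 ≤
          1 * load (rsvpJ G w x y z) (rsvpW w) (rsvpP x y z) rsvpN e ^ 2 :=
        mul_le_mul_of_nonneg_right (by linarith) (sq_nonneg _)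
      have g5 : load (rsvpJ G w x y z) (rsvpW w) (rsvpP x y z) rsvpN e ^ 2 =
        load (rsvpJ G w x y z) (rsvpW w) (rsvpP x y z) rsvpN e *
          load (rsvpJ G w x y z) (rsvpW w) (rsvpP x y z) rsvpN e := sq _
      show rho * load (rsvpJ G w x y z) (rsvpW w) (rsvpP x y z) rsvpN e ^ 2 ≤ _
      linarith
    have e5 : ∑ e : Sym2 (Fin n), (6 * n) * load (rsvpJ G w x y z) (rsvpW w) (rsvpP x y z) rsvpN e =
        (6 * n) * ∑ e : Sym2 (Fin n), load (rsvpJ G w x y z) (rsvpW w) (rsvpP x y z) rsvpN e :=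
      (Finset.mul_sum _ _ _).symm
    have e2 := rsvp_load_sum hw x y z
    have e3 := mul_le_mul_of_nonneg_left e2 (by positivity : (0 : ℝ) ≤ 6 * n)
    have e4 : 6 * (n : ℝ) * (7 * (n : ℝ) ^ 2) = 42 * (n : ℝ) ^ 3 := by ring
    linarith
  have hcyl := cyl_low hp (rsvpJ G w x y z) (rsvpW w) (rsvpP x y z) rsvpN (fun t _ => hw.nonneg _ _ _)
    (b := 6 * n) (V := 42 * (n : ℝ) ^ 3) (lam := rho ^ 4 * (n : ℝ) ^ 2 / 30) (by positivity) (by positivity)
    (by positivity) (fun e _ => rsvp_load hw x y z e) hV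
  have hmono : PP (fun _ => rho) (univ : Finset (Sym2 (Fin n)))
      (fun S => patS G w S x y z < rho ^ 4 * (n : ℝ) ^ 2 / 20) ≤
      PP (fun _ => rho) (univ : Finset (Sym2 (Fin n))) (fun S =>
        cylF (rsvpJ G w x y z) (rsvpW w) (rsvpP x y z) rsvpN S ≤
          EE (fun _ => rho) (univ : Finset (Sym2 (Fin n)))
            (cylF (rsvpJ G w x y z) (rsvpW w) (rsvpP x y z) rsvpN) - rho ^ 4 * (n : ℝ) ^ 2 / 30) := by
    refine PP_mono hp fun S _ hS => ?_
    have := rsvp_ge hw x y z S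
    linarith
  refine hmono.trans (hcyl.trans ?_)
  apply Real.exp_le_exp.2
  apply neg_le_neg
  have hn0' : (n : ℝ) ≠ 0 := by
    intro hh
    rw [hh] at hn1
    norm_num at hn1
  refine le_min ?_ ?_
  · have e1 : (rho ^ 4 * (n : ℝ) ^ 2 / 30) ^ 2 / (4 * (42 * (n : ℝ) ^ 3)) = rho ^ 8 / 151200 * n := by
      field_simp
      ring
    rw [e1]
    have : rho ^ 8 / 400000 ≤ rho ^ 8 / 151200 := by
      have : 0 ≤ rho ^ 8 := by positivity
      linarith
    exact mul_le_mul_of_nonneg_right this (by linarith)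
  · have e1 : rho ^ 4 * (n : ℝ) ^ 2 / 30 / (2 * (6 * n)) = rho ^ 4 / 360 * n := by
      field_simp
      ring
    rw [e1]
    have e2 : rho ^ 8 ≤ rho ^ 4 := pow_le_pow_of_le_one hr0.le (by linarith) (by norm_num)
    have : rho ^ 8 / 400000 ≤ rho ^ 4 / 360 := by linarith
    exact mul_le_mul_of_nonneg_right this (by linarith)

end
end Pool.Agent.APK
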