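import Pool.Agent.APK.Chn

/-!
# APK/TilA : marginals of the fan weight   (difficulty 3)

`T : Fin (m+2) → Fin n`, hub `h = T 0`, path `t = Fin.tail T` (`t j = T (j+1)`, `j : Fin (m+1)`), `m ≥ 1`,
`fanW w T = chW (w h) t / Sg w`; conductances `K = w h` (symmetric by `symm2`), `rs (w h) x = σ h x = ∑_z w h x z`.
Sums over `T`: `Fin.consEquiv` (sum over `h` and `t`).  `Sg w = ∑ σ`.  If `Sg w = 0` then all `w = 0` (nonnegative) and
everything vanishes; otherwise divide.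

* `fan_adj`: if `fanW w T ≠ 0` all `w h (t j) (t (j+1)) ≠ 0`, so `t j`, `t (j+1)`, `h` are pairwise adjacent; the cyclic
  successor `finRotate` takes `j ↦ j+1` and the last to `0` (`finRotate_succ_apply`, `finRotate_last`,
  `finRotate_of_lt`).
* `fan_total`: `ch1` with `f = 1`: `∑_h ∑_x σ h x / Sg = 1` (or `0`).
* `fan_marg`: `∑_{T j = v} fanW = (∑_x σ v x)/Sg`.  `j = 0`: `h = v`, `ch1` with `f = 1`.  `j ≥ 1`: `ch1` with
  `f = [· = v]`: `∑_h σ h v`, and `σ h v = σ v h` (`symm1`).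
* `fan_pair`: `∑_{T j = u, T (rot j) = v} fanW = σ u v / Sg`.  `j = 0`: `h = u`, `ch1` at position `0`, `f = [· = v]`.
  `1 ≤ j ≤ m`: `ch2` for `(t (j-1), t j)`: `∑_h w h u v = σ u v` (`symm1`, `symm2`).  `j = m+1` (last): successor is the
  hub: `h = v`, `ch1` at the last position, `σ v u`.
* `fan_pat` (`j ≠ 0`, `W v := R.Adj y v ∧ R.Adj z v`, `N a := R.Adj x a`): let `Q = ∑_{v,a,b} [W v, N a, N b] w a v b ≥ c n²`
  (`hpat`).  `Sg ≤ n²` (`sum_le`).
  `j = 1`: the neighbours are `T 0 = h` and `T 2 = t 1`: the sum is `∑_h ∑ (window (t 0, t 1)) w h (t 0) (t 1)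
  [N h, W (t 0), N (t 1)]/Sg = Q/Sg ≥ c ≥ c²` (`ch2` at `0`).  (This covers the case `j = 1` also when `m = 1`.)
  `j = m + 1` (last), `m ≥ 1`: the neighbours are `T m` and `T 0 = h`: `ch2` at `m - 1`: `Q/Sg ≥ c²` again (symmetry of `w`).
  `2 ≤ j ≤ m`: `ch3` at `j - 2`: with `S_{h,v} = ∑_a [N a] w h v a`, the sum is
  `(1/Sg) ∑_{h, v} [W v] S_{h,v}²/σ h v`.  Cauchy-Schwarz (`Finset.sum_sq_le_sum_mul_sum_of_sq_eq_mul` or
  `div_add_div_same`/`inner_mul_le_norm_mul_norm`; terms with `σ h v = 0` have `S_{h,v} = 0`):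
  `(∑_{h,v} [W v] S_{h,v})² ≤ (∑ [W v] S²/σ)(∑ σ) = (∑ [W v] S²/σ) Sg`, and
  `∑_{h,v} [W v] S_{h,v} = ∑_{v, a} [W v, N a] σ(v,a) ≥ Q`.  So the sum is `≥ Q²/Sg² ≥ c²`.
-/

set_option autoImplicit false
open Finset
open scoped Classical

namespace Pool.Agent.APK
noncomputable section

variable {n : ℕ} {B : SimpleGraph (Fin n)} {w : Fin n → Fin n → Fin n → ℝ} {C e : ℝ}

theorem tila_sum {m : ℕ} (F : (Fin (m + 2) → Fin n) → ℝ) :
    ∑ T : Fin (m + 2) → Fin n, F T = ∑ h : Fin n, ∑ t : Fin (m + 1) → Fin n, F (Fin.cons h t) := by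
  rw [← Equiv.sum_comp (Fin.consEquiv (fun _ : Fin (m + 2) => Fin n)), Fintype.sum_prod_type]
  rfl

theorem tila_cons {m : ℕ} (h : Fin n) (t : Fin (m + 1) → Fin n) :
    fanW w (Fin.cons h t : Fin (m + 2) → Fin n) = chW (w h) t / Sg w := by
  unfold fanW
  rw [Fin.cons_zero, Fin.tail_cons]

theorem tila_at {m : ℕ} (h : Fin n) (t : Fin (m + 1) → Fin n) (k : ℕ) (hk : k + 1 < m + 2) :
    (Fin.cons h t : Fin (m + 2) → Fin n) ⟨k + 1, hk⟩ = t ⟨k, by omega⟩ := by
  have : (⟨k + 1, hk⟩ : Fin (m + 2)) = Fin.succ ⟨k, by omega⟩ := rfl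
  rw [this, Fin.cons_succ]

theorem tila_w1 (h : TriW B w C e) (m j : ℕ) (hj : j + 1 < m + 2) (f : Fin n → Fin n → ℝ) :
    ∑ T : Fin (m + 2) → Fin n, fanW w T * f (T 0) (T ⟨j + 1, hj⟩)
      = (∑ a, ∑ x, rs (w a) x * f a x) / Sg w := by
  rw [tila_sum, Finset.sum_div]
  refine Finset.sum_congr rfl fun a _ => ?_
  rw [← ch1 (fun x y => h.nonneg a x y) (fun x y => h.symm2 a x y) m j (by omega) (f a),
    Finset.sum_div]
  refine Finset.sum_congr rfl fun t _ => ?_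
  rw [tila_cons, tila_at, Fin.cons_zero]
  ring

theorem tila_w2 (h : TriW B w C e) (m j : ℕ) (hj : j + 2 < m + 2) (f : Fin n → Fin n → Fin n → ℝ) :
    ∑ T : Fin (m + 2) → Fin n, fanW w T * f (T 0) (T ⟨j + 1, by omega⟩) (T ⟨j + 2, hj⟩)
      = (∑ a, ∑ x, ∑ y, w a x y * f a x y) / Sg w := by
  rw [tila_sum, Finset.sum_div]
  refine Finset.sum_congr rfl fun a _ => ?_
  rw [← ch2 (fun x y => h.nonneg a x y) (fun x y => h.symm2 a x y) m j (by omega) (f a),
    Finset.sum_div]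
  refine Finset.sum_congr rfl fun t _ => ?_
  rw [tila_cons, tila_at, tila_at a t (j + 1) hj, Fin.cons_zero]
  ring

theorem tila_w3 (h : TriW B w C e) (m j : ℕ) (hj : j + 3 < m + 2)
    (f : Fin n → Fin n → Fin n → Fin n → ℝ) :
    ∑ T : Fin (m + 2) → Fin n, fanW w T *
        f (T 0) (T ⟨j + 1, by omega⟩) (T ⟨j + 2, by omega⟩) (T ⟨j + 3, hj⟩)
      = (∑ a, ∑ x, ∑ y, ∑ z, w a x y * (w a y z / rs (w a) y) * f a x y z) / Sg w := by
  rw [tila_sum, Finset.sum_div]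
  refine Finset.sum_congr rfl fun a _ => ?_
  rw [← ch3 (fun x y => h.nonneg a x y) (fun x y => h.symm2 a x y) m j (by omega) (f a),
    Finset.sum_div]
  refine Finset.sum_congr rfl fun t _ => ?_
  rw [tila_cons, tila_at, tila_at a t (j + 1) (by omega), tila_at a t (j + 2) hj, Fin.cons_zero]
  ring

theorem tila_sg_nonneg (h : TriW B w C e) : 0 ≤ Sg w :=
  Finset.sum_nonneg fun x _ => Finset.sum_nonneg fun y _ => Finset.sum_nonneg fun z _ =>
    h.nonneg x y z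

theorem tila_sg_le (h : TriW B w C e) : Sg w ≤ (n : ℝ) ^ 2 := by
  calc Sg w ≤ ∑ _x : Fin n, ∑ _y : Fin n, (1 : ℝ) :=
        Finset.sum_le_sum fun x _ => Finset.sum_le_sum fun y _ => h.sum_le x y
    _ = (n : ℝ) ^ 2 := by simp; ring

theorem fan_nonneg (h : TriW B w C e) {m : ℕ} (T : Fin (m + 2) → Fin n) : 0 ≤ fanW w T :=
  div_nonneg (chW_nonneg (fun x y => h.nonneg (T 0) x y) _) (tila_sg_nonneg h)

theorem tila_step (h : TriW B w C e) {m : ℕ} (T : Fin (m + 2) → Fin n) (hT : fanW w T ≠ 0)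
    (j : ℕ) (hj : j + 2 < m + 2) :
    B.Adj (T 0) (T ⟨j + 1, by omega⟩) ∧ B.Adj (T ⟨j + 1, by omega⟩) (T ⟨j + 2, hj⟩) ∧
      B.Adj (T 0) (T ⟨j + 2, hj⟩) := by
  have h1 : chW (w (T 0)) (Fin.tail T) ≠ 0 := fun h0 => hT (by unfold fanW; rw [h0, zero_div])
  unfold chW at h1
  have h2 := right_ne_zero_of_mul h1
  rw [Finset.prod_ne_zero_iff] at h2
  have h3 := h2 ⟨j, by omega⟩ (Finset.mem_univ _)
  have h4 : w (T 0) (T ⟨j + 1, by omega⟩) (T ⟨j + 2, hj⟩) ≠ 0 := fun h0 => h3 (by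
    have e1 : Fin.tail T (Fin.castSucc (⟨j, by omega⟩ : Fin m)) = T ⟨j + 1, by omega⟩ := rfl
    have e2 : Fin.tail T (Fin.succ (⟨j, by omega⟩ : Fin m)) = T ⟨j + 2, hj⟩ := rfl
    rw [e1, e2, h0, zero_div])
  exact h.supp _ _ _ h4

theorem tila_rot0 (m : ℕ) : finRotate (m + 2) 0 = ⟨1, by omega⟩ :=
  finRotate_of_lt (n := m + 1) (k := 0) (by omega)

theorem tila_rot (m k : ℕ) (hk : k + 1 < m + 2) :
    finRotate (m + 2) ⟨k, by omega⟩ = ⟨k + 1, hk⟩ :=
  finRotate_of_lt (n := m + 1) (k := k) (by omega)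

theorem tila_rotl (m : ℕ) : finRotate (m + 2) ⟨m + 1, by omega⟩ = 0 :=
  finRotate_last' (n := m + 1)

theorem fan_adj (h : TriW B w C e) {m : ℕ} (hm : 1 ≤ m) (T : Fin (m + 2) → Fin n) (hT : fanW w T ≠ 0)
    (j : Fin (m + 2)) : B.Adj (T j) (T (finRotate (m + 2) j)) := by
  obtain ⟨j, hj⟩ := j
  rcases Nat.eq_zero_or_pos j with h0 | h0
  · subst h0
    have := (tila_step h T hT 0 (by omega)).1
    rw [tila_rot m 0 (by omega)]
    exact this
  · obtain ⟨k, rfl⟩ : ∃ k, j = k + 1 := ⟨j - 1, by omega⟩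
    rcases Nat.lt_or_ge (k + 2) (m + 2) with h1 | h1
    · rw [tila_rot m (k + 1) h1]
      exact (tila_step h T hT k h1).2.1
    · have hk : k = m := by omega
      subst hk
      rw [tila_rotl]
      obtain ⟨l, rfl⟩ : ∃ l, k = l + 1 := ⟨k - 1, by omega⟩
      exact (tila_step h T hT l (by omega)).2.2.symm

theorem fan_total (h : TriW B w C e) (m : ℕ) : ∑ T : Fin (m + 2) → Fin n, fanW w T ≤ 1 := by
  have h1 := tila_w1 h m 0 (by omega) (fun _ _ => 1)
  simp only [mul_one] at h1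
  rw [h1]
  exact div_self_le_one (Sg w)

theorem tila_ite (P : Prop) [Decidable P] (a : ℝ) : (if P then a else 0) = a * (if P then 1 else 0) := by
  split_ifs <;> simp

theorem fan_marg (h : TriW B w C e) {m : ℕ} (j : Fin (m + 2)) (v : Fin n) :
    ∑ T : Fin (m + 2) → Fin n, (if T j = v then fanW w T else 0) = (∑ x, ∑ z, w v x z) / Sg w := by
  obtain ⟨j, hj⟩ := j
  rcases Nat.eq_zero_or_pos j with h0 | h0
  · subst h0
    have h1 := tila_w1 h m 0 (by omega) (fun a _ => if a = v then 1 else 0)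
    have h2 : ∀ T : Fin (m + 2) → Fin n, (if T ⟨0, hj⟩ = v then fanW w T else 0)
        = fanW w T * (if T 0 = v then 1 else 0) := fun T => tila_ite _ _
    rw [Finset.sum_congr rfl fun T _ => h2 T, h1]
    congr 1
    rw [Finset.sum_eq_single v]
    · simp [rs]
    · intro b _ hb
      simp [hb]
    · intro hv
      exact absurd (Finset.mem_univ v) hv
  · obtain ⟨k, rfl⟩ : ∃ k, j = k + 1 := ⟨j - 1, by omega⟩
    have h1 := tila_w1 h m k hj (fun _ x => if x = v then 1 else 0)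
    rw [Finset.sum_congr rfl fun T _ => tila_ite _ _, h1]
    congr 1
    refine Finset.sum_congr rfl fun a _ => ?_
    rw [Finset.sum_eq_single v]
    · simp only [if_true, mul_one, rs]
      exact Finset.sum_congr rfl fun z _ => h.symm1 a v z
    · intro b _ hb
      simp [hb]
    · intro hv
      exact absurd (Finset.mem_univ v) hv

theorem fan_pair (h : TriW B w C e) {m : ℕ} (hm : 1 ≤ m) (j : Fin (m + 2)) (u v : Fin n) :
    ∑ T : Fin (m + 2) → Fin n, (if T j = u ∧ T (finRotate (m + 2) j) = v then fanW w T else 0)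
      = (∑ z, w u v z) / Sg w := by
  obtain ⟨j, hj⟩ := j
  rcases Nat.eq_zero_or_pos j with h0 | h0
  · subst h0
    rw [tila_rot m 0 (by omega)]
    have h1 := tila_w1 h m 0 (by omega) (fun a x => if a = u ∧ x = v then 1 else 0)
    have h2 : ∀ T : Fin (m + 2) → Fin n,
        (if T ⟨0, hj⟩ = u ∧ T ⟨0 + 1, by omega⟩ = v then fanW w T else 0)
        = fanW w T * (if T 0 = u ∧ T ⟨0 + 1, by omega⟩ = v then 1 else 0) := fun T => tila_ite _ _
    rw [Finset.sum_congr rfl fun T _ => h2 T, h1]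
    congr 1
    rw [Finset.sum_eq_single u]
    · rw [Finset.sum_eq_single v]
      · simp [rs]
      · intro b _ hb
        simp [hb]
      · intro hv
        exact absurd (Finset.mem_univ v) hv
    · intro b _ hb
      simp [hb]
    · intro hv
      exact absurd (Finset.mem_univ u) hv
  · obtain ⟨k, rfl⟩ : ∃ k, j = k + 1 := ⟨j - 1, by omega⟩
    rcases Nat.lt_or_ge (k + 2) (m + 2) with h1 | h1
    · rw [tila_rot m (k + 1) h1]
      have h2 := tila_w2 h m k h1 (fun _ x y => if x = u ∧ y = v then 1 else 0)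
      rw [Finset.sum_congr rfl fun T _ => tila_ite _ _, h2]
      congr 1
      refine Finset.sum_congr rfl fun a _ => ?_
      rw [Finset.sum_eq_single u]
      · rw [Finset.sum_eq_single v]
        · simp only [and_self, if_true, mul_one]
          rw [h.symm1 a u v, h.symm2 u a v]
        · intro b _ hb
          simp [hb]
        · intro hv
          exact absurd (Finset.mem_univ v) hv
      · intro b _ hb
        simp [hb]
      · intro hv
        exact absurd (Finset.mem_univ u) hv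
    · have hk : k = m := by omega
      subst hk
      rw [tila_rotl]
      have h2 := tila_w1 h k k hj (fun a x => if x = u ∧ a = v then 1 else 0)
      rw [Finset.sum_congr rfl fun T _ => tila_ite _ _, h2]
      congr 1
      rw [Finset.sum_eq_single v]
      · rw [Finset.sum_eq_single u]
        · simp only [and_self, if_true, mul_one, rs]
          exact Finset.sum_congr rfl fun z _ => h.symm1 v u z
        · intro b _ hb
          simp [hb]
        · intro hv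
          exact absurd (Finset.mem_univ u) hv
      · intro b _ hb
        simp [hb]
      · intro hv
        exact absurd (Finset.mem_univ v) hv

theorem tila_sq (S r c : ℝ) (hr : 0 ≤ r) (hS : r = 0 → S = 0) :
    2 * c * S - c ^ 2 * r ≤ S * S / r := by
  rcases hr.eq_or_lt with h | h
  · rw [hS h.symm, ← h]; simp
  · rw [le_div_iff₀ h]
    nlinarith [sq_nonneg (S - c * r)]

theorem tila_mid (h : TriW B w C e) {R : SimpleGraph (Fin n)} {c : ℝ} (hc0 : 0 < c)
    (x y z : Fin n) (hS : 0 < Sg w)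
    (hpat : c * Sg w ≤
      ∑ v, ∑ a, ∑ b, (if R.Adj y v ∧ R.Adj z v ∧ R.Adj x a ∧ R.Adj x b then w a v b else 0)) :
    c ^ 2 ≤ (∑ a, ∑ p, ∑ q, ∑ r, w a p q * (w a q r / rs (w a) q) *
      (if R.Adj y q ∧ R.Adj z q ∧ R.Adj x p ∧ R.Adj x r then 1 else 0)) / Sg w := by
  rw [le_div_iff₀ hS]
  set S : Fin n → Fin n → ℝ := fun a q => ∑ r, (if R.Adj x r then w a q r else 0) with hSd
  have hterm : ∀ a q, (∑ p, ∑ r, w a p q * (w a q r / rs (w a) q) *
      (if R.Adj y q ∧ R.Adj z q ∧ R.Adj x p ∧ R.Adj x r then 1 else 0))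
      = if R.Adj y q ∧ R.Adj z q then S a q * S a q / rs (w a) q else 0 := by
    intro a q
    by_cases hW : R.Adj y q ∧ R.Adj z q
    · rw [if_pos hW, hSd]
      simp only
      rw [Finset.sum_mul_sum, Finset.sum_div]
      refine Finset.sum_congr rfl fun p _ => ?_
      rw [Finset.sum_div]
      refine Finset.sum_congr rfl fun r _ => ?_
      rw [h.symm2 a p q]
      by_cases h1 : R.Adj x p <;> by_cases h2 : R.Adj x r <;> simp [h1, h2, hW.1, hW.2]
      ring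
    · rw [if_neg hW]
      refine Finset.sum_eq_zero fun p _ => Finset.sum_eq_zero fun r _ => ?_
      rw [if_neg fun hh => hW ⟨hh.1, hh.2.1⟩, mul_zero]
  have hre : (∑ a, ∑ p, ∑ q, ∑ r, w a p q * (w a q r / rs (w a) q) *
      (if R.Adj y q ∧ R.Adj z q ∧ R.Adj x p ∧ R.Adj x r then 1 else 0))
      = ∑ a, ∑ q, if R.Adj y q ∧ R.Adj z q then S a q * S a q / rs (w a) q else 0 := by
    refine Finset.sum_congr rfl fun a _ => ?_
    rw [Finset.sum_comm]
    exact Finset.sum_congr rfl fun q _ => hterm a q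
  rw [hre]
  have hrs0 : ∀ a q, 0 ≤ rs (w a) q := fun a q => Finset.sum_nonneg fun r _ => h.nonneg a q r
  have hS0 : ∀ a q, 0 ≤ S a q := fun a q => Finset.sum_nonneg fun r _ => by
    split_ifs
    · exact h.nonneg a q r
    · exact le_rfl
  have hSr : ∀ a q, S a q ≤ rs (w a) q := fun a q => Finset.sum_le_sum fun r _ => by
    split_ifs
    · exact le_rfl
    · exact h.nonneg a q r
  have hlow : ∀ a q, 2 * c * (if R.Adj y q ∧ R.Adj z q then S a q else 0) - c ^ 2 * rs (w a) q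
      ≤ if R.Adj y q ∧ R.Adj z q then S a q * S a q / rs (w a) q else 0 := by
    intro a q
    split_ifs with hW
    · exact tila_sq _ _ _ (hrs0 a q) fun h0 => le_antisymm (h0 ▸ hSr a q) (hS0 a q)
    · have := mul_nonneg (sq_nonneg c) (hrs0 a q)
      linarith
  have hsum : (∑ a, ∑ q, (2 * c * (if R.Adj y q ∧ R.Adj z q then S a q else 0)
      - c ^ 2 * rs (w a) q)) = 2 * c * (∑ a, ∑ q, if R.Adj y q ∧ R.Adj z q then S a q else 0)
      - c ^ 2 * Sg w := by
    simp only [Finset.sum_sub_distrib, ← Finset.mul_sum]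
    rfl
  have hQ : (∑ v, ∑ a, ∑ b, (if R.Adj y v ∧ R.Adj z v ∧ R.Adj x a ∧ R.Adj x b then w a v b else 0))
      ≤ ∑ a, ∑ q, if R.Adj y q ∧ R.Adj z q then S a q else 0 := by
    rw [Finset.sum_comm]
    refine Finset.sum_le_sum fun a _ => Finset.sum_le_sum fun v _ => ?_
    by_cases hW : R.Adj y v ∧ R.Adj z v
    · rw [if_pos hW]
      refine Finset.sum_le_sum fun b _ => ?_
      by_cases h1 : R.Adj x b
      · rw [if_pos h1]
        split_ifs
        · exact le_rfl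
        · exact h.nonneg a v b
      · rw [if_neg h1, if_neg fun hh => h1 hh.2.2.2]
    · rw [if_neg hW]
      refine le_of_eq (Finset.sum_eq_zero fun b _ => ?_)
      rw [if_neg fun hh => hW ⟨hh.1, hh.2.1⟩]
  have hfin := Finset.sum_le_sum fun a (_ : a ∈ (univ : Finset (Fin n))) =>
    Finset.sum_le_sum fun q (_ : q ∈ (univ : Finset (Fin n))) => hlow a q
  rw [hsum] at hfin
  refine le_trans ?_ hfin
  have h5 := mul_le_mul_of_nonneg_left (hpat.trans hQ) (by positivity : (0 : ℝ) ≤ 2 * c)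
  nlinarith

theorem fan_pat (h : TriW B w C e) {R : SimpleGraph (Fin n)} {c : ℝ} (hc0 : 0 < c) (hc1 : c ≤ 1)
    (hn : 1 ≤ n) {m : ℕ} (hm : 1 ≤ m) (j : Fin (m + 2)) (hj : j.val ≠ 0) (x y z : Fin n)
    (hpat : c * (n : ℝ) ^ 2 ≤
      ∑ v, ∑ a, ∑ b, (if R.Adj y v ∧ R.Adj z v ∧ R.Adj x a ∧ R.Adj x b then w a v b else 0)) :
    c ^ 2 ≤ ∑ T : Fin (m + 2) → Fin n, (if R.Adj y (T j) ∧ R.Adj z (T j) ∧
      R.Adj x (T ((finRotate (m + 2)).symm j)) ∧ R.Adj x (T (finRotate (m + 2) j)) then fanW w T else 0) := by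
  have hn' : (0 : ℝ) < n := by exact_mod_cast hn
  have hQS : (∑ v, ∑ a, ∑ b, (if R.Adj y v ∧ R.Adj z v ∧ R.Adj x a ∧ R.Adj x b then w a v b else 0))
      ≤ Sg w := by
    rw [Finset.sum_comm]
    refine Finset.sum_le_sum fun a _ => Finset.sum_le_sum fun v _ => Finset.sum_le_sum fun b _ => ?_
    split_ifs
    · exact le_rfl
    · exact h.nonneg a v b
  have hS : 0 < Sg w := lt_of_lt_of_le (by positivity) (hpat.trans hQS)
  have hpat' : c * Sg w ≤
      ∑ v, ∑ a, ∑ b, (if R.Adj y v ∧ R.Adj z v ∧ R.Adj x a ∧ R.Adj x b then w a v b else 0) :=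
    (mul_le_mul_of_nonneg_left (tila_sg_le h) hc0.le).trans hpat
  have hcc : c ^ 2 ≤ c := by nlinarith
  obtain ⟨j, hjm⟩ := j
  simp only at hj
  obtain ⟨k, rfl⟩ : ∃ k, j = k + 1 := ⟨j - 1, by omega⟩
  have hsymm : (finRotate (m + 2)).symm ⟨k + 1, hjm⟩ = ⟨k, by omega⟩ := by
    rw [Equiv.symm_apply_eq, tila_rot m k hjm]
  rw [hsymm]
  rcases Nat.eq_zero_or_pos k with h0 | h0
  · subst h0
    rw [tila_rot m 1 (by omega)]
    have h1 := tila_w2 h m 0 (by omega) (fun a p q => if R.Adj y p ∧ R.Adj z p ∧ R.Adj x a ∧ R.Adj x q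
      then 1 else 0)
    have h2 : ∀ T : Fin (m + 2) → Fin n,
        (if R.Adj y (T ⟨0 + 1, hjm⟩) ∧ R.Adj z (T ⟨0 + 1, hjm⟩) ∧ R.Adj x (T ⟨0, by omega⟩) ∧
          R.Adj x (T ⟨1 + 1, by omega⟩) then fanW w T else 0)
        = fanW w T * (if R.Adj y (T ⟨0 + 1, by omega⟩) ∧ R.Adj z (T ⟨0 + 1, by omega⟩) ∧
          R.Adj x (T 0) ∧ R.Adj x (T ⟨0 + 2, by omega⟩) then 1 else 0) := fun T => tila_ite _ _
    rw [Finset.sum_congr rfl fun T _ => h2 T, h1]
    refine hcc.trans ?_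
    rw [le_div_iff₀ hS]
    refine hpat'.trans (le_of_eq ?_)
    rw [Finset.sum_comm]
    exact Finset.sum_congr rfl fun a _ => Finset.sum_congr rfl fun p _ =>
      Finset.sum_congr rfl fun q _ => tila_ite _ _
  · obtain ⟨l, rfl⟩ : ∃ l, k = l + 1 := ⟨k - 1, by omega⟩
    rcases Nat.lt_or_ge (l + 3) (m + 2) with h1 | h1
    · rw [tila_rot m (l + 1 + 1) h1]
      have h2 := tila_w3 h m l h1 (fun _ p q r =>
        if R.Adj y q ∧ R.Adj z q ∧ R.Adj x p ∧ R.Adj x r then 1 else 0)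
      have h3 : ∀ T : Fin (m + 2) → Fin n,
        (if R.Adj y (T ⟨l + 1 + 1, hjm⟩) ∧ R.Adj z (T ⟨l + 1 + 1, hjm⟩) ∧
          R.Adj x (T ⟨l + 1, by omega⟩) ∧ R.Adj x (T ⟨l + 1 + 1 + 1, h1⟩) then fanW w T else 0)
        = fanW w T * (if R.Adj y (T ⟨l + 2, by omega⟩) ∧ R.Adj z (T ⟨l + 2, by omega⟩) ∧
          R.Adj x (T ⟨l + 1, by omega⟩) ∧ R.Adj x (T ⟨l + 3, h1⟩) then 1 else 0) :=
        fun T => tila_ite _ _
      rw [Finset.sum_congr rfl fun T _ => h3 T, h2]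
      exact tila_mid h hc0 x y z hS hpat'
    · have hl : m = l + 1 := by omega
      subst hl
      rw [tila_rotl]
      have h2 := tila_w2 h (l + 1) l (by omega) (fun a p q =>
        if R.Adj y q ∧ R.Adj z q ∧ R.Adj x p ∧ R.Adj x a then 1 else 0)
      have h3 : ∀ T : Fin (l + 1 + 2) → Fin n,
        (if R.Adj y (T ⟨l + 1 + 1, hjm⟩) ∧ R.Adj z (T ⟨l + 1 + 1, hjm⟩) ∧
          R.Adj x (T ⟨l + 1, by omega⟩) ∧ R.Adj x (T 0) then fanW w T else 0)
        = fanW w T * (if R.Adj y (T ⟨l + 2, by omega⟩) ∧ R.Adj z (T ⟨l + 2, by omega⟩) ∧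
          R.Adj x (T ⟨l + 1, by omega⟩) ∧ R.Adj x (T 0) then 1 else 0) :=
        fun T => tila_ite _ _
      rw [Finset.sum_congr rfl fun T _ => h3 T, h2]
      refine hcc.trans ?_
      rw [le_div_iff₀ hS]
      refine hpat'.trans (le_of_eq ?_)
      rw [Finset.sum_comm]
      refine Finset.sum_congr rfl fun a _ => ?_
      rw [Finset.sum_comm]
      refine Finset.sum_congr rfl fun b _ => Finset.sum_congr rfl fun v _ => ?_
      rw [h.symm2 a b v, ← tila_ite]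
      by_cases h4 : R.Adj y v ∧ R.Adj z v ∧ R.Adj x a ∧ R.Adj x b
      · rw [if_pos h4, if_pos ⟨h4.1, h4.2.1, h4.2.2.2, h4.2.2.1⟩]
      · rw [if_neg h4, if_neg fun hh => h4 ⟨hh.1, hh.2.1, hh.2.2.2, hh.2.2.1⟩]

end
end Pool.Agent.APK
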