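import Pool.Agent.APK.HDefs
import Pool.Agent.APK.Prb

/-!
# APK/VarB : consequences of the hypotheses of a round   (difficulty 2)

* `s_bds`: `1/2 ≤ s ≤ 1` and `1 - 2 ze ≤ s`: `ze ≤ 1/8`, `ze + ze² ≤ 2 ze`, `exp (-x) ≥ 1 - x`.
* `degp`: `∑_{i ∋ x} p_i ≤ 2 ze`: `s = ∏_{i ∋ x} (1 - p_i) ≤ exp (- ∑_{i∋x} p_i)` so the sum is at most
  `- log s = ze + ze² ≤ 2 ze`.
* `varB`: for `a ≥ 0`, `∑_i p_i (∑_{y ∈ V i} a y)² ≤ ∑_i p_i k ∑_{y ∈ V i} a_y² = k ∑_y a_y² Deg p y ≤ 2 ze k ∑ a_y²`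
  (Cauchy-Schwarz `sq_sum_le_card_mul_sum_sq`, exchange of sums).
* `touch`: `∑_i [V i ∩ Y ≠ ∅] p_i ≤ 2 ze |Y|`: `[V i ∩ Y ≠ ∅] ≤ ∑_{y ∈ Y} [y ∈ V i]`.
* `sumDeg`: `∑_y Deg V (w g) y = ∑_i w_i g_i |V i| ≤ k Gam w g`.
-/

set_option autoImplicit false
open Finset
open scoped Classical

namespace Pool.Agent.APK
noncomputable section

variable {I X : Type} [Fintype I] [DecidableEq I] [Fintype X] [DecidableEq X]

theorem s_bds {k : ℕ} {ze de s : ℝ} {V : I → Finset X} {p w : I → ℝ} (h : Round k ze de s V p w) :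
    1 / 2 ≤ s ∧ s ≤ 1 ∧ 1 - 2 * ze ≤ s := by
  have h1 : (1 : ℝ) ≤ k := by exact_mod_cast h.kpos
  have h2 : 8 * ze ≤ 1 := by nlinarith [h.ze1, h.ze0, mul_le_mul_of_nonneg_right h1 h.ze0.le]
  have h3 : ze ^ 2 ≤ ze := by nlinarith [h.ze0]
  have h4 := Real.add_one_le_exp (-ze - ze ^ 2)
  have h5 : Real.exp (-ze - ze ^ 2) ≤ 1 := by
    rw [Real.exp_le_one_iff]
    nlinarith [h.ze0, sq_nonneg ze]
  have h6 := h.ze0
  rw [h.sdef]
  refine ⟨?_, h5, ?_⟩
  · linarith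
  · linarith

theorem isP_univ {k : ℕ} {ze de s : ℝ} {V : I → Finset X} {p w : I → ℝ} (h : Round k ze de s V p w)
    (A : Finset I) : IsP p A := by
  exact fun i _ => ⟨h.p0 i, (h.p1 i).trans (by norm_num)⟩

theorem degp {k : ℕ} {ze de s : ℝ} {V : I → Finset X} {p w : I → ℝ} (h : Round k ze de s V p w) (x : X) :
    Deg V p x ≤ 2 * ze := by
  have h1 : (1 : ℝ) ≤ k := by exact_mod_cast h.kpos
  have h2 : 8 * ze ≤ 1 := by nlinarith [h.ze1, h.ze0, mul_le_mul_of_nonneg_right h1 h.ze0.le]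
  have h3 : ze ^ 2 ≤ ze := by nlinarith [h.ze0]
  have h4 : Real.exp (-ze - ze ^ 2) ≤ Real.exp (- Deg V p x) := by
    rw [← h.sdef, ← h.surv_eq x]
    unfold surv Deg
    rw [← Finset.sum_neg_distrib, Real.exp_sum]
    refine Finset.prod_le_prod (fun i _ => ?_) (fun i _ => ?_)
    · split_ifs
      · have := h.p1 i
        linarith
      · exact zero_le_one
    · split_ifs
      · have := Real.add_one_le_exp (- p i)
        linarith
      · rw [neg_zero, Real.exp_zero]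
  have h5 := Real.exp_le_exp.1 h4
  linarith

theorem varB {k : ℕ} {ze de s : ℝ} {V : I → Finset X} {p w : I → ℝ} (h : Round k ze de s V p w)
    (a : X → ℝ) (ha : ∀ y, 0 ≤ a y) :
    ∑ i, p i * (∑ y ∈ V i, a y) ^ 2 ≤ 2 * ze * k * ∑ y, a y ^ 2 := by
  have h1 : ∀ i, p i * (∑ y ∈ V i, a y) ^ 2 ≤
      k * ∑ y, (if y ∈ V i then p i else 0) * a y ^ 2 := by
    intro i
    have h2 : (∑ y ∈ V i, a y) ^ 2 ≤ k * ∑ y ∈ V i, a y ^ 2 := by
      refine sq_sum_le_card_mul_sum_sq.trans ?_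
      refine mul_le_mul_of_nonneg_right ?_ (Finset.sum_nonneg fun y _ => sq_nonneg _)
      exact_mod_cast h.card i
    have h3 : ∑ y, (if y ∈ V i then p i else 0) * a y ^ 2 = p i * ∑ y ∈ V i, a y ^ 2 := by
      rw [Finset.mul_sum, ← Finset.sum_filter_add_sum_filter_not univ (fun y => y ∈ V i)]
      have e1 : (univ.filter fun y => y ∈ V i) = V i := by
        ext y
        simp
      have e2 : ∑ y ∈ univ.filter (fun y => ¬ y ∈ V i), (if y ∈ V i then p i else 0) * a y ^ 2 = 0 :=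
        Finset.sum_eq_zero fun y hy => by rw [if_neg (Finset.mem_filter.1 hy).2, zero_mul]
      rw [e2, add_zero, e1]
      exact Finset.sum_congr rfl fun y hy => by rw [if_pos hy]
    rw [h3]
    calc p i * (∑ y ∈ V i, a y) ^ 2 ≤ p i * (k * ∑ y ∈ V i, a y ^ 2) :=
          mul_le_mul_of_nonneg_left h2 (h.p0 i)
      _ = _ := by ring
  refine (Finset.sum_le_sum fun i _ => h1 i).trans ?_
  rw [← Finset.mul_sum, Finset.sum_comm]
  have h4 : ∑ y, ∑ i, (if y ∈ V i then p i else 0) * a y ^ 2 ≤ ∑ y, 2 * ze * a y ^ 2 := by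
    refine Finset.sum_le_sum fun y _ => ?_
    rw [← Finset.sum_mul]
    exact mul_le_mul_of_nonneg_right (degp h y) (sq_nonneg _)
  rw [← Finset.mul_sum] at h4
  have hk : (0 : ℝ) ≤ k := Nat.cast_nonneg k
  calc (k : ℝ) * ∑ y, ∑ i, (if y ∈ V i then p i else 0) * a y ^ 2 ≤ k * (2 * ze * ∑ y, a y ^ 2) :=
        mul_le_mul_of_nonneg_left h4 hk
    _ = _ := by ring

theorem touch {k : ℕ} {ze de s : ℝ} {V : I → Finset X} {p w : I → ℝ} (h : Round k ze de s V p w)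
    (Y : Finset X) (A : Finset I) :
    ∑ i ∈ A, (if Disjoint (V i) Y then 0 else p i) ≤ 2 * ze * Y.card := by
  have h0 : ∀ i, ∀ y, (0 : ℝ) ≤ if y ∈ V i then p i else 0 := fun i y => by
    split_ifs
    · exact h.p0 i
    · exact le_rfl
  have h1 : ∀ i ∈ A, (if Disjoint (V i) Y then 0 else p i) ≤ ∑ y ∈ Y, if y ∈ V i then p i else 0 := by
    intro i _
    by_cases hd : Disjoint (V i) Y
    · rw [if_pos hd]
      exact Finset.sum_nonneg fun y _ => h0 i y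
    · rw [if_neg hd]
      obtain ⟨y, hy, hyY⟩ := Finset.not_disjoint_iff.1 hd
      refine le_trans (le_of_eq ?_) (Finset.single_le_sum (fun y _ => h0 i y) hyY)
      rw [if_pos hy]
  refine (Finset.sum_le_sum h1).trans ?_
  refine (Finset.sum_le_sum_of_subset_of_nonneg (Finset.subset_univ A)
    (fun i _ _ => Finset.sum_nonneg fun y _ => h0 i y)).trans ?_
  rw [Finset.sum_comm]
  refine (Finset.sum_le_sum fun y _ => degp h y).trans ?_
  rw [Finset.sum_const, nsmul_eq_mul]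
  exact le_of_eq (by ring)

theorem sumDeg {k : ℕ} {ze de s : ℝ} {V : I → Finset X} {p w : I → ℝ} (h : Round k ze de s V p w)
    (g : I → ℝ) (hg : ∀ i, 0 ≤ g i) :
    ∑ y, Deg V (fun i => w i * g i) y ≤ k * Gam w g := by
  unfold Deg Gam
  rw [Finset.sum_comm, Finset.mul_sum]
  refine Finset.sum_le_sum fun i _ => ?_
  rw [← Finset.sum_filter]
  have e1 : (univ.filter fun y => y ∈ V i) = V i := by
    ext y
    simp
  rw [e1, Finset.sum_const, nsmul_eq_mul]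
  refine mul_le_mul_of_nonneg_right ?_ (mul_nonneg (h.w0 i) (hg i))
  exact_mod_cast h.card i

end
end Pool.Agent.APK
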